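import Pool.Agent.H212R2.KLS.Defs

/-!
# Rotation invariance: `∫ D_{ab} p = 0`
-/

set_option autoImplicit false

namespace Pool.Agent.H212R2.KLS

open MeasureTheory Set Matrix
open scoped ENNReal RealInnerProductSpace

/-- the rotation by `t` in the plane of the coordinates `a`, `b` -/
noncomputable def rot {m : ℕ} (a b : Fin m) (t : ℝ) : Matrix (Fin m) (Fin m) ℝ :=
  Matrix.of fun i =>
    if i = a then Real.cos t • Pi.single a 1 + Real.sin t • Pi.single b 1
    else if i = b then (- Real.sin t) • Pi.single a 1 + Real.cos t • Pi.single b 1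
    else Pi.single i 1

theorem rot_row {m : ℕ} (a b : Fin m) (t : ℝ) (i : Fin m) : rot a b t i =
    if i = a then Real.cos t • Pi.single a 1 + Real.sin t • Pi.single b 1
    else if i = b then (- Real.sin t) • Pi.single a 1 + Real.cos t • Pi.single b 1
    else Pi.single i 1 := rfl

theorem rot_dot {m : ℕ} (a b : Fin m) (t : ℝ) (i : Fin m) (v : Fin m → ℝ) :
    rot a b t i ⬝ᵥ v =
      if i = a then Real.cos t * v a + Real.sin t * v b
      else if i = b then - Real.sin t * v a + Real.cos t * v b
      else v i := by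
  rw [rot_row]
  split_ifs <;> simp [add_dotProduct, smul_dotProduct]

theorem rot_mem {m : ℕ} (a b : Fin m) (hab : a ≠ b) (t : ℝ) :
    rot a b t ∈ Matrix.orthogonalGroup (Fin m) ℝ := by
  rw [Matrix.mem_orthogonalGroup_iff]
  ext i l
  change rot a b t i ⬝ᵥ rot a b t l = _
  rw [rot_dot]
  simp only [rot_row, Matrix.one_apply]
  have hba : b ≠ a := hab.symm
  split_ifs <;> simp_all <;> nlinarith [Real.cos_sq_add_sin_sq t]

theorem rot_zero {m : ℕ} (a b : Fin m) : rot a b 0 = 1 := by
  ext i l
  have : rot a b 0 i l = rot a b 0 i ⬝ᵥ Pi.single l 1 := by simp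
  rw [this, rot_dot]
  simp only [Matrix.one_apply, Pi.single_apply]
  split_ifs <;> simp_all

theorem lm_rot {m n : ℕ} (a b : Fin m) (t : ℝ) (x : E m n) (i : Fin m) (j : Fin n) :
    (lm (rot a b t) x) (i, j) =
      if i = a then Real.cos t * x (a, j) + Real.sin t * x (b, j)
      else if i = b then - Real.sin t * x (a, j) + Real.cos t * x (b, j)
      else x (i, j) := by
  have : (lm (rot a b t) x) (i, j) = rot a b t i ⬝ᵥ (fun k => x (k, j)) := rfl
  rw [this, rot_dot]

theorem lm_one {m n : ℕ} (x : E m n) : lm (1 : Matrix (Fin m) (Fin m) ℝ) x = x := by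
  unfold lm
  rw [Matrix.one_mul, ofM_toM]

theorem DD_X {m n : ℕ} (a b : Fin m) (q : Fin m × Fin n) :
    DD a b (MvPolynomial.X q : MvPolynomial (Fin m × Fin n) ℝ) =
      (if q.1 = a then MvPolynomial.X (b, q.2) else 0) -
      (if q.1 = b then MvPolynomial.X (a, q.2) else 0) := by
  unfold DD
  rw [MvPolynomial.mkDerivation_X]

theorem DD_self {m n : ℕ} (a : Fin m) (p : MvPolynomial (Fin m × Fin n) ℝ) :
    DD a a p = 0 := by
  have : (DD a a : Derivation ℝ (MvPolynomial (Fin m × Fin n) ℝ)
    (MvPolynomial (Fin m × Fin n) ℝ)) = 0 := by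
    apply MvPolynomial.derivation_ext
    intro q
    rw [DD_X, sub_self]
    rfl
  rw [this]
  rfl

/-- the derivative along the rotation -/
theorem hasDerivAt_rot {m n : ℕ} (a b : Fin m) (hab : a ≠ b) (x : E m n)
    (p : MvPolynomial (Fin m × Fin n) ℝ) (t : ℝ) :
    HasDerivAt (fun s => ev p (lm (rot a b s) x)) (ev (DD a b p) (lm (rot a b t) x)) t := by
  induction p using MvPolynomial.induction_on with
  | C c =>
    have h1 : (fun s => ev (MvPolynomial.C c) (lm (rot a b s) x)) = fun _ => c := by
      funext s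
      simp [ev]
    have h2 : (DD a b (MvPolynomial.C c) : MvPolynomial (Fin m × Fin n) ℝ) = 0 := by
      rw [← MvPolynomial.algebraMap_eq]
      exact Derivation.map_algebraMap _ _
    rw [h1, h2]
    have h3 : ev (0 : MvPolynomial (Fin m × Fin n) ℝ) (lm (rot a b t) x) = 0 := by simp [ev]
    rw [h3]
    exact hasDerivAt_const t c
  | add p q hp hq =>
    have h1 : (fun s => ev (p + q) (lm (rot a b s) x)) =
        fun s => ev p (lm (rot a b s) x) + ev q (lm (rot a b s) x) := by
      funext s
      simp [ev]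
    have h2 : ev (DD a b (p + q)) (lm (rot a b t) x) =
        ev (DD a b p) (lm (rot a b t) x) + ev (DD a b q) (lm (rot a b t) x) := by
      rw [map_add]
      simp [ev]
    rw [h1, h2]
    exact hp.add hq
  | mul_X p q hp =>
    have h1 : (fun s => ev (p * MvPolynomial.X q) (lm (rot a b s) x)) =
        fun s => ev p (lm (rot a b s) x) * (lm (rot a b s) x) q := by
      funext s
      simp [ev]
    have h2 : ev (DD a b (p * MvPolynomial.X q)) (lm (rot a b t) x) =
        ev (DD a b p) (lm (rot a b t) x) * (lm (rot a b t) x) q +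
        ev p (lm (rot a b t) x) * ((if q.1 = a then (lm (rot a b t) x) (b, q.2) else 0) -
          (if q.1 = b then (lm (rot a b t) x) (a, q.2) else 0)) := by
      rw [Derivation.leibniz, DD_X]
      have e1 : ∀ c (y : Fin m × Fin n → ℝ), MvPolynomial.eval y
          (if q.1 = c then (MvPolynomial.X (b, q.2) : MvPolynomial (Fin m × Fin n) ℝ) else 0) =
          if q.1 = c then y (b, q.2) else 0 := by
        intro c y
        split_ifs <;> simp
      have e2 : ∀ c (y : Fin m × Fin n → ℝ), MvPolynomial.eval y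
          (if q.1 = c then (MvPolynomial.X (a, q.2) : MvPolynomial (Fin m × Fin n) ℝ) else 0) =
          if q.1 = c then y (a, q.2) else 0 := by
        intro c y
        split_ifs <;> simp
      simp only [ev, smul_eq_mul, map_add, map_mul, map_sub, e1, e2, MvPolynomial.eval_X]
      ring
    rw [h1, h2]
    refine hp.mul ?_
    obtain ⟨i, j⟩ := q
    have hba : b ≠ a := hab.symm
    simp only [lm_rot]
    by_cases hi : i = a
    · subst hi
      simp only [if_true, if_neg hab, if_neg hba, sub_zero]
      have := ((Real.hasDerivAt_cos t).mul_const (x (i, j))).add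
        ((Real.hasDerivAt_sin t).mul_const (x (b, j)))
      exact this
    · by_cases hi2 : i = b
      · subst hi2
        simp only [if_true, if_neg hab, if_neg hba, zero_sub]
        have := (((Real.hasDerivAt_sin t).neg).mul_const (x (a, j))).add
          ((Real.hasDerivAt_cos t).mul_const (x (i, j)))
        refine this.congr_deriv ?_
        ring
      · simp only [if_neg hi, if_neg hi2, sub_zero]
        exact hasDerivAt_const t _

theorem continuous_ev {ι : Type*} [Fintype ι] (p : MvPolynomial ι ℝ) : Continuous (ev p) := by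
  unfold ev
  exact (MvPolynomial.continuous_eval p).comp (PiLp.continuous_ofLp 2 _)

theorem continuous_lm {k m n : ℕ} (g : Matrix (Fin k) (Fin m) ℝ) :
    Continuous (lm g : E m n → E k n) := by
  unfold lm ofM
  refine (PiLp.continuous_toLp 2 _).comp ?_
  refine continuous_pi fun q => ?_
  simp only [Matrix.mul_apply]
  refine continuous_finsetSum _ fun l _ => ?_
  refine continuous_const.mul ?_
  simp only [toM_apply]
  exact (continuous_apply (l, q.2)).comp (PiLp.continuous_ofLp 2 _)

theorem lm_rot_bound {m n : ℕ} (a b : Fin m) (t : ℝ) (x : E m n) (R : ℝ) (hx : ‖x‖ ≤ R)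
    (q : Fin m × Fin n) : |(lm (rot a b t) x) q| ≤ 2 * R := by
  obtain ⟨i, j⟩ := q
  have h0 : ∀ q, |x q| ≤ R := fun q => by
    have := PiLp.norm_apply_le x q
    rw [Real.norm_eq_abs] at this
    linarith
  have hR : 0 ≤ R := le_trans (norm_nonneg x) hx
  have hc := Real.abs_cos_le_one t
  have hs := Real.abs_sin_le_one t
  rw [lm_rot]
  have key : ∀ c d u v : ℝ, |c| ≤ 1 → |d| ≤ 1 → |u| ≤ R → |v| ≤ R → |c * u + d * v| ≤ 2 * R := by
    intro c d u v hc hd hu hv
    calc |c * u + d * v| ≤ |c * u| + |d * v| := abs_add_le _ _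
      _ = |c| * |u| + |d| * |v| := by rw [abs_mul, abs_mul]
      _ ≤ 1 * R + 1 * R := by
        apply add_le_add
        · exact mul_le_mul hc hu (abs_nonneg _) (by norm_num)
        · exact mul_le_mul hd hv (abs_nonneg _) (by norm_num)
      _ = 2 * R := by ring
  split_ifs
  · exact key _ _ _ _ hc hs (h0 _) (h0 _)
  · exact key _ _ _ _ (by rw [abs_neg]; exact hs) hc (h0 _) (h0 _)
  · have := h0 (i, j)
    linarith

theorem DD_integral {m n : ℕ} (μ : Measure (E m n)) [IsFiniteMeasure μ]
    (hinv : ∀ g ∈ Matrix.orthogonalGroup (Fin m) ℝ, μ.map (lm g) = μ)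
    (hb : ∃ R, μ (Metric.closedBall 0 R)ᶜ = 0) (a b : Fin m)
    (p : MvPolynomial (Fin m × Fin n) ℝ) : ∫ x, ev (DD a b p) x ∂μ = 0 := by
  by_cases hab : a = b
  · subst hab
    rw [DD_self]
    simp [ev]
  obtain ⟨R, hR⟩ := hb
  have hae : ∀ᵐ x ∂μ, ‖x‖ ≤ R := by
    rw [ae_iff]
    convert hR using 2
    ext x
    simp
  have hbd : ∀ q : MvPolynomial (Fin m × Fin n) ℝ, ∃ C : ℝ, ∀ x : E m n, ‖x‖ ≤ R → ∀ t,
      ‖ev q (lm (rot a b t) x)‖ ≤ C := by
    intro q
    have hK : IsCompact (Set.univ.pi fun _ : Fin m × Fin n => Set.Icc (-(2 * R)) (2 * R)) :=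
      isCompact_univ_pi fun _ => isCompact_Icc
    obtain ⟨C, hC⟩ := hK.exists_bound_of_continuousOn
      (MvPolynomial.continuous_eval q).continuousOn
    refine ⟨C, fun x hx t => hC _ ?_⟩
    intro i _
    have := lm_rot_bound a b t x R hx i
    rw [abs_le] at this
    exact this
  obtain ⟨C, hC⟩ := hbd p
  obtain ⟨C', hC'⟩ := hbd (DD a b p)
  have hmeas : ∀ (q : MvPolynomial (Fin m × Fin n) ℝ) (t : ℝ),
      AEStronglyMeasurable (fun x => ev q (lm (rot a b t) x)) μ := fun q t =>
    ((continuous_ev q).comp (continuous_lm _)).aestronglyMeasurable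
  have hderiv := hasDerivAt_integral_of_dominated_loc_of_deriv_le (μ := μ)
    (F := fun t x => ev p (lm (rot a b t) x))
    (F' := fun t x => ev (DD a b p) (lm (rot a b t) x)) (x₀ := (0 : ℝ)) (s := Set.univ)
    (bound := fun _ => C') Filter.univ_mem
    (Filter.Eventually.of_forall fun t => hmeas p t)
    (Integrable.of_bound (hmeas p 0) C (hae.mono fun x hx => hC x hx 0))
    (hmeas (DD a b p) 0)
    (hae.mono fun x hx t _ => hC' x hx t)
    (integrable_const C')
    (Filter.Eventually.of_forall fun x t _ => hasDerivAt_rot a b hab x p t)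
  have hconst : (fun t => ∫ x, ev p (lm (rot a b t) x) ∂μ) = fun _ => ∫ x, ev p x ∂μ := by
    funext t
    have h1 := hinv _ (rot_mem a b hab t)
    have h2 : ∫ x, ev p x ∂(μ.map (lm (rot a b t))) = ∫ x, ev p (lm (rot a b t) x) ∂μ :=
      integral_map (continuous_lm _).measurable.aemeasurable
        (continuous_ev p).aestronglyMeasurable
    rw [← h2, h1]
  have h3 := hderiv.2
  rw [hconst] at h3
  have h4 := h3.unique (hasDerivAt_const (0 : ℝ) _)
  simpa only [rot_zero, lm_one] using h4

end Pool.Agent.H212R2.KLS
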