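import Pool.Agent.H212R2.KLS.Defs

/-!
# A3: finite dimensional Hormander duality
-/

set_option autoImplicit false

namespace Pool.Agent.H212R2.KLS

theorem duality {W : Type*} [AddCommGroup W] [Module ℝ W] [FiniteDimensional ℝ W]
    {ι : Type*} [Fintype ι] (b : W →ₗ[ℝ] W →ₗ[ℝ] ℝ) (hsymm : ∀ x y, b x y = b y x)
    (hpos : ∀ x, x ≠ 0 → 0 < b x x) (D : ι → W →ₗ[ℝ] W)
    (hskew : ∀ i x y, b (D i x) y = - b x (D i y)) (l : ℝ) (hl : 0 < l)
    (hgap : ∀ x, l * ∑ i, b (D i x) (D i x) ≤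
      b (∑ i, D i (D i x)) (∑ i, D i (D i x))) (x : W) :
    ∃ x0 : W, (∀ i, D i x0 = 0) ∧ (∃ z, x - x0 = ∑ i, D i (D i z)) ∧
      l * b (x - x0) (x - x0) ≤ ∑ i, b (D i x) (D i x) := by
  classical
  set Δ : W →ₗ[ℝ] W := ∑ i, (D i) ∘ₗ (D i) with hΔ
  have hΔa : ∀ x, Δ x = ∑ i, D i (D i x) := fun x => by
    rw [hΔ, LinearMap.sum_apply]
    rfl
  have hnn : ∀ x, 0 ≤ b x x := fun x => by
    by_cases h : x = 0
    · simp [h]
    · exact (hpos x h).le
  have hz : ∀ x, b x x = 0 → x = 0 := fun x h => by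
    by_contra hx
    exact (hpos x hx).ne' h
  have hb1 : ∀ x y, b (Δ x) y = - ∑ i, b (D i x) (D i y) := fun x y => by
    rw [hΔa, map_sum, LinearMap.sum_apply, ← Finset.sum_neg_distrib]
    exact Finset.sum_congr rfl fun i _ => hskew i _ _
  have hb2 : ∀ x y, b (Δ x) y = b x (Δ y) := fun x y => by
    rw [hb1, hsymm x (Δ y), hb1]
    congr 1
    exact Finset.sum_congr rfl fun i _ => hsymm _ _
  have hdis : Disjoint (LinearMap.range Δ) (LinearMap.ker Δ) := by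
    rw [Submodule.disjoint_def]
    rintro y ⟨z, rfl⟩ hy
    apply hz
    rw [hb2, LinearMap.mem_ker.1 hy, map_zero]
  have htop := Submodule.eq_top_of_disjoint _ _ (LinearMap.finrank_range_add_finrank_ker Δ).ge hdis
  obtain ⟨y, ⟨z, rfl⟩, x0, hx0, hxy⟩ := Submodule.mem_sup.1 (htop ▸ Submodule.mem_top : x ∈ _)
  have hD0 : ∀ i, D i x0 = 0 := by
    have h1 := hb1 x0 x0
    rw [LinearMap.mem_ker.1 hx0, map_zero, LinearMap.zero_apply] at h1
    have h2 : ∑ i, b (D i x0) (D i x0) = 0 := by linarith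
    rw [Finset.sum_eq_zero_iff_of_nonneg (fun i _ => hnn _)] at h2
    exact fun i => hz _ (h2 i (Finset.mem_univ i))
  have hsub : x - x0 = Δ z := by
    rw [← hxy]
    abel
  refine ⟨x0, hD0, ⟨z, by rw [hsub, hΔa]⟩, ?_⟩
  have hDx : ∀ i, D i x = D i (Δ z) := fun i => by
    rw [← hxy, map_add, hD0, add_zero]
  rw [hsub]
  simp only [hDx]
  have h3 : ∀ i, 2 * l * (- b (D i z) (D i (Δ z))) ≤
      l ^ 2 * b (D i z) (D i z) + b (D i (Δ z)) (D i (Δ z)) := by
    intro i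
    have h4 := hnn (l • D i z + D i (Δ z))
    simp only [map_add, map_smul, LinearMap.add_apply, LinearMap.smul_apply, smul_eq_mul] at h4
    rw [hsymm (D i (Δ z)) (D i z)] at h4
    nlinarith
  have h5 := Finset.sum_le_sum (s := Finset.univ) fun i _ => h3 i
  rw [← Finset.mul_sum, Finset.sum_neg_distrib, Finset.sum_add_distrib, ← Finset.mul_sum] at h5
  rw [← hb1 z (Δ z)] at h5
  have h6 := hgap z
  rw [← hΔa] at h6
  have h7 := mul_le_mul_of_nonneg_left h6 hl.le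
  nlinarith

end Pool.Agent.H212R2.KLS
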