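import Pool.Agent.H212R2.KLS.Defs

/-!
# A4: the Bochner gap for `so(m)`, pure algebra (helper58)
-/

set_option autoImplicit false
set_option linter.unusedVariables false

namespace Pool.Agent.H212R2.KLS

section
variable {W : Type*} [AddCommGroup W] [Module ℝ W] {m : ℕ}

/-- the Casimir element is central -/
theorem a4_casimir (D : Fin m × Fin m → W →ₗ[ℝ] W)
    (hanti : ∀ i j x, D (j, i) x = - D (i, j) x)
    (hcomm : ∀ a b' c d x, D (a, b') (D (c, d) x) - D (c, d) (D (a, b') x) =
      (if a = d then D (c, b') x else 0) + (if b' = d then D (a, c) x else 0) +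
      (if a = c then D (b', d) x else 0) + (if b' = c then D (d, a) x else 0))
    (j : Fin m × Fin m) (x : W) :
    ∑ i, D i (D i (D j x)) = D j (∑ i, D i (D i x)) := by
  obtain ⟨c, d⟩ := j
  rw [map_sum, ← sub_eq_zero, ← Finset.sum_sub_distrib]
  have h1 : ∀ i : Fin m × Fin m, D i (D i (D (c, d) x)) - D (c, d) (D i (D i x)) =
      D i (D i (D (c, d) x) - D (c, d) (D i x)) +
        (D i (D (c, d) (D i x)) - D (c, d) (D i (D i x))) := by
    intro i
    rw [map_sub]
    abel
  rw [Finset.sum_congr rfl fun i _ => h1 i, Fintype.sum_prod_type]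
  simp only [hcomm, map_add, apply_ite (D _), map_zero]
  simp only [Finset.sum_add_distrib, Finset.sum_ite_irrel, Finset.sum_ite_eq',
    Finset.mem_univ, if_true, Finset.sum_const_zero]
  have e1 : ∑ b, D (c, b) (D (b, d) x) = - ∑ b, D (c, b) (D (d, b) x) := by
    rw [← Finset.sum_neg_distrib]
    exact Finset.sum_congr rfl fun b _ => by rw [hanti d b, map_neg]
  have e2 : ∑ a, D (a, c) (D (d, a) x) = - ∑ a, D (a, c) (D (a, d) x) := by
    rw [← Finset.sum_neg_distrib]
    exact Finset.sum_congr rfl fun b _ => by rw [hanti b d, map_neg]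
  have e3 : ∑ b, D (b, d) (D (c, b) x) = - ∑ b, D (d, b) (D (c, b) x) := by
    rw [← Finset.sum_neg_distrib]
    exact Finset.sum_congr rfl fun b _ => by rw [hanti d b]
  have e4 : ∑ a, D (d, a) (D (a, c) x) = - ∑ a, D (a, d) (D (a, c) x) := by
    rw [← Finset.sum_neg_distrib]
    exact Finset.sum_congr rfl fun b _ => by rw [hanti b d]
  rw [e1, e2, e3, e4]
  abel

/-- the sum of the squares of the commutators -/
theorem a4_square (g : W →ₗ[ℝ] W →ₗ[ℝ] ℝ) (A : Fin m → Fin m → W)
    (hA : ∀ p q, A q p = - A p q) :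
    ∑ a, ∑ b, ∑ c, ∑ d,
      g ((if a = d then A c b else 0) + (if b = d then A a c else 0) +
        (if a = c then A b d else 0) + (if b = c then A d a else 0))
        ((if a = d then A c b else 0) + (if b = d then A a c else 0) +
        (if a = c then A b d else 0) + (if b = c then A d a else 0)) =
      4 * ((m : ℝ) - 2) * ∑ p, ∑ q, g (A p q) (A p q) := by
  have h0 : ∀ p, A p p = 0 := by
    intro p
    have h1 := hA p p
    have h2 : (2 : ℝ) • A p p = 0 := by
      rw [two_smul]
      nth_rw 1 [h1]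
      exact neg_add_cancel _
    exact (smul_eq_zero.1 h2).resolve_left two_ne_zero
  have hite : ∀ (P Q : Prop) [Decidable P] [Decidable Q] (x y : W),
      g (if P then x else 0) (if Q then y else 0) =
        if P then (if Q then g x y else 0) else 0 := by
    intro P Q _ _ x y
    split_ifs <;> simp
  have hself : ∀ (P : Prop) [Decidable P] (r : ℝ),
      (if P then (if P then r else 0) else 0) = if P then r else 0 := by
    intro P _ r
    split_ifs <;> rfl
  simp only [map_add, LinearMap.add_apply, hite, hself]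
  simp only [Finset.sum_add_distrib]
  simp only [Finset.sum_ite_irrel, Finset.sum_ite_eq, Finset.sum_ite_eq',
    Finset.mem_univ, if_true, Finset.sum_const_zero, h0, map_zero, LinearMap.zero_apply, ite_self]
  have k1 : ∀ x y : Fin m, g (A x y) (A y x) = - g (A x y) (A x y) := by
    intro x y
    rw [hA x y, map_neg]
  have k2 : ∀ x y : Fin m, g (A y x) (A x y) = - g (A x y) (A x y) := by
    intro x y
    rw [hA x y, map_neg, LinearMap.neg_apply]
  have k3 : ∀ x y : Fin m, g (A y x) (A y x) = g (A x y) (A x y) := by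
    intro x y
    rw [hA x y, map_neg, map_neg, LinearMap.neg_apply, neg_neg]
  have c1 : ∑ x, ∑ y, g (A y x) (A y x) = ∑ x, ∑ y, g (A x y) (A x y) :=
    Finset.sum_congr rfl fun x _ => Finset.sum_congr rfl fun y _ => k3 x y
  have c2 : ∑ x : Fin m, ∑ _y : Fin m, ∑ z, g (A x z) (A x z) =
      m * ∑ x, ∑ y, g (A x y) (A x y) := by
    rw [Finset.mul_sum]
    exact Finset.sum_congr rfl fun x _ => by
      rw [Finset.sum_const, Finset.card_univ, Fintype.card_fin, nsmul_eq_mul]
  have c3 : ∑ x : Fin m, ∑ _y : Fin m, ∑ z, g (A z x) (A z x) =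
      m * ∑ x, ∑ y, g (A x y) (A x y) := by
    rw [← c1, Finset.mul_sum]
    exact Finset.sum_congr rfl fun x _ => by
      rw [Finset.sum_const, Finset.card_univ, Fintype.card_fin, nsmul_eq_mul]
  rw [c2, c3, c1]
  simp only [k1, Finset.sum_neg_distrib, Finset.sum_const, Finset.card_univ,
    Fintype.card_fin, nsmul_eq_mul]
  rw [c1]
  ring

theorem gap
    (b : W →ₗ[ℝ] W →ₗ[ℝ] ℝ) (hsymm : ∀ x y, b x y = b y x) (hpos : ∀ x, 0 ≤ b x x)
    (D : Fin m × Fin m → W →ₗ[ℝ] W) (hskew : ∀ i x y, b (D i x) y = - b x (D i y))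
    (hanti : ∀ i j x, D (j, i) x = - D (i, j) x)
    (hcomm : ∀ a b' c d x, D (a, b') (D (c, d) x) - D (c, d) (D (a, b') x) =
      (if a = d then D (c, b') x else 0) + (if b' = d then D (a, c) x else 0) +
      (if a = c then D (b', d) x else 0) + (if b' = c then D (d, a) x else 0)) (x : W) :
    ((m : ℝ) - 2) * ∑ i, b (D i x) (D i x) ≤
      b (∑ i, D i (D i x)) (∑ i, D i (D i x)) := by
  have h2 : b (∑ i, D i (D i x)) (∑ i, D i (D i x)) =
      ∑ i, ∑ j, b (D j (D i x)) (D j (D i x)) := by
    have h1 : ∀ y, b (∑ i, D i (D i x)) y = ∑ i, b (D i (D i x)) y := fun y => by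
      rw [map_sum, LinearMap.sum_apply]
    rw [h1]
    refine Finset.sum_congr rfl fun i _ => ?_
    rw [hskew, ← a4_casimir D hanti hcomm, map_sum, ← Finset.sum_neg_distrib]
    refine Finset.sum_congr rfl fun j _ => ?_
    rw [hskew j (D i x)]
  have h3 : ∀ u v : W, b (u - v) (u - v) ≤ 2 * b u u + 2 * b v v := by
    intro u v
    have := hpos (u + v)
    simp only [map_add, map_sub, LinearMap.add_apply, LinearMap.sub_apply] at this ⊢
    linarith
  have h4 : ∑ i, ∑ j, b (D i (D j x) - D j (D i x)) (D i (D j x) - D j (D i x)) =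
      4 * ((m : ℝ) - 2) * ∑ i, b (D i x) (D i x) := by
    have := a4_square b (fun p q => D (p, q) x) (fun p q => hanti p q x)
    rw [Fintype.sum_prod_type, Fintype.sum_prod_type, ← this]
    refine Finset.sum_congr rfl fun a _ => Finset.sum_congr rfl fun b' _ => ?_
    rw [Fintype.sum_prod_type]
    refine Finset.sum_congr rfl fun c _ => Finset.sum_congr rfl fun d _ => ?_
    rw [hcomm]
  have h5 : ∑ i, ∑ j, b (D i (D j x) - D j (D i x)) (D i (D j x) - D j (D i x)) ≤
      4 * ∑ i, ∑ j, b (D j (D i x)) (D j (D i x)) := by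
    have : ∑ i, ∑ j, b (D i (D j x) - D j (D i x)) (D i (D j x) - D j (D i x)) ≤
        ∑ i, ∑ j, (2 * b (D i (D j x)) (D i (D j x)) + 2 * b (D j (D i x)) (D j (D i x))) :=
      Finset.sum_le_sum fun i _ => Finset.sum_le_sum fun j _ => h3 _ _
    refine this.trans (le_of_eq ?_)
    simp only [Finset.sum_add_distrib, ← Finset.mul_sum]
    rw [Finset.sum_comm (f := fun i j => b (D i (D j x)) (D i (D j x)))]
    ring
  rw [h4] at h5
  rw [h2]
  linarith

end

end Pool.Agent.H212R2.KLS
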