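import Pool.Agent.H212R2.KLS.Defs

/-!
Task A5 (helper943): a polynomial which vanishes almost everywhere for a log-concave measure is 0.
-/

set_option autoImplicit false

namespace Pool.Agent.H212R2.KLS

open MeasureTheory Set Matrix
open scoped ENNReal RealInnerProductSpace

theorem A5_le_zero {m n : ℕ} {ρ : E m n → ℝ} (hρ : Dens m n ρ) (x : E m n) : ρ x ≤ ρ 0 := by
  have h1 : (-1 : Matrix (Fin m) (Fin m) ℝ) ∈ Matrix.orthogonalGroup (Fin m) ℝ := by
    rw [Matrix.mem_orthogonalGroup_iff]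
    simp
  have h2 : lm (-1 : Matrix (Fin m) (Fin m) ℝ) x = -x := by
    ext p
    change ((-1 : Matrix (Fin m) (Fin m) ℝ) * toM x) p.1 p.2 = -x p
    rw [Matrix.neg_mul, Matrix.one_mul]
    rfl
  have h3 := hρ.inv _ h1 x
  rw [h2] at h3
  have h4 := hρ.logc x (-x) (1 / 2) (by norm_num) (by norm_num)
  rw [h3] at h4
  have h5 : ((1 : ℝ) - 1 / 2) • x + (1 / 2 : ℝ) • (-x) = 0 := by module
  rw [h5] at h4
  have h6 : ρ x ^ ((1 : ℝ) - 1 / 2) * ρ x ^ ((1 : ℝ) / 2) = ρ x := by
    have e : (1 : ℝ) - 1 / 2 = 1 / 2 := by norm_num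
    rw [e, ← Real.sqrt_eq_rpow, Real.mul_self_sqrt (hρ.nonneg x)]
  rw [h6] at h4
  exact h4

theorem A5_finite {m n : ℕ} {ρ : E m n → ℝ} (hρ : Dens m n ρ) (hb : Bdd ρ) :
    IsFiniteMeasure (mu ρ) := by
  obtain ⟨R, hR⟩ := hb
  constructor
  unfold mu
  rw [withDensity_apply _ MeasurableSet.univ, Measure.restrict_univ]
  have h1 : ∀ x : E m n, ENNReal.ofReal (ρ x) ≤
      (Metric.closedBall (0 : E m n) R).indicator (fun _ => ENNReal.ofReal (ρ 0)) x := by
    intro x
    by_cases hx : x ∈ Metric.closedBall (0 : E m n) R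
    · rw [indicator_of_mem hx]
      exact ENNReal.ofReal_le_ofReal (A5_le_zero hρ x)
    · rw [indicator_of_notMem hx, hR x (by simpa using hx)]
      simp
  refine (lintegral_mono h1).trans_lt ?_
  rw [lintegral_indicator Metric.isClosed_closedBall.measurableSet, lintegral_const,
    Measure.restrict_apply MeasurableSet.univ, univ_inter]
  exact ENNReal.mul_lt_top ENNReal.ofReal_lt_top
    (isCompact_closedBall (0 : E m n) R).measure_lt_top

theorem A5_cont {ι : Type*} [Fintype ι] (p : MvPolynomial ι ℝ) : Continuous (ev p) := by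
  unfold ev
  exact (MvPolynomial.continuous_eval p).comp (PiLp.continuous_ofLp 2 _)

theorem A5_pos_ae {m n : ℕ} {ρ : E m n → ℝ} (hρ : Dens m n ρ) {P : E m n → Prop}
    (h : ∀ᵐ x ∂(mu ρ), P x) : ∀ᵐ x : E m n, 0 < ρ x → P x := by
  unfold mu at h
  rw [ae_withDensity_iff (hρ.meas.ennreal_ofReal)] at h
  filter_upwards [h] with x hx hpos
  apply hx
  rw [ne_eq, ENNReal.ofReal_eq_zero, not_le]
  exact hpos

theorem A5_supp {m n : ℕ} {ρ : E m n → ℝ} (hρ : Dens m n ρ) {R : ℝ}
    (hR : ∀ x, R < ‖x‖ → ρ x = 0) : ∀ᵐ x ∂(mu ρ), ‖x‖ ≤ R := by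
  unfold mu
  rw [ae_withDensity_iff (hρ.meas.ennreal_ofReal)]
  refine Filter.Eventually.of_forall fun x hx => ?_
  by_contra hc
  exact hx (by rw [hR x (not_le.1 hc)]; simp)

theorem A5_convex {m n : ℕ} {ρ : E m n → ℝ} (hρ : Dens m n ρ) : Convex ℝ {x | 0 < ρ x} := by
  intro x hx y hy a b ha hb hab
  simp only [mem_ofPred_eq] at hx hy ⊢
  rcases eq_or_lt_of_le ha with ha | ha
  · have : b = 1 := by linarith
    rw [← ha, this, zero_smul, one_smul, zero_add]
    exact hy
  rcases eq_or_lt_of_le hb with hb | hb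
  · have : a = 1 := by linarith
    rw [← hb, this, zero_smul, one_smul, add_zero]
    exact hx
  have h1 := hρ.logc x y b hb (by linarith)
  have e : 1 - b = a := by linarith
  rw [e] at h1
  exact lt_of_lt_of_le (mul_pos (Real.rpow_pos_of_pos hx _) (Real.rpow_pos_of_pos hy _)) h1

theorem A5_interior {m n : ℕ} {ρ : E m n → ℝ} (hρ : Dens m n ρ) (h0 : mu ρ ≠ 0) :
    (interior {x | 0 < ρ x}).Nonempty := by
  rw [nonempty_iff_ne_empty]
  intro he
  apply h0
  have h1 : volume {x : E m n | 0 < ρ x} = 0 := by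
    refine measure_mono_null ?_ ((A5_convex hρ).addHaar_frontier volume)
    intro x hx
    rw [frontier, he, sdiff_empty]
    exact subset_closure hx
  unfold mu
  rw [withDensity_eq_zero_iff (hρ.meas.ennreal_ofReal.aemeasurable)]
  have h2 : ∀ᵐ x : E m n, x ∉ {x : E m n | 0 < ρ x} := measure_eq_zero_iff_ae_notMem.1 h1
  filter_upwards [h2] with x hx
  simp only [not_lt] at hx
  simp only [Pi.zero_apply, ENNReal.ofReal_eq_zero]
  exact hx

theorem A5_poly {ι : Type*} [Fintype ι] (p : MvPolynomial ι ℝ)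
    (O : Set (EuclideanSpace ℝ ι)) (hO : IsOpen O) (hne : O.Nonempty) (h : ∀ x ∈ O, ev p x = 0) :
    p = 0 := by
  obtain ⟨x, hx⟩ := hne
  have h1 : IsOpen ((fun y : ι → ℝ => (WithLp.toLp 2 y : EuclideanSpace ℝ ι)) ⁻¹' O) :=
    hO.preimage (PiLp.continuous_toLp 2 _)
  obtain ⟨ε, hε, hb⟩ := Metric.isOpen_iff.1 h1 x.ofLp (by simpa using hx)
  apply MvPolynomial.funext_set (fun i => Metric.ball (x.ofLp i) ε)
  · intro i
    rw [Real.ball_eq_Ioo]
    exact Ioo_infinite (by linarith)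
  · intro y hy
    have h2 : y ∈ Metric.ball x.ofLp ε := by
      rw [Metric.mem_ball, dist_pi_lt_iff hε]
      intro i
      exact hy i (mem_univ i)
    have h3 := h _ (hb h2)
    rw [map_zero]
    exact h3

theorem ev_pos {m n : ℕ} (ρ : E m n → ℝ) (hρ : Dens m n ρ) (hb : Bdd ρ) (h0 : mu ρ ≠ 0)
    (p : MvPolynomial (Fin m × Fin n) ℝ) (hp : ∫ x, (ev p x) ^ 2 ∂(mu ρ) = 0) : p = 0 := by
  have := A5_finite hρ hb
  obtain ⟨R, hR⟩ := hb
  have hc : Continuous fun x : E m n => (ev p x) ^ 2 := (A5_cont p).pow 2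
  obtain ⟨C, hC⟩ := (isCompact_closedBall (0 : E m n) R).exists_bound_of_continuousOn
    hc.continuousOn
  have hint : Integrable (fun x => (ev p x) ^ 2) (mu ρ) := by
    refine Integrable.of_bound hc.aestronglyMeasurable C ?_
    filter_upwards [A5_supp hρ hR] with x hx
    exact hC x (by simpa using hx)
  rw [integral_eq_zero_iff_of_nonneg (fun x => sq_nonneg _) hint] at hp
  have h1 := A5_pos_ae hρ hp
  have h2 : ∀ x ∈ interior {x : E m n | 0 < ρ x}, ev p x = 0 := by
    by_contra hcon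
    push Not at hcon
    obtain ⟨x, hx, hxp⟩ := hcon
    have hU : IsOpen (interior {x : E m n | 0 < ρ x} ∩ {x | ev p x ≠ 0}) :=
      isOpen_interior.inter (isOpen_ne_fun (A5_cont p) continuous_const)
    have h3 : volume (interior {x : E m n | 0 < ρ x} ∩ {x | ev p x ≠ 0}) = 0 := by
      rw [measure_eq_zero_iff_ae_notMem]
      filter_upwards [h1] with y hy hmem
      have h4 : y ∈ {x : E m n | 0 < ρ x} := interior_subset hmem.1
      have h5 := hy h4
      simp only [Pi.zero_apply] at h5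
      exact hmem.2 (pow_eq_zero_iff (two_ne_zero)|>.1 h5)
    have h4 := hU.eq_empty_of_measure_zero h3
    exact (h4 ▸ (⟨hx, hxp⟩ : x ∈ interior {x : E m n | 0 < ρ x} ∩ {x | ev p x ≠ 0}) :
      x ∈ (∅ : Set (E m n)))
  exact A5_poly p _ isOpen_interior (A5_interior hρ h0) h2

end Pool.Agent.H212R2.KLS
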