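import Pool.Agent.H212R2.KLS.A6core
import Pool.Agent.H212R2.KLS.A1
import Pool.Agent.H212R2.KLS.A2
import Pool.Agent.H212R2.KLS.A4

/-!
# A6: the angular part on polynomials (helper498)
-/

set_option autoImplicit false

namespace Pool.Agent.H212R2.KLS

open MeasureTheory Set Matrix
open scoped ENNReal InnerProductSpace



-- A6 (assembly of A1-A5)
theorem angular {m n : ℕ} (hm : 3 ≤ m) (μ : Measure (E m n)) [IsFiniteMeasure μ]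
    (hinv : ∀ g ∈ Matrix.orthogonalGroup (Fin m) ℝ, μ.map (lm g) = μ)
    (hb : ∃ R, μ (Metric.closedBall 0 R)ᶜ = 0)
    (hpos : ∀ p : MvPolynomial (Fin m × Fin n) ℝ, ∫ x, (ev p x) ^ 2 ∂μ = 0 → p = 0)
    (p : MvPolynomial (Fin m × Fin n) ℝ) :
    ∃ p0 : MvPolynomial (Fin m × Fin n) ℝ, (∀ a b, DD a b p0 = 0) ∧
      ∫ x, (ev p x - ev p0 x) ∂μ = 0 ∧ ∫ x, ev p0 x * (ev p x - ev p0 x) ∂μ = 0 ∧
      ((m : ℝ) - 2) * ∫ x, (ev p x - ev p0 x) ^ 2 ∂μ ≤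
        ∑ a, ∑ b, ∫ x, (ev (DD a b p) x) ^ 2 ∂μ ∧
      ∫ x, ev (gr p0 p0) x ∂μ ≤ ∫ x, ev (gr p p) x ∂μ :=
  angular_of DD_anti DD_comm DD_deg DD_gr
    (fun W b h1 h2 D h3 h4 h5 x => gap b h1 h2 D h3 h4 h5 x) hm μ
    (fun a b p => DD_integral μ hinv hb a b p) hb hpos p

end Pool.Agent.H212R2.KLS
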