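import Pool.Agent.H212R2.KLS.Defs

/-!
# A7: polynomials killed by all rotation fields are `SO(m)`-invariant
-/

set_option autoImplicit false

namespace Pool.Agent.H212R2.KLS

open MeasureTheory Set Matrix
open scoped ENNReal InnerProductSpace

namespace A7

/-- chain rule for polynomials along a curve -/
theorem hasDerivAt_eval {ι : Type*} [Fintype ι] (f : ℝ → ι → ℝ) (f' : ι → ℝ) (t : ℝ)
    (hf : ∀ i, HasDerivAt (fun s => f s i) (f' i) t) (p : MvPolynomial ι ℝ) :
    HasDerivAt (fun s => MvPolynomial.eval (f s) p)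
      (∑ i, MvPolynomial.eval (f t) (MvPolynomial.pderiv i p) * f' i) t := by
  classical
  induction p using MvPolynomial.induction_on with
  | C a => simpa using hasDerivAt_const t a
  | add p q hp hq =>
    simp only [map_add, add_mul, Finset.sum_add_distrib]
    exact hp.add hq
  | mul_X p i hp =>
    have h := hp.mul (hf i)
    have e : ∑ j, MvPolynomial.eval (f t) (MvPolynomial.pderiv j (p * MvPolynomial.X i)) * f' j =
        (∑ j, MvPolynomial.eval (f t) (MvPolynomial.pderiv j p) * f' j) * f t i +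
          MvPolynomial.eval (f t) p * f' i := by
      rw [Finset.sum_mul]
      have : ∀ j, MvPolynomial.eval (f t) (MvPolynomial.pderiv j (p * MvPolynomial.X i)) * f' j =
          MvPolynomial.eval (f t) (MvPolynomial.pderiv j p) * f' j * f t i +
          (if j = i then MvPolynomial.eval (f t) p * f' j else 0) := by
        intro j
        rw [Derivation.leibniz, MvPolynomial.pderiv_X]
        by_cases hji : j = i
        · subst hji
          simp
          ring
        · have : i ≠ j := fun h => hji h.symm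
          simp [hji, this]
          ring
      rw [Finset.sum_congr rfl fun j _ => this j, Finset.sum_add_distrib]
      simp
    rw [e]
    have e2 : (fun s => MvPolynomial.eval (f s) (p * MvPolynomial.X i)) =
        (fun s => MvPolynomial.eval (f s) p) * fun s => f s i := by
      funext s
      simp
    rw [e2]
    exact h

theorem ev_DD {m n : ℕ} (a b : Fin m) (p : MvPolynomial (Fin m × Fin n) ℝ)
    (x : Fin m × Fin n → ℝ) :
    MvPolynomial.eval x (DD a b p) =
      ∑ j : Fin n, (x (b, j) * MvPolynomial.eval x (MvPolynomial.pderiv (a, j) p) -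
        x (a, j) * MvPolynomial.eval x (MvPolynomial.pderiv (b, j) p)) := by
  classical
  have e : (DD a b : Derivation ℝ (MvPolynomial (Fin m × Fin n) ℝ) _) =
      ∑ j : Fin n, ((MvPolynomial.X (b, j) : MvPolynomial (Fin m × Fin n) ℝ) •
        MvPolynomial.pderiv (a, j) -
        (MvPolynomial.X (a, j) : MvPolynomial (Fin m × Fin n) ℝ) •
        MvPolynomial.pderiv (b, j)) := by
    apply MvPolynomial.derivation_ext
    rintro ⟨i, k⟩
    rw [DD, MvPolynomial.mkDerivation_X]
    have : ∀ (s : Finset (Fin n)) (D : Fin n → Derivation ℝ (MvPolynomial (Fin m × Fin n) ℝ)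
        (MvPolynomial (Fin m × Fin n) ℝ)) (q : MvPolynomial (Fin m × Fin n) ℝ),
        (∑ j ∈ s, D j) q = ∑ j ∈ s, D j q := by
      intro s D q
      induction s using Finset.induction_on with
      | empty => simp
      | insert a s ha ih => rw [Finset.sum_insert ha, Finset.sum_insert ha, Derivation.add_apply, ih]
    rw [this]
    have h2 : ∀ j : Fin n, (((MvPolynomial.X (b, j) : MvPolynomial (Fin m × Fin n) ℝ) •
        MvPolynomial.pderiv (a, j) -
        (MvPolynomial.X (a, j) : MvPolynomial (Fin m × Fin n) ℝ) •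
        MvPolynomial.pderiv (b, j) : Derivation ℝ (MvPolynomial (Fin m × Fin n) ℝ)
        (MvPolynomial (Fin m × Fin n) ℝ))) (MvPolynomial.X (i, k)) =
        (if j = k then (if i = a then MvPolynomial.X (b, j) else 0) else 0) -
        (if j = k then (if i = b then MvPolynomial.X (a, j) else 0) else 0) := by
      intro j
      rw [Derivation.sub_apply, Derivation.smul_apply, Derivation.smul_apply,
        MvPolynomial.pderiv_X, MvPolynomial.pderiv_X]
      by_cases hjk : j = k
      · subst hjk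
        by_cases h1 : i = a <;> by_cases h2 : i = b <;> simp [Pi.single_apply, h1, h2]
      · have : k ≠ j := fun h => hjk h.symm
        simp [hjk, this]
    rw [Finset.sum_congr rfl fun j _ => h2 j, Finset.sum_sub_distrib]
    simp
  rw [e]
  have : ∀ (s : Finset (Fin n)) (D : Fin n → Derivation ℝ (MvPolynomial (Fin m × Fin n) ℝ)
      (MvPolynomial (Fin m × Fin n) ℝ)) (q : MvPolynomial (Fin m × Fin n) ℝ),
      (∑ j ∈ s, D j) q = ∑ j ∈ s, D j q := by
    intro s D q
    induction s using Finset.induction_on with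
    | empty => simp
    | insert a s ha ih => rw [Finset.sum_insert ha, Finset.sum_insert ha, Derivation.add_apply, ih]
  rw [this, map_sum]
  refine Finset.sum_congr rfl fun j _ => ?_
  rw [Derivation.sub_apply, Derivation.smul_apply, Derivation.smul_apply]
  simp

/-- a column -/
def col {m n : ℕ} (X : E m n) (j : Fin n) : V m := WithLp.toLp 2 fun i => X (i, j)

/-- action of a map on all columns -/
def act {m n : ℕ} (φ : V m → V m) (X : E m n) : E m n :=
  WithLp.toLp 2 fun q => φ (col X q.2) q.1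

theorem act_apply {m n : ℕ} (φ : V m → V m) (X : E m n) (q : Fin m × Fin n) :
    act φ X q = φ (col X q.2) q.1 := rfl

theorem col_act {m n : ℕ} (φ : V m → V m) (X : E m n) (j : Fin n) :
    col (act φ X) j = φ (col X j) := by
  ext i
  rfl

theorem act_comp {m n : ℕ} (φ ψ : V m → V m) (X : E m n) :
    act φ (act ψ X) = act (fun y => φ (ψ y)) X := by
  ext q
  rw [act_apply, act_apply, col_act]

theorem act_id {m n : ℕ} (X : E m n) : act (fun y => y) X = X := by
  ext q
  rfl

/-- rotation by the angle `t` in the plane of `v`, `w` -/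
noncomputable def rot {m : ℕ} (v w : V m) (t : ℝ) (y : V m) : V m :=
  y + (Real.cos t - 1) • (⟪v, y⟫_ℝ • v + ⟪w, y⟫_ℝ • w) +
    Real.sin t • (⟪v, y⟫_ℝ • w - ⟪w, y⟫_ℝ • v)

theorem rot_zero {m : ℕ} (v w : V m) (y : V m) : rot v w 0 y = y := by
  simp [rot]

theorem rot_deriv {m : ℕ} (v w : V m) (hv : ‖v‖ = 1) (hw : ‖w‖ = 1) (hvw : ⟪v, w⟫_ℝ = 0)
    (t : ℝ) (y : V m) (i : Fin m) :
    HasDerivAt (fun s => rot v w s y i)
      (⟪v, rot v w t y⟫_ℝ * w i - ⟪w, rot v w t y⟫_ℝ * v i) t := by
  have hwv : ⟪w, v⟫_ℝ = 0 := by rw [real_inner_comm]; exact hvw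
  have hvv : ⟪v, v⟫_ℝ = 1 := by rw [real_inner_self_eq_norm_sq, hv]; norm_num
  have hww : ⟪w, w⟫_ℝ = 1 := by rw [real_inner_self_eq_norm_sq, hw]; norm_num
  have e1 : ⟪v, rot v w t y⟫_ℝ = Real.cos t * ⟪v, y⟫_ℝ - Real.sin t * ⟪w, y⟫_ℝ := by
    simp only [rot, inner_add_right, inner_sub_right, inner_smul_right, hvv, hvw]
    ring
  have e2 : ⟪w, rot v w t y⟫_ℝ = Real.cos t * ⟪w, y⟫_ℝ + Real.sin t * ⟪v, y⟫_ℝ := by
    simp only [rot, inner_add_right, inner_sub_right, inner_smul_right, hww, hwv]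
    ring
  rw [e1, e2]
  have h1 : HasDerivAt (fun s => y i + (Real.cos s - 1) * (⟪v, y⟫_ℝ * v i + ⟪w, y⟫_ℝ * w i) +
      Real.sin s * (⟪v, y⟫_ℝ * w i - ⟪w, y⟫_ℝ * v i))
      (0 + (-Real.sin t - 0) * (⟪v, y⟫_ℝ * v i + ⟪w, y⟫_ℝ * w i) +
        Real.cos t * (⟪v, y⟫_ℝ * w i - ⟪w, y⟫_ℝ * v i)) t := by
    refine ((hasDerivAt_const t (y i)).add ?_).add ?_
    · exact ((Real.hasDerivAt_cos t).sub (hasDerivAt_const t 1)).mul_const _
    · exact (Real.hasDerivAt_sin t).mul_const _
  have e3 : (fun s => rot v w s y i) = fun s => y i + (Real.cos s - 1) *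
      (⟪v, y⟫_ℝ * v i + ⟪w, y⟫_ℝ * w i) +
      Real.sin s * (⟪v, y⟫_ℝ * w i - ⟪w, y⟫_ℝ * v i) := by
    funext s
    simp only [rot, PiLp.add_apply, PiLp.sub_apply, PiLp.smul_apply, smul_eq_mul]
  rw [e3]
  convert h1 using 1
  ring

theorem good_rot {m n : ℕ} (p : MvPolynomial (Fin m × Fin n) ℝ) (h : ∀ a b, DD a b p = 0)
    (v w : V m) (hv : ‖v‖ = 1) (hw : ‖w‖ = 1) (hvw : ⟪v, w⟫_ℝ = 0) (t : ℝ) (X : E m n) :
    ev p (act (rot v w t) X) = ev p X := by
  have key : ∀ t : ℝ, HasDerivAt (fun s => ev p (act (rot v w s) X)) 0 t := by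
    intro t
    set Y : E m n := act (rot v w t) X with hY
    have hd : ∀ q : Fin m × Fin n, HasDerivAt (fun s => (act (rot v w s) X).ofLp q)
        (⟪v, col Y q.2⟫_ℝ * w q.1 - ⟪w, col Y q.2⟫_ℝ * v q.1) t := by
      intro q
      have := rot_deriv v w hv hw hvw t (col X q.2) q.1
      rw [hY, col_act]
      exact this
    have h1 := hasDerivAt_eval (fun s => (act (rot v w s) X).ofLp) _ t hd p
    have h2 : (∑ q : Fin m × Fin n, MvPolynomial.eval (act (rot v w t) X).ofLp
        (MvPolynomial.pderiv q p) *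
        (⟪v, col Y q.2⟫_ℝ * w q.1 - ⟪w, col Y q.2⟫_ℝ * v q.1)) = 0 := by
      rw [← hY]
      have hin : ∀ (z : V m) (j : Fin n), ⟪z, col Y j⟫_ℝ = ∑ d, z d * Y (d, j) := by
        intro z j
        rw [PiLp.inner_apply]
        refine Finset.sum_congr rfl fun d _ => ?_
        simp [col, mul_comm]
      have hz : ∀ i d : Fin m, ∑ j : Fin n,
          (Y.ofLp (d, j) * MvPolynomial.eval Y.ofLp (MvPolynomial.pderiv (i, j) p) -
            Y.ofLp (i, j) * MvPolynomial.eval Y.ofLp (MvPolynomial.pderiv (d, j) p)) = 0 := by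
        intro i d
        rw [← ev_DD i d p Y.ofLp, h i d, map_zero]
      have hsum : ∑ i : Fin m, ∑ d : Fin m, (w i * v d) * (∑ j : Fin n,
          (Y.ofLp (d, j) * MvPolynomial.eval Y.ofLp (MvPolynomial.pderiv (i, j) p) -
            Y.ofLp (i, j) * MvPolynomial.eval Y.ofLp (MvPolynomial.pderiv (d, j) p))) = 0 := by
        refine Finset.sum_eq_zero fun i _ => Finset.sum_eq_zero fun d _ => ?_
        rw [hz i d, mul_zero]
      rw [Fintype.sum_prod_type]
      have hA : ∑ i : Fin m, ∑ j : Fin n, MvPolynomial.eval Y.ofLp (MvPolynomial.pderiv (i, j) p) *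
          (⟪v, col Y j⟫_ℝ * w i - ⟪w, col Y j⟫_ℝ * v i) =
          ∑ i : Fin m, ∑ d : Fin m, ∑ j : Fin n, (w i * v d) *
            (Y.ofLp (d, j) * MvPolynomial.eval Y.ofLp (MvPolynomial.pderiv (i, j) p)) -
          ∑ i : Fin m, ∑ d : Fin m, ∑ j : Fin n, (v i * w d) *
            (Y.ofLp (d, j) * MvPolynomial.eval Y.ofLp (MvPolynomial.pderiv (i, j) p)) := by
        rw [← Finset.sum_sub_distrib]
        refine Finset.sum_congr rfl fun i _ => ?_
        rw [Finset.sum_comm (s := Finset.univ) (t := Finset.univ)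
          (f := fun (d : Fin m) (j : Fin n) => (w i * v d) *
            (Y.ofLp (d, j) * MvPolynomial.eval Y.ofLp (MvPolynomial.pderiv (i, j) p))),
          Finset.sum_comm (s := Finset.univ) (t := Finset.univ)
          (f := fun (d : Fin m) (j : Fin n) => (v i * w d) *
            (Y.ofLp (d, j) * MvPolynomial.eval Y.ofLp (MvPolynomial.pderiv (i, j) p))),
          ← Finset.sum_sub_distrib]
        refine Finset.sum_congr rfl fun j _ => ?_
        rw [hin, hin, mul_sub, Finset.sum_mul, Finset.sum_mul, Finset.mul_sum, Finset.mul_sum]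
        congr 1
        · refine Finset.sum_congr rfl fun d _ => ?_
          ring
        · refine Finset.sum_congr rfl fun d _ => ?_
          ring
      rw [hA]
      have hB : ∑ i : Fin m, ∑ d : Fin m, ∑ j : Fin n, (v i * w d) *
            (Y.ofLp (d, j) * MvPolynomial.eval Y.ofLp (MvPolynomial.pderiv (i, j) p)) =
          ∑ i : Fin m, ∑ d : Fin m, ∑ j : Fin n, (w i * v d) *
            (Y.ofLp (i, j) * MvPolynomial.eval Y.ofLp (MvPolynomial.pderiv (d, j) p)) := by
        rw [Finset.sum_comm]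
        refine Finset.sum_congr rfl fun i _ => Finset.sum_congr rfl fun d _ =>
          Finset.sum_congr rfl fun j _ => ?_
        ring
      rw [hB, ← hsum, ← Finset.sum_sub_distrib]
      refine Finset.sum_congr rfl fun i _ => ?_
      rw [← Finset.sum_sub_distrib]
      refine Finset.sum_congr rfl fun d _ => ?_
      rw [← Finset.sum_sub_distrib, Finset.mul_sum]
      refine Finset.sum_congr rfl fun j _ => ?_
      ring
    rw [h2] at h1
    exact h1
  have hconst := is_const_of_deriv_eq_zero (f := fun s => ev p (act (rot v w s) X))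
    (fun t => (key t).differentiableAt) (fun t => (key t).deriv) t 0
  change ev p (act (rot v w t) X) = ev p (act (rot v w 0) X) at hconst
  rw [hconst]
  have : act (rot v w 0) X = X := by
    have h0 : rot v w 0 = fun y => y := by funext y; exact rot_zero v w y
    rw [h0, act_id]
  rw [this]

/-- reflection formula -/
theorem refl_formula {m : ℕ} (u : V m) (hu : ‖u‖ = 1) (y : V m) :
    Submodule.reflection (ℝ ∙ u)ᗮ y = y - (2 * ⟪u, y⟫_ℝ) • u := by
  rw [Submodule.reflection_orthogonal_apply, Submodule.reflection_singleton_apply, hu]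
  simp [two_smul]
  module

/-- normalised vector gives the same reflection -/
theorem refl_normalize {m : ℕ} (u : V m) (hu : u ≠ 0) :
    ∃ u' : V m, ‖u'‖ = 1 ∧ Submodule.reflection (ℝ ∙ u)ᗮ = Submodule.reflection (ℝ ∙ u')ᗮ := by
  have hn : ‖u‖ ≠ 0 := norm_ne_zero_iff.mpr hu
  refine ⟨(‖u‖)⁻¹ • u, ?_, ?_⟩
  · rw [norm_smul, norm_inv, norm_norm, inv_mul_cancel₀ hn]
  · have : (ℝ ∙ ((‖u‖)⁻¹ • u) : Submodule ℝ (V m)) = ℝ ∙ u :=
      Submodule.span_singleton_smul_eq (IsUnit.mk0 _ (inv_ne_zero hn)) u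
    simp only [this]

theorem good_refl_refl {m n : ℕ} (p : MvPolynomial (Fin m × Fin n) ℝ) (h : ∀ a b, DD a b p = 0)
    (u v : V m) (hu : u ≠ 0) (hv : v ≠ 0) (X : E m n) :
    ev p (act (fun y => Submodule.reflection (ℝ ∙ u)ᗮ (Submodule.reflection (ℝ ∙ v)ᗮ y)) X) =
      ev p X := by
  obtain ⟨u, hu1, heu⟩ := refl_normalize u hu
  obtain ⟨v, hv1, hev⟩ := refl_normalize v hv
  rw [heu, hev]
  have hvv : ⟪v, v⟫_ℝ = 1 := by rw [real_inner_self_eq_norm_sq, hv1]; norm_num
  have huu : ⟪u, u⟫_ℝ = 1 := by rw [real_inner_self_eq_norm_sq, hu1]; norm_num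
  set c : ℝ := ⟪u, v⟫_ℝ with hc
  set u' : V m := u - c • v with hu'
  have hvu' : ⟪v, u'⟫_ℝ = 0 := by
    rw [hu', inner_sub_right, inner_smul_right, hvv, real_inner_comm, ← hc]
    ring
  have hn2 : ‖u'‖ ^ 2 = 1 - c ^ 2 := by
    rw [← real_inner_self_eq_norm_sq, hu', inner_sub_left, inner_sub_right, inner_sub_right,
      inner_smul_left, inner_smul_right, inner_smul_left, inner_smul_right, huu, hvv,
      real_inner_comm u v, ← hc]
    simp
    ring
  by_cases h0 : u' = 0
  · have hcc : c ^ 2 = 1 := by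
      rw [h0] at hn2
      simp at hn2
      linarith
    have huc : u = c • v := by
      rw [hu'] at h0
      exact sub_eq_zero.mp h0
    have hid : (fun y : V m => Submodule.reflection (ℝ ∙ u)ᗮ (Submodule.reflection (ℝ ∙ v)ᗮ y)) =
        fun y => y := by
      funext y
      have hc0 : c ≠ 0 := by
        intro h
        rw [h] at hcc
        norm_num at hcc
      have : (ℝ ∙ u : Submodule ℝ (V m)) = ℝ ∙ v := by
        rw [huc]
        exact Submodule.span_singleton_smul_eq (IsUnit.mk0 _ hc0) v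
      simp only [this]
      exact Submodule.reflection_reflection _ y
    rw [hid, act_id]
  · have hn : ‖u'‖ ≠ 0 := norm_ne_zero_iff.mpr h0
    set w : V m := (‖u'‖)⁻¹ • u' with hw
    have hw1 : ‖w‖ = 1 := by
      rw [hw, norm_smul, norm_inv, norm_norm, inv_mul_cancel₀ hn]
    have hvw : ⟪v, w⟫_ℝ = 0 := by
      rw [hw, inner_smul_right, hvu', mul_zero]
    have hc1 : c ^ 2 ≤ 1 := by nlinarith [sq_nonneg ‖u'‖]
    have hcabs := abs_le.mp ((sq_le_one_iff_abs_le_one c).mp hc1)
    set θ : ℝ := Real.arccos c with hθ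
    have hcos : Real.cos θ = c := Real.cos_arccos hcabs.1 hcabs.2
    have hsin : Real.sin θ = ‖u'‖ := by
      rw [hθ, Real.sin_arccos, ← hn2, Real.sqrt_sq (norm_nonneg _)]
    have hu2 : u = Real.cos θ • v + Real.sin θ • w := by
      rw [hcos, hsin, hw, smul_smul, mul_inv_cancel₀ hn, one_smul, hu']
      simp
    have heq : (fun y : V m => Submodule.reflection (ℝ ∙ u)ᗮ
        (Submodule.reflection (ℝ ∙ v)ᗮ y)) = rot v w (2 * θ) := by
      funext y
      rw [refl_formula v hv1, refl_formula u hu1, inner_sub_right, inner_smul_right, ← hc,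
        ← hcos]
      have hiu : ⟪u, y⟫_ℝ = Real.cos θ * ⟪v, y⟫_ℝ + Real.sin θ * ⟪w, y⟫_ℝ := by
        rw [hu2, inner_add_left, inner_smul_left, inner_smul_left]
        simp
      rw [hiu, rot, Real.cos_two_mul, Real.sin_two_mul]
      have hs2 : Real.sin θ ^ 2 = 1 - Real.cos θ ^ 2 := by
        have := Real.sin_sq_add_cos_sq θ
        linarith
      rw [hu2]
      ext i
      simp only [PiLp.add_apply, PiLp.sub_apply, PiLp.smul_apply, smul_eq_mul]
      linear_combination (2 * ⟪w, y⟫_ℝ * w i * (-1)) * hs2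
    rw [heq]
    exact good_rot p h v w hv1 hw1 hvw _ X

theorem det_refl {m : ℕ} (v : V m) (hv : v ≠ 0) :
    LinearMap.det (Submodule.reflection (ℝ ∙ v)ᗮ).toLinearMap = -1 := by
  rw [Submodule.det_reflection, Submodule.orthogonal_orthogonal, finrank_span_singleton hv]
  norm_num

theorem dich {m n : ℕ} (p : MvPolynomial (Fin m × Fin n) ℝ) (h : ∀ a b, DD a b p = 0)
    (l : List (V m)) :
    (LinearMap.det ((l.map fun v => Submodule.reflection (ℝ ∙ v)ᗮ).prod).toLinearMap = 1 ∧
      ∀ X : E m n, ev p (act (l.map fun v => Submodule.reflection (ℝ ∙ v)ᗮ).prod X) = ev p X) ∨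
    (LinearMap.det ((l.map fun v => Submodule.reflection (ℝ ∙ v)ᗮ).prod).toLinearMap = -1 ∧
      ∀ u : V m, u ≠ 0 → ∀ X : E m n,
        ev p (act (fun y => Submodule.reflection (ℝ ∙ u)ᗮ
          ((l.map fun v => Submodule.reflection (ℝ ∙ v)ᗮ).prod y)) X) = ev p X) := by
  induction l with
  | nil =>
    left
    refine ⟨?_, fun X => ?_⟩
    · simp only [List.map_nil, List.prod_nil]
      exact LinearMap.det_id
    · simp only [List.map_nil, List.prod_nil]
      have : act (⇑(1 : V m ≃ₗᵢ[ℝ] V m)) X = X := by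
        ext q
        rfl
      rw [this]
  | cons v l ih =>
    set φ : V m ≃ₗᵢ[ℝ] V m := (l.map fun v => Submodule.reflection (ℝ ∙ v)ᗮ).prod with hφ
    have hprod : ((v :: l).map fun v => Submodule.reflection (ℝ ∙ v)ᗮ).prod =
        Submodule.reflection (ℝ ∙ v)ᗮ * φ := by
      rw [List.map_cons, List.prod_cons]
    rw [hprod]
    have hdet : LinearMap.det (Submodule.reflection (ℝ ∙ v)ᗮ * φ).toLinearMap =
        LinearMap.det (Submodule.reflection (ℝ ∙ v)ᗮ).toLinearMap *
          LinearMap.det φ.toLinearMap := by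
      rw [← LinearMap.det_comp]
      rfl
    by_cases hv : v = 0
    · have h1 : Submodule.reflection (ℝ ∙ v)ᗮ * φ = φ := by
        ext1 y
        change Submodule.reflection (ℝ ∙ v)ᗮ (φ y) = φ y
        rw [Submodule.reflection_eq_self_iff, hv]
        simp
      rw [h1]
      exact ih
    · rcases ih with ⟨hd, hg⟩ | ⟨hd, hg⟩
      · right
        refine ⟨?_, fun u hu X => ?_⟩
        · rw [hdet, hd, det_refl v hv]; norm_num
        · have := good_refl_refl p h u v hu hv (act φ X)
          rw [act_comp] at this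
          rw [hg] at this
          exact this
      · left
        refine ⟨?_, fun X => ?_⟩
        · rw [hdet, hd, det_refl v hv]; norm_num
        · exact hg v hv X

end A7

theorem inv_of_DD {m n : ℕ} (p : MvPolynomial (Fin m × Fin n) ℝ) (h : ∀ a b, DD a b p = 0) :
    ∀ g ∈ Matrix.orthogonalGroup (Fin m) ℝ, g.det = 1 → ∀ x : E m n,
      ev p (lm g x) = ev p x := by
  intro g hg hdet x
  have hgg : gᵀ * g = 1 := by
    have := (Matrix.mem_orthogonalGroup_iff' (Fin m) ℝ).mp hg
    simpa using this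
  -- the isometry of `g`
  have hnorm : ∀ y : V m, ‖Matrix.toEuclideanLin g y‖ = ‖y‖ := by
    intro y
    have h2 : ‖Matrix.toEuclideanLin g y‖ ^ 2 = ‖y‖ ^ 2 := by
      rw [EuclideanSpace.real_norm_sq_eq, EuclideanSpace.real_norm_sq_eq]
      have e1 : ∑ i, (Matrix.toEuclideanLin g y) i ^ 2 = (g *ᵥ y.ofLp) ⬝ᵥ (g *ᵥ y.ofLp) := by
        simp [dotProduct, Matrix.toEuclideanLin, pow_two]
      have e2 : ∑ i, y i ^ 2 = y.ofLp ⬝ᵥ y.ofLp := by
        simp [dotProduct, pow_two]
      rw [e1, e2, Matrix.dotProduct_mulVec, ← Matrix.mulVec_transpose, Matrix.mulVec_mulVec, hgg,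
        Matrix.one_mulVec]
    exact (sq_eq_sq₀ (norm_nonneg _) (norm_nonneg _)).mp h2
  let L : V m →ₗᵢ[ℝ] V m := ⟨Matrix.toEuclideanLin g, hnorm⟩
  let φ : V m ≃ₗᵢ[ℝ] V m := L.toLinearIsometryEquiv rfl
  have hφ : ∀ y, φ y = Matrix.toEuclideanLin g y := fun y => rfl
  have hdφ : LinearMap.det φ.toLinearMap = 1 := by
    have : φ.toLinearMap = Matrix.toEuclideanLin g := by
      ext1 y
      rfl
    rw [this]
    change LinearMap.det (Matrix.toLpLin 2 2 g) = 1
    rw [Matrix.toLpLin_eq_toLin, LinearMap.det_toLin]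
    exact hdet
  obtain ⟨l, -, hl⟩ := LinearIsometryEquiv.reflections_generate_dim φ
  rcases A7.dich p h l with ⟨hd, hg'⟩ | ⟨hd, -⟩
  · rw [← hl] at hg'
    have e : A7.act φ x = lm g x := by
      ext q
      rw [A7.act_apply, hφ]
      simp [A7.col, lm, Matrix.toEuclideanLin, Matrix.mulVec, dotProduct, Matrix.mul_apply]
    rw [← e]
    exact hg' x
  · rw [← hl, hdφ] at hd
    norm_num at hd

end Pool.Agent.H212R2.KLS
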