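import Mathlib

/-!
# KLS for log-concave measures on `m × n` matrices invariant under `O(m)`: definitions
-/

set_option autoImplicit false

namespace Pool.Agent.H212R2.KLS

open MeasureTheory Set Matrix
open scoped ENNReal RealInnerProductSpace

/-- vectors of length `n`, Euclidean norm -/
abbrev V (n : ℕ) := EuclideanSpace ℝ (Fin n)

/-- real `m × n` matrices (`n`-tuples of vectors of `ℝ^m`), Euclidean = Hilbert-Schmidt norm -/
abbrev E (m n : ℕ) := EuclideanSpace ℝ (Fin m × Fin n)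

/-- the matrix of an element of `E m n` -/
def toM {m n : ℕ} (X : E m n) : Matrix (Fin m) (Fin n) ℝ := Matrix.of fun i j => X (i, j)

/-- the element of `E m n` of a matrix -/
def ofM {m n : ℕ} (A : Matrix (Fin m) (Fin n) ℝ) : E m n := WithLp.toLp 2 fun p => A p.1 p.2

@[simp] theorem toM_apply {m n : ℕ} (X : E m n) (i : Fin m) (j : Fin n) :
    toM X i j = X (i, j) := rfl

@[simp] theorem ofM_apply {m n : ℕ} (A : Matrix (Fin m) (Fin n) ℝ) (p : Fin m × Fin n) :
    ofM A p = A p.1 p.2 := rfl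

@[simp] theorem toM_ofM {m n : ℕ} (A : Matrix (Fin m) (Fin n) ℝ) : toM (ofM A) = A := rfl

@[simp] theorem ofM_toM {m n : ℕ} (X : E m n) : ofM (toM X) = X := rfl

/-- left multiplication `g X` -/
def lm {k m n : ℕ} (g : Matrix (Fin k) (Fin m) ℝ) (X : E m n) : E k n := ofM (g * toM X)

/-- right multiplication `X A` -/
def rm {m n k : ℕ} (X : E m n) (A : Matrix (Fin n) (Fin k) ℝ) : E m k := ofM (toM X * A)

/-- `X v` -/
def mv {m n : ℕ} (X : E m n) (v : V n) : V m := WithLp.toLp 2 (toM X *ᵥ v.ofLp)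

/-- `‖X‖_op ≤ r` -/
def OpLe {m n : ℕ} (r : ℝ) (X : E m n) : Prop := ∀ v : V n, ‖mv X v‖ ≤ r * ‖v‖

/-- log-concave, left `O(m)`-invariant density on `E m n` -/
structure Dens (m n : ℕ) (ρ : E m n → ℝ) : Prop where
  nonneg : ∀ x, 0 ≤ ρ x
  meas : Measurable ρ
  logc : ∀ x y : E m n, ∀ t : ℝ, 0 < t → t < 1 →
    ρ x ^ (1 - t) * ρ y ^ t ≤ ρ ((1 - t) • x + t • y)
  inv : ∀ g ∈ Matrix.orthogonalGroup (Fin m) ℝ, ∀ x, ρ (lm g x) = ρ x

/-- the measure with density `ρ` -/
noncomputable def mu {F : Type*} [MeasureSpace F] (ρ : F → ℝ) : Measure F :=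
  volume.withDensity fun x => ENNReal.ofReal (ρ x)

/-- bounded support -/
def Bdd {F : Type*} [Norm F] (ρ : F → ℝ) : Prop := ∃ R : ℝ, ∀ x, R < ‖x‖ → ρ x = 0

/-! ### symmetric matrices -/

/-- symmetric `n × n` matrices as a subspace of `E n n` -/
def Sy (n : ℕ) : Submodule ℝ (E n n) where
  carrier := {A | ∀ i j, A (i, j) = A (j, i)}
  add_mem' := by
    intro a b ha hb i j
    simp only [PiLp.add_apply]
    rw [ha i j, hb i j]
  zero_mem' := by intro i j; rfl
  smul_mem' := by
    intro c a ha i j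
    simp only [PiLp.smul_apply]
    rw [ha i j]

/-- the matrix of a symmetric matrix -/
def sM {n : ℕ} (P : Sy n) : Matrix (Fin n) (Fin n) ℝ := toM (P : E n n)

theorem sM_transpose {n : ℕ} (P : Sy n) : (sM P)ᵀ = sM P := by
  ext i j
  exact (P.2 j i)

/-- symmetric matrix from a matrix with a proof -/
def sOf {n : ℕ} (A : Matrix (Fin n) (Fin n) ℝ) (h : Aᵀ = A) : Sy n :=
  ⟨ofM A, by
    intro i j
    change A i j = A j i
    conv_lhs => rw [← h]
    rfl⟩

@[simp] theorem sM_sOf {n : ℕ} (A : Matrix (Fin n) (Fin n) ℝ) (h : Aᵀ = A) :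
    sM (sOf A h) = A := rfl

/-- positive definite symmetric matrices -/
def PD (n : ℕ) : Set (Sy n) := {P | ∀ v : Fin n → ℝ, v ≠ 0 → 0 < v ⬝ᵥ (sM P *ᵥ v)}

/-- the congruence `G ↦ Aᵀ G A` as a linear map of symmetric matrices -/
def cong {n : ℕ} (A : Matrix (Fin n) (Fin n) ℝ) : Sy n →ₗ[ℝ] Sy n where
  toFun G := sOf (Aᵀ * sM G * A) (by
    rw [Matrix.transpose_mul, Matrix.transpose_mul, Matrix.transpose_transpose, sM_transpose,
      Matrix.mul_assoc])
  map_add' G H := by
    apply Subtype.ext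
    ext p
    change (Aᵀ * sM (G + H) * A) p.1 p.2 = (Aᵀ * sM G * A) p.1 p.2 + (Aᵀ * sM H * A) p.1 p.2
    have : sM (G + H) = sM G + sM H := rfl
    rw [this, Matrix.mul_add, Matrix.add_mul]
    rfl
  map_smul' c G := by
    apply Subtype.ext
    ext p
    change (Aᵀ * sM (c • G) * A) p.1 p.2 = c * (Aᵀ * sM G * A) p.1 p.2
    have : sM (c • G) = c • sM G := rfl
    rw [this, Matrix.mul_smul, Matrix.smul_mul]
    rfl

/-- `K_P : S ↦ P S + S P` as a linear map of symmetric matrices -/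
def KK {n : ℕ} (P : Sy n) : Sy n →ₗ[ℝ] Sy n where
  toFun S := sOf (sM P * sM S + sM S * sM P) (by
    rw [Matrix.transpose_add, Matrix.transpose_mul, Matrix.transpose_mul, sM_transpose,
      sM_transpose, add_comm])
  map_add' G H := by
    apply Subtype.ext
    ext p
    change (sM P * sM (G + H) + sM (G + H) * sM P) p.1 p.2 =
      (sM P * sM G + sM G * sM P) p.1 p.2 + (sM P * sM H + sM H * sM P) p.1 p.2
    have : sM (G + H) = sM G + sM H := rfl
    rw [this, Matrix.mul_add, Matrix.add_mul]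
    simp only [Matrix.add_apply]
    ring
  map_smul' c G := by
    apply Subtype.ext
    ext p
    change (sM P * sM (c • G) + sM (c • G) * sM P) p.1 p.2 =
      c * (sM P * sM G + sM G * sM P) p.1 p.2
    have : sM (c • G) = c • sM G := rfl
    rw [this, Matrix.mul_smul, Matrix.smul_mul]
    simp only [Matrix.add_apply, Matrix.smul_apply, smul_eq_mul]
    ring

/-- the `m × n` matrix with ones on the diagonal -/
def J1 (m n : ℕ) : Matrix (Fin m) (Fin n) ℝ := Matrix.of fun i j => if (i : ℕ) = j then 1 else 0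

/-- the embedding of symmetric matrices in `E m n` (top block) -/
def io {m n : ℕ} (P : Sy n) : E m n := ofM (J1 m n * sM P)

/-- the Gram matrix `Xᵀ X` -/
def gram {m n : ℕ} (X : E m n) : Sy n := sOf ((toM X)ᵀ * toM X) (by
  rw [Matrix.transpose_mul, Matrix.transpose_transpose])

/-! ### skew-symmetric matrices -/

/-- skew-symmetric `n × n` matrices as a subspace of `E n n` -/
def Sk (n : ℕ) : Submodule ℝ (E n n) where
  carrier := {A | ∀ i j, A (i, j) = - A (j, i)}
  add_mem' := by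
    intro a b ha hb i j
    simp only [PiLp.add_apply]
    rw [ha i j, hb i j]
    ring
  zero_mem' := by intro i j; simp
  smul_mem' := by
    intro c a ha i j
    simp only [PiLp.smul_apply, smul_eq_mul]
    rw [ha i j]
    ring

/-- the matrix of a skew-symmetric matrix -/
def kM {n : ℕ} (A : Sk n) : Matrix (Fin n) (Fin n) ℝ := toM (A : E n n)

theorem kM_transpose {n : ℕ} (A : Sk n) : (kM A)ᵀ = - kM A := by
  ext i j
  exact (A.2 j i)

/-- skew matrix from a matrix with a proof -/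
def kOf {n : ℕ} (A : Matrix (Fin n) (Fin n) ℝ) (h : Aᵀ = -A) : Sk n :=
  ⟨ofM A, by
    intro i j
    change A i j = - A j i
    have := congrFun (congrFun h i) j
    simp only [Matrix.transpose_apply, Matrix.neg_apply] at this
    rw [this]; ring⟩

@[simp] theorem kM_kOf {n : ℕ} (A : Matrix (Fin n) (Fin n) ℝ) (h : Aᵀ = -A) :
    kM (kOf A h) = A := rfl

/-- `K_P : S ↦ P S + S P` as a linear map of skew-symmetric matrices -/
def KS {n : ℕ} (P : Sy n) : Sk n →ₗ[ℝ] Sk n where
  toFun S := kOf (sM P * kM S + kM S * sM P) (by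
    rw [Matrix.transpose_add, Matrix.transpose_mul, Matrix.transpose_mul, sM_transpose,
      kM_transpose, Matrix.neg_mul, Matrix.mul_neg, add_comm, neg_add])
  map_add' G H := by
    apply Subtype.ext
    ext p
    change (sM P * kM (G + H) + kM (G + H) * sM P) p.1 p.2 =
      (sM P * kM G + kM G * sM P) p.1 p.2 + (sM P * kM H + kM H * sM P) p.1 p.2
    have : kM (G + H) = kM G + kM H := rfl
    rw [this, Matrix.mul_add, Matrix.add_mul]
    simp only [Matrix.add_apply]
    ring
  map_smul' c G := by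
    apply Subtype.ext
    ext p
    change (sM P * kM (c • G) + kM (c • G) * sM P) p.1 p.2 =
      c * (sM P * kM G + kM G * sM P) p.1 p.2
    have : kM (c • G) = c • kM G := rfl
    rw [this, Matrix.mul_smul, Matrix.smul_mul]
    simp only [Matrix.add_apply, Matrix.smul_apply, smul_eq_mul]
    ring

/-- the Jacobian `det(P)^(m-n) det(K_P | skew)` -/
noncomputable def jac (m n : ℕ) (P : Sy n) : ℝ := (sM P).det ^ (m - n) * LinearMap.det (KS P)

/-! ### polynomials -/

/-- the rotation field `D_{ab} = Σ_j (x_{bj} ∂_{aj} - x_{aj} ∂_{bj})` on polynomials -/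
noncomputable def DD {m n : ℕ} (a b : Fin m) : Derivation ℝ (MvPolynomial (Fin m × Fin n) ℝ)
    (MvPolynomial (Fin m × Fin n) ℝ) :=
  MvPolynomial.mkDerivation ℝ (fun p : Fin m × Fin n =>
    (if p.1 = a then MvPolynomial.X (b, p.2) else 0) -
    (if p.1 = b then MvPolynomial.X (a, p.2) else 0))

/-- value of a polynomial -/
noncomputable def ev {ι : Type*} (p : MvPolynomial ι ℝ) (x : EuclideanSpace ℝ ι) : ℝ :=
  MvPolynomial.eval x.ofLp p

/-- `Σ ∂p ∂q` -/
noncomputable def gr {ι : Type*} [Fintype ι] (p q : MvPolynomial ι ℝ) : MvPolynomial ι ℝ :=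
  ∑ i, MvPolynomial.pderiv i p * MvPolynomial.pderiv i q

/-! ### measures on symmetric matrices -/

/-- a Haar (Lebesgue) measure on symmetric matrices -/
noncomputable def nu (n : ℕ) : Measure (Sy n) := Measure.addHaar

/-- the square of a symmetric matrix -/
def sq {n : ℕ} (P : Sy n) : Sy n := sOf (sM P * sM P) (by
  rw [Matrix.transpose_mul, sM_transpose])

/-- symmetric matrices with `1/2 ≤ G ≤ 2` -/
def Kn (n : ℕ) : Set (Sy n) := {G | ∀ v : Fin n → ℝ,
  (1 / 2) * (v ⬝ᵥ v) ≤ v ⬝ᵥ (sM G *ᵥ v) ∧ v ⬝ᵥ (sM G *ᵥ v) ≤ 2 * (v ⬝ᵥ v)}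

/-- the reference functional `∫ φ(Bᵀ B) |det B|^(m-n) dB` over square matrices -/
noncomputable def Th (m n : ℕ) (φ : Sy n → ℝ≥0∞) : ℝ≥0∞ :=
  ∫⁻ B : E n n, φ (gram B) * ENNReal.ofReal (|(toM B).det| ^ (m - n))

end Pool.Agent.H212R2.KLS
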