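import Pool.Agent.H212R2.KLS.H1

/-!
# H2: functions odd under reflections (helper143)
-/

set_option autoImplicit false

namespace Pool.Agent.H212R2.KLS

open MeasureTheory Set Matrix
open scoped ENNReal InnerProductSpace

namespace H2aux

/-! ### unit vectors orthogonal to few vectors -/

theorem exists_unit_orth {m : ℕ} {ι : Type} [Fintype ι] (c : ι → V m)
    (h : Fintype.card ι < m) : ∃ u : V m, ‖u‖ = 1 ∧ ∀ k, ⟪c k, u⟫_ℝ = 0 := by
  classical
  set U : Submodule ℝ (V m) := Submodule.span ℝ (Set.range c) with hU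
  have h1 : Module.finrank ℝ U ≤ Fintype.card ι := finrank_range_le_card c
  have h2 : Module.finrank ℝ U + Module.finrank ℝ Uᗮ = m := by
    rw [Submodule.finrank_add_finrank_orthogonal]
    simp
  have h3 : 0 < Module.finrank ℝ Uᗮ := by omega
  have h4 : Uᗮ ≠ ⊥ := by
    intro h0
    rw [h0, finrank_bot] at h3
    exact lt_irrefl _ h3
  obtain ⟨x, hx, hx0⟩ := Submodule.exists_mem_ne_zero_of_ne_bot h4
  have hn : ‖x‖ ≠ 0 := norm_ne_zero_iff.2 hx0
  refine ⟨‖x‖⁻¹ • x, ?_, fun k => ?_⟩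
  · rw [norm_smul, norm_inv, norm_norm, inv_mul_cancel₀ hn]
  · rw [inner_smul_right]
    have : ⟪c k, x⟫_ℝ = 0 := (Submodule.mem_orthogonal U x).1 hx _
      (Submodule.subset_span ⟨k, rfl⟩)
    rw [this, mul_zero]

/-! ### the reflection matrix -/

/-- the reflection in the hyperplane orthogonal to `u` -/
noncomputable def Rm {m : ℕ} (u : V m) : Matrix (Fin m) (Fin m) ℝ :=
  1 + replicateCol Unit (fun i => -2 * u i) * replicateRow Unit (fun i => u i)

theorem Rm_apply {m : ℕ} (u : V m) (i i' : Fin m) :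
    Rm u i i' = (if i = i' then 1 else 0) - 2 * u i * u i' := by
  simp [Rm, Matrix.mul_apply, Matrix.one_apply, Matrix.replicateCol, Matrix.replicateRow]
  ring

theorem norm_sq {m : ℕ} (u : V m) : ∑ i, u i * u i = ‖u‖ ^ 2 := by
  rw [EuclideanSpace.norm_sq_eq]
  refine Finset.sum_congr rfl fun i _ => ?_
  rw [Real.norm_eq_abs, sq_abs, pow_two]

theorem Rm_det {m : ℕ} (u : V m) (hu : ‖u‖ = 1) : (Rm u).det = -1 := by
  rw [Rm, det_one_add_replicateCol_mul_replicateRow]
  have : (fun i => u i) ⬝ᵥ (fun i => -2 * u i) = -2 * ∑ i, u i * u i := by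
    rw [dotProduct, Finset.mul_sum]
    refine Finset.sum_congr rfl fun i _ => ?_
    ring
  rw [this, norm_sq, hu]
  norm_num

theorem Rm_mem {m : ℕ} (u : V m) (hu : ‖u‖ = 1) : Rm u ∈ Matrix.orthogonalGroup (Fin m) ℝ := by
  rw [Matrix.mem_orthogonalGroup_iff]
  ext i k
  rw [Matrix.mul_apply]
  have h1 : ∀ l, Rm u i l * (Rm u)ᵀ l k =
      (if i = l then 1 else 0) * (if k = l then 1 else 0) - 2 * u i * (u l * (if k = l then 1 else 0))
        - 2 * u k * (u l * (if i = l then 1 else 0)) + 4 * u i * u k * (u l * u l) := by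
    intro l
    rw [Matrix.transpose_apply, Rm_apply, Rm_apply]
    ring
  rw [Finset.sum_congr rfl fun l _ => h1 l, Finset.sum_add_distrib, Finset.sum_sub_distrib,
    Finset.sum_sub_distrib, ← Finset.mul_sum, ← Finset.mul_sum, ← Finset.mul_sum, norm_sq, hu,
    Matrix.one_apply]
  by_cases hik : i = k
  · subst hik
    simp
    ring
  · simp [hik, Ne.symm hik]
    ring

/-! ### splitting off the column `j` -/

/-- the entries of column `j` -/
def colE (m n : ℕ) (j : Fin n) : Fin m ≃ {p : Fin m × Fin n // p.2 = j} where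
  toFun i := ⟨(i, j), rfl⟩
  invFun p := p.1.1
  left_inv i := rfl
  right_inv p := by
    rcases p with ⟨⟨i, k⟩, h⟩
    simp only at h
    subst h
    rfl

/-- the other columns -/
abbrev W (m n : ℕ) (j : Fin n) : Type := {p : Fin m × Fin n // ¬ p.2 = j} → ℝ

/-- the matrix with column `j` equal to `x` and the other entries `y` -/
noncomputable def TT (m n : ℕ) (j : Fin n) : (V m × W m n j) ≃ᵐ E m n :=
  (MeasurableEquiv.prodCongr ((MeasurableEquiv.toLp 2 (Fin m → ℝ)).symm.trans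
    (MeasurableEquiv.piCongrLeft (fun _ => ℝ) (colE m n j))) (MeasurableEquiv.refl _)).trans
    ((MeasurableEquiv.piEquivPiSubtypeProd (fun _ : Fin m × Fin n => ℝ) (fun p => p.2 = j)).symm.trans
      (MeasurableEquiv.toLp 2 (Fin m × Fin n → ℝ)))

theorem TT_mp (m n : ℕ) (j : Fin n) : MeasurePreserving (TT m n j) volume volume := by
  have h1 : MeasurePreserving ((MeasurableEquiv.toLp 2 (Fin m → ℝ)).symm.trans
    (MeasurableEquiv.piCongrLeft (fun _ => ℝ) (colE m n j))) volume volume :=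
    (EuclideanSpace.volume_preserving_symm_measurableEquiv_toLp (Fin m)).trans
      (volume_measurePreserving_piCongrLeft (fun _ => ℝ) (colE m n j))
  have h2 : MeasurePreserving (MeasurableEquiv.prodCongr
      ((MeasurableEquiv.toLp 2 (Fin m → ℝ)).symm.trans
      (MeasurableEquiv.piCongrLeft (fun _ => ℝ) (colE m n j)))
      (MeasurableEquiv.refl (W m n j))) volume volume := h1.prod (MeasurePreserving.id volume)
  have h3 := (volume_preserving_piEquivPiSubtypeProd (fun _ : Fin m × Fin n => ℝ)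
    (fun p => p.2 = j)).symm
  have h4 := (EuclideanSpace.volume_preserving_symm_measurableEquiv_toLp (Fin m × Fin n)).symm
  exact h2.trans (h3.trans h4)

theorem TT_apply {m n : ℕ} (j : Fin n) (x : V m) (y : W m n j) (i : Fin m) (k : Fin n) :
    TT m n j (x, y) (i, k) = if h : k = j then x i else y ⟨(i, k), h⟩ := by
  by_cases h : k = j
  · subst h
    rw [dif_pos rfl]
    change (if h : ((i, k) : Fin m × Fin n).2 = k then
      (MeasurableEquiv.piCongrLeft (fun _ => ℝ) (colE m n k)) (x.ofLp) ⟨(i, k), h⟩ else _) = _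
    rw [dif_pos rfl]
    exact Equiv.piCongrLeft_apply_apply (fun _ => ℝ) (colE m n k) x.ofLp i
  · rw [dif_neg h]
    change (if h : ((i, k) : Fin m × Fin n).2 = j then
      _ else y ⟨(i, k), h⟩) = _
    rw [dif_neg h]

/-- the linear part -/
noncomputable def LL (m n : ℕ) (j : Fin n) : V m →L[ℝ] E m n :=
  LinearMap.toContinuousLinearMap
    { toFun := fun x => WithLp.toLp 2 fun p : Fin m × Fin n => if p.2 = j then x p.1 else 0
      map_add' := by
        intro x y
        ext p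
        by_cases h : p.2 = j <;> simp [h]
      map_smul' := by
        intro c x
        ext p
        by_cases h : p.2 = j <;> simp [h] }

theorem LL_apply {m n : ℕ} (j : Fin n) (x : V m) (p : Fin m × Fin n) :
    LL m n j x p = if p.2 = j then x p.1 else 0 := rfl

theorem TT_eq {m n : ℕ} (j : Fin n) (x : V m) (y : W m n j) :
    TT m n j (x, y) = TT m n j (0, y) + LL m n j x := by
  ext ⟨i, k⟩
  rw [PiLp.add_apply, TT_apply, TT_apply, LL_apply]
  by_cases h : k = j
  · simp [h]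
  · simp [h]

theorem TT_refl {m n : ℕ} (j : Fin n) (u : V m) (y : W m n j)
    (hy : ∀ k (h : ¬ k = j), ∑ i, u i * y ⟨(i, k), h⟩ = 0) (x : V m) :
    TT m n j (x - (2 * ⟪x, u⟫_ℝ) • u, y) = lm (Rm u) (TT m n j (x, y)) := by
  ext ⟨i, k⟩
  rw [lm, ofM_apply, Matrix.mul_apply, TT_apply]
  have h1 : ∀ l, Rm u i l * toM (TT m n j (x, y)) l k =
      (if i = l then 1 else 0) * (TT m n j (x, y) (l, k)) -
        2 * u i * (u l * TT m n j (x, y) (l, k)) := by
    intro l
    rw [Rm_apply, toM_apply]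
    ring
  rw [Finset.sum_congr rfl fun l _ => h1 l, Finset.sum_sub_distrib, ← Finset.mul_sum]
  have h2 : ∑ l, (if i = l then (1 : ℝ) else 0) * (TT m n j (x, y) (l, k)) =
      TT m n j (x, y) (i, k) := by
    simp
  rw [h2]
  by_cases h : k = j
  · subst h
    rw [dif_pos rfl]
    have h3 : ∑ l, u l * TT m n k (x, y) (l, k) = ⟪x, u⟫_ℝ := by
      rw [PiLp.inner_apply]
      refine Finset.sum_congr rfl fun l _ => ?_
      rw [TT_apply, dif_pos rfl]
      simp [mul_comm]
    rw [h3, TT_apply, dif_pos rfl, PiLp.sub_apply, PiLp.smul_apply, smul_eq_mul]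
    ring
  · rw [dif_neg h, TT_apply, dif_neg h]
    have h3 : ∑ l, u l * TT m n j (x, y) (l, k) = 0 := by
      rw [← hy k h]
      refine Finset.sum_congr rfl fun l _ => ?_
      rw [TT_apply, dif_neg h]
    rw [h3]
    ring

/-! ### integrability -/

theorem integrable_of {F : Type*} [NormedAddCommGroup F] [InnerProductSpace ℝ F]
    [FiniteDimensional ℝ F] [MeasurableSpace F] [BorelSpace F] {g w : F → ℝ} (hg : Continuous g)
    (hw : Measurable w) (B R : ℝ) (hb : ∀ x, |w x| ≤ B) (hs : ∀ x, R < ‖x‖ → w x = 0) :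
    Integrable (fun x => g x * w x) volume := by
  obtain ⟨M, hM⟩ := (isCompact_closedBall (0 : F) R).exists_bound_of_continuousOn hg.continuousOn
  have hB : 0 ≤ B := (abs_nonneg _).trans (hb 0)
  have h1 : Integrable ((Metric.closedBall (0 : F) R).indicator fun _ => |M| * B) volume := by
    rw [integrable_indicator_iff measurableSet_closedBall]
    exact integrableOn_const (measure_closedBall_lt_top).ne
  refine Integrable.mono' h1 ((hg.measurable.mul hw).aestronglyMeasurable) ?_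
  refine Filter.Eventually.of_forall fun x => ?_
  by_cases hx : x ∈ Metric.closedBall (0 : F) R
  · rw [Set.indicator_of_mem hx, Real.norm_eq_abs, abs_mul]
    have h2 := hM x hx
    rw [Real.norm_eq_abs] at h2
    exact mul_le_mul (h2.trans (le_abs_self M)) (hb x) (abs_nonneg _) (abs_nonneg _)
  · rw [Set.indicator_of_notMem hx]
    have : R < ‖x‖ := by
      simpa [Metric.mem_closedBall] using hx
    rw [hs x this, mul_zero, norm_zero]

/-! ### the density -/

variable {m n : ℕ}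

theorem lm_neg_one (x : E m n) : lm (-1 : Matrix (Fin m) (Fin m) ℝ) x = -x := by
  ext p
  rw [lm, ofM_apply]
  simp [toM]

theorem rho_le {ρ : E m n → ℝ} (hρ : Dens m n ρ) (x : E m n) : ρ x ≤ ρ 0 := by
  have h1 : ρ (-x) = ρ x := by
    rw [← lm_neg_one]
    refine hρ.inv _ ?_ x
    rw [Matrix.mem_orthogonalGroup_iff]
    simp
  have h2 := hρ.logc x (-x) (1 / 2) (by norm_num) (by norm_num)
  rw [h1] at h2
  have h3 : (1 - 1 / 2 : ℝ) • x + (1 / 2 : ℝ) • -x = 0 := by
    rw [smul_neg]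
    norm_num
  rw [h3] at h2
  rcases (hρ.nonneg x).eq_or_lt with h | h
  · rw [← h]
    exact hρ.nonneg 0
  · rw [← Real.rpow_add h] at h2
    norm_num at h2
    exact h2

theorem mv_single (X : E m n) (j : Fin n) (i : Fin m) :
    mv X (EuclideanSpace.single j (1 : ℝ)) i = X (i, j) := by
  simp [mv, Matrix.mulVec, dotProduct, toM]

theorem col_le {r : ℝ} {X : E m n} (h : OpLe r X) (j : Fin n) :
    ∑ i, X (i, j) ^ 2 ≤ r ^ 2 := by
  have h1 := h (EuclideanSpace.single j (1 : ℝ))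
  have h2 : ‖(EuclideanSpace.single j (1 : ℝ) : V n)‖ = 1 := by simp
  rw [h2, mul_one] at h1
  have h3 : ‖mv X (EuclideanSpace.single j (1 : ℝ))‖ ^ 2 = ∑ i, X (i, j) ^ 2 := by
    rw [EuclideanSpace.norm_sq_eq]
    refine Finset.sum_congr rfl fun i _ => ?_
    rw [mv_single, Real.norm_eq_abs, sq_abs]
  rw [← h3]
  exact pow_le_pow_left₀ (norm_nonneg _) h1 2

theorem norm_le_of_op {r : ℝ} (hr : 0 < r) {X : E m n} (h : OpLe r X) : ‖X‖ ≤ r * (n + 1) := by
  have h1 : ‖X‖ ^ 2 ≤ n * r ^ 2 := by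
    rw [EuclideanSpace.norm_sq_eq, Fintype.sum_prod_type_right]
    calc ∑ j, ∑ i, ‖X (i, j)‖ ^ 2 ≤ ∑ _j : Fin n, r ^ 2 := by
          refine Finset.sum_le_sum fun j _ => ?_
          have := col_le h j
          simpa [Real.norm_eq_abs, sq_abs] using this
      _ = n * r ^ 2 := by simp
  have h2 : ‖X‖ ^ 2 ≤ (r * (n + 1)) ^ 2 := by
    have : (0 : ℝ) ≤ n := Nat.cast_nonneg n
    nlinarith [sq_nonneg r, mul_nonneg (sq_nonneg r) this, mul_nonneg (sq_nonneg r) (sq_nonneg (n : ℝ))]
  exact abs_le_of_sq_le_sq' h2 (by positivity) |>.2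

/-! ### derivatives -/

theorem lin_eq {ι : Type*} [Fintype ι] [DecidableEq ι] (L : EuclideanSpace ℝ ι →L[ℝ] ℝ)
    (v : EuclideanSpace ℝ ι) : L v = ∑ p, v p * L (EuclideanSpace.single p (1 : ℝ)) := by
  have h1 : v = ∑ p, v p • EuclideanSpace.single p (1 : ℝ) := by
    ext q
    simp [Finset.sum_apply, Pi.single_apply]
  conv_lhs => rw [h1]
  rw [map_sum]
  refine Finset.sum_congr rfl fun p _ => ?_
  rw [map_smul, smul_eq_mul]

theorem lin_sum_sq_le {ι : Type*} [Fintype ι] [DecidableEq ι] (L : EuclideanSpace ℝ ι →L[ℝ] ℝ) :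
    ∑ p, (L (EuclideanSpace.single p (1 : ℝ))) ^ 2 ≤ ‖L‖ ^ 2 := by
  set v : EuclideanSpace ℝ ι := WithLp.toLp 2 fun p => L (EuclideanSpace.single p (1 : ℝ)) with hv
  have h1 : L v = ∑ p, (L (EuclideanSpace.single p (1 : ℝ))) ^ 2 := by
    rw [lin_eq L v]
    refine Finset.sum_congr rfl fun p _ => ?_
    rw [hv]
    simp only
    ring
  have h2 : ‖v‖ ^ 2 = ∑ p, (L (EuclideanSpace.single p (1 : ℝ))) ^ 2 := by
    rw [EuclideanSpace.norm_sq_eq]
    refine Finset.sum_congr rfl fun p _ => ?_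
    rw [Real.norm_eq_abs, sq_abs]
  have h3 : L v ≤ ‖L‖ * ‖v‖ := (le_abs_self _).trans (L.le_opNorm v)
  rw [h1, ← h2] at h3
  rw [← h2]
  have h4 : ‖v‖ ≤ ‖L‖ := by
    rcases (norm_nonneg v).eq_or_lt with h | h
    · rw [← h]
      exact norm_nonneg _
    · rw [pow_two] at h3
      exact le_of_mul_le_mul_right h3 h
  exact pow_le_pow_left₀ (norm_nonneg _) h4 2

/-- the squares of the derivatives in column `j` -/
noncomputable def GG (f : E m n → ℝ) (j : Fin n) (X : E m n) : ℝ :=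
  ∑ i : Fin m, (fderiv ℝ f X (EuclideanSpace.single (i, j) (1 : ℝ))) ^ 2

theorem GG_cont {f : E m n → ℝ} (hf : ContDiff ℝ 1 f) (j : Fin n) : Continuous (GG f j) := by
  unfold GG
  have h1 : Continuous (fderiv ℝ f) := hf.continuous_fderiv (by norm_num)
  refine continuous_finsetSum _ fun i _ => ?_
  exact (h1.clm_apply continuous_const).pow 2

theorem sum_GG_le (f : E m n → ℝ) (X : E m n) : ∑ j, GG f j X ≤ ‖fderiv ℝ f X‖ ^ 2 := by
  unfold GG
  rw [← Fintype.sum_prod_type_right (f := fun p : Fin m × Fin n =>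
    (fderiv ℝ f X (EuclideanSpace.single p (1 : ℝ))) ^ 2)]
  exact lin_sum_sq_le (fderiv ℝ f X)

theorem LL_cs (f : E m n → ℝ) (j : Fin n) (X : E m n) (u : V m) (hu : ‖u‖ = 1) :
    (fderiv ℝ f X (LL m n j u)) ^ 2 ≤ GG f j X := by
  have h1 : fderiv ℝ f X (LL m n j u) =
      ∑ i, u i * fderiv ℝ f X (EuclideanSpace.single (i, j) (1 : ℝ)) := by
    rw [lin_eq, Fintype.sum_prod_type]
    refine Finset.sum_congr rfl fun i _ => ?_
    rw [Finset.sum_eq_single j]
    · rw [LL_apply, if_pos rfl]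
    · intro k _ hk
      rw [LL_apply, if_neg hk, zero_mul]
    · simp
  rw [h1]
  refine (Finset.sum_mul_sq_le_sq_mul_sq _ _ _).trans ?_
  have h2 : ∑ i, u i ^ 2 = 1 := by
    have := norm_sq u
    rw [hu] at this
    simpa [pow_two] using this
  rw [h2, one_mul, GG]

/-- the statement of H1 -/
def HardyLine : Prop := ∀ {k : ℕ} (u : V k) (_ : ‖u‖ = 1) (r : ℝ) (_ : 0 < r) (w : V k → ℝ)
    (_ : ∀ x, 0 ≤ w x) (_ : Measurable w) (_ : ∃ B, ∀ x, w x ≤ B)
    (_ : ∀ x, r < ‖x‖ → w x = 0)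
    (_ : ∀ z : V k, ⟪z, u⟫_ℝ = 0 → ∀ s t : ℝ, 0 ≤ s → s ≤ t → w (z + t • u) ≤ w (z + s • u))
    (_ : ∀ x : V k, w (x - (2 * ⟪x, u⟫_ℝ) • u) = w x)
    (f : V k → ℝ) (_ : ContDiff ℝ 1 f)
    (_ : ∀ x : V k, f (x - (2 * ⟪x, u⟫_ℝ) • u) = - f x),
    ∫ x, f x ^ 2 * w x ≤ r ^ 2 / 2 * ∫ x, (fderiv ℝ f x u) ^ 2 * w x

theorem TT_convex (j : Fin n) (y : W m n j) (x x' : V m) (t : ℝ) :
    TT m n j ((1 - t) • x + t • x', y) = (1 - t) • TT m n j (x, y) + t • TT m n j (x', y) := by
  rw [TT_eq j ((1 - t) • x + t • x'), TT_eq j x, TT_eq j x', map_add, map_smul, map_smul]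
  module

/-- the inequality for fixed other columns -/
theorem slice (HL : HardyLine) (hnm : n ≤ m) {ρ : E m n → ℝ} (hρ : Dens m n ρ)
    {r : ℝ} (hr : 0 < r) (hs : ∀ x, ¬ OpLe r x → ρ x = 0) {f : E m n → ℝ}
    (hf : ContDiff ℝ 1 f)
    (hodd : ∀ g ∈ Matrix.orthogonalGroup (Fin m) ℝ, ∀ x, f (lm g x) = g.det * f x)
    (j : Fin n) (y : W m n j) :
    ∫ x, f (TT m n j (x, y)) ^ 2 * ρ (TT m n j (x, y)) ≤
      r ^ 2 / 2 * ∫ x, GG f j (TT m n j (x, y)) * ρ (TT m n j (x, y)) := by
  classical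
  obtain ⟨u, hu, huc⟩ := exists_unit_orth (m := m) (ι := {k : Fin n // ¬ k = j})
    (fun k => WithLp.toLp 2 fun i => y ⟨(i, k.1), k.2⟩) (by
      rw [Fintype.card_subtype_compl, Fintype.card_fin, Fintype.card_unique]
      have := j.2
      omega)
  have hy : ∀ k (h : ¬ k = j), ∑ i, u i * y ⟨(i, k), h⟩ = 0 := by
    intro k h
    have := huc ⟨k, h⟩
    rw [PiLp.inner_apply] at this
    simpa [mul_comm] using this
  have hmem := Rm_mem u hu
  have hdet := Rm_det u hu
  have hTc : Continuous fun x : V m => TT m n j (x, y) := by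
    have : (fun x : V m => TT m n j (x, y)) = fun x => TT m n j (0, y) + LL m n j x := by
      funext x
      exact TT_eq j x y
    rw [this]
    fun_prop
  have hTd : ∀ x : V m, HasFDerivAt (fun x : V m => TT m n j (x, y)) (LL m n j) x := by
    intro x
    have : (fun x : V m => TT m n j (x, y)) = fun x => TT m n j (0, y) + LL m n j x := by
      funext x
      exact TT_eq j x y
    rw [this]
    exact (LL m n j).hasFDerivAt.const_add _
  have hTs : ContDiff ℝ 1 fun x : V m => TT m n j (x, y) := by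
    have : (fun x : V m => TT m n j (x, y)) = fun x => TT m n j (0, y) + LL m n j x := by
      funext x
      exact TT_eq j x y
    rw [this]
    exact contDiff_const.add (LL m n j).contDiff
  have hcol : ∀ x : V m, r < ‖x‖ → ρ (TT m n j (x, y)) = 0 := by
    intro x hx
    refine hs _ fun hop => ?_
    have h1 := col_le hop j
    have h2 : ∑ i, TT m n j (x, y) (i, j) ^ 2 = ‖x‖ ^ 2 := by
      rw [EuclideanSpace.norm_sq_eq]
      refine Finset.sum_congr rfl fun i _ => ?_
      rw [TT_apply, dif_pos rfl, Real.norm_eq_abs, sq_abs]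
    rw [h2] at h1
    have := abs_le_of_sq_le_sq' h1 hr.le
    linarith [this.2]
  have heven : ∀ x : V m, ρ (TT m n j (x - (2 * ⟪x, u⟫_ℝ) • u, y)) = ρ (TT m n j (x, y)) := by
    intro x
    rw [TT_refl j u y hy x, hρ.inv _ hmem]
  have hmeas : Measurable fun x : V m => ρ (TT m n j (x, y)) := hρ.meas.comp hTc.measurable
  have key := HL u hu r hr (fun x => ρ (TT m n j (x, y))) (fun x => hρ.nonneg _) hmeas
    ⟨ρ 0, fun x => rho_le hρ _⟩ hcol ?_ heven (fun x => f (TT m n j (x, y))) (hf.comp hTs) ?_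
  · refine key.trans ?_
    refine mul_le_mul_of_nonneg_left ?_ (by positivity)
    refine integral_mono_of_nonneg (Filter.Eventually.of_forall fun x => ?_) ?_
      (Filter.Eventually.of_forall fun x => ?_)
    · exact mul_nonneg (sq_nonneg _) (hρ.nonneg _)
    · refine integrable_of (g := fun x => GG f j (TT m n j (x, y)))
        ((GG_cont hf j).comp hTc) hmeas (ρ 0) r (fun x => ?_) hcol
      rw [abs_of_nonneg (hρ.nonneg _)]
      exact rho_le hρ _
    · refine mul_le_mul_of_nonneg_right ?_ (hρ.nonneg _)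
      have h1 : fderiv ℝ (fun x => f (TT m n j (x, y))) x u =
          fderiv ℝ f (TT m n j (x, y)) (LL m n j u) := by
        have h2 : HasFDerivAt (fun x => f (TT m n j (x, y)))
            ((fderiv ℝ f (TT m n j (x, y))).comp (LL m n j)) x :=
          ((hf.differentiable (by norm_num)) _).hasFDerivAt.comp x (hTd x)
        rw [h2.fderiv]
        rfl
      rw [h1]
      exact LL_cs f j _ u hu
  · -- monotonicity
    intro z hz s t hs0 hst
    rcases hst.eq_or_lt with h | h
    · rw [h]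
    have ht : 0 < t := lt_of_le_of_lt hs0 h
    have hzt : ⟪z + t • u, u⟫_ℝ = t := by
      rw [inner_add_left, hz, inner_smul_left, real_inner_self_eq_norm_sq, hu]
      simp
    have h1 := heven (z + t • u)
    rw [hzt] at h1
    set l : ℝ := (1 - s / t) / 2 with hl
    have hst' : s / t < 1 := (div_lt_one ht).2 h
    have hst0 : 0 ≤ s / t := div_nonneg hs0 ht.le
    have hl0 : 0 < l := by rw [hl]; linarith
    have hl1 : l < 1 := by rw [hl]; linarith
    have h2 := hρ.logc (TT m n j (z + t • u, y)) (TT m n j (z + t • u - (2 * t) • u, y)) l hl0 hl1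
    rw [h1, ← TT_convex] at h2
    have h3 : (1 - l) • (z + t • u) + l • (z + t • u - (2 * t) • u) = z + s • u := by
      have h4 : (1 - l) * t + l * (t - 2 * t) = s := by
        rw [hl]
        field_simp
        ring
      calc (1 - l) • (z + t • u) + l • (z + t • u - (2 * t) • u) =
          z + ((1 - l) * t + l * (t - 2 * t)) • u := by module
        _ = z + s • u := by rw [h4]
    rw [h3] at h2
    refine le_trans ?_ h2
    rcases (hρ.nonneg (TT m n j (z + t • u, y))).eq_or_lt with h5 | h5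
    · rw [← h5]
      rw [Real.zero_rpow hl0.ne', mul_zero]
    · rw [← Real.rpow_add h5, sub_add_cancel, Real.rpow_one]
  · intro x
    rw [TT_refl j u y hy x, hodd _ hmem, hdet]
    ring

/-- the inequality for one column -/
theorem col_ineq (HL : HardyLine) (hnm : n ≤ m) {ρ : E m n → ℝ} (hρ : Dens m n ρ)
    {r : ℝ} (hr : 0 < r) (hs : ∀ x, ¬ OpLe r x → ρ x = 0) {f : E m n → ℝ}
    (hf : ContDiff ℝ 1 f)
    (hodd : ∀ g ∈ Matrix.orthogonalGroup (Fin m) ℝ, ∀ x, f (lm g x) = g.det * f x)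
    (j : Fin n) :
    ∫ X, f X ^ 2 * ρ X ≤ r ^ 2 / 2 * ∫ X, GG f j X * ρ X := by
  have hb : ∀ x, |ρ x| ≤ ρ 0 := by
    intro x
    rw [abs_of_nonneg (hρ.nonneg _)]
    exact rho_le hρ _
  have hsup : ∀ x : E m n, r * (n + 1) < ‖x‖ → ρ x = 0 := by
    intro x hx
    refine hs x fun hop => ?_
    have := norm_le_of_op hr hop
    linarith
  have i1 : Integrable (fun X => f X ^ 2 * ρ X) volume :=
    integrable_of (hf.continuous.pow 2) hρ.meas (ρ 0) _ hb hsup
  have i2 : Integrable (fun X => GG f j X * ρ X) volume :=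
    integrable_of (GG_cont hf j) hρ.meas (ρ 0) _ hb hsup
  have mp := TT_mp m n j
  have j1 : Integrable (fun z : V m × W m n j => f (TT m n j z) ^ 2 * ρ (TT m n j z)) volume :=
    (mp.integrable_comp_emb (TT m n j).measurableEmbedding).2 i1
  have j2 : Integrable (fun z : V m × W m n j => GG f j (TT m n j z) * ρ (TT m n j z)) volume :=
    (mp.integrable_comp_emb (TT m n j).measurableEmbedding).2 i2
  rw [← mp.integral_comp' (fun X => f X ^ 2 * ρ X), ← mp.integral_comp' (fun X => GG f j X * ρ X)]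
  rw [Measure.volume_eq_prod] at j1 j2 ⊢
  rw [integral_prod_symm _ j1, integral_prod_symm _ j2, ← integral_const_mul]
  refine integral_mono j1.integral_prod_right (j2.integral_prod_right.const_mul _) fun y => ?_
  exact slice HL hnm hρ hr hs hf hodd j y

theorem int_mu {ρ : E m n → ℝ} (hρ : Dens m n ρ) (g : E m n → ℝ) :
    ∫ x, g x ∂(mu ρ) = ∫ x, g x * ρ x := by
  unfold mu
  rw [integral_withDensity_eq_integral_toReal_smul (hρ.meas.ennreal_ofReal)
    (Filter.Eventually.of_forall fun x => ENNReal.ofReal_lt_top)]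
  refine integral_congr_ae (Filter.Eventually.of_forall fun x => ?_)
  simp only
  rw [ENNReal.toReal_ofReal (hρ.nonneg x), smul_eq_mul, mul_comm]

/-- if there are fewer columns than rows then odd functions vanish -/
theorem odd_zero (hnm : n < m) {f : E m n → ℝ}
    (hodd : ∀ g ∈ Matrix.orthogonalGroup (Fin m) ℝ, ∀ x, f (lm g x) = g.det * f x) (X : E m n) :
    f X = 0 := by
  obtain ⟨u, hu, huc⟩ := exists_unit_orth (m := m) (ι := Fin n)
    (fun k => WithLp.toLp 2 fun i => X (i, k)) (by rwa [Fintype.card_fin])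
  have h1 : lm (Rm u) X = X := by
    ext ⟨i, k⟩
    rw [lm, ofM_apply, Matrix.mul_apply]
    have h1 : ∀ l, Rm u i l * toM X l k =
        (if i = l then 1 else 0) * (X (l, k)) - 2 * u i * (u l * X (l, k)) := by
      intro l
      rw [Rm_apply, toM_apply]
      ring
    rw [Finset.sum_congr rfl fun l _ => h1 l, Finset.sum_sub_distrib, ← Finset.mul_sum]
    have h2 : ∑ l, (if i = l then (1 : ℝ) else 0) * X (l, k) = X (i, k) := by simp
    have h3 : ∑ l, u l * X (l, k) = 0 := by
      have := huc k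
      rw [PiLp.inner_apply] at this
      simpa [mul_comm] using this
    rw [h2, h3]
    ring
  have h2 := hodd (Rm u) (Rm_mem u hu) X
  rw [h1, Rm_det u hu] at h2
  linarith

end H2aux

open H2aux in
theorem hardy_odd {m n : ℕ} (hn : 1 ≤ n) (hnm : n ≤ m) (ρ : E m n → ℝ) (hρ : Dens m n ρ)
    (r : ℝ) (hr : 0 < r) (hs : ∀ x, ¬ OpLe r x → ρ x = 0) (f : E m n → ℝ)
    (hf : ContDiff ℝ 1 f)
    (hodd : ∀ g ∈ Matrix.orthogonalGroup (Fin m) ℝ, ∀ x, f (lm g x) = g.det * f x) :
    ∫ x, f x ^ 2 ∂(mu ρ) ≤ r ^ 2 / (2 * m) * ∫ x, ‖fderiv ℝ f x‖ ^ 2 ∂(mu ρ) := by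
  rcases hnm.lt_or_eq with h | h
  · have h1 : ∀ x, f x ^ 2 = 0 := fun x => by rw [odd_zero h hodd x]; norm_num
    simp only [h1, integral_zero]
    have : 0 ≤ ∫ x, ‖fderiv ℝ f x‖ ^ 2 ∂(mu ρ) := integral_nonneg fun x => sq_nonneg _
    positivity
  · subst h
    have HL : HardyLine := fun {k} u hu r hr w h0 hm hb hs hmono heven f hf hodd =>
      hardy_line u hu r hr w h0 hm hb hs hmono heven f hf hodd
    rw [int_mu hρ, int_mu hρ]
    have hn0 : (0 : ℝ) < n := by exact_mod_cast hn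
    have hb : ∀ x, |ρ x| ≤ ρ 0 := by
      intro x
      rw [abs_of_nonneg (hρ.nonneg _)]
      exact rho_le hρ _
    have hsup : ∀ x : E n n, r * (n + 1) < ‖x‖ → ρ x = 0 := by
      intro x hx
      refine hs x fun hop => ?_
      have := norm_le_of_op hr hop
      linarith
    have h1 : ∑ _j : Fin n, ∫ X, f X ^ 2 * ρ X ≤
        ∑ j : Fin n, r ^ 2 / 2 * ∫ X, GG f j X * ρ X :=
      Finset.sum_le_sum fun j _ => col_ineq HL le_rfl hρ hr hs hf hodd j
    rw [← Finset.mul_sum, Finset.sum_const, Finset.card_univ, Fintype.card_fin, nsmul_eq_mul,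
      ← integral_finset_sum _ fun j _ => integrable_of (GG_cont hf j) hρ.meas (ρ 0) _ hb hsup] at h1
    have h2 : ∫ X, ∑ j : Fin n, GG f j X * ρ X ≤ ∫ X, ‖fderiv ℝ f X‖ ^ 2 * ρ X := by
      refine integral_mono (integrable_finset_sum _ fun j _ =>
        integrable_of (GG_cont hf j) hρ.meas (ρ 0) _ hb hsup) ?_ fun X => ?_
      · refine integrable_of (g := fun X => ‖fderiv ℝ f X‖ ^ 2) ?_ hρ.meas (ρ 0) _ hb hsup
        exact (hf.continuous_fderiv (by norm_num)).norm.pow 2
      · simp only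
        rw [← Finset.sum_mul]
        exact mul_le_mul_of_nonneg_right (sum_GG_le f X) (hρ.nonneg X)
    have h3 : (n : ℝ) * ∫ X, f X ^ 2 * ρ X ≤ r ^ 2 / 2 * ∫ X, ‖fderiv ℝ f X‖ ^ 2 * ρ X :=
      h1.trans (mul_le_mul_of_nonneg_left h2 (by positivity))
    have h4 : r ^ 2 / (2 * n) * ∫ X, ‖fderiv ℝ f X‖ ^ 2 * ρ X =
        (r ^ 2 / 2 * ∫ X, ‖fderiv ℝ f X‖ ^ 2 * ρ X) / n := by
      field_simp
    rw [h4, le_div_iff₀ hn0, mul_comm]
    exact h3

end Pool.Agent.H212R2.KLS
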