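import Mathlib
import Pool.Agent.H212R2.KLS.Defs

/-!
# L1: polynomials are dense in `C^1` on compact sets (radial Landau kernels)
-/

set_option autoImplicit false

namespace Pool.Agent.H212R2.KLS

open MeasureTheory Set Filter Topology

/-- integrals of polynomial kernels are polynomials -/
theorem L1_kernel {ι : Type*} [Fintype ι] (P : MvPolynomial (ι ⊕ ι) ℝ) :
    ∀ g : EuclideanSpace ℝ ι → ℝ, Continuous g → HasCompactSupport g →
    ∃ Q : MvPolynomial ι ℝ, ∀ x : EuclideanSpace ℝ ι,
      ev Q x = ∫ y, MvPolynomial.eval (Sum.elim x.ofLp y.ofLp) P * g y := by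
  have hcont : ∀ (x : EuclideanSpace ℝ ι) (p : MvPolynomial (ι ⊕ ι) ℝ),
      Continuous fun y : EuclideanSpace ℝ ι =>
        MvPolynomial.eval (Sum.elim x.ofLp y.ofLp) p := by
    intro x p
    apply (MvPolynomial.continuous_eval p).comp
    apply continuous_pi
    rintro (i | i)
    · exact continuous_const
    · exact (continuous_apply i).comp (PiLp.continuous_ofLp 2 _)
  induction P using MvPolynomial.induction_on with
  | C a =>
    intro g hg hs
    refine ⟨MvPolynomial.C (a * ∫ y, g y), fun x => ?_⟩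
    simp [ev, integral_const_mul]
  | add p q hp hq =>
    intro g hg hs
    obtain ⟨Q1, h1⟩ := hp g hg hs
    obtain ⟨Q2, h2⟩ := hq g hg hs
    refine ⟨Q1 + Q2, fun x => ?_⟩
    have e : ev (Q1 + Q2) x = ev Q1 x + ev Q2 x := by simp [ev]
    rw [e, h1, h2, ← integral_add]
    · apply integral_congr_ae
      filter_upwards with y
      rw [map_add]; ring
    · exact ((hcont x p).mul hg).integrable_of_hasCompactSupport hs.mul_left
    · exact ((hcont x q).mul hg).integrable_of_hasCompactSupport hs.mul_left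
  | mul_X p i hp =>
    intro g hg hs
    rcases i with i | i
    · obtain ⟨Q1, h1⟩ := hp g hg hs
      refine ⟨Q1 * MvPolynomial.X i, fun x => ?_⟩
      have e : ev (Q1 * MvPolynomial.X i) x = ev Q1 x * x i := by simp [ev]
      rw [e, h1, ← integral_mul_const]
      apply integral_congr_ae
      filter_upwards with y
      rw [map_mul, MvPolynomial.eval_X]
      simp only [Sum.elim_inl]
      ring
    · obtain ⟨Q1, h1⟩ := hp (fun y => y i * g y)
        (((continuous_apply i).comp (PiLp.continuous_ofLp 2 _)).mul hg) hs.mul_left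
      refine ⟨Q1, fun x => ?_⟩
      rw [h1]
      apply integral_congr_ae
      filter_upwards with y
      rw [map_mul, MvPolynomial.eval_X]
      simp only [Sum.elim_inr]
      ring

/-- uniform convergence of the convolutions with the Landau kernels -/
theorem L1_unif {E F : Type*} [NormedAddCommGroup E] [NormedSpace ℝ E] [FiniteDimensional ℝ E]
    [MeasurableSpace E] [BorelSpace E] (μ : Measure E) [μ.IsAddHaarMeasure]
    [NormedAddCommGroup F] [NormedSpace ℝ F] [CompleteSpace F]
    (G : E → F) (hG : Continuous G) (R L ε : ℝ) (hL : 0 < L) (hε : 0 < ε) :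
    ∃ N : ℕ, ∀ n ≥ N, ∀ x, ‖x‖ ≤ R →
      ‖(∫ z in Metric.closedBall 0 L, (1 - (L ^ 2)⁻¹ * ‖z‖ ^ 2) ^ n ∂μ)⁻¹ •
        (∫ z in Metric.closedBall 0 L, (1 - (L ^ 2)⁻¹ * ‖z‖ ^ 2) ^ n • G (x - z) ∂μ) - G x‖ ≤ ε := by
  set s : Set E := Metric.closedBall 0 L with hs
  set c : E → ℝ := fun z => 1 - (L ^ 2)⁻¹ * ‖z‖ ^ 2 with hc
  have hcc : Continuous c := by
    rw [hc]; fun_prop
  let K : Set E := Metric.closedBall 0 R
  have hK : IsCompact K := isCompact_closedBall _ _
  have : CompactSpace K := isCompact_iff_compactSpace.1 hK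
  let G' : C(E × K, F) := ⟨fun p => G ((p.2 : E) - p.1), by fun_prop⟩
  let g : C(E, C(K, F)) := G'.curry
  have hgv : ∀ (z : E) (x : K), g z x = G ((x : E) - z) := fun z x => rfl
  have htend := tendsto_setIntegral_pow_smul_of_unique_maximum_of_isCompact_of_continuousOn
    (μ := μ) (s := s) (x₀ := 0) (c := c) (g := g)
    (isCompact_closedBall _ _) hcc.continuousOn
    (by
      intro y hy hy0
      have : 0 < ‖y‖ := norm_pos_iff.2 hy0
      have h1 : 0 < (L ^ 2)⁻¹ * ‖y‖ ^ 2 := by positivity
      simp only [hc, norm_zero]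
      linarith [h1])
    (by
      intro y hy
      have hy' : ‖y‖ ≤ L := by simpa [hs] using hy
      have h1 : ‖y‖ ^ 2 ≤ L ^ 2 := by gcongr
      have h2 : (L ^ 2)⁻¹ * ‖y‖ ^ 2 ≤ 1 := by
        rw [inv_mul_le_iff₀ (by positivity), mul_one]
        exact h1
      simp only [hc]
      linarith)
    (by simp [hc])
    (by
      apply subset_closure
      rw [mem_interior_iff_mem_nhds]
      exact Metric.closedBall_mem_nhds _ hL)
    g.continuous.continuousOn
  rw [Metric.tendsto_atTop] at htend
  obtain ⟨N, hN⟩ := htend ε hε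
  refine ⟨N, fun n hn x hx => ?_⟩
  have hn := hN n hn
  have hxK : x ∈ K := by simpa [K] using hx
  have hint : IntegrableOn (fun z => c z ^ n • g z) s μ := by
    apply ContinuousOn.integrableOn_compact (isCompact_closedBall _ _)
    exact ((hcc.pow n).smul g.continuous).continuousOn
  have h1 : (∫ z in s, c z ^ n • g z ∂μ) (⟨x, hxK⟩ : K) = ∫ z in s, c z ^ n • G (x - z) ∂μ :=
    ((ContinuousMap.evalCLM ℝ (⟨x, hxK⟩ : K)).integral_comp_comm hint).symm
  have hd := (ContinuousMap.dist_apply_le_dist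
    (f := (∫ z in s, c z ^ n ∂μ)⁻¹ • ∫ z in s, c z ^ n • g z ∂μ) (g := g 0)
    (⟨x, hxK⟩ : K)).trans hn.le
  rw [ContinuousMap.smul_apply, h1, hgv, dist_eq_norm, sub_zero] at hd
  exact hd

theorem L1_core {ι : Type*} [Fintype ι] (f : EuclideanSpace ℝ ι → ℝ) (hf : ContDiff ℝ 1 f)
    (R ε : ℝ) (hR : 0 ≤ R) (hε : 0 < ε) (hsupp : ∀ y, R + 2 < ‖y‖ → f y = 0) :
    ∃ p : MvPolynomial ι ℝ, ∀ x, ‖x‖ ≤ R →
      |ev p x - f x| ≤ ε ∧ ‖fderiv ℝ (ev p) x - fderiv ℝ f x‖ ≤ ε := by
  have hfc : Continuous f := hf.continuous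
  have hfd : Continuous (fderiv ℝ f) := hf.continuous_fderiv (by norm_num)
  have hfcs : HasCompactSupport f := by
    apply HasCompactSupport.intro (isCompact_closedBall (0 : EuclideanSpace ℝ ι) (R + 2))
    intro x hx
    apply hsupp
    simpa using hx
  have hfdcs : HasCompactSupport (fderiv ℝ f) := hfcs.fderiv ℝ
  obtain ⟨B, hB⟩ := hfd.bounded_above_of_compact_support hfdcs
  set L : ℝ := 2 * R + 4 with hL
  have hLpos : 0 < L := by linarith
  obtain ⟨N₁, hN₁⟩ := L1_unif (volume : Measure (EuclideanSpace ℝ ι)) f hfc R L ε hLpos hε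
  obtain ⟨N₂, hN₂⟩ := L1_unif (volume : Measure (EuclideanSpace ℝ ι)) (fderiv ℝ f) hfd R L ε
    hLpos hε
  set n := max N₁ N₂ with hndef
  have hn1 := hN₁ n (le_max_left _ _)
  have hn2 := hN₂ n (le_max_right _ _)
  set s : Set (EuclideanSpace ℝ ι) := Metric.closedBall 0 L with hs
  set c : EuclideanSpace ℝ ι → ℝ := fun z => 1 - (L ^ 2)⁻¹ * ‖z‖ ^ 2 with hc
  have hcc : Continuous c := by
    rw [hc]; fun_prop
  set M : ℝ := (∫ z in s, c z ^ n)⁻¹ with hM
  -- the convolution
  set H : EuclideanSpace ℝ ι → ℝ := fun x => M * ∫ z in s, c z ^ n * f (x - z) with hH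
  -- derivative of the convolution
  have hHd : ∀ x, HasFDerivAt H (M • ∫ z in s, c z ^ n • fderiv ℝ f (x - z)) x := by
    intro x
    have hcb : ∀ z ∈ s, |c z| ≤ 1 := by
      intro z hz
      have hy' : ‖z‖ ≤ L := by simpa [hs] using hz
      have h1 : ‖z‖ ^ 2 ≤ L ^ 2 := by gcongr
      have h2 : (L ^ 2)⁻¹ * ‖z‖ ^ 2 ≤ 1 := by
        rw [inv_mul_le_iff₀ (by positivity), mul_one]
        exact h1
      have h3 : 0 ≤ (L ^ 2)⁻¹ * ‖z‖ ^ 2 := by positivity
      simp only [hc]
      rw [abs_le]
      constructor <;> linarith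
    have hmain : HasFDerivAt (fun x => ∫ z in s, c z ^ n * f (x - z))
        (∫ z in s, c z ^ n • fderiv ℝ f (x - z)) x := by
      apply hasFDerivAt_integral_of_dominated_of_fderiv_le (μ := volume.restrict s)
        (F := fun x z => c z ^ n * f (x - z))
        (F' := fun x z => c z ^ n • fderiv ℝ f (x - z)) (x₀ := x) (bound := fun _ => B)
        (s := Set.univ) Filter.univ_mem
      · filter_upwards with x'
        apply Continuous.aestronglyMeasurable
        fun_prop
      · apply ContinuousOn.integrableOn_compact (isCompact_closedBall _ _)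
        apply Continuous.continuousOn
        fun_prop
      · apply Continuous.aestronglyMeasurable
        fun_prop
      · rw [ae_restrict_iff' measurableSet_closedBall]
        filter_upwards with z hz x' _
        rw [norm_smul, norm_pow, Real.norm_eq_abs]
        have h1 : |c z| ^ n ≤ 1 := pow_le_one₀ (abs_nonneg _) (hcb z hz)
        calc |c z| ^ n * ‖fderiv ℝ f (x' - z)‖ ≤ 1 * B := by
              gcongr
              exact hB _
          _ = B := one_mul _
      · have : IntegrableOn (fun _ : EuclideanSpace ℝ ι => B) s volume := by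
          apply ContinuousOn.integrableOn_compact (isCompact_closedBall _ _)
          exact continuousOn_const
        exact this
      · filter_upwards with z x' _
        have h1 : HasFDerivAt f (fderiv ℝ f (x' - z)) (x' - z) :=
          (hf.differentiable (by norm_num)).differentiableAt.hasFDerivAt
        have h2 : HasFDerivAt (fun x => f (x - z)) (fderiv ℝ f (x' - z)) x' :=
          h1.comp x' ((hasFDerivAt_id x').sub_const z)
        exact h2.const_mul (c z ^ n)
    exact hmain.const_mul M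
  -- the polynomial
  let P : MvPolynomial (ι ⊕ ι) ℝ :=
    (1 - MvPolynomial.C ((L ^ 2)⁻¹) *
      ∑ i, (MvPolynomial.X (Sum.inl i) - MvPolynomial.X (Sum.inr i)) ^ 2) ^ n
  have hPev : ∀ x y : EuclideanSpace ℝ ι,
      MvPolynomial.eval (Sum.elim x.ofLp y.ofLp) P = c (x - y) ^ n := by
    intro x y
    simp only [P, hc, map_pow, map_sub, map_one, map_mul, MvPolynomial.eval_C, map_sum,
      MvPolynomial.eval_X, Sum.elim_inl, Sum.elim_inr]
    rw [EuclideanSpace.norm_sq_eq]
    simp
  obtain ⟨Q, hQ⟩ := L1_kernel P f hfc hfcs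
  have hHQ : ∀ x, ‖x‖ < R + 1 → ev (MvPolynomial.C M * Q) x = H x := by
    intro x hx
    have e : ev (MvPolynomial.C M * Q) x = M * ev Q x := by simp [ev]
    rw [e, hQ, hH]
    simp only
    congr 1
    rw [setIntegral_eq_integral_of_forall_compl_eq_zero]
    · rw [← integral_sub_left_eq_self
        (fun y => MvPolynomial.eval (Sum.elim x.ofLp y.ofLp) P * f y) volume x]
      apply integral_congr_ae
      filter_upwards with z
      rw [hPev, sub_sub_cancel]
    · intro z hz
      have hz' : L < ‖z‖ := by simpa [hs] using hz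
      have h1 : ‖z‖ ≤ ‖x‖ + ‖x - z‖ := by
        have := norm_sub_le x (x - z)
        rwa [sub_sub_cancel] at this
      rw [hsupp (x - z) (by linarith), mul_zero]
  refine ⟨MvPolynomial.C M * Q, fun x hx => ?_⟩
  have hnhds : ev (MvPolynomial.C M * Q) =ᶠ[𝓝 x] H := by
    have : Metric.ball (0 : EuclideanSpace ℝ ι) (R + 1) ∈ 𝓝 x := by
      apply Metric.isOpen_ball.mem_nhds
      rw [mem_ball_zero_iff]
      linarith
    filter_upwards [this] with y hy
    apply hHQ
    simpa using hy
  constructor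
  · rw [hnhds.eq_of_nhds, ← Real.norm_eq_abs]
    exact hn1 x hx
  · rw [hnhds.fderiv_eq, (hHd x).fderiv]
    exact hn2 x hx

theorem poly_approx {ι : Type*} [Fintype ι] (f : EuclideanSpace ℝ ι → ℝ) (hf : ContDiff ℝ 1 f)
    (R ε : ℝ) (hε : 0 < ε) : ∃ p : MvPolynomial ι ℝ, ∀ x, ‖x‖ ≤ R →
      |ev p x - f x| ≤ ε ∧ ‖fderiv ℝ (ev p) x - fderiv ℝ f x‖ ≤ ε := by
  by_cases hR : R < 0
  · exact ⟨0, fun x hx => absurd (norm_nonneg x) (by linarith)⟩
  push Not at hR
  let χ : ContDiffBump (0 : EuclideanSpace ℝ ι) := ⟨R + 1, R + 2, by linarith, by linarith⟩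
  have hf₁ : ContDiff ℝ 1 (fun x => χ x * f x) := χ.contDiff.mul hf
  obtain ⟨p, hp⟩ := L1_core (fun x => χ x * f x) hf₁ R ε hR hε (by
    intro y hy
    have : χ y = 0 := by
      apply χ.zero_of_le_dist
      rw [dist_zero_right]
      exact hy.le
    simp only [this, zero_mul])
  refine ⟨p, fun x hx => ?_⟩
  have heq : (fun x => χ x * f x) =ᶠ[𝓝 x] f := by
    have : Metric.ball (0 : EuclideanSpace ℝ ι) (R + 1) ∈ 𝓝 x := by
      apply Metric.isOpen_ball.mem_nhds
      rw [mem_ball_zero_iff]
      linarith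
    filter_upwards [this] with y hy
    have : χ y = 1 := by
      apply χ.one_of_mem_closedBall
      exact Metric.ball_subset_closedBall hy
    rw [this, one_mul]
  have h := hp x hx
  rw [heq.fderiv_eq] at h
  refine ⟨?_, h.2⟩
  have h2 : χ x * f x = f x := heq.eq_of_nhds
  have h1 := h.1
  rwa [h2] at h1

end Pool.Agent.H212R2.KLS
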