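import Pool.Agent.H212R2.KLS.Defs

/-!
# Simple facts on `O(m)`-invariant log-concave densities (task L2)
-/

set_option autoImplicit false

namespace Pool.Agent.H212R2.KLS

open MeasureTheory Set Matrix
open scoped ENNReal RealInnerProductSpace

/-- left multiplication as a linear map -/
def l2_lin {m n : ℕ} (g : Matrix (Fin m) (Fin m) ℝ) : E m n →ₗ[ℝ] E m n where
  toFun := lm g
  map_add' X Y := by
    ext p
    change (g * toM (X + Y)) p.1 p.2 = (g * toM X) p.1 p.2 + (g * toM Y) p.1 p.2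
    have : toM (X + Y) = toM X + toM Y := rfl
    rw [this, Matrix.mul_add, Matrix.add_apply]
  map_smul' c X := by
    ext p
    change (g * toM (c • X)) p.1 p.2 = c * (g * toM X) p.1 p.2
    have : toM (c • X) = c • toM X := rfl
    rw [this, Matrix.mul_smul, Matrix.smul_apply, smul_eq_mul]

theorem l2_lin_apply {m n : ℕ} (g : Matrix (Fin m) (Fin m) ℝ) (X : E m n) :
    l2_lin g X = lm g X := rfl

theorem l2_norm_sq {m n : ℕ} (X : E m n) : ‖X‖ ^ 2 = ∑ j, ((toM X)ᵀ * toM X) j j := by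
  rw [EuclideanSpace.norm_sq_eq, Fintype.sum_prod_type, Finset.sum_comm]
  refine Finset.sum_congr rfl fun j _ => ?_
  rw [Matrix.mul_apply]
  refine Finset.sum_congr rfl fun i _ => ?_
  rw [Matrix.transpose_apply, toM_apply, Real.norm_eq_abs, sq_abs, pow_two]

theorem l2_gtg {m : ℕ} {g : Matrix (Fin m) (Fin m) ℝ} (hg : g ∈ Matrix.orthogonalGroup (Fin m) ℝ) :
    gᵀ * g = 1 := (Matrix.mem_orthogonalGroup_iff' (Fin m) ℝ).1 hg

theorem l2_norm {m n : ℕ} {g : Matrix (Fin m) (Fin m) ℝ}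
    (hg : g ∈ Matrix.orthogonalGroup (Fin m) ℝ) (X : E m n) : ‖lm g X‖ = ‖X‖ := by
  have h : ‖lm g X‖ ^ 2 = ‖X‖ ^ 2 := by
    rw [l2_norm_sq, l2_norm_sq]
    have : (toM (lm g X))ᵀ * toM (lm g X) = (toM X)ᵀ * toM X := by
      change (g * toM X)ᵀ * (g * toM X) = _
      rw [Matrix.transpose_mul, Matrix.mul_assoc, ← Matrix.mul_assoc gᵀ, l2_gtg hg, Matrix.one_mul]
    rw [this]
  exact (sq_eq_sq₀ (norm_nonneg _) (norm_nonneg _)).1 h

/-- left multiplication by an orthogonal matrix as an isometry -/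
noncomputable def l2_iso {m n : ℕ} {g : Matrix (Fin m) (Fin m) ℝ}
    (hg : g ∈ Matrix.orthogonalGroup (Fin m) ℝ) : E m n ≃ₗᵢ[ℝ] E m n :=
  LinearIsometry.toLinearIsometryEquiv ⟨l2_lin g, fun X => l2_norm hg X⟩ rfl

theorem l2_iso_apply {m n : ℕ} {g : Matrix (Fin m) (Fin m) ℝ}
    (hg : g ∈ Matrix.orthogonalGroup (Fin m) ℝ) (X : E m n) : l2_iso hg X = lm g X := rfl

theorem l2_mp {m n : ℕ} {g : Matrix (Fin m) (Fin m) ℝ}
    (hg : g ∈ Matrix.orthogonalGroup (Fin m) ℝ) :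
    MeasurePreserving (lm g : E m n → E m n) volume volume :=
  (l2_iso hg).measurePreserving

theorem l2_neg_one {m : ℕ} : (-1 : Matrix (Fin m) (Fin m) ℝ) ∈ Matrix.orthogonalGroup (Fin m) ℝ := by
  rw [Matrix.mem_orthogonalGroup_iff]
  simp

theorem l2_lm_neg {m n : ℕ} (X : E m n) : lm (-1 : Matrix (Fin m) (Fin m) ℝ) X = -X := by
  ext p
  change ((-1 : Matrix (Fin m) (Fin m) ℝ) * toM X) p.1 p.2 = -(X p)
  rw [Matrix.neg_mul, Matrix.one_mul]
  rfl

theorem l2_le_zero {m n : ℕ} {ρ : E m n → ℝ} (hρ : Dens m n ρ) (x : E m n) : ρ x ≤ ρ 0 := by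
  have h1 : ρ (-x) = ρ x := by
    rw [← l2_lm_neg]; exact hρ.inv _ l2_neg_one x
  have h2 := hρ.logc x (-x) (1 / 2) (by norm_num) (by norm_num)
  rw [h1] at h2
  have h3 : (1 - 1 / 2 : ℝ) • x + (1 / 2 : ℝ) • (-x) = 0 := by
    rw [smul_neg]
    norm_num
  rw [h3] at h2
  have h4 : ρ x ^ (1 - 1 / 2 : ℝ) * ρ x ^ (1 / 2 : ℝ) = ρ x := by
    rcases (hρ.nonneg x).eq_or_lt with h | h
    · rw [← h]; norm_num
    · rw [← Real.rpow_add h]; norm_num
  rwa [h4] at h2

theorem l2_map {m n : ℕ} {ρ : E m n → ℝ} (hρ : Dens m n ρ) {g : Matrix (Fin m) (Fin m) ℝ}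
    (hg : g ∈ Matrix.orthogonalGroup (Fin m) ℝ) : (mu ρ).map (lm g) = mu ρ := by
  have hmp := l2_mp (n := n) hg
  ext s hs
  rw [Measure.map_apply hmp.measurable hs]
  unfold mu
  rw [withDensity_apply _ (hmp.measurable hs), withDensity_apply _ hs]
  rw [← hmp.setLIntegral_comp_preimage hs (hρ.meas.ennreal_ofReal)]
  refine lintegral_congr fun x => ?_
  rw [hρ.inv g hg x]

theorem l2_finite {m n : ℕ} {ρ : E m n → ℝ} (hρ : Dens m n ρ) (hb : Bdd ρ) :
    IsFiniteMeasure (mu ρ) := by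
  obtain ⟨R, hR⟩ := hb
  refine ⟨?_⟩
  unfold mu
  rw [withDensity_apply _ MeasurableSet.univ, Measure.restrict_univ]
  have h1 : ∫⁻ x, ENNReal.ofReal (ρ x) ≤
      ∫⁻ x, (Metric.closedBall (0 : E m n) R).indicator (fun _ => ENNReal.ofReal (ρ 0)) x := by
    refine lintegral_mono fun x => ?_
    by_cases hx : x ∈ Metric.closedBall (0 : E m n) R
    · rw [indicator_of_mem hx]
      exact ENNReal.ofReal_le_ofReal (l2_le_zero hρ x)
    · rw [indicator_of_notMem hx]
      rw [mem_closedBall_zero_iff, not_le] at hx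
      rw [hR x hx, ENNReal.ofReal_zero]
  refine lt_of_le_of_lt h1 ?_
  rw [lintegral_indicator_const measurableSet_closedBall]
  exact ENNReal.mul_lt_top ENNReal.ofReal_lt_top measure_closedBall_lt_top

theorem l2_trunc {m n : ℕ} {ρ : E m n → ℝ} (hρ : Dens m n ρ) (S : Set (E m n))
    (hS : MeasurableSet S)
    (hconv : ∀ x ∈ S, ∀ y ∈ S, ∀ t : ℝ, 0 < t → t < 1 → (1 - t) • x + t • y ∈ S)
    (hinv : ∀ g ∈ Matrix.orthogonalGroup (Fin m) ℝ, ∀ x, lm g x ∈ S ↔ x ∈ S) :
    Dens m n (S.indicator ρ) where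
  nonneg x := indicator_nonneg (fun y _ => hρ.nonneg y) x
  meas := hρ.meas.indicator hS
  logc x y t h0 h1 := by
    have hnn : 0 ≤ S.indicator ρ ((1 - t) • x + t • y) :=
      indicator_nonneg (fun y _ => hρ.nonneg y) _
    by_cases hx : x ∈ S
    · by_cases hy : y ∈ S
      · rw [indicator_of_mem hx, indicator_of_mem hy,
          indicator_of_mem (hconv x hx y hy t h0 h1)]
        exact hρ.logc x y t h0 h1
      · rw [indicator_of_notMem hy, Real.zero_rpow h0.ne', mul_zero]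
        exact hnn
    · rw [indicator_of_notMem hx, Real.zero_rpow (by linarith), zero_mul]
      exact hnn
  inv g hg x := by
    by_cases hx : x ∈ S
    · rw [indicator_of_mem hx, indicator_of_mem ((hinv g hg x).2 hx), hρ.inv g hg x]
    · rw [indicator_of_notMem hx, indicator_of_notMem (fun h => hx ((hinv g hg x).1 h))]

theorem l2_mv_lm {m n : ℕ} {g : Matrix (Fin m) (Fin m) ℝ}
    (hg : g ∈ Matrix.orthogonalGroup (Fin m) ℝ) (X : E m n) (v : V n) :
    ‖mv (lm g X) v‖ = ‖mv X v‖ := by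
  have h : ∀ w : Fin m → ℝ, ‖(WithLp.toLp 2 w : V m)‖ ^ 2 = w ⬝ᵥ w := by
    intro w
    rw [EuclideanSpace.norm_sq_eq]
    unfold dotProduct
    refine Finset.sum_congr rfl fun i _ => ?_
    rw [Real.norm_eq_abs, sq_abs, pow_two]
  have h2 : ‖mv (lm g X) v‖ ^ 2 = ‖mv X v‖ ^ 2 := by
    unfold mv
    rw [h, h]
    change ((g * toM X) *ᵥ v.ofLp) ⬝ᵥ ((g * toM X) *ᵥ v.ofLp) = _
    rw [← Matrix.mulVec_mulVec, Matrix.dotProduct_mulVec, Matrix.vecMul_mulVec, l2_gtg hg,
      Matrix.vecMul_one]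
  exact (sq_eq_sq₀ (norm_nonneg _) (norm_nonneg _)).1 h2

theorem l2_mv_add {m n : ℕ} (X Y : E m n) (v : V n) (a b : ℝ) :
    mv (a • X + b • Y) v = a • mv X v + b • mv Y v := by
  ext i
  change (toM (a • X + b • Y) *ᵥ v.ofLp) i = a * (toM X *ᵥ v.ofLp) i + b * (toM Y *ᵥ v.ofLp) i
  have : toM (a • X + b • Y) = a • toM X + b • toM Y := rfl
  rw [this, Matrix.add_mulVec, Matrix.smul_mulVec, Matrix.smul_mulVec]
  rfl

theorem l2_mv_cont {m n : ℕ} (v : V n) : Continuous fun X : E m n => mv X v := by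
  let f : E m n →ₗ[ℝ] V m :=
    { toFun := fun X => mv X v
      map_add' := fun X Y => by
        have := l2_mv_add X Y v 1 1
        simpa using this
      map_smul' := fun c X => by
        have := l2_mv_add X X v c 0
        simpa using this }
  exact f.continuous_of_finiteDimensional

theorem l2_OpLe_closed {m n : ℕ} (r : ℝ) : IsClosed {X : E m n | OpLe r X} := by
  unfold OpLe
  rw [Set.ofPred_forall]
  exact isClosed_iInter fun v => isClosed_le (l2_mv_cont v).norm continuous_const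

set_option linter.unusedVariables false in
theorem Dens.basic {m n : ℕ} {ρ : E m n → ℝ} (hρ : Dens m n ρ) (hm : 1 ≤ m) :
    (∀ x, ρ x ≤ ρ 0) ∧ (∀ g ∈ Matrix.orthogonalGroup (Fin m) ℝ, (mu ρ).map (lm g) = mu ρ) ∧
    (Bdd ρ → IsFiniteMeasure (mu ρ)) ∧ (∀ r, Dens m n ({x | OpLe r x}.indicator ρ)) ∧
    (∀ r, Dens m n ({x | ‖x‖ ≤ r}.indicator ρ)) := by
  refine ⟨l2_le_zero hρ, fun g hg => l2_map hρ hg, l2_finite hρ, fun r => ?_, fun r => ?_⟩
  · refine l2_trunc hρ _ (l2_OpLe_closed r).measurableSet ?_ ?_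
    · intro x hx y hy t h0 h1 v
      rw [l2_mv_add]
      have hx' := hx v
      have hy' := hy v
      calc ‖(1 - t) • mv x v + t • mv y v‖ ≤ ‖(1 - t) • mv x v‖ + ‖t • mv y v‖ := norm_add_le _ _
        _ = (1 - t) * ‖mv x v‖ + t * ‖mv y v‖ := by
          rw [norm_smul, norm_smul, Real.norm_of_nonneg (by linarith), Real.norm_of_nonneg h0.le]
        _ ≤ (1 - t) * (r * ‖v‖) + t * (r * ‖v‖) := by
          have : 0 ≤ 1 - t := by linarith
          gcongr
        _ = r * ‖v‖ := by ring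
    · intro g hg x
      constructor
      · intro h v
        have := h v
        rwa [l2_mv_lm hg] at this
      · intro h v
        have := h v
        rwa [← l2_mv_lm hg] at this
  · refine l2_trunc hρ _ (isClosed_le continuous_norm continuous_const).measurableSet ?_ ?_
    · intro x hx y hy t h0 h1
      have hx' : ‖x‖ ≤ r := hx
      have hy' : ‖y‖ ≤ r := hy
      change ‖(1 - t) • x + t • y‖ ≤ r
      calc ‖(1 - t) • x + t • y‖ ≤ ‖(1 - t) • x‖ + ‖t • y‖ := norm_add_le _ _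
        _ = (1 - t) * ‖x‖ + t * ‖y‖ := by
          rw [norm_smul, norm_smul, Real.norm_of_nonneg (by linarith), Real.norm_of_nonneg h0.le]
        _ ≤ (1 - t) * r + t * r := by
          have : 0 ≤ 1 - t := by linarith
          gcongr
        _ = r := by ring
    · intro g hg x
      change ‖lm g x‖ ≤ r ↔ ‖x‖ ≤ r
      rw [l2_norm hg]

end Pool.Agent.H212R2.KLS
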