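import Pool.Agent.H212R2.KLS.Defs

/-!
# R10: the change of variables `G = P ^ 2` on positive definite matrices
-/

set_option autoImplicit false

namespace Pool.Agent.H212R2.KLS

open MeasureTheory Set Matrix
open scoped ENNReal

namespace R10

theorem sM_herm {n : ℕ} (P : Sy n) : (sM P).IsHermitian := by
  rw [Matrix.IsHermitian, Matrix.conjTranspose_eq_transpose_of_trivial]
  exact sM_transpose P

theorem mem_PD_iff {n : ℕ} (P : Sy n) : P ∈ PD n ↔ (sM P).PosDef := by
  rw [Matrix.posDef_iff_dotProduct_mulVec]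
  constructor
  · intro h
    refine ⟨sM_herm P, fun x hx => ?_⟩
    simpa using h x hx
  · intro h v hv
    simpa using h.2 hv

theorem sM_injective {n : ℕ} : Function.Injective (sM : Sy n → Matrix (Fin n) (Fin n) ℝ) := by
  intro P Q h
  apply Subtype.ext
  have : ofM (sM P) = ofM (sM Q) := by rw [h]
  exact this

theorem continuous_sM {n : ℕ} : Continuous (sM : Sy n → Matrix (Fin n) (Fin n) ℝ) := by
  apply continuous_matrix
  intro i j
  have h1 : Continuous fun P : Sy n => (P : E n n) := continuous_subtype_val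
  have h2 : Continuous fun X : E n n => X (i, j) := by fun_prop
  exact h2.comp h1

theorem measurableSet_PD (n : ℕ) : MeasurableSet (PD n) := by
  have h : PD n = (⋂ v : Fin n → ℝ, {P : Sy n | 0 ≤ v ⬝ᵥ (sM P *ᵥ v)}) ∩
      {P : Sy n | (sM P).det ≠ 0} := by
    ext P
    rw [mem_PD_iff]
    constructor
    · intro hP
      refine ⟨?_, hP.det_pos.ne'⟩
      rw [mem_iInter]
      intro v
      simpa using hP.posSemidef.dotProduct_mulVec_nonneg v
    · rintro ⟨h1, h2⟩
      rw [mem_iInter] at h1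
      have h3 : (sM P).PosSemidef :=
        Matrix.PosSemidef.of_dotProduct_mulVec_nonneg (sM_herm P) fun v => by simpa using h1 v
      exact (h3.posDef_iff_det_ne_zero).2 h2
  rw [h]
  apply MeasurableSet.inter
  · apply IsClosed.measurableSet
    apply isClosed_iInter
    intro v
    apply isClosed_le continuous_const
    exact Continuous.dotProduct continuous_const
      (Continuous.matrix_mulVec continuous_sM continuous_const)
  · apply IsOpen.measurableSet
    exact isOpen_ne_fun (Continuous.matrix_det continuous_sM) continuous_const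

theorem norm_sq_E {m n : ℕ} (X : E m n) : ‖X‖ ^ 2 = ∑ i, ∑ j, X (i, j) ^ 2 := by
  rw [EuclideanSpace.norm_sq_eq, Fintype.sum_prod_type]
  simp

theorem norm_sq_le {n : ℕ} (H : Sy n) : ‖sq H‖ ≤ ‖H‖ ^ 2 := by
  have h1 : ‖sq H‖ ^ 2 ≤ (‖H‖ ^ 2) ^ 2 := by
    change ‖(sq H : E n n)‖ ^ 2 ≤ (‖(H : E n n)‖ ^ 2) ^ 2
    rw [norm_sq_E]
    have h2 : ∀ i j, ((sq H : E n n) (i, j)) ^ 2 ≤
        (∑ k, (H : E n n) (i, k) ^ 2) * (∑ k, (H : E n n) (k, j) ^ 2) := by
      intro i j
      have : (sq H : E n n) (i, j) = ∑ k, (H : E n n) (i, k) * (H : E n n) (k, j) := rfl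
      rw [this]
      exact Finset.sum_mul_sq_le_sq_mul_sq _ _ _
    have h3 : (‖(H : E n n)‖ ^ 2) ^ 2 = ∑ i, ∑ j,
        (∑ k, (H : E n n) (i, k) ^ 2) * (∑ k, (H : E n n) (k, j) ^ 2) := by
      have h4 : ‖(H : E n n)‖ ^ 2 = ∑ j, ∑ k, (H : E n n) (k, j) ^ 2 := by
        rw [norm_sq_E, Finset.sum_comm]
      rw [pow_two]
      conv_lhs => 
        congr
        · rw [norm_sq_E]
        · rw [h4]
      rw [Finset.sum_mul_sum]
    rw [h3]
    exact Finset.sum_le_sum fun i _ => Finset.sum_le_sum fun j _ => h2 i j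
  exact (pow_le_pow_iff_left₀ (norm_nonneg _) (by positivity) two_ne_zero).1 h1

theorem sq_add {n : ℕ} (P H : Sy n) : sq (P + H) = sq P + KK P H + sq H := by
  apply sM_injective
  have h1 : sM (P + H) = sM P + sM H := rfl
  have h2 : sM (sq P + KK P H + sq H) = sM P * sM P + (sM P * sM H + sM H * sM P) +
    sM H * sM H := rfl
  rw [h2]
  change sM (P + H) * sM (P + H) = _
  rw [h1]
  noncomm_ring

theorem hasFDerivAt_sq {n : ℕ} (P : Sy n) :
    HasFDerivAt (sq : Sy n → Sy n) (LinearMap.toContinuousLinearMap (KK P)) P := by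
  rw [hasFDerivAt_iff_isLittleO_nhds_zero]
  have h1 : (fun h : Sy n => sq (P + h) - sq P - (LinearMap.toContinuousLinearMap (KK P)) h) =
      fun h => sq h := by
    funext h
    rw [sq_add]
    simp only [LinearMap.coe_toContinuousLinearMap']
    abel
  rw [h1]
  have h2 : (fun h : Sy n => sq h) =O[nhds 0] fun h => ‖h‖ ^ 2 := by
    apply Asymptotics.IsBigO.of_bound 1
    filter_upwards with h
    rw [one_mul]
    simpa using norm_sq_le h
  refine h2.trans_isLittleO ?_
  have h3 : (fun h : Sy n => ‖h‖ ^ 2) =o[nhds 0] fun h => h :=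
    Asymptotics.isLittleO_norm_pow_id one_lt_two
  exact h3

theorem inner_eq {n : ℕ} (S T : Sy n) : inner ℝ S T = (sM S * sM T).trace := by
  have h1 : inner ℝ S T = ∑ p : Fin n × Fin n, (S : E n n) p * (T : E n n) p := by
    rw [Submodule.coe_inner, PiLp.inner_apply]
    apply Finset.sum_congr rfl
    intro p _
    simp [mul_comm]
  rw [h1, Fintype.sum_prod_type]
  simp only [Matrix.trace, Matrix.diag, Matrix.mul_apply]
  apply Finset.sum_congr rfl
  intro i _
  apply Finset.sum_congr rfl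
  intro j _
  have h2 : (T : E n n) (i, j) = sM T j i := T.2 i j
  rw [h2]
  rfl

theorem KK_symm {n : ℕ} (P : Sy n) : (KK P).IsSymmetric := by
  intro S T
  rw [inner_eq, inner_eq]
  change ((sM P * sM S + sM S * sM P) * sM T).trace =
    (sM S * (sM P * sM T + sM T * sM P)).trace
  rw [Matrix.add_mul, Matrix.mul_add, Matrix.trace_add, Matrix.trace_add, add_comm]
  congr 1
  · rw [Matrix.mul_assoc]
  · rw [Matrix.mul_assoc, Matrix.trace_mul_comm, Matrix.mul_assoc]

theorem KK_pos {n : ℕ} {P : Sy n} (hP : P ∈ PD n) {S : Sy n} (hS : S ≠ 0) :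
    0 < inner ℝ (KK P S) S := by
  rw [inner_eq]
  change 0 < ((sM P * sM S + sM S * sM P) * sM S).trace
  have h1 : ((sM P * sM S + sM S * sM P) * sM S).trace =
      2 * ((sM S)ᴴ * sM P * sM S).trace := by
    rw [(sM_herm S).eq, Matrix.add_mul, Matrix.trace_add, Matrix.mul_assoc, Matrix.trace_mul_comm,
      two_mul]
    congr 1
    rw [Matrix.mul_assoc, Matrix.mul_assoc, Matrix.trace_mul_comm, Matrix.mul_assoc]
  rw [h1]
  have hPD := (mem_PD_iff P).1 hP
  have h2 : ((sM S)ᴴ * sM P * sM S).PosSemidef :=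
    hPD.posSemidef.conjTranspose_mul_mul_same _
  have h3 : 0 ≤ ((sM S)ᴴ * sM P * sM S).trace := h2.trace_nonneg
  rcases h3.lt_or_eq with h4 | h4
  · linarith
  · exfalso
    rw [eq_comm, h2.trace_eq_zero_iff] at h4
    apply hS
    apply sM_injective
    have h5 : ∀ x, sM S *ᵥ x = 0 := by
      intro x
      by_contra h6
      have h7 := hPD.dotProduct_mulVec_pos h6
      have h8 : star (sM S *ᵥ x) ⬝ᵥ (sM P *ᵥ (sM S *ᵥ x)) =
          star x ⬝ᵥ (((sM S)ᴴ * sM P * sM S) *ᵥ x) := by
        rw [Matrix.star_mulVec, ← Matrix.dotProduct_mulVec, Matrix.mulVec_mulVec,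
          Matrix.mulVec_mulVec, Matrix.mul_assoc]
      rw [h8, h4, Matrix.zero_mulVec] at h7
      simp at h7
    ext i j
    have := congrFun (h5 (Pi.single j 1)) i
    rw [Matrix.mulVec_single_one] at this
    exact this

theorem det_KK_pos {n : ℕ} {P : Sy n} (hP : P ∈ PD n) : 0 < LinearMap.det (KK P) := by
  rw [(KK_symm P).det_eq_prod_eigenvalues rfl]
  simp only [RCLike.ofReal_real_eq_id, id_eq]
  apply Finset.prod_pos
  intro i _
  have h1 := (KK_symm P).apply_eigenvectorBasis rfl i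
  have hne : (KK_symm P).eigenvectorBasis rfl i ≠ 0 := by
    intro h
    have := ((KK_symm P).eigenvectorBasis rfl).orthonormal.1 i
    rw [h, norm_zero] at this
    exact zero_ne_one this
  have h2 := KK_pos hP hne
  rw [h1, inner_smul_left, real_inner_self_eq_norm_sq,
    ((KK_symm P).eigenvectorBasis rfl).orthonormal.1 i] at h2
  simpa using h2

open scoped MatrixOrder in
theorem injOn_sq {n : ℕ} : InjOn (sq : Sy n → Sy n) (PD n) := by
  intro P hP Q hQ h
  apply sM_injective
  have hP' := (mem_PD_iff P).1 hP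
  have hQ' := (mem_PD_iff Q).1 hQ
  have h1 : sM P * sM P = sM Q * sM Q := congrArg sM h
  have h2 : CFC.sqrt (sM P * sM P) = sM P := CFC.sqrt_unique rfl hP'.posSemidef.nonneg
  have h3 : CFC.sqrt (sM Q * sM Q) = sM Q := CFC.sqrt_unique rfl hQ'.posSemidef.nonneg
  rw [← h2, h1, h3]

theorem sq_mem_PD {n : ℕ} {P : Sy n} (hP : P ∈ PD n) : sq P ∈ PD n := by
  rw [mem_PD_iff] at hP ⊢
  change (sM P * sM P).PosDef
  have h1 : (sM P * sM P).PosSemidef := by
    have := Matrix.posSemidef_conjTranspose_mul_self (sM P)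
    rwa [(sM_herm P).eq] at this
  rw [h1.posDef_iff_det_ne_zero, Matrix.det_mul]
  exact mul_ne_zero hP.det_pos.ne' hP.det_pos.ne'

open scoped MatrixOrder in
theorem exists_sqrt {n : ℕ} {G : Sy n} (hG : G ∈ PD n) : ∃ P ∈ PD n, sq P = G := by
  have hG' := (mem_PD_iff G).1 hG
  have h0 : (CFC.sqrt (sM G)).PosSemidef := (CFC.sqrt_nonneg (sM G)).posSemidef
  have h1 : CFC.sqrt (sM G) * CFC.sqrt (sM G) = sM G :=
    CFC.sqrt_mul_sqrt_self (sM G) hG'.posSemidef.nonneg
  have h2 : (CFC.sqrt (sM G))ᵀ = CFC.sqrt (sM G) := by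
    have := h0.isHermitian
    rwa [Matrix.IsHermitian, Matrix.conjTranspose_eq_transpose_of_trivial] at this
  refine ⟨sOf _ h2, ?_, ?_⟩
  · rw [mem_PD_iff, sM_sOf, h0.posDef_iff_det_ne_zero]
    intro h3
    have h4 := congrArg Matrix.det h1
    rw [Matrix.det_mul, h3, mul_zero] at h4
    exact hG'.det_pos.ne h4
  · apply sM_injective
    exact h1

end R10

open R10 in
theorem sq_formula {n : ℕ} (φ : Sy n → ℝ≥0∞) (hφ : Measurable φ) :
    ∫⁻ G in PD n, φ G ∂(nu n) =
      ∫⁻ P in PD n, φ (sq P) * ENNReal.ofReal (LinearMap.det (KK P)) ∂(nu n) := by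
  have : (nu n).IsAddHaarMeasure := by
    unfold nu
    infer_instance
  have himg : sq '' (PD n) = PD n := by
    ext G
    constructor
    · rintro ⟨P, hP, rfl⟩
      exact sq_mem_PD hP
    · intro hG
      obtain ⟨P, hP, h⟩ := exists_sqrt hG
      exact ⟨P, hP, h⟩
  have h := lintegral_image_eq_lintegral_abs_det_fderiv_mul (μ := nu n) (measurableSet_PD n)
    (fun x _ => (hasFDerivAt_sq x).hasFDerivWithinAt) injOn_sq φ
  rw [himg] at h
  rw [h]
  apply setLIntegral_congr_fun (measurableSet_PD n)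
  intro P hP
  have h1 : (LinearMap.toContinuousLinearMap (KK P)).det = LinearMap.det (KK P) := rfl
  simp only
  rw [h1, abs_of_pos (det_KK_pos hP), mul_comm]

end Pool.Agent.H212R2.KLS
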