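import Pool.Agent.H212R2.KLS.Defs

/-!
# R11: polar decomposition of matrices of full rank
-/

set_option autoImplicit false

namespace Pool.Agent.H212R2.KLS

open MeasureTheory Set Matrix

/-- spectral theorem for real symmetric matrices -/
theorem spec_real {n : ℕ} (A : Matrix (Fin n) (Fin n) ℝ) (hA : Aᵀ = A) :
    ∃ (U : Matrix (Fin n) (Fin n) ℝ) (d : Fin n → ℝ), U * Uᵀ = 1 ∧ Uᵀ * U = 1 ∧
      A = U * diagonal d * Uᵀ := by
  have hH : A.IsHermitian := by
    rw [Matrix.IsHermitian, Matrix.conjTranspose_eq_transpose_of_trivial, hA]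
  have h1 := hH.spectral_theorem
  refine ⟨(hH.eigenvectorUnitary : Matrix (Fin n) (Fin n) ℝ), hH.eigenvalues, ?_, ?_, ?_⟩
  · have := Unitary.coe_mul_star_self hH.eigenvectorUnitary
    rwa [Unitary.coe_star, Matrix.star_eq_conjTranspose,
      Matrix.conjTranspose_eq_transpose_of_trivial] at this
  · have := Unitary.coe_star_mul_self hH.eigenvectorUnitary
    rwa [Matrix.star_eq_conjTranspose,
      Matrix.conjTranspose_eq_transpose_of_trivial] at this
  · rw [Unitary.conjStarAlgAut_apply] at h1
    rw [Matrix.star_eq_conjTranspose, Matrix.conjTranspose_eq_transpose_of_trivial] at h1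
    exact h1

theorem polar {m n : ℕ} (hnm : n ≤ m) (X : E m n) (hX : gram X ∈ PD n) :
    ∃ P ∈ PD n, sq P = gram X ∧ ∃ g ∈ Matrix.orthogonalGroup (Fin m) ℝ, lm g X = io P := by
  obtain ⟨U, d, hU1, hU2, hG⟩ := spec_real (sM (gram X)) (sM_transpose _)
  -- the eigenvalues are positive
  have hd : ∀ i, 0 < d i := by
    intro i
    have hv : (fun k => U k i) ≠ 0 := by
      intro h0
      have h1 := congrFun (congrFun hU2 i) i
      rw [Matrix.mul_apply] at h1
      simp only [Matrix.transpose_apply, Matrix.one_apply_eq] at h1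
      have h2 : ∀ k, U k i = 0 := fun k => congrFun h0 k
      simp [h2] at h1
    have h1 := hX _ hv
    have h2 : Uᵀ *ᵥ (fun k => U k i) = Pi.single i 1 := by
      have : (fun k => U k i) = U *ᵥ Pi.single i 1 := by
        rw [Matrix.mulVec_single_one]; rfl
      rw [this, Matrix.mulVec_mulVec, hU2, Matrix.one_mulVec]
    rw [hG, ← Matrix.mulVec_mulVec, ← Matrix.mulVec_mulVec, h2, Matrix.dotProduct_mulVec,
      ← Matrix.mulVec_transpose, h2] at h1
    simpa [Matrix.diagonal_mulVec_single] using h1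
  -- the square root and its inverse
  have hs : ∀ i, 0 < Real.sqrt (d i) := fun i => Real.sqrt_pos.2 (hd i)
  set R : Matrix (Fin n) (Fin n) ℝ := U * diagonal (fun i => Real.sqrt (d i)) * Uᵀ with hR
  have hRt : Rᵀ = R := by
    rw [hR, Matrix.transpose_mul, Matrix.transpose_mul, Matrix.transpose_transpose,
      Matrix.diagonal_transpose, Matrix.mul_assoc]
  set Q : Matrix (Fin n) (Fin n) ℝ := U * diagonal (fun i => (Real.sqrt (d i))⁻¹) * Uᵀ with hQ
  have hQt : Qᵀ = Q := by
    rw [hQ, Matrix.transpose_mul, Matrix.transpose_mul, Matrix.transpose_transpose,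
      Matrix.diagonal_transpose, Matrix.mul_assoc]
  have conj : ∀ D D' : Matrix (Fin n) (Fin n) ℝ, (U * D * Uᵀ) * (U * D' * Uᵀ) =
      U * (D * D') * Uᵀ := by
    intro D D'
    calc (U * D * Uᵀ) * (U * D' * Uᵀ) = U * D * (Uᵀ * U) * D' * Uᵀ := by
          simp only [Matrix.mul_assoc]
      _ = U * (D * D') * Uᵀ := by rw [hU2, Matrix.mul_one]; simp only [Matrix.mul_assoc]
  have hRR : R * R = sM (gram X) := by
    rw [hR, conj, hG, Matrix.diagonal_mul_diagonal]
    have : (fun i => Real.sqrt (d i) * Real.sqrt (d i)) = d := by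
      funext i
      exact Real.mul_self_sqrt (hd i).le
    rw [this]
  have hRQ : R * Q = 1 := by
    rw [hR, hQ, conj, Matrix.diagonal_mul_diagonal]
    have : (fun i => Real.sqrt (d i) * (Real.sqrt (d i))⁻¹) = fun _ => (1 : ℝ) := by
      funext i
      exact mul_inv_cancel₀ (hs i).ne'
    rw [this, Matrix.diagonal_one, Matrix.mul_one, hU1]
  have hQR : Q * R = 1 := by
    rw [hR, hQ, conj, Matrix.diagonal_mul_diagonal]
    have : (fun i => (Real.sqrt (d i))⁻¹ * Real.sqrt (d i)) = fun _ => (1 : ℝ) := by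
      funext i
      exact inv_mul_cancel₀ (hs i).ne'
    rw [this, Matrix.diagonal_one, Matrix.mul_one, hU1]
  refine ⟨sOf R hRt, ?_, ?_, ?_⟩
  · -- positive definite
    intro v hv
    rw [sM_sOf, hR, ← Matrix.mulVec_mulVec, ← Matrix.mulVec_mulVec, Matrix.dotProduct_mulVec,
      ← Matrix.mulVec_transpose]
    set u := Uᵀ *ᵥ v with hu
    have hu0 : u ≠ 0 := by
      intro h0
      apply hv
      have : U *ᵥ u = v := by rw [hu, Matrix.mulVec_mulVec, hU1, Matrix.one_mulVec]
      rw [← this, h0, Matrix.mulVec_zero]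
    have h1 : u ⬝ᵥ (diagonal (fun i => Real.sqrt (d i)) *ᵥ u) = ∑ i, Real.sqrt (d i) * u i ^ 2 := by
      simp only [dotProduct, Matrix.mulVec_diagonal]
      exact Finset.sum_congr rfl fun i _ => by ring
    rw [h1]
    obtain ⟨i, hi⟩ := Function.ne_iff.1 hu0
    refine Finset.sum_pos' (fun j _ => mul_nonneg (hs j).le (sq_nonneg _)) ⟨i, Finset.mem_univ i, ?_⟩
    exact mul_pos (hs i) (sq_pos_of_ne_zero hi)
  · apply Subtype.ext
    change ofM (R * R) = ofM (sM (gram X))
    rw [hRR]
  · -- the orthogonal matrix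
    set W : Matrix (Fin m) (Fin n) ℝ := toM X * Q with hW
    have hWW : Wᵀ * W = 1 := by
      have h1 : (toM X)ᵀ * toM X = R * R := hRR.symm
      calc Wᵀ * W = Qᵀ * ((toM X)ᵀ * toM X) * Q := by
            rw [hW, Matrix.transpose_mul]; simp only [Matrix.mul_assoc]
        _ = (Q * R) * (R * Q) := by rw [h1, hQt]; simp only [Matrix.mul_assoc]
        _ = 1 := by rw [hQR, hRQ, Matrix.mul_one]
    -- the columns, extended
    let v : Fin m → V m := fun i => if h : (i : ℕ) < n then WithLp.toLp 2 (fun k => W k ⟨i, h⟩) else 0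
    have hv : Orthonormal ℝ (({i : Fin m | (i : ℕ) < n} : Set (Fin m)).domRestrict v) := by
      rw [orthonormal_iff_ite]
      rintro ⟨i, hi⟩ ⟨j, hj⟩
      have hi' : (i : ℕ) < n := hi
      have hj' : (j : ℕ) < n := hj
      have e1 := congrFun (congrFun hWW ⟨i, hi'⟩) ⟨j, hj'⟩
      rw [Matrix.mul_apply] at e1
      simp only [Matrix.transpose_apply, Matrix.one_apply] at e1
      simp only [Set.domRestrict_apply, v, dif_pos hi', dif_pos hj', PiLp.inner_apply,
        RCLike.inner_apply, conj_trivial]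
      have e2 : (∑ x, W x ⟨j, hj'⟩ * W x ⟨i, hi'⟩) = ∑ x, W x ⟨i, hi'⟩ * W x ⟨j, hj'⟩ :=
        Finset.sum_congr rfl fun x _ => mul_comm _ _
      rw [e2, e1]
      by_cases h : i = j
      · subst h; simp
      · have h' : ¬ ((i : ℕ) = j) := fun h2 => h (Fin.ext h2)
        simp [h, h']
    obtain ⟨b, hb⟩ := hv.exists_orthonormalBasis_extension_of_card_eq (by simp)
    refine ⟨Matrix.of fun i k => b i k, ?_, ?_⟩
    · rw [Matrix.mem_orthogonalGroup_iff]
      ext i j
      rw [Matrix.mul_apply, Matrix.one_apply]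
      have h1 := orthonormal_iff_ite.1 b.orthonormal i j
      simp only [PiLp.inner_apply, RCLike.inner_apply, conj_trivial] at h1
      simp only [Matrix.transpose_apply, Matrix.of_apply]
      rw [← h1]
      exact Finset.sum_congr rfl fun x _ => mul_comm _ _
    · have key : (Matrix.of fun i k => b i k) * W = J1 m n := by
        ext i j
        rw [Matrix.mul_apply]
        simp only [Matrix.of_apply, J1]
        have hjm : (j : ℕ) < m := lt_of_lt_of_le j.2 hnm
        have h1 : b ⟨j, hjm⟩ = WithLp.toLp 2 (fun k => W k j) := by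
          rw [hb ⟨j, hjm⟩ j.2]
          simp only [v, dif_pos j.2]
        have h2 := orthonormal_iff_ite.1 b.orthonormal i ⟨j, hjm⟩
        rw [h1] at h2
        simp only [PiLp.inner_apply, RCLike.inner_apply, conj_trivial] at h2
        have e2 : (∑ k, b i k * W k j) = ∑ k, W k j * b i k :=
          Finset.sum_congr rfl fun x _ => mul_comm _ _
        rw [e2, h2]
        by_cases h : (i : ℕ) = j
        · have : i = ⟨j, hjm⟩ := Fin.ext h
          rw [if_pos this, if_pos h]
        · have : i ≠ ⟨j, hjm⟩ := fun h' => h (by rw [h'])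
          rw [if_neg this, if_neg h]
      change ofM ((Matrix.of fun i k => b i k) * toM X) = ofM (J1 m n * R)
      have h3 : toM X = W * R := by
        rw [hW, Matrix.mul_assoc, hQR, Matrix.mul_one]
      rw [h3, ← Matrix.mul_assoc, key]

end Pool.Agent.H212R2.KLS
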