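import Pool.Agent.H212R2.KLS.Defs

/-!
# R12: the radial integration formula
-/

set_option autoImplicit false

namespace Pool.Agent.H212R2.KLS

open MeasureTheory Set Matrix
open scoped ENNReal InnerProductSpace Topology

theorem r12_cont_sM {n : ℕ} (i j : Fin n) : Continuous (fun P : Sy n => sM P i j) := by
  have h : Continuous (fun P : Sy n => (P : E n n) (i, j)) := by fun_prop
  exact h

theorem r12_cont_ofM {Y : Type*} [TopologicalSpace Y] {m n : ℕ}
    (A : Y → Matrix (Fin m) (Fin n) ℝ) (h : ∀ i j, Continuous (fun y => A y i j)) :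
    Continuous (fun y => (ofM (A y) : E m n)) := by
  unfold ofM
  exact (PiLp.continuous_toLp 2 _).comp (continuous_pi (fun p => h p.1 p.2))

theorem r12_cont_sq {n : ℕ} : Continuous (sq : Sy n → Sy n) := by
  apply Continuous.subtype_mk
  apply r12_cont_ofM
  intro i j
  simp only [Matrix.mul_apply]
  exact continuous_finsetSum _ (fun k _ => (r12_cont_sM i k).mul (r12_cont_sM k j))

theorem r12_cont_io {m n : ℕ} : Continuous (io : Sy n → E m n) := by
  apply r12_cont_ofM
  intro i j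
  simp only [Matrix.mul_apply]
  exact continuous_finsetSum _ (fun k _ => continuous_const.mul (r12_cont_sM k j))

theorem r12_cont_det {n : ℕ} : Continuous (fun P : Sy n => (sM P).det) := by
  simp only [Matrix.det_apply]
  exact continuous_finsetSum _ (fun σ _ => (continuous_finsetProd _
    (fun i _ => r12_cont_sM (σ i) i)).const_smul _)

theorem r12_isOpen_PD (n : ℕ) : IsOpen (PD n) := by
  have hc : Continuous (fun q : Sy n × (Fin n → ℝ) => q.2 ⬝ᵥ (sM q.1 *ᵥ q.2)) := by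
    simp only [dotProduct, mulVec]
    refine continuous_finsetSum _ (fun i _ => ?_)
    refine Continuous.mul ((continuous_apply i).comp continuous_snd) ?_
    refine continuous_finsetSum _ (fun j _ => ?_)
    exact ((r12_cont_sM i j).comp continuous_fst).mul ((continuous_apply j).comp continuous_snd)
  have hK : IsCompact (Metric.sphere (0 : Fin n → ℝ) 1) := isCompact_sphere _ _
  have hset : PD n = {P | ∀ v ∈ Metric.sphere (0 : Fin n → ℝ) 1, 0 < v ⬝ᵥ (sM P *ᵥ v)} := by
    ext P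
    constructor
    · intro h v hv
      apply h v
      rintro rfl
      simp at hv
    · intro h v hv
      have hn : 0 < ‖v‖ := norm_pos_iff.2 hv
      have h1 := h (‖v‖⁻¹ • v) (by
        rw [mem_sphere_zero_iff_norm, norm_smul, norm_inv, norm_norm]
        exact inv_mul_cancel₀ hn.ne')
      rw [Matrix.mulVec_smul, smul_dotProduct, dotProduct_smul, smul_eq_mul, smul_eq_mul] at h1
      have h2 : 0 < ‖v‖⁻¹ := inv_pos.2 hn
      exact (mul_pos_iff_of_pos_left h2).1 ((mul_pos_iff_of_pos_left h2).1 h1)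
  rw [hset, isOpen_iff_mem_nhds]
  intro P hP
  apply IsCompact.eventually_forall_of_forall_eventually hK
  intro v hv
  exact (isOpen_lt continuous_const hc).mem_nhds (hP v hv)

theorem r12_sq_inj {n : ℕ} (P Q : Sy n) (hP : P ∈ PD n) (hQ : Q ∈ PD n) (h : sq P = sq Q) :
    P = Q := by
  have h1 : sM P * sM P = sM Q * sM Q := by
    have := congrArg sM h
    exact this
  set K := sM P - sM Q with hK
  have h2 : sM P * K + K * sM Q = 0 := by
    rw [hK, Matrix.mul_sub, Matrix.sub_mul, h1]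
    abel
  have h3 : Matrix.trace (Kᵀ * (sM P * K)) + Matrix.trace (K * (sM Q * Kᵀ)) = 0 := by
    have h4 : Matrix.trace (K * (sM Q * Kᵀ)) = Matrix.trace (Kᵀ * (K * sM Q)) := by
      rw [← Matrix.mul_assoc, Matrix.trace_mul_comm]
    rw [h4, ← Matrix.trace_add, ← Matrix.mul_add, h2, Matrix.mul_zero, Matrix.trace_zero]
  have h5 : ∀ (A : Sy n) (B : Matrix (Fin n) (Fin n) ℝ), A ∈ PD n →
      Matrix.trace (Bᵀ * (sM A * B)) = ∑ j, (fun i => B i j) ⬝ᵥ (sM A *ᵥ (fun i => B i j)) := by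
    intro A B _
    rfl
  have h6 : ∀ (A : Sy n) (B : Matrix (Fin n) (Fin n) ℝ), A ∈ PD n →
      0 ≤ Matrix.trace (Bᵀ * (sM A * B)) ∧ (Matrix.trace (Bᵀ * (sM A * B)) = 0 → B = 0) := by
    intro A B hA
    rw [h5 A B hA]
    have h7 : ∀ v : Fin n → ℝ, 0 ≤ v ⬝ᵥ (sM A *ᵥ v) := by
      intro v
      by_cases hv : v = 0
      · rw [hv]; simp
      · exact (hA v hv).le
    refine ⟨Finset.sum_nonneg (fun j _ => h7 _), ?_⟩
    intro h8
    rw [Finset.sum_eq_zero_iff_of_nonneg (fun j _ => h7 _)] at h8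
    ext i j
    by_contra hne
    have h9 := h8 j (Finset.mem_univ j)
    have h10 := hA (fun i => B i j) (fun h0 => hne (congrFun h0 i))
    linarith
  have h7 := h6 P K hP
  have h8 := h6 Q Kᵀ hQ
  rw [Matrix.transpose_transpose] at h8
  have h9 : Matrix.trace (Kᵀ * (sM P * K)) = 0 := by linarith [h7.1, h8.1]
  have h10 := h7.2 h9
  apply Subtype.ext
  have h11 : sM P = sM Q := by
    rw [hK] at h10
    exact sub_eq_zero.1 h10
  have h12 := congrArg ofM h11
  exact h12

theorem r12_det_pos {n : ℕ} (P : Sy n) (hP : P ∈ PD n) : 0 < (sM P).det := by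
  apply Matrix.PosDef.det_pos
  refine Matrix.PosDef.of_dotProduct_mulVec_pos ?_ ?_
  · rw [Matrix.IsHermitian, Matrix.conjTranspose_eq_transpose_of_trivial]
    exact sM_transpose P
  · intro v hv
    simpa using hP v hv

/-- R12, from the statements of R2b, R8, R9, R10, R11 -/
theorem radial_formula_of {m n : ℕ} (hnm : n ≤ m)
    (h_KK : ∀ P : Sy n,
      LinearMap.det (KK P) = 2 ^ n * (sM P).det * LinearMap.det (KS P))
    (h_gram : (∀ᵐ X : E m n, gram X ∈ PD n) ∧
      ∃ c : ℝ≥0∞, c ≠ 0 ∧ c ≠ ⊤ ∧ ∀ φ : Sy n → ℝ≥0∞, Measurable φ →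
        ∫⁻ X : E m n, φ (gram X) = c * Th m n φ)
    (h_pd : ∃ c : ℝ≥0∞, c ≠ 0 ∧ c ≠ ⊤ ∧ ∀ φ : Sy n → ℝ≥0∞, Measurable φ →
      ∫⁻ G in PD n, φ G * ENNReal.ofReal ((sM G).det ^ (((m : ℝ) - n - 1) / 2)) ∂(nu n) =
        c * Th m n φ)
    (h_sq : ∀ φ : Sy n → ℝ≥0∞, Measurable φ → ∫⁻ G in PD n, φ G ∂(nu n) =
      ∫⁻ P in PD n, φ (sq P) * ENNReal.ofReal (LinearMap.det (KK P)) ∂(nu n))
    (h_polar : ∀ X : E m n, gram X ∈ PD n →
      ∃ P ∈ PD n, sq P = gram X ∧ ∃ g ∈ Matrix.orthogonalGroup (Fin m) ℝ, lm g X = io P) :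
    ∃ c : ℝ≥0∞, c ≠ 0 ∧ c ≠ ⊤ ∧ ∀ F : E m n → ℝ≥0∞, Measurable F →
      (∀ g ∈ Matrix.orthogonalGroup (Fin m) ℝ, ∀ x, F (lm g x) = F x) →
      ∫⁻ X, F X = c * ∫⁻ P in PD n, F (io P) * ENNReal.ofReal (jac m n P) ∂(nu n) := by
  obtain ⟨hae, c1, hc1, hc1', hg⟩ := h_gram
  obtain ⟨c2, hc2, hc2', hp⟩ := h_pd
  refine ⟨c1 * c2⁻¹ * ENNReal.ofReal (2 ^ n), ?_, ?_, ?_⟩
  · refine mul_ne_zero (mul_ne_zero hc1 (ENNReal.inv_ne_zero.2 hc2')) ?_
    rw [ne_eq, ENNReal.ofReal_eq_zero, not_le]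
    positivity
  · exact ENNReal.mul_ne_top (ENNReal.mul_ne_top hc1' (ENNReal.inv_ne_top.2 hc2))
      ENNReal.ofReal_ne_top
  intro F hF hinv
  have hmeasPD : MeasurableSet (PD n) := (r12_isOpen_PD n).measurableSet
  have hemb : MeasurableEmbedding ((PD n).domRestrict (sq : Sy n → Sy n)) :=
    ContinuousOn.measurableEmbedding hmeasPD r12_cont_sq.continuousOn
      (fun P hP Q hQ h => r12_sq_inj P Q hP hQ h)
  set φ : Sy n → ℝ≥0∞ := Function.extend ((PD n).domRestrict (sq : Sy n → Sy n))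
    (fun P : PD n => F (io P.1)) (fun _ => 0) with hφd
  have hφ : Measurable φ :=
    hemb.measurable_extend ((hF.comp r12_cont_io.measurable).comp measurable_subtype_coe)
      measurable_const
  have hφsq : ∀ P ∈ PD n, φ (sq P) = F (io P) := by
    intro P hP
    have h1 := hemb.injective.extend_apply (fun P : PD n => F (io P.1)) (fun _ => (0 : ℝ≥0∞))
      ⟨P, hP⟩
    exact h1
  have h1 : ∫⁻ X, F X = ∫⁻ X : E m n, φ (gram X) := by
    apply lintegral_congr_ae
    filter_upwards [hae] with X hX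
    obtain ⟨P, hP, hPX, g, hg1, hg2⟩ := h_polar X hX
    rw [← hPX, hφsq P hP, ← hg2, hinv g hg1]
  have h2 := hp φ hφ
  have h3 : Th m n φ = c2⁻¹ * ∫⁻ G in PD n, φ G *
      ENNReal.ofReal ((sM G).det ^ (((m : ℝ) - n - 1) / 2)) ∂(nu n) := by
    rw [h2, ← mul_assoc, ENNReal.inv_mul_cancel hc2 hc2', one_mul]
  have hφ' : Measurable (fun G : Sy n => φ G *
      ENNReal.ofReal ((sM G).det ^ (((m : ℝ) - n - 1) / 2))) := by
    refine hφ.mul ?_
    exact (r12_cont_det.measurable.pow_const _).ennreal_ofReal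
  rw [h1, hg φ hφ, h3, h_sq _ hφ', mul_assoc, mul_assoc]
  congr 2
  rw [← lintegral_const_mul']
  · apply setLIntegral_congr_fun hmeasPD
    intro P hP
    simp only
    rw [hφsq P hP, h_KK P]
    have hd := r12_det_pos P hP
    have hsqd : (sM (sq P)).det = (sM P).det * (sM P).det := by
      change (sM P * sM P).det = _
      rw [Matrix.det_mul]
    rw [hsqd]
    have hpow : ((sM P).det * (sM P).det) ^ (((m : ℝ) - n - 1) / 2) =
        (sM P).det ^ ((m : ℝ) - n - 1) := by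
      rw [← pow_two, ← Real.rpow_natCast, ← Real.rpow_mul hd.le]
      congr 1
      push_cast
      ring
    have hr : ENNReal.ofReal (2 ^ n) * (F (io P) * ENNReal.ofReal (jac m n P)) =
        F (io P) * ENNReal.ofReal (2 ^ n * jac m n P) := by
      rw [mul_left_comm, ← ENNReal.ofReal_mul (by positivity)]
    rw [hpow, mul_assoc, ← ENNReal.ofReal_mul (by positivity), hr]
    congr 2
    unfold jac
    have hpow2 : (sM P).det ^ (m - n) = (sM P).det ^ ((m : ℝ) - n - 1) * (sM P).det := by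
      rw [← Real.rpow_natCast, ← Real.rpow_add_one hd.ne']
      congr 1
      rw [Nat.cast_sub hnm]
      ring
    rw [hpow2]
    ring
  · exact ENNReal.ofReal_ne_top

end Pool.Agent.H212R2.KLS
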