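import Pool.Agent.H212R2.KLS.R2
import Pool.Agent.H212R2.KLS.L2

/-!
# R13 (helper862): Poincare inequality for `O(m)`-invariant functions

`radial_of` takes the results of R3 (`jac_mid`), R4 (`poincare_of_strong`) and R12
(`radial_formula`) as explicit hypotheses.
-/

set_option autoImplicit false

namespace Pool.Agent.H212R2.KLS

open MeasureTheory Set Matrix
open scoped ENNReal InnerProductSpace

/-! ### isometries -/

theorem r13_iso {k m : ℕ} (g : Matrix (Fin k) (Fin m) ℝ) (hg : gᵀ * g = 1) (y : Fin m → ℝ) :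
    ∑ i, (g *ᵥ y) i ^ 2 = ∑ l, y l ^ 2 := by
  have h1 : (g *ᵥ y) ⬝ᵥ (g *ᵥ y) = y ⬝ᵥ y := by
    rw [Matrix.dotProduct_mulVec, ← Matrix.mulVec_transpose, Matrix.mulVec_mulVec, hg,
      Matrix.one_mulVec]
  simp only [dotProduct] at h1
  simpa only [pow_two] using h1

theorem r13_norm_lm {k m n : ℕ} (g : Matrix (Fin k) (Fin m) ℝ) (hg : gᵀ * g = 1) (X : E m n) :
    ‖lm g X‖ = ‖X‖ := by
  have h1 : ‖lm g X‖ ^ 2 = ‖X‖ ^ 2 := by
    rw [EuclideanSpace.norm_sq_eq, EuclideanSpace.norm_sq_eq, Fintype.sum_prod_type,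
      Fintype.sum_prod_type, Finset.sum_comm, Finset.sum_comm (s := (Finset.univ : Finset (Fin m)))]
    refine Finset.sum_congr rfl (fun j _ => ?_)
    have h2 := r13_iso g hg (fun l => X (l, j))
    simp only [Real.norm_eq_abs, sq_abs]
    rw [← h2]
    rfl
  exact (sq_eq_sq₀ (norm_nonneg _) (norm_nonneg _)).1 h1

theorem r13_norm_mv {k m n : ℕ} (g : Matrix (Fin k) (Fin m) ℝ) (hg : gᵀ * g = 1) (X : E m n)
    (v : V n) : ‖mv (lm g X) v‖ = ‖mv X v‖ := by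
  have h1 : ‖mv (lm g X) v‖ ^ 2 = ‖mv X v‖ ^ 2 := by
    rw [EuclideanSpace.norm_sq_eq, EuclideanSpace.norm_sq_eq]
    simp only [Real.norm_eq_abs, sq_abs]
    have h2 := r13_iso g hg (toM X *ᵥ v.ofLp)
    change ∑ i, ((g * toM X) *ᵥ v.ofLp) i ^ 2 = ∑ i, (toM X *ᵥ v.ofLp) i ^ 2
    rw [← Matrix.mulVec_mulVec]
    exact h2
  exact (sq_eq_sq₀ (norm_nonneg _) (norm_nonneg _)).1 h1

/-- `lm g` as a linear isometry -/
noncomputable def r13_L {k m n : ℕ} (g : Matrix (Fin k) (Fin m) ℝ) (hg : gᵀ * g = 1) :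
    E m n →ₗᵢ[ℝ] E k n where
  toFun := lm g
  map_add' X Y := by
    ext p
    change (g * (toM X + toM Y)) p.1 p.2 = (g * toM X) p.1 p.2 + (g * toM Y) p.1 p.2
    rw [Matrix.mul_add]
    rfl
  map_smul' c X := by
    ext p
    change (g * (c • toM X)) p.1 p.2 = c * (g * toM X) p.1 p.2
    rw [Matrix.mul_smul]
    rfl
  norm_map' X := r13_norm_lm g hg X

theorem r13_J1 {m n : ℕ} (hnm : n ≤ m) : (J1 m n)ᵀ * J1 m n = 1 := by
  ext i j
  rw [Matrix.mul_apply]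
  simp only [Matrix.transpose_apply, J1, Matrix.of_apply]
  rw [Finset.sum_eq_single (⟨i, lt_of_lt_of_le i.2 hnm⟩ : Fin m)]
  · by_cases h : i = j
    · subst h
      simp
    · rw [Matrix.one_apply_ne h]
      have : ¬ ((i : ℕ) = j) := fun h' => h (Fin.ext h')
      simp [this]
  · intro b _ hb
    have : ¬ ((b : ℕ) = i) := fun h' => hb (Fin.ext h')
    simp [this]
  · intro h
    exact absurd (Finset.mem_univ _) h

/-- `io` as a linear isometry -/
noncomputable def r13_io {m n : ℕ} (hnm : n ≤ m) : Sy n →ₗᵢ[ℝ] E m n :=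
  (r13_L (J1 m n) (r13_J1 hnm)).comp (Sy n).subtypeₗᵢ

theorem r13_io_apply {m n : ℕ} (hnm : n ≤ m) (P : Sy n) : r13_io hnm P = (io P : E m n) := rfl

theorem r13_opLe {m n : ℕ} (hnm : n ≤ m) (r : ℝ) (P : Sy n) (h : OpLe r (io P : E m n)) :
    OpLe r (P : E n n) := by
  intro v
  have h1 := h v
  have h2 : (io P : E m n) = lm (J1 m n) (P : E n n) := rfl
  rwa [h2, r13_norm_mv _ (r13_J1 hnm)] at h1

theorem r13_orth {m : ℕ} {g : Matrix (Fin m) (Fin m) ℝ} (hg : g ∈ Matrix.orthogonalGroup (Fin m) ℝ) :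
    gᵀ * g = 1 := by
  have := (Matrix.mem_orthogonalGroup_iff' (Fin m) ℝ).1 hg
  exact this

theorem r13_orth' {m : ℕ} {g : Matrix (Fin m) (Fin m) ℝ} (hg : g ∈ Matrix.orthogonalGroup (Fin m) ℝ) :
    g * gᵀ = 1 := by
  have := (Matrix.mem_orthogonalGroup_iff (Fin m) ℝ).1 hg
  exact this

theorem r13_norm_fderiv_le {m n : ℕ} (f : E m n → ℝ) (hf : ContDiff ℝ 1 f)
    {F : Type*} [NormedAddCommGroup F] [NormedSpace ℝ F] (L : F →ₗᵢ[ℝ] E m n) (x : F) :
    ‖fderiv ℝ (fun y => f (L y)) x‖ ≤ ‖fderiv ℝ f (L x)‖ := by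
  have h1 : fderiv ℝ (fun y => f (L y)) x = (fderiv ℝ f (L x)).comp L.toContinuousLinearMap := by
    have h2 : HasFDerivAt (fun y => L y) L.toContinuousLinearMap x :=
      L.toContinuousLinearMap.hasFDerivAt
    have h3 : HasFDerivAt f (fderiv ℝ f (L x)) (L x) :=
      ((hf.differentiable (by norm_num)) (L x)).hasFDerivAt
    exact (h3.comp x h2).fderiv
  rw [h1]
  calc ‖(fderiv ℝ f (L x)).comp L.toContinuousLinearMap‖
      ≤ ‖fderiv ℝ f (L x)‖ * ‖L.toContinuousLinearMap‖ := ContinuousLinearMap.opNorm_comp_le _ _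
    _ ≤ ‖fderiv ℝ f (L x)‖ * 1 := by
        refine mul_le_mul_of_nonneg_left ?_ (norm_nonneg _)
        exact L.norm_toContinuousLinearMap_le
    _ = _ := mul_one _

theorem r13_norm_fderiv_inv {m n : ℕ} (f : E m n → ℝ) (hf : ContDiff ℝ 1 f)
    (hinv : ∀ g ∈ Matrix.orthogonalGroup (Fin m) ℝ, ∀ x, f (lm g x) = f x)
    (g : Matrix (Fin m) (Fin m) ℝ) (hg : g ∈ Matrix.orthogonalGroup (Fin m) ℝ) (x : E m n) :
    ‖fderiv ℝ f (lm g x)‖ = ‖fderiv ℝ f x‖ := by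
  have key : ∀ g ∈ Matrix.orthogonalGroup (Fin m) ℝ, ∀ x : E m n,
      ‖fderiv ℝ f x‖ ≤ ‖fderiv ℝ f (lm g x)‖ := by
    intro g hg x
    have h1 := r13_norm_fderiv_le f hf (r13_L (n := n) g (r13_orth hg)) x
    have h2 : (fun y => f (r13_L (n := n) g (r13_orth hg) y)) = f := by
      funext y
      exact hinv g hg y
    rw [h2] at h1
    exact h1
  refine le_antisymm ?_ (key g hg x)
  have hgt : gᵀ ∈ Matrix.orthogonalGroup (Fin m) ℝ := by
    rw [Matrix.mem_orthogonalGroup_iff]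
    change gᵀ * gᵀᵀ = 1
    rw [Matrix.transpose_transpose]
    exact r13_orth hg
  have h3 := key gᵀ hgt (lm g x)
  have h4 : lm gᵀ (lm g x) = x := by
    change ofM (gᵀ * (g * toM x)) = x
    rw [← Matrix.mul_assoc, r13_orth hg, Matrix.one_mul]
    rfl
  rwa [h4] at h3

/-! ### measurability, continuity -/

theorem r13_continuous_entry {n : ℕ} (i j : Fin n) : Continuous (fun P : Sy n => sM P i j) := by
  have h1 : Continuous (fun P : Sy n => (P : E n n)) := continuous_subtype_val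
  exact (EuclideanSpace.proj (𝕜 := ℝ) (i, j)).continuous.comp h1

theorem r13_continuous_quad {n : ℕ} (v : Fin n → ℝ) :
    Continuous (fun P : Sy n => v ⬝ᵥ (sM P *ᵥ v)) := by
  simp only [dotProduct, mulVec]
  refine continuous_finsetSum _ (fun i _ => ?_)
  refine continuous_const.mul (continuous_finsetSum _ (fun j _ => ?_))
  exact (r13_continuous_entry i j).mul continuous_const

theorem r13_continuous_det {n : ℕ} : Continuous (fun P : Sy n => (sM P).det) := by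
  refine Continuous.matrix_det ?_
  exact continuous_matrix (fun i j => r13_continuous_entry i j)

theorem r13_posDef {n : ℕ} {P : Sy n} (hP : P ∈ PD n) : (sM P).PosDef := by
  refine Matrix.PosDef.of_dotProduct_mulVec_pos ?_ ?_
  · change (sM P)ᴴ = sM P
    rw [Matrix.conjTranspose_eq_transpose_of_trivial, sM_transpose]
  · intro x hx
    exact hP x hx

theorem r13_measurableSet_PD (n : ℕ) : MeasurableSet (PD n) := by
  have h1 : PD n = {P : Sy n | ∀ v : Fin n → ℝ, 0 ≤ v ⬝ᵥ (sM P *ᵥ v)} ∩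
      {P : Sy n | (sM P).det ≠ 0} := by
    ext P
    constructor
    · intro hP
      refine ⟨?_, (r13_posDef hP).det_pos.ne'⟩
      intro v
      by_cases hv : v = 0
      · subst hv
        simp
      · exact (hP v hv).le
    · rintro ⟨h2, h3⟩ v hv
      have h4 : (sM P).PosSemidef := by
        refine Matrix.PosSemidef.of_dotProduct_mulVec_nonneg ?_ ?_
        · change (sM P)ᴴ = sM P
          rw [Matrix.conjTranspose_eq_transpose_of_trivial, sM_transpose]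
        · intro x
          exact h2 x
      have h5 := h4.posDef_iff_det_ne_zero.2 h3
      exact h5.dotProduct_mulVec_pos hv
  rw [h1]
  refine MeasurableSet.inter ?_ ?_
  · have h2 : {P : Sy n | ∀ v : Fin n → ℝ, 0 ≤ v ⬝ᵥ (sM P *ᵥ v)} =
        ⋂ v : Fin n → ℝ, {P : Sy n | 0 ≤ v ⬝ᵥ (sM P *ᵥ v)} := by
      ext P
      simp
    rw [h2]
    exact (isClosed_iInter (fun v => isClosed_le continuous_const
      (r13_continuous_quad v))).measurableSet
  · exact (isOpen_ne_fun r13_continuous_det continuous_const).measurableSet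

theorem r13_continuous_detKS {n : ℕ} : Continuous (fun P : Sy n => LinearMap.det (KS P)) := by
  -- `KS` as a linear map
  let T : Sy n →ₗ[ℝ] (Sk n →ₗ[ℝ] Sk n) :=
    { toFun := fun P => KS P
      map_add' := by
        intro P Q
        ext S p
        change ((sM P + sM Q) * kM S + kM S * (sM P + sM Q)) p.1 p.2 =
          (sM P * kM S + kM S * sM P) p.1 p.2 + (sM Q * kM S + kM S * sM Q) p.1 p.2
        rw [Matrix.add_mul, Matrix.mul_add]
        simp only [Matrix.add_apply]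
        ring
      map_smul' := by
        intro c P
        ext S p
        change ((c • sM P) * kM S + kM S * (c • sM P)) p.1 p.2 =
          c * (sM P * kM S + kM S * sM P) p.1 p.2
        rw [Matrix.smul_mul, Matrix.mul_smul]
        simp only [Matrix.add_apply, Matrix.smul_apply, smul_eq_mul]
        ring }
  let b := Module.finBasis ℝ (Sk n)
  have h1 : ∀ P : Sy n, LinearMap.det (KS P) = (LinearMap.toMatrix b b (T P)).det := by
    intro P
    rw [LinearMap.det_toMatrix]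
    rfl
  simp only [h1]
  refine Continuous.matrix_det ?_
  have h2 : Continuous ((LinearMap.toMatrix b b).toLinearMap ∘ₗ T) :=
    LinearMap.continuous_of_finiteDimensional _
  exact h2

theorem r13_continuous_jac (m n : ℕ) : Continuous (fun P : Sy n => jac m n P) :=
  (r13_continuous_det.pow _).mul r13_continuous_detKS

theorem r13_norm_le {n : ℕ} {r : ℝ} (hr : 0 < r) (P : Sy n) (h : OpLe r (P : E n n)) :
    ‖P‖ ≤ n * r := by
  have h1 : ‖P‖ ^ 2 ≤ n * r ^ 2 := by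
    have h2 : ‖P‖ = ‖(P : E n n)‖ := rfl
    rw [h2, EuclideanSpace.norm_sq_eq, Fintype.sum_prod_type, Finset.sum_comm]
    have h3 : ∀ j : Fin n, ∑ i : Fin n, ‖(P : E n n) (i, j)‖ ^ 2 ≤ r ^ 2 := by
      intro j
      have h4 := h (EuclideanSpace.single j 1)
      rw [PiLp.norm_single, norm_one, mul_one] at h4
      have h5 : ‖mv (P : E n n) (EuclideanSpace.single j 1)‖ ^ 2 ≤ r ^ 2 :=
        pow_le_pow_left₀ (norm_nonneg _) h4 2
      rw [EuclideanSpace.norm_sq_eq] at h5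
      refine le_trans (le_of_eq ?_) h5
      refine Finset.sum_congr rfl (fun i _ => ?_)
      congr 2
      change sM P i j = (sM P *ᵥ (Pi.single j 1)) i
      rw [Matrix.mulVec_single_one]
      rfl
    calc ∑ j : Fin n, ∑ i : Fin n, ‖(P : E n n) (i, j)‖ ^ 2 ≤ ∑ j : Fin n, r ^ 2 :=
          Finset.sum_le_sum (fun j _ => h3 j)
      _ = n * r ^ 2 := by simp
  have h2 : (n : ℝ) * r ^ 2 ≤ (n * r) ^ 2 := by
    rw [mul_pow]
    refine mul_le_mul_of_nonneg_right ?_ (by positivity)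
    rcases Nat.eq_zero_or_pos n with h0 | h0
    · rw [h0]; simp
    · have h3 : (1 : ℝ) ≤ n := by exact_mod_cast h0
      nlinarith
  exact le_of_sq_le_sq (h1.trans h2) (by positivity)

theorem r13_jac_nonneg {m n : ℕ} {P : Sy n} (hP : P ∈ PD n) : 0 ≤ jac m n P :=
  mul_nonneg (pow_nonneg (r13_posDef hP).det_pos.le _) (KS_det_pos P hP).le

/-- the weight on symmetric matrices -/
noncomputable def r13_w {m n : ℕ} (ρ : E m n → ℝ) (P : Sy n) : ℝ :=
  (PD n).indicator (fun P => ρ (io P) * jac m n P) P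

theorem r13_w_nonneg {m n : ℕ} {ρ : E m n → ℝ} (hρ : ∀ x, 0 ≤ ρ x) (P : Sy n) :
    0 ≤ r13_w ρ P := by
  unfold r13_w
  by_cases h : P ∈ PD n
  · rw [Set.indicator_of_mem h]
    exact mul_nonneg (hρ _) (r13_jac_nonneg h)
  · rw [Set.indicator_of_notMem h]

theorem r13_continuous_io {m n : ℕ} (hnm : n ≤ m) : Continuous (fun P : Sy n => (io P : E m n)) :=
  (r13_io hnm).continuous

theorem r13_w_meas {m n : ℕ} (hnm : n ≤ m) {ρ : E m n → ℝ} (hρ : Measurable ρ) :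
    Measurable (r13_w ρ) := by
  refine Measurable.indicator ?_ (r13_measurableSet_PD n)
  exact (hρ.comp (r13_continuous_io hnm).measurable).mul (r13_continuous_jac m n).measurable

theorem r13_w_zero {m n : ℕ} (hnm : n ≤ m) {ρ : E m n → ℝ} {r : ℝ} (hr : 0 < r)
    (hs : ∀ x, ¬ OpLe r x → ρ x = 0) (P : Sy n) (h : (n : ℝ) * r < ‖P‖) : r13_w ρ P = 0 := by
  unfold r13_w
  by_cases hP : P ∈ PD n
  · rw [Set.indicator_of_mem hP, hs, zero_mul]
    intro h1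
    exact absurd (r13_norm_le hr P (r13_opLe hnm r P h1)) (not_le.2 h)
  · rw [Set.indicator_of_notMem hP]

theorem r13_w_bdd {m n : ℕ} (hnm : n ≤ m) {ρ : E m n → ℝ} (hρ0 : ∀ x, 0 ≤ ρ x)
    (hρb : ∀ x, ρ x ≤ ρ 0) {r : ℝ} (hr : 0 < r)
    (hs : ∀ x, ¬ OpLe r x → ρ x = 0) : ∃ B, ∀ P, r13_w ρ P ≤ B := by
  obtain ⟨C, hC⟩ := (isCompact_closedBall (0 : Sy n) ((n : ℝ) * r)).exists_bound_of_continuousOn
    (r13_continuous_jac m n).continuousOn
  refine ⟨max 0 (ρ 0 * C), ?_⟩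
  intro P
  by_cases h : (n : ℝ) * r < ‖P‖
  · rw [r13_w_zero hnm hr hs P h]
    exact le_max_left _ _
  · have h1 : P ∈ Metric.closedBall (0 : Sy n) ((n : ℝ) * r) := by
      rw [mem_closedBall_zero_iff]
      exact not_lt.1 h
    unfold r13_w
    by_cases hP : P ∈ PD n
    · rw [Set.indicator_of_mem hP]
      refine le_trans ?_ (le_max_right _ _)
      have h2 : jac m n P ≤ C := (le_abs_self _).trans (hC P h1)
      exact mul_le_mul (hρb _) h2 (r13_jac_nonneg hP) (hρ0 0)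
    · rw [Set.indicator_of_notMem hP]
      exact le_max_left _ _

theorem r13_half {n : ℕ} {P Q : Sy n} (hP : P ∈ PD n) (hQ : Q ∈ PD n) :
    (1 / 2 : ℝ) • (P + Q) ∈ PD n := by
  intro v hv
  have h1 : sM ((1 / 2 : ℝ) • (P + Q)) = (1 / 2 : ℝ) • (sM P + sM Q) := rfl
  rw [h1, Matrix.smul_mulVec, Matrix.add_mulVec, dotProduct_smul, dotProduct_add, smul_eq_mul]
  have h2 := hP v hv
  have h3 := hQ v hv
  linarith

theorem r13_hmid {m n : ℕ} (hnm : n ≤ m) (ρ : E m n → ℝ) (hρ : Dens m n ρ) (r : ℝ)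
    (h_jac : ∀ P Q : Sy n, P ∈ PD n → Q ∈ PD n → OpLe r (P : E n n) → OpLe r (Q : E n n) →
      jac m n P * jac m n Q ≤ (jac m n ((1 / 2 : ℝ) • (P + Q))) ^ 2 *
        Real.exp (-(((m : ℝ) - 2) / (16 * r ^ 2) * ‖P - Q‖ ^ 2)))
    (hs : ∀ x, ¬ OpLe r x → ρ x = 0) (P Q : Sy n) :
    r13_w ρ P * r13_w ρ Q ≤ (r13_w ρ ((1 / 2 : ℝ) • (P + Q))) ^ 2 *
      Real.exp (-((((m : ℝ) - 2) / (4 * r ^ 2)) / 4 * ‖P - Q‖ ^ 2)) := by
  have hR : 0 ≤ (r13_w ρ ((1 / 2 : ℝ) • (P + Q))) ^ 2 *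
      Real.exp (-((((m : ℝ) - 2) / (4 * r ^ 2)) / 4 * ‖P - Q‖ ^ 2)) := by positivity
  by_cases hP : P ∈ PD n
  swap
  · have : r13_w ρ P = 0 := Set.indicator_of_notMem hP _
    rw [this, zero_mul]
    exact hR
  by_cases hQ : Q ∈ PD n
  swap
  · have : r13_w ρ Q = 0 := Set.indicator_of_notMem hQ _
    rw [this, mul_zero]
    exact hR
  by_cases hPr : OpLe r (io P : E m n)
  swap
  · have : r13_w ρ P = 0 := by
      unfold r13_w
      rw [Set.indicator_of_mem hP, hs _ hPr, zero_mul]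
    rw [this, zero_mul]
    exact hR
  by_cases hQr : OpLe r (io Q : E m n)
  swap
  · have : r13_w ρ Q = 0 := by
      unfold r13_w
      rw [Set.indicator_of_mem hQ, hs _ hQr, zero_mul]
    rw [this, mul_zero]
    exact hR
  have hM := r13_half hP hQ
  unfold r13_w
  rw [Set.indicator_of_mem hP, Set.indicator_of_mem hQ, Set.indicator_of_mem hM]
  have h1 := h_jac P Q hP hQ (r13_opLe hnm r P hPr) (r13_opLe hnm r Q hQr)
  have h2 : ρ (io P) * ρ (io Q) ≤ ρ (io ((1 / 2 : ℝ) • (P + Q))) ^ 2 := by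
    have h3 := hρ.logc (io P) (io Q) (1 / 2) (by norm_num) (by norm_num)
    have h4 : (1 - (1 / 2 : ℝ)) • (io P : E m n) + (1 / 2 : ℝ) • (io Q : E m n) =
        io ((1 / 2 : ℝ) • (P + Q)) := by
      rw [← r13_io_apply hnm, ← r13_io_apply hnm, ← r13_io_apply hnm, LinearIsometry.map_smul,
        LinearIsometry.map_add, smul_add]
      norm_num
    rw [h4] at h3
    have h5 : (ρ (io P) ^ (1 - (1 / 2 : ℝ)) * ρ (io Q) ^ (1 / 2 : ℝ)) ^ 2 =
        ρ (io P) * ρ (io Q) := by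
      rw [mul_pow, ← Real.rpow_natCast, ← Real.rpow_natCast, ← Real.rpow_mul (hρ.nonneg _),
        ← Real.rpow_mul (hρ.nonneg _)]
      norm_num
    rw [← h5]
    exact pow_le_pow_left₀ (mul_nonneg (Real.rpow_nonneg (hρ.nonneg _) _)
      (Real.rpow_nonneg (hρ.nonneg _) _)) h3 2
  have h6 : ((m : ℝ) - 2) / (4 * r ^ 2) / 4 = ((m : ℝ) - 2) / (16 * r ^ 2) := by
    rw [div_div]
    congr 1
    ring
  rw [h6]
  calc ρ (io P) * jac m n P * (ρ (io Q) * jac m n Q)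
      = (ρ (io P) * ρ (io Q)) * (jac m n P * jac m n Q) := by ring
    _ ≤ ρ (io ((1 / 2 : ℝ) • (P + Q))) ^ 2 * (jac m n ((1 / 2 : ℝ) • (P + Q)) ^ 2 *
        Real.exp (-(((m : ℝ) - 2) / (16 * r ^ 2) * ‖P - Q‖ ^ 2))) := by
        refine mul_le_mul h2 h1 (mul_nonneg (r13_jac_nonneg hP) (r13_jac_nonneg hQ)) (by positivity)
    _ = _ := by ring

theorem r13_integrable {m n : ℕ} (hnm : n ≤ m) {ρ : E m n → ℝ} (hρm : Measurable ρ)
    (hρ0 : ∀ x, 0 ≤ ρ x) (hρb : ∀ x, ρ x ≤ ρ 0) {r : ℝ} (hr : 0 < r)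
    (hs : ∀ x, ¬ OpLe r x → ρ x = 0) (G : Sy n → ℝ) (hG : Continuous G) :
    Integrable (fun P => G P * r13_w ρ P) (nu n) := by
  obtain ⟨B, hB⟩ := r13_w_bdd hnm hρ0 hρb hr hs
  obtain ⟨C, hC⟩ := (isCompact_closedBall (0 : Sy n) ((n : ℝ) * r)).exists_bound_of_continuousOn
    hG.continuousOn
  have hfin : IsFiniteMeasureOnCompacts (nu n) := by
    unfold nu
    infer_instance
  have h1 : Integrable ((Metric.closedBall (0 : Sy n) ((n : ℝ) * r)).indicator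
      (fun _ => C * B)) (nu n) := by
    rw [integrable_indicator_iff Metric.isClosed_closedBall.measurableSet]
    exact integrableOn_const (isCompact_closedBall (0 : Sy n) ((n : ℝ) * r)).measure_lt_top.ne
  refine h1.mono' (hG.measurable.mul (r13_w_meas hnm hρm)).aestronglyMeasurable ?_
  refine Filter.Eventually.of_forall (fun P => ?_)
  by_cases h : (n : ℝ) * r < ‖P‖
  · rw [r13_w_zero hnm hr hs P h, mul_zero, norm_zero, Set.indicator_of_notMem]
    rw [mem_closedBall_zero_iff]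
    exact not_le.2 h
  · have h2 : P ∈ Metric.closedBall (0 : Sy n) ((n : ℝ) * r) := by
      rw [mem_closedBall_zero_iff]
      exact not_lt.1 h
    rw [Set.indicator_of_mem h2, norm_mul]
    have h3 : ‖r13_w ρ P‖ ≤ B := by
      rw [Real.norm_of_nonneg (r13_w_nonneg hρ0 P)]
      exact hB P
    exact mul_le_mul (hC P h2) h3 (norm_nonneg _) ((norm_nonneg _).trans (hC P h2))

theorem r13_conv {m n : ℕ} (hnm : n ≤ m) {ρ : E m n → ℝ} (hρm : Measurable ρ)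
    (hρ0 : ∀ x, 0 ≤ ρ x)
    (hρi : ∀ g ∈ Matrix.orthogonalGroup (Fin m) ℝ, ∀ x, ρ (lm g x) = ρ x) (c : ℝ≥0∞)
    (hc : ∀ F : E m n → ℝ≥0∞, Measurable F →
      (∀ g ∈ Matrix.orthogonalGroup (Fin m) ℝ, ∀ x, F (lm g x) = F x) →
      ∫⁻ X, F X = c * ∫⁻ P in PD n, F (io P) * ENNReal.ofReal (jac m n P) ∂(nu n))
    (G : E m n → ℝ) (hG : Measurable G) (hG0 : ∀ x, 0 ≤ G x)
    (hGi : ∀ g ∈ Matrix.orthogonalGroup (Fin m) ℝ, ∀ x, G (lm g x) = G x) :
    ∫ x, G x ∂(mu ρ) = c.toReal * ∫ P, G (io P) * r13_w ρ P ∂(nu n) := by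
  rw [integral_eq_lintegral_of_nonneg_ae (Filter.Eventually.of_forall hG0)
    hG.aestronglyMeasurable]
  rw [integral_eq_lintegral_of_nonneg_ae
    (Filter.Eventually.of_forall (fun P => mul_nonneg (hG0 _) (r13_w_nonneg hρ0 P)))
    ((hG.comp (r13_continuous_io hnm).measurable).mul (r13_w_meas hnm hρm)).aestronglyMeasurable]
  rw [← ENNReal.toReal_mul]
  congr 1
  have h1 : ∫⁻ x, ENNReal.ofReal (G x) ∂(mu ρ) =
      ∫⁻ x, ENNReal.ofReal (ρ x) * ENNReal.ofReal (G x) := by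
    unfold mu
    rw [lintegral_withDensity_eq_lintegral_mul _ hρm.ennreal_ofReal hG.ennreal_ofReal]
    rfl
  rw [h1, hc (fun x => ENNReal.ofReal (ρ x) * ENNReal.ofReal (G x))
    (hρm.ennreal_ofReal.mul hG.ennreal_ofReal) (by
      intro g hg x
      rw [hρi g hg, hGi g hg])]
  congr 1
  rw [← lintegral_indicator (r13_measurableSet_PD n)]
  refine lintegral_congr (fun P => ?_)
  unfold r13_w
  by_cases hP : P ∈ PD n
  · rw [Set.indicator_of_mem hP, Set.indicator_of_mem hP,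
      ENNReal.ofReal_mul (hG0 _), ENNReal.ofReal_mul (hρ0 _)]
    ring
  · rw [Set.indicator_of_notMem hP, Set.indicator_of_notMem hP, mul_zero, ENNReal.ofReal_zero]

/-- R13 -/
theorem radial_of {m n : ℕ} (hm : 3 ≤ m) (hnm : n ≤ m) (ρ : E m n → ℝ)
    (hρ : Dens m n ρ) (r : ℝ) (hr : 0 < r)
    (h_jac : ∀ P Q : Sy n, P ∈ PD n → Q ∈ PD n → OpLe r (P : E n n) → OpLe r (Q : E n n) →
      jac m n P * jac m n Q ≤ (jac m n ((1 / 2 : ℝ) • (P + Q))) ^ 2 *
        Real.exp (-(((m : ℝ) - 2) / (16 * r ^ 2) * ‖P - Q‖ ^ 2)))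
    (h_poin : ∀ w : Sy n → ℝ, (∀ x, 0 ≤ w x) → Measurable w → (∃ B, ∀ x, w x ≤ B) → Bdd w →
      ∀ κ : ℝ, 0 < κ → (∀ x y, w x * w y ≤ (w ((1 / 2 : ℝ) • (x + y))) ^ 2 *
        Real.exp (-(κ / 4 * ‖x - y‖ ^ 2))) → ∀ f : Sy n → ℝ, ContDiff ℝ 1 f →
      ∃ c : ℝ, ∫ x, (f x - c) ^ 2 * w x ∂(nu n) ≤
        κ⁻¹ * ∫ x, ‖fderiv ℝ f x‖ ^ 2 * w x ∂(nu n))
    (h_rad : ∃ c : ℝ≥0∞, c ≠ 0 ∧ c ≠ ⊤ ∧ ∀ F : E m n → ℝ≥0∞, Measurable F →
      (∀ g ∈ Matrix.orthogonalGroup (Fin m) ℝ, ∀ x, F (lm g x) = F x) →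
      ∫⁻ X, F X = c * ∫⁻ P in PD n, F (io P) * ENNReal.ofReal (jac m n P) ∂(nu n))
    (hs : ∀ x, ¬ OpLe r x → ρ x = 0) (f : E m n → ℝ) (hf : ContDiff ℝ 1 f)
    (hinv : ∀ g ∈ Matrix.orthogonalGroup (Fin m) ℝ, ∀ x, f (lm g x) = f x) :
    ∃ c : ℝ, ∫ x, (f x - c) ^ 2 ∂(mu ρ) ≤
      4 * r ^ 2 / ((m : ℝ) - 2) * ∫ x, ‖fderiv ℝ f x‖ ^ 2 ∂(mu ρ) := by
  have hm2 : (0 : ℝ) < (m : ℝ) - 2 := by
    have : (3 : ℝ) ≤ m := by exact_mod_cast hm
    linarith
  have hb := (Dens.basic hρ (by omega)).1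
  obtain ⟨c₀, _, _, hc₀⟩ := h_rad
  have hfio : ContDiff ℝ 1 (fun P : Sy n => f (io P)) :=
    hf.comp (r13_io (m := m) hnm).contDiff
  have hκ : (0 : ℝ) < ((m : ℝ) - 2) / (4 * r ^ 2) := by positivity
  obtain ⟨c, hc⟩ := h_poin (r13_w ρ) (r13_w_nonneg hρ.nonneg)
    (r13_w_meas hnm hρ.meas) (r13_w_bdd hnm hρ.nonneg hb hr hs)
    ⟨n * r, fun P hP => r13_w_zero hnm hr hs P hP⟩ (((m : ℝ) - 2) / (4 * r ^ 2)) hκ
    (r13_hmid hnm ρ hρ r h_jac hs) (fun P : Sy n => f (io P)) hfio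
  refine ⟨c, ?_⟩
  have hfc : Continuous (fderiv ℝ f) := hf.continuous_fderiv (by norm_num)
  rw [r13_conv hnm hρ.meas hρ.nonneg hρ.inv c₀ hc₀ (fun x => (f x - c) ^ 2)
    ((hf.continuous.sub continuous_const).pow 2).measurable (fun x => sq_nonneg _)
    (fun g hg x => by simp only [hinv g hg x])]
  rw [r13_conv hnm hρ.meas hρ.nonneg hρ.inv c₀ hc₀ (fun x => ‖fderiv ℝ f x‖ ^ 2)
    (hfc.norm.pow 2).measurable (fun x => sq_nonneg _)
    (fun g hg x => by simp only [r13_norm_fderiv_inv f hf hinv g hg x])]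
  have h1 : ∫ P, ‖fderiv ℝ (fun P : Sy n => f (io P)) P‖ ^ 2 * r13_w ρ P ∂(nu n) ≤
      ∫ P : Sy n, ‖fderiv ℝ f (io P)‖ ^ 2 * r13_w ρ P ∂(nu n) := by
    refine integral_mono_of_nonneg ?_ ?_ ?_
    · exact Filter.Eventually.of_forall (fun P => mul_nonneg (sq_nonneg _)
        (r13_w_nonneg hρ.nonneg P))
    · exact r13_integrable hnm hρ.meas hρ.nonneg hb hr hs (fun P => ‖fderiv ℝ f (io P)‖ ^ 2)
        ((hfc.comp (r13_continuous_io hnm)).norm.pow 2)
    · refine Filter.Eventually.of_forall (fun P => ?_)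
      refine mul_le_mul_of_nonneg_right ?_ (r13_w_nonneg hρ.nonneg P)
      have h9 : ‖fderiv ℝ (fun P : Sy n => f (io P)) P‖ ≤ ‖fderiv ℝ f (io P)‖ :=
        r13_norm_fderiv_le f hf (r13_io hnm) P
      gcongr
  have h2 : (((m : ℝ) - 2) / (4 * r ^ 2))⁻¹ = 4 * r ^ 2 / ((m : ℝ) - 2) := inv_div _ _
  rw [h2] at hc
  have h3 : (0 : ℝ) ≤ 4 * r ^ 2 / ((m : ℝ) - 2) := by positivity
  calc c₀.toReal * ∫ P : Sy n, (f (io P) - c) ^ 2 * r13_w ρ P ∂(nu n)
      ≤ c₀.toReal * (4 * r ^ 2 / ((m : ℝ) - 2) *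
        ∫ P : Sy n, ‖fderiv ℝ f (io P)‖ ^ 2 * r13_w ρ P ∂(nu n)) :=
        mul_le_mul_of_nonneg_left (hc.trans (mul_le_mul_of_nonneg_left h1 h3))
          ENNReal.toReal_nonneg
    _ = _ := by ring

end Pool.Agent.H212R2.KLS
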