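import Pool.Agent.H212R2.KLS.R11

/-!
# R2b: the determinant of `S ↦ P S + S P` on symmetric matrices
-/

set_option autoImplicit false

namespace Pool.Agent.H212R2.KLS

open MeasureTheory Set Matrix

/-! ### conjugation by an orthogonal matrix -/

theorem r2b_sy_ext {n : ℕ} {P Q : Sy n} (h : sM P = sM Q) : P = Q := by
  apply Subtype.ext
  ext p
  exact congrFun (congrFun h p.1) p.2

theorem r2b_sk_ext {n : ℕ} {P Q : Sk n} (h : kM P = kM Q) : P = Q := by
  apply Subtype.ext
  ext p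
  exact congrFun (congrFun h p.1) p.2

/-- congruence on symmetric matrices by an orthogonal matrix as an equivalence -/
noncomputable def r2bS {n : ℕ} (U : Matrix (Fin n) (Fin n) ℝ) (h1 : U * Uᵀ = 1)
    (h2 : Uᵀ * U = 1) : Sy n ≃ₗ[ℝ] Sy n :=
  LinearEquiv.ofLinearMap (cong U) (cong Uᵀ)
    (by
      apply LinearMap.ext
      intro G
      apply r2b_sy_ext
      change Uᵀ * (Uᵀᵀ * sM G * Uᵀ) * U = sM G
      rw [Matrix.transpose_transpose]
      calc Uᵀ * (U * sM G * Uᵀ) * U = (Uᵀ * U) * sM G * (Uᵀ * U) := by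
            simp only [Matrix.mul_assoc]
        _ = sM G := by rw [h2, Matrix.one_mul, Matrix.mul_one])
    (by
      apply LinearMap.ext
      intro G
      apply r2b_sy_ext
      change Uᵀᵀ * (Uᵀ * sM G * U) * Uᵀ = sM G
      rw [Matrix.transpose_transpose]
      calc U * (Uᵀ * sM G * U) * Uᵀ = (U * Uᵀ) * sM G * (U * Uᵀ) := by
            simp only [Matrix.mul_assoc]
        _ = sM G := by rw [h1, Matrix.one_mul, Matrix.mul_one])

/-- congruence on skew matrices -/
def r2bcongK {n : ℕ} (A : Matrix (Fin n) (Fin n) ℝ) : Sk n →ₗ[ℝ] Sk n where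
  toFun G := kOf (Aᵀ * kM G * A) (by
    rw [Matrix.transpose_mul, Matrix.transpose_mul, Matrix.transpose_transpose, kM_transpose,
      Matrix.neg_mul, Matrix.mul_neg, Matrix.mul_assoc])
  map_add' G H := by
    apply r2b_sk_ext
    change Aᵀ * (kM G + kM H) * A = Aᵀ * kM G * A + Aᵀ * kM H * A
    rw [Matrix.mul_add, Matrix.add_mul]
  map_smul' c G := by
    apply r2b_sk_ext
    change Aᵀ * (c • kM G) * A = c • (Aᵀ * kM G * A)
    rw [Matrix.mul_smul, Matrix.smul_mul]

/-- congruence on skew matrices by an orthogonal matrix as an equivalence -/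
noncomputable def r2bK {n : ℕ} (U : Matrix (Fin n) (Fin n) ℝ) (h1 : U * Uᵀ = 1)
    (h2 : Uᵀ * U = 1) : Sk n ≃ₗ[ℝ] Sk n :=
  LinearEquiv.ofLinearMap (r2bcongK U) (r2bcongK Uᵀ)
    (by
      apply LinearMap.ext
      intro G
      apply r2b_sk_ext
      change Uᵀ * (Uᵀᵀ * kM G * Uᵀ) * U = kM G
      rw [Matrix.transpose_transpose]
      calc Uᵀ * (U * kM G * Uᵀ) * U = (Uᵀ * U) * kM G * (Uᵀ * U) := by
            simp only [Matrix.mul_assoc]
        _ = kM G := by rw [h2, Matrix.one_mul, Matrix.mul_one])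
    (by
      apply LinearMap.ext
      intro G
      apply r2b_sk_ext
      change Uᵀᵀ * (Uᵀ * kM G * U) * Uᵀ = kM G
      rw [Matrix.transpose_transpose]
      calc U * (Uᵀ * kM G * U) * Uᵀ = (U * Uᵀ) * kM G * (U * Uᵀ) := by
            simp only [Matrix.mul_assoc]
        _ = kM G := by rw [h1, Matrix.one_mul, Matrix.mul_one])

theorem r2b_conj_S {n : ℕ} (P D : Sy n) (U : Matrix (Fin n) (Fin n) ℝ) (h1 : U * Uᵀ = 1)
    (h2 : Uᵀ * U = 1) (hP : sM P = U * sM D * Uᵀ) :
    LinearMap.det (KK P) = LinearMap.det (KK D) := by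
  rw [← LinearMap.det_conj (KK P) (r2bS U h1 h2)]
  congr 1
  apply LinearMap.ext
  intro G
  apply r2b_sy_ext
  change Uᵀ * (sM P * (Uᵀᵀ * sM G * Uᵀ) + (Uᵀᵀ * sM G * Uᵀ) * sM P) * U =
    sM D * sM G + sM G * sM D
  rw [Matrix.transpose_transpose, hP, Matrix.mul_add, Matrix.add_mul]
  congr 1
  · calc Uᵀ * (U * sM D * Uᵀ * (U * sM G * Uᵀ)) * U =
          (Uᵀ * U) * sM D * (Uᵀ * U) * sM G * (Uᵀ * U) := by simp only [Matrix.mul_assoc]
      _ = sM D * sM G := by rw [h2, Matrix.one_mul, Matrix.mul_one, Matrix.mul_one]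
  · calc Uᵀ * (U * sM G * Uᵀ * (U * sM D * Uᵀ)) * U =
          (Uᵀ * U) * sM G * (Uᵀ * U) * sM D * (Uᵀ * U) := by simp only [Matrix.mul_assoc]
      _ = sM G * sM D := by rw [h2, Matrix.one_mul, Matrix.mul_one, Matrix.mul_one]

theorem r2b_conj_K {n : ℕ} (P D : Sy n) (U : Matrix (Fin n) (Fin n) ℝ) (h1 : U * Uᵀ = 1)
    (h2 : Uᵀ * U = 1) (hP : sM P = U * sM D * Uᵀ) :
    LinearMap.det (KS P) = LinearMap.det (KS D) := by
  rw [← LinearMap.det_conj (KS P) (r2bK U h1 h2)]
  congr 1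
  apply LinearMap.ext
  intro G
  apply r2b_sk_ext
  change Uᵀ * (sM P * (Uᵀᵀ * kM G * Uᵀ) + (Uᵀᵀ * kM G * Uᵀ) * sM P) * U =
    sM D * kM G + kM G * sM D
  rw [Matrix.transpose_transpose, hP, Matrix.mul_add, Matrix.add_mul]
  congr 1
  · calc Uᵀ * (U * sM D * Uᵀ * (U * kM G * Uᵀ)) * U =
          (Uᵀ * U) * sM D * (Uᵀ * U) * kM G * (Uᵀ * U) := by simp only [Matrix.mul_assoc]
      _ = sM D * kM G := by rw [h2, Matrix.one_mul, Matrix.mul_one, Matrix.mul_one]
  · calc Uᵀ * (U * kM G * Uᵀ * (U * sM D * Uᵀ)) * U =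
          (Uᵀ * U) * kM G * (Uᵀ * U) * sM D * (Uᵀ * U) := by simp only [Matrix.mul_assoc]
      _ = kM G * sM D := by rw [h2, Matrix.one_mul, Matrix.mul_one, Matrix.mul_one]

/-! ### diagonal matrices -/

/-- coordinates on symmetric matrices -/
noncomputable def r2beS (n : ℕ) : Sy n ≃ₗ[ℝ] ({p : Fin n × Fin n // p.1 ≤ p.2} → ℝ) where
  toFun S p := sM S p.1.1 p.1.2
  map_add' S T := by funext p; rfl
  map_smul' c S := by funext p; rfl
  invFun f := sOf (Matrix.of fun i j => if h : i ≤ j then f ⟨(i, j), h⟩ else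
    f ⟨(j, i), (le_of_not_ge h)⟩) (by
      ext i j
      simp only [Matrix.transpose_apply, Matrix.of_apply]
      by_cases h : i ≤ j
      · by_cases h' : j ≤ i
        · have : i = j := le_antisymm h h'
          subst this; rfl
        · rw [dif_neg h', dif_pos h]
      · have h' : j ≤ i := le_of_not_ge h
        rw [dif_pos h', dif_neg h])
  left_inv S := by
    apply r2b_sy_ext
    ext i j
    change (if h : i ≤ j then sM S i j else sM S j i) = sM S i j
    split_ifs with h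
    · rfl
    · exact (S.2 i j).symm
  right_inv f := by
    funext p
    change (if h : p.1.1 ≤ p.1.2 then f ⟨(p.1.1, p.1.2), h⟩ else
      f ⟨(p.1.2, p.1.1), (le_of_not_ge h)⟩) = f p
    rw [dif_pos p.2]

/-- coordinates on skew matrices -/
noncomputable def r2beK (n : ℕ) : Sk n ≃ₗ[ℝ] ({p : Fin n × Fin n // p.1 < p.2} → ℝ) where
  toFun S p := kM S p.1.1 p.1.2
  map_add' S T := by funext p; rfl
  map_smul' c S := by funext p; rfl
  invFun f := kOf (Matrix.of fun i j => if h : i < j then f ⟨(i, j), h⟩ else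
    if h : j < i then - f ⟨(j, i), h⟩ else 0) (by
      ext i j
      simp only [Matrix.transpose_apply, Matrix.of_apply, Matrix.neg_apply]
      rcases lt_trichotomy i j with h | h | h
      · rw [dif_neg (not_lt.2 h.le), dif_pos h, dif_pos h]
      · subst h; simp
      · rw [dif_pos h, dif_neg (not_lt.2 h.le), dif_pos h, neg_neg])
  left_inv S := by
    apply r2b_sk_ext
    ext i j
    change (if h : i < j then kM S i j else if h : j < i then - kM S j i else 0) = kM S i j
    have hs : kM S i j = - kM S j i := S.2 i j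
    rcases lt_trichotomy i j with h | h | h
    · rw [dif_pos h]
    · subst h
      simp only [lt_self_iff_false, dite_false]
      have : kM S i i = - kM S i i := S.2 i i
      linarith
    · rw [dif_neg (not_lt.2 h.le), dif_pos h, hs]
  right_inv f := by
    funext p
    change (if h : p.1.1 < p.1.2 then f ⟨(p.1.1, p.1.2), h⟩ else
      if h : p.1.2 < p.1.1 then - f ⟨(p.1.2, p.1.1), h⟩ else 0) = f p
    rw [dif_pos p.2]

theorem r2b_diag_S {n : ℕ} (D : Sy n) (d : Fin n → ℝ) (hD : sM D = Matrix.diagonal d) :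
    LinearMap.det (KK D) = ∏ p : {p : Fin n × Fin n // p.1 ≤ p.2}, (d p.1.1 + d p.1.2) := by
  rw [← LinearMap.det_conj (KK D) (r2beS n)]
  have h : ((r2beS n : Sy n →ₗ[ℝ] _) ∘ₗ KK D ∘ₗ ((r2beS n).symm : _ →ₗ[ℝ] Sy n)) =
      Matrix.toLin' (Matrix.diagonal fun p : {p : Fin n × Fin n // p.1 ≤ p.2} =>
        d p.1.1 + d p.1.2) := by
    apply LinearMap.ext
    intro f
    obtain ⟨S, rfl⟩ := (r2beS n).surjective f
    funext p
    simp only [LinearMap.comp_apply, LinearEquiv.coe_coe, LinearEquiv.symm_apply_apply,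
      Matrix.toLin'_apply, Matrix.mulVec_diagonal]
    change (sM D * sM S + sM S * sM D) p.1.1 p.1.2 = (d p.1.1 + d p.1.2) * sM S p.1.1 p.1.2
    rw [hD, Matrix.add_apply, Matrix.diagonal_mul, Matrix.mul_diagonal]
    ring
  rw [h, LinearMap.det_toLin', Matrix.det_diagonal]

theorem r2b_diag_K {n : ℕ} (D : Sy n) (d : Fin n → ℝ) (hD : sM D = Matrix.diagonal d) :
    LinearMap.det (KS D) = ∏ p : {p : Fin n × Fin n // p.1 < p.2}, (d p.1.1 + d p.1.2) := by
  rw [← LinearMap.det_conj (KS D) (r2beK n)]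
  have h : ((r2beK n : Sk n →ₗ[ℝ] _) ∘ₗ KS D ∘ₗ ((r2beK n).symm : _ →ₗ[ℝ] Sk n)) =
      Matrix.toLin' (Matrix.diagonal fun p : {p : Fin n × Fin n // p.1 < p.2} =>
        d p.1.1 + d p.1.2) := by
    apply LinearMap.ext
    intro f
    obtain ⟨S, rfl⟩ := (r2beK n).surjective f
    funext p
    simp only [LinearMap.comp_apply, LinearEquiv.coe_coe, LinearEquiv.symm_apply_apply,
      Matrix.toLin'_apply, Matrix.mulVec_diagonal]
    change (sM D * kM S + kM S * sM D) p.1.1 p.1.2 = (d p.1.1 + d p.1.2) * kM S p.1.1 p.1.2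
    rw [hD, Matrix.add_apply, Matrix.diagonal_mul, Matrix.mul_diagonal]
    ring
  rw [h, LinearMap.det_toLin', Matrix.det_diagonal]

theorem r2b_prod {n : ℕ} (d : Fin n → ℝ) :
    ∏ p : {p : Fin n × Fin n // p.1 ≤ p.2}, (d p.1.1 + d p.1.2) =
      2 ^ n * (∏ i, d i) * ∏ p : {p : Fin n × Fin n // p.1 < p.2}, (d p.1.1 + d p.1.2) := by
  have h1 : ∏ p : {p : Fin n × Fin n // p.1 ≤ p.2}, (d p.1.1 + d p.1.2) =
      ∏ i : Fin n, ∏ j : Fin n, if i ≤ j then d i + d j else 1 := by
    rw [← Finset.prod_subtype (Finset.univ.filter fun p : Fin n × Fin n => p.1 ≤ p.2)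
      (by intro x; simp) (fun p : Fin n × Fin n => d p.1 + d p.2), Finset.prod_filter,
      Fintype.prod_prod_type]
  have h2 : ∏ p : {p : Fin n × Fin n // p.1 < p.2}, (d p.1.1 + d p.1.2) =
      ∏ i : Fin n, ∏ j : Fin n, if i < j then d i + d j else 1 := by
    rw [← Finset.prod_subtype (Finset.univ.filter fun p : Fin n × Fin n => p.1 < p.2)
      (by intro x; simp) (fun p : Fin n × Fin n => d p.1 + d p.2), Finset.prod_filter,
      Fintype.prod_prod_type]
  have h3 : (2 : ℝ) ^ n * (∏ i, d i) = ∏ i : Fin n, ∏ j : Fin n, if i = j then d i + d j else 1 := by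
    have : ∀ i : Fin n, (∏ j : Fin n, if i = j then d i + d j else 1) = 2 * d i := by
      intro i
      rw [Finset.prod_ite_eq, if_pos (Finset.mem_univ i)]
      ring
    rw [Finset.prod_congr rfl fun i _ => this i, Finset.prod_mul_distrib, Finset.prod_const,
      Finset.card_univ, Fintype.card_fin]
  rw [h1, h2, h3, ← Finset.prod_mul_distrib]
  refine Finset.prod_congr rfl fun i _ => ?_
  rw [← Finset.prod_mul_distrib]
  refine Finset.prod_congr rfl fun j _ => ?_
  rcases lt_trichotomy i j with h | h | h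
  · rw [if_pos h.le, if_neg h.ne, if_pos h, one_mul]
  · subst h; simp
  · rw [if_neg (not_le.2 h), if_neg h.ne', if_neg (not_lt.2 h.le), mul_one]

theorem det_KK {n : ℕ} (P : Sy n) :
    LinearMap.det (KK P) = 2 ^ n * (sM P).det * LinearMap.det (KS P) := by
  obtain ⟨U, d, h1, h2, hP⟩ := spec_real (sM P) (sM_transpose P)
  have hD : sM (sOf (Matrix.diagonal d) (Matrix.diagonal_transpose d)) = Matrix.diagonal d := rfl
  have hP' : sM P = U * sM (sOf (Matrix.diagonal d) (Matrix.diagonal_transpose d)) * Uᵀ := hP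
  have hdet : (sM P).det = ∏ i, d i := by
    have hU : U.det * Uᵀ.det = 1 := by rw [← Matrix.det_mul, h1, Matrix.det_one]
    rw [hP, Matrix.det_mul, Matrix.det_mul, Matrix.det_diagonal]
    calc U.det * (∏ i, d i) * Uᵀ.det = (U.det * Uᵀ.det) * ∏ i, d i := by ring
      _ = _ := by rw [hU, one_mul]
  rw [r2b_conj_S P _ U h1 h2 hP', r2b_conj_K P _ U h1 h2 hP', r2b_diag_S _ d hD,
    r2b_diag_K _ d hD, r2b_prod, hdet]

end Pool.Agent.H212R2.KLS
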