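import Pool.Agent.H212R2.KLS.Defs

/-! # R2: the operator `S ↦ P S + S P` on skew-symmetric matrices (helper273) -/

set_option autoImplicit false

namespace Pool.Agent.H212R2.KLS

open MeasureTheory Set Matrix
open scoped ENNReal InnerProductSpace

namespace R2

theorem inner_sum {n : ℕ} (S T : Sk n) : ⟪S, T⟫_ℝ = ∑ i, ∑ j, kM S i j * kM T i j := by
  rw [Submodule.coe_inner, PiLp.inner_apply, Fintype.sum_prod_type]
  refine Finset.sum_congr rfl fun i _ => Finset.sum_congr rfl fun j _ => ?_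
  simp [kM, toM, mul_comm]

theorem inner_trace {n : ℕ} (S T : Sk n) : ⟪S, T⟫_ℝ = -Matrix.trace (kM S * kM T) := by
  have h : Matrix.trace ((kM S)ᵀ * kM T) = ∑ i, ∑ j, kM S i j * kM T i j := by
    rw [Finset.sum_comm]
    simp only [Matrix.trace, Matrix.diag_apply, Matrix.mul_apply, Matrix.transpose_apply]
  rw [inner_sum, ← h, kM_transpose, Matrix.neg_mul, Matrix.trace_neg]

theorem kM_KS {n : ℕ} (P : Sy n) (S : Sk n) : kM (KS P S) = sM P * kM S + kM S * sM P := rfl

/-- the quadratic form of `K_P` -/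
theorem quad {n : ℕ} (P : Sy n) (S : Sk n) :
    ⟪KS P S, S⟫_ℝ = 2 * ∑ j, (fun i => kM S i j) ⬝ᵥ (sM P *ᵥ (fun i => kM S i j)) := by
  have h1 : Matrix.trace ((kM S)ᵀ * sM P * kM S) =
      ∑ j, (fun i => kM S i j) ⬝ᵥ (sM P *ᵥ (fun i => kM S i j)) := by
    rw [Matrix.mul_assoc]
    rfl
  rw [inner_trace, kM_KS, ← h1, kM_transpose, Matrix.add_mul, Matrix.trace_add]
  have h2 : Matrix.trace (sM P * kM S * kM S) = Matrix.trace (kM S * sM P * kM S) := by
    rw [Matrix.mul_assoc, Matrix.trace_mul_comm, Matrix.mul_assoc, Matrix.trace_mul_comm,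
      Matrix.mul_assoc]
  rw [h2, Matrix.neg_mul, Matrix.neg_mul, Matrix.trace_neg]
  ring

theorem norm_sq {n : ℕ} (S : Sk n) : ‖S‖ ^ 2 = ∑ j, ∑ i, kM S i j * kM S i j := by
  rw [← real_inner_self_eq_norm_sq, inner_sum, Finset.sum_comm]

end R2

open R2

theorem KS_symm {n : ℕ} (P : Sy n) : (KS P).IsSymmetric := by
  intro S T
  rw [inner_trace, inner_trace, kM_KS, kM_KS, Matrix.add_mul, Matrix.mul_add, Matrix.trace_add,
    Matrix.trace_add]
  have h1 : Matrix.trace (sM P * kM S * kM T) = Matrix.trace (kM S * (kM T * sM P)) := by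
    rw [Matrix.mul_assoc, Matrix.trace_mul_comm, Matrix.mul_assoc]
  have h2 : Matrix.trace (kM S * sM P * kM T) = Matrix.trace (kM S * (sM P * kM T)) := by
    rw [Matrix.mul_assoc]
  rw [h1, h2]
  ring

theorem KS_pos {n : ℕ} (P : Sy n) (hP : P ∈ PD n) (S : Sk n) (hS : S ≠ 0) :
    0 < ⟪KS P S, S⟫_ℝ := by
  rw [quad]
  have h0 : ∀ v : Fin n → ℝ, 0 ≤ v ⬝ᵥ (sM P *ᵥ v) := by
    intro v
    by_cases hv : v = 0
    · rw [hv]; simp
    · exact (hP v hv).le
  have h1 : ∃ j, (fun i => kM S i j) ≠ 0 := by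
    by_contra hc
    push Not at hc
    apply hS
    apply Subtype.ext
    ext p
    exact congrFun (hc p.2) p.1
  obtain ⟨j, hj⟩ := h1
  have : 0 < ∑ j, (fun i => kM S i j) ⬝ᵥ (sM P *ᵥ (fun i => kM S i j)) :=
    Finset.sum_pos' (fun i _ => h0 _) ⟨j, Finset.mem_univ j, hP _ hj⟩
  linarith

theorem KS_le {n : ℕ} (P : Sy n) (r : ℝ) (hP : OpLe r (P : E n n)) (S : Sk n) :
    ⟪KS P S, S⟫_ℝ ≤ 2 * r * ‖S‖ ^ 2 := by
  rw [quad, norm_sq]
  suffices hkey : ∑ j, (fun i => kM S i j) ⬝ᵥ (sM P *ᵥ (fun i => kM S i j)) ≤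
      r * ∑ j, ∑ i, kM S i j * kM S i j by linarith
  rw [Finset.mul_sum]
  refine Finset.sum_le_sum fun j _ => ?_
  set v : Fin n → ℝ := fun i => kM S i j with hv
  let w : V n := WithLp.toLp 2 v
  have h1 : v ⬝ᵥ (sM P *ᵥ v) = ⟪w, mv (P : E n n) w⟫_ℝ := by
    rw [PiLp.inner_apply]
    simp only [dotProduct]
    refine Finset.sum_congr rfl fun i _ => ?_
    simp only [w, mv, sM, RCLike.inner_apply, conj_trivial]
    rw [mul_comm]
  have h2 : ‖w‖ ^ 2 = ∑ i, kM S i j * kM S i j := by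
    rw [EuclideanSpace.norm_sq_eq]
    refine Finset.sum_congr rfl fun i _ => ?_
    simp only [w, hv, Real.norm_eq_abs, sq_abs]
    ring
  rw [h1, ← h2]
  calc ⟪w, mv (P : E n n) w⟫_ℝ ≤ ‖w‖ * ‖mv (P : E n n) w‖ := real_inner_le_norm _ _
    _ ≤ ‖w‖ * (r * ‖w‖) := mul_le_mul_of_nonneg_left (hP w) (norm_nonneg _)
    _ = r * ‖w‖ ^ 2 := by ring

namespace R2

/-- the projection to the skew-symmetric part -/
noncomputable def prj (n : ℕ) : E n n →ₗ[ℝ] Sk n where
  toFun X := kOf ((1 / 2 : ℝ) • (toM X - (toM X)ᵀ)) (by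
    rw [Matrix.transpose_smul, Matrix.transpose_sub, Matrix.transpose_transpose, ← smul_neg,
      neg_sub])
  map_add' X Y := by
    apply Subtype.ext
    ext p
    change ((1 / 2 : ℝ) • (toM (X + Y) - (toM (X + Y))ᵀ)) p.1 p.2 =
      ((1 / 2 : ℝ) • (toM X - (toM X)ᵀ)) p.1 p.2 + ((1 / 2 : ℝ) • (toM Y - (toM Y)ᵀ)) p.1 p.2
    simp only [Matrix.smul_apply, Matrix.sub_apply, Matrix.transpose_apply, toM_apply,
      PiLp.add_apply, smul_eq_mul]
    ring
  map_smul' c X := by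
    apply Subtype.ext
    ext p
    change ((1 / 2 : ℝ) • (toM (c • X) - (toM (c • X))ᵀ)) p.1 p.2 =
      c * ((1 / 2 : ℝ) • (toM X - (toM X)ᵀ)) p.1 p.2
    simp only [Matrix.smul_apply, Matrix.sub_apply, Matrix.transpose_apply, toM_apply,
      PiLp.smul_apply, smul_eq_mul]
    ring

theorem prj_coe {n : ℕ} (S : Sk n) : prj n (S : E n n) = S := by
  apply Subtype.ext
  ext p
  change ((1 / 2 : ℝ) • (kM S - (kM S)ᵀ)) p.1 p.2 = kM S p.1 p.2
  rw [kM_transpose]
  simp only [Matrix.smul_apply, Matrix.sub_apply, Matrix.neg_apply, smul_eq_mul]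
  ring

theorem trace_ext {n : ℕ} (T : Sk n →ₗ[ℝ] Sk n) :
    LinearMap.trace ℝ (Sk n) T =
      LinearMap.trace ℝ (E n n) ((Sk n).subtype ∘ₗ (T ∘ₗ prj n)) := by
  rw [LinearMap.trace_comp_comm']
  congr 1
  ext S : 1
  simp only [LinearMap.comp_apply, Submodule.subtype_apply, prj_coe]

theorem trace_coord {n : ℕ} (L : E n n →ₗ[ℝ] E n n) :
    LinearMap.trace ℝ (E n n) L =
      ∑ i, ∑ j, L (ofM (Matrix.single i j 1)) (i, j) := by
  rw [LinearMap.trace_eq_sum_inner L (EuclideanSpace.basisFun (Fin n × Fin n) ℝ),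
    Fintype.sum_prod_type]
  refine Finset.sum_congr rfl fun i _ => Finset.sum_congr rfl fun j _ => ?_
  have h1 : (EuclideanSpace.basisFun (Fin n × Fin n) ℝ) (i, j) =
      ofM (Matrix.single i j (1 : ℝ)) := by
    ext p
    rw [EuclideanSpace.basisFun_apply]
    simp only [ofM_apply, Matrix.single_apply, PiLp.single_apply]
    by_cases h : p = (i, j)
    · subst h
      simp
    · have : ¬ (i = p.1 ∧ j = p.2) := fun hc => h (Prod.ext hc.1.symm hc.2.symm)
      simp [h, this]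
  rw [h1, PiLp.inner_apply, Fintype.sum_eq_single (i, j)]
  · simp [Matrix.single_apply]
  · intro p hp
    have : ¬ (i = p.1 ∧ j = p.2) := fun hc => hp (Prod.ext hc.1.symm hc.2.symm)
    simp [Matrix.single_apply, this]

theorem mul_single_mul_apply {n : ℕ} (A B : Matrix (Fin n) (Fin n) ℝ) (i j a b : Fin n) :
    (A * Matrix.single i j (1 : ℝ) * B) a b = A a i * B j b := by
  rw [Matrix.mul_apply]
  rw [Fintype.sum_eq_single j]
  · rw [Matrix.mul_apply, Fintype.sum_eq_single i]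
    · simp [Matrix.single_apply]
    · intro c hc
      simp [Matrix.single_apply, hc.symm]
  · intro c hc
    rw [Matrix.mul_apply]
    rw [Finset.sum_eq_zero, zero_mul]
    intro d _
    simp [Matrix.single_apply, hc.symm]

/-- the exact trace -/
theorem trace_eq {n : ℕ} (H : Sy n) : LinearMap.trace ℝ (Sk n) (KS H ∘ₗ KS H) =
    ((n : ℝ) - 2) * ∑ i, ∑ j, sM H i j * sM H i j + (∑ i, sM H i i) ^ 2 := by
  rw [trace_ext, trace_coord]
  have key : ∀ i j : Fin n,
      ((Sk n).subtype ∘ₗ ((KS H ∘ₗ KS H) ∘ₗ prj n)) (ofM (Matrix.single i j 1)) (i, j) =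
      (1 / 2) * ((sM H * sM H) i i - (if i = j then (sM H * sM H) i i else 0)) +
      (1 / 2) * ((sM H * sM H) j j - (if i = j then (sM H * sM H) i i else 0)) +
      (sM H i i * sM H j j - sM H i j * sM H i j) := by
    intro i j
    set M := sM H with hM
    set U : Matrix (Fin n) (Fin n) ℝ := Matrix.single i j 1 with hU
    set U' : Matrix (Fin n) (Fin n) ℝ := Matrix.single j i 1 with hU'
    have h1 : ((Sk n).subtype ∘ₗ ((KS H ∘ₗ KS H) ∘ₗ prj n)) (ofM U) (i, j) =
        (M * (M * ((1 / 2 : ℝ) • (U - Uᵀ)) + ((1 / 2 : ℝ) • (U - Uᵀ)) * M) +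
          (M * ((1 / 2 : ℝ) • (U - Uᵀ)) + ((1 / 2 : ℝ) • (U - Uᵀ)) * M) * M) i j := rfl
    have h2 : Uᵀ = U' := by rw [hU, hU', Matrix.transpose_single]
    have h3 : (M * (M * ((1 / 2 : ℝ) • (U - Uᵀ)) + ((1 / 2 : ℝ) • (U - Uᵀ)) * M) +
          (M * ((1 / 2 : ℝ) • (U - Uᵀ)) + ((1 / 2 : ℝ) • (U - Uᵀ)) * M) * M) =
        (1 / 2 : ℝ) • ((M * M) * U * 1 - (M * M) * U' * 1) +
        (1 / 2 : ℝ) • (1 * U * (M * M) - 1 * U' * (M * M)) +
        (M * U * M - M * U' * M) := by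
      rw [h2]
      simp only [Matrix.mul_smul, Matrix.smul_mul, Matrix.mul_sub, Matrix.sub_mul,
        Matrix.mul_add, Matrix.add_mul, Matrix.mul_one, Matrix.one_mul, Matrix.mul_assoc,
        smul_sub, smul_add]
      have h4 : ∀ X : Matrix (Fin n) (Fin n) ℝ, X = (1 / 2 : ℝ) • X + (1 / 2 : ℝ) • X := by
        intro X
        rw [← add_smul]
        norm_num
      conv_rhs => rw [h4 (M * (U * M)), h4 (M * (U' * M))]
      abel
    rw [h1, h3]
    simp only [Matrix.add_apply, Matrix.smul_apply, Matrix.sub_apply, smul_eq_mul, hU, hU',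
      mul_single_mul_apply, Matrix.one_apply]
    have hsym : M j i = M i j := by
      have := congrFun (congrFun (sM_transpose H) i) j
      exact this
    by_cases hij : i = j
    · subst hij
      simp only [if_true]
      ring
    · have hji : ¬ j = i := fun h => hij h.symm
      simp only [if_neg hij, if_true, hsym]
      ring
  rw [Finset.sum_congr rfl fun i _ => Finset.sum_congr rfl fun j _ => key i j]
  simp only [Finset.sum_add_distrib, Finset.sum_sub_distrib, ← Finset.mul_sum, Finset.sum_const,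
    Finset.card_univ, Fintype.card_fin, nsmul_eq_mul, Finset.sum_ite_eq, Finset.mem_univ, if_true]
  have h5 : ∀ i, (sM H * sM H) i i = ∑ j, sM H i j * sM H i j := by
    intro i
    rw [Matrix.mul_apply]
    refine Finset.sum_congr rfl fun j _ => ?_
    have : sM H j i = sM H i j := congrFun (congrFun (sM_transpose H) i) j
    rw [this]
  have h6 : ∑ i, ∑ j, sM H i i * sM H j j = (∑ i, sM H i i) ^ 2 := by
    rw [pow_two, Finset.sum_mul_sum]
  simp only [h5]
  rw [← h6]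
  simp only [← Finset.mul_sum]
  ring

end R2

theorem KS_trace {n : ℕ} (H : Sy n) :
    ((n : ℝ) - 2) * ‖H‖ ^ 2 ≤ LinearMap.trace ℝ (Sk n) (KS H ∘ₗ KS H) := by
  rw [trace_eq]
  have h : ‖H‖ ^ 2 = ∑ i, ∑ j, sM H i j * sM H i j := by
    rw [← real_inner_self_eq_norm_sq, Submodule.coe_inner, PiLp.inner_apply,
      Fintype.sum_prod_type]
    refine Finset.sum_congr rfl fun i _ => Finset.sum_congr rfl fun j _ => ?_
    simp only [sM, toM_apply, RCLike.inner_apply, conj_trivial]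
  rw [h]
  have := sq_nonneg (∑ i, sM H i i)
  linarith

theorem KS_det_pos {n : ℕ} (P : Sy n) (hP : P ∈ PD n) : 0 < LinearMap.det (KS P) := by
  have hs := KS_symm P
  have hdet := hs.det_eq_prod_eigenvalues rfl
  have hdet2 : LinearMap.det (KS P) = ∏ i, hs.eigenvalues rfl i := by
    simpa using hdet
  rw [hdet2]
  apply Finset.prod_pos
  intro i _
  have h1 := hs.apply_eigenvectorBasis rfl i
  have h2 : (hs.eigenvectorBasis rfl i) ≠ 0 := (hs.eigenvectorBasis rfl).orthonormal.ne_zero i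
  have h3 := KS_pos P hP _ h2
  rw [h1, inner_smul_left, real_inner_self_eq_norm_sq,
    (hs.eigenvectorBasis rfl).orthonormal.1 i] at h3
  simpa using h3

end Pool.Agent.H212R2.KLS
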