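import Pool.Agent.H212R2.KLS.R1
import Pool.Agent.H212R2.KLS.R2

/-!
# R3: strong midpoint log-concavity of the Jacobian
-/

set_option autoImplicit false

namespace Pool.Agent.H212R2.KLS

open MeasureTheory Set Matrix Pool.Agent.H212R2.KLS
open scoped ENNReal InnerProductSpace

namespace R3

theorem sM_add {n : ℕ} (P Q : Sy n) : sM (P + Q) = sM P + sM Q := rfl

theorem sM_sub {n : ℕ} (P Q : Sy n) : sM (P - Q) = sM P - sM Q := rfl

theorem sM_smul {n : ℕ} (c : ℝ) (P : Sy n) : sM (c • P) = c • sM P := rfl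

theorem KS_apply {n : ℕ} (P : Sy n) (S : Sk n) (p : Fin n × Fin n) :
    (KS P S : E n n) p = (sM P * kM S + kM S * sM P) p.1 p.2 := rfl

theorem KS_add {n : ℕ} (P Q : Sy n) : KS (P + Q) = KS P + KS Q := by
  ext S p
  change (KS (P + Q) S : E n n) p = (KS P S : E n n) p + (KS Q S : E n n) p
  rw [KS_apply, KS_apply, KS_apply, sM_add, Matrix.add_mul, Matrix.mul_add]
  simp only [Matrix.add_apply]
  ring

theorem KS_sub {n : ℕ} (P Q : Sy n) : KS (P - Q) = KS P - KS Q := by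
  ext S p
  change (KS (P - Q) S : E n n) p = (KS P S : E n n) p - (KS Q S : E n n) p
  rw [KS_apply, KS_apply, KS_apply, sM_sub, Matrix.sub_mul, Matrix.mul_sub]
  simp only [Matrix.add_apply, Matrix.sub_apply]
  ring

theorem KS_smul {n : ℕ} (c : ℝ) (P : Sy n) : KS (c • P) = c • KS P := by
  ext S p
  change (KS (c • P) S : E n n) p = c * (KS P S : E n n) p
  rw [KS_apply, KS_apply, sM_smul, Matrix.smul_mul, Matrix.mul_smul]
  simp only [Matrix.add_apply, Matrix.smul_apply, smul_eq_mul]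
  ring

/-- the operator of a symmetric matrix -/
noncomputable def op {n : ℕ} (P : Sy n) : V n →ₗ[ℝ] V n := (sM P).toEuclideanLin

theorem op_apply {n : ℕ} (P : Sy n) (v : V n) : op P v = mv (P : E n n) v := rfl

theorem op_symm {n : ℕ} (P : Sy n) : (op P).IsSymmetric := by
  unfold op
  rw [Matrix.isSymmetric_toEuclideanLin_iff]
  unfold Matrix.IsHermitian
  rw [Matrix.conjTranspose_eq_transpose_of_trivial, sM_transpose]

theorem op_inner {n : ℕ} (P : Sy n) (v : V n) : ⟪op P v, v⟫_ℝ = v.ofLp ⬝ᵥ (sM P *ᵥ v.ofLp) := by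
  rw [op_apply, mv, EuclideanSpace.inner_eq_star_dotProduct]
  simp [sM]

theorem op_nonneg {n : ℕ} (P : Sy n) (hP : P ∈ PD n) (v : V n) : 0 ≤ ⟪op P v, v⟫_ℝ := by
  rw [op_inner]
  by_cases h : v.ofLp = 0
  · rw [h]; simp
  · exact (hP _ h).le

theorem op_le {n : ℕ} (P : Sy n) (r : ℝ) (hP : OpLe r (P : E n n)) (v : V n) :
    ⟪op P v, v⟫_ℝ ≤ r * ‖v‖ ^ 2 := by
  calc ⟪op P v, v⟫_ℝ ≤ ‖op P v‖ * ‖v‖ := real_inner_le_norm _ _
    _ ≤ (r * ‖v‖) * ‖v‖ := by
        rw [op_apply]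
        exact mul_le_mul_of_nonneg_right (hP v) (norm_nonneg _)
    _ = r * ‖v‖ ^ 2 := by ring

theorem op_det {n : ℕ} (P : Sy n) : LinearMap.det (op P) = (sM P).det := by
  unfold op
  rw [Matrix.toEuclideanLin_eq_toLin_orthonormal, LinearMap.det_toLin]

theorem op_add {n : ℕ} (P Q : Sy n) : op (P + Q) = op P + op Q := by
  unfold op
  rw [sM_add, map_add]

theorem op_sub {n : ℕ} (P Q : Sy n) : op (P - Q) = op P - op Q := by
  unfold op
  rw [sM_sub, map_sub]

theorem op_smul {n : ℕ} (c : ℝ) (P : Sy n) : op (c • P) = c • op P := by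
  unfold op
  rw [sM_smul, map_smul]

theorem normsq {n : ℕ} (H : Sy n) : ‖H‖ ^ 2 = (sM H * sM H).trace := by
  have h1 : ‖H‖ = ‖(H : E n n)‖ := rfl
  rw [h1, EuclideanSpace.norm_sq_eq, Matrix.trace, Fintype.sum_prod_type]
  apply Finset.sum_congr rfl
  intro i _
  rw [Matrix.diag_apply, Matrix.mul_apply]
  apply Finset.sum_congr rfl
  intro j _
  have h2 : sM H j i = sM H i j := (H.2 j i)
  rw [h2, Real.norm_eq_abs, sq_abs, pow_two]
  rfl

theorem op_trace {n : ℕ} (H : Sy n) : LinearMap.trace ℝ (V n) (op H ∘ₗ op H) = ‖H‖ ^ 2 := by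
  rw [normsq]
  unfold op
  rw [Matrix.toEuclideanLin_eq_toLin_orthonormal, ← Matrix.toLin_mul,
    LinearMap.trace_eq_matrix_trace ℝ (EuclideanSpace.basisFun (Fin n) ℝ).toBasis,
    LinearMap.toMatrix_toLin]

theorem det_pos {n : ℕ} (P : Sy n) (hP : P ∈ PD n) : 0 < (sM P).det := by
  have : (sM P).PosDef := by
    apply Matrix.PosDef.of_dotProduct_mulVec_pos
    · unfold Matrix.IsHermitian
      rw [Matrix.conjTranspose_eq_transpose_of_trivial, sM_transpose]
    · intro x hx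
      simpa using hP x hx
  exact this.det_pos

theorem detP {n : ℕ} (r : ℝ) (hr : 0 < r) (P Q : Sy n) (hP : P ∈ PD n)
    (hQ : Q ∈ PD n) (hPr : OpLe r (P : E n n)) (hQr : OpLe r (Q : E n n)) :
    (sM P).det * (sM Q).det ≤ ((sM ((1 / 2 : ℝ) • (P + Q))).det) ^ 2 *
      Real.exp (-(‖P - Q‖ ^ 2 / (4 * r ^ 2))) := by
  have h := det_mid (op P) (op Q) (op_symm P) (op_symm Q) (op_nonneg P hP) (op_nonneg Q hQ) r hr
    (op_le P r hPr) (op_le Q r hQr)
  rw [← op_sub, op_trace, ← op_add, ← op_smul, op_det, op_det, op_det] at h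
  exact h

theorem detK {n : ℕ} (r : ℝ) (hr : 0 < r) (P Q : Sy n) (hP : P ∈ PD n)
    (hQ : Q ∈ PD n) (hPr : OpLe r (P : E n n)) (hQr : OpLe r (Q : E n n)) :
    LinearMap.det (KS P) * LinearMap.det (KS Q) ≤
      (LinearMap.det (KS ((1 / 2 : ℝ) • (P + Q)))) ^ 2 *
      Real.exp (-(((n : ℝ) - 2) * ‖P - Q‖ ^ 2 / (16 * r ^ 2))) := by
  have hpos : ∀ P ∈ PD n, ∀ S : Sk n, 0 ≤ ⟪KS P S, S⟫_ℝ := by
    intro P hP S
    by_cases h : S = 0
    · rw [h]; simp
    · exact (KS_pos P hP S h).le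
  have h := det_mid (KS P) (KS Q) (KS_symm P) (KS_symm Q) (hpos P hP) (hpos Q hQ) (2 * r)
    (by linarith) (KS_le P r hPr) (KS_le Q r hQr)
  rw [← KS_sub, ← KS_add, ← KS_smul] at h
  refine h.trans ?_
  apply mul_le_mul_of_nonneg_left _ (sq_nonneg _)
  apply Real.exp_le_exp.2
  rw [neg_le_neg_iff]
  have h1 : (4 * (2 * r) ^ 2) = 16 * r ^ 2 := by ring
  rw [h1]
  exact div_le_div_of_nonneg_right (KS_trace (P - Q)) (by positivity)

end R3

open R3 in
theorem jac_mid {m n : ℕ} (hnm : n ≤ m) (r : ℝ) (hr : 0 < r) (P Q : Sy n) (hP : P ∈ PD n)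
    (hQ : Q ∈ PD n) (hPr : OpLe r (P : E n n)) (hQr : OpLe r (Q : E n n)) :
    jac m n P * jac m n Q ≤ (jac m n ((1 / 2 : ℝ) • (P + Q))) ^ 2 *
      Real.exp (-(((m : ℝ) - 2) / (16 * r ^ 2) * ‖P - Q‖ ^ 2)) := by
  have h1 := detP r hr P Q hP hQ hPr hQr
  have h2 := detK r hr P Q hP hQ hPr hQr
  have p1 := det_pos P hP
  have p2 := det_pos Q hQ
  have k1 := KS_det_pos P hP
  have k2 := KS_det_pos Q hQ
  unfold jac
  set M : Sy n := (1 / 2 : ℝ) • (P + Q) with hM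
  set D : ℝ := ‖P - Q‖ ^ 2 with hD
  have hD0 : 0 ≤ D := sq_nonneg _
  have h3 : ((sM P).det * (sM Q).det) ^ (m - n) ≤ ((sM M).det ^ 2) ^ (m - n) *
      Real.exp (-(((m - n : ℕ) : ℝ) * (D / (4 * r ^ 2)))) := by
    calc ((sM P).det * (sM Q).det) ^ (m - n)
        ≤ (((sM M).det) ^ 2 * Real.exp (-(D / (4 * r ^ 2)))) ^ (m - n) :=
          pow_le_pow_left₀ (by positivity) h1 _
      _ = ((sM M).det ^ 2) ^ (m - n) * Real.exp (-(((m - n : ℕ) : ℝ) * (D / (4 * r ^ 2)))) := by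
          rw [mul_pow, ← Real.exp_nat_mul]
          congr 2
          ring
  calc (sM P).det ^ (m - n) * LinearMap.det (KS P) * ((sM Q).det ^ (m - n) *
        LinearMap.det (KS Q))
      = ((sM P).det * (sM Q).det) ^ (m - n) *
          (LinearMap.det (KS P) * LinearMap.det (KS Q)) := by rw [mul_pow]; ring
    _ ≤ (((sM M).det ^ 2) ^ (m - n) * Real.exp (-(((m - n : ℕ) : ℝ) * (D / (4 * r ^ 2))))) *
          ((LinearMap.det (KS M)) ^ 2 * Real.exp (-(((n : ℝ) - 2) * D / (16 * r ^ 2)))) :=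
        mul_le_mul h3 h2 (by positivity) (by positivity)
    _ = ((sM M).det ^ (m - n) * LinearMap.det (KS M)) ^ 2 *
          Real.exp (-(((m - n : ℕ) : ℝ) * (D / (4 * r ^ 2))) +
            -(((n : ℝ) - 2) * D / (16 * r ^ 2))) := by
        rw [Real.exp_add]
        ring
    _ ≤ ((sM M).det ^ (m - n) * LinearMap.det (KS M)) ^ 2 *
          Real.exp (-(((m : ℝ) - 2) / (16 * r ^ 2) * D)) := by
        apply mul_le_mul_of_nonneg_left _ (sq_nonneg _)
        apply Real.exp_le_exp.2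
        rw [Nat.cast_sub hnm]
        have hmn : (n : ℝ) ≤ m := by exact_mod_cast hnm
        have e : -(((m : ℝ) - n) * (D / (4 * r ^ 2))) + -(((n : ℝ) - 2) * D / (16 * r ^ 2)) =
            -(((m : ℝ) - 2) / (16 * r ^ 2) * D) - 3 * ((m : ℝ) - n) * D / (16 * r ^ 2) := by
          field_simp
          ring
        rw [e]
        have : 0 ≤ 3 * ((m : ℝ) - n) * D / (16 * r ^ 2) := by
          have : 0 ≤ (m : ℝ) - n := by linarith
          positivity
        linarith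

end Pool.Agent.H212R2.KLS
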