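import Pool.Agent.H212R2.KLS.Defs
import Pool.Agent.PZ871.Pl

/-!
# KLS for matrices: R4, strong midpoint log-concavity implies the Poincare inequality
-/

set_option autoImplicit false

namespace Pool.Agent.H212R2.KLS

open MeasureTheory Set Matrix
open scoped ENNReal RealInnerProductSpace

namespace R4aux

variable {F : Type*} [NormedAddCommGroup F] [InnerProductSpace ℝ F]
    [FiniteDimensional ℝ F] [MeasurableSpace F] [BorelSpace F]

theorem plF (ν : Measure F) [ν.IsAddHaarMeasure] (f g h : F → ℝ≥0∞)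
    (hf : Measurable f) (hg : Measurable g) (hh : Measurable h)
    (H : ∀ x y, f x * g y ≤ h ((1 / 2 : ℝ) • (x + y)) ^ 2) :
    (∫⁻ x, f x ∂ν) * (∫⁻ x, g x ∂ν) ≤ (∫⁻ x, h x ∂ν) ^ 2 := by
  set n := Module.finrank ℝ F with hn
  let e : EuclideanSpace ℝ (Fin n) ≃ₗᵢ[ℝ] F := (stdOrthonormalBasis ℝ F).repr.symm
  let μ : Measure (EuclideanSpace ℝ (Fin n)) := ν.map e.symm
  have hμH : μ.IsAddHaarMeasure :=
    e.symm.toContinuousLinearEquiv.isAddHaarMeasure_map ν
  have hμ : μ = (μ.addHaarScalarFactor volume) • (volume : Measure (EuclideanSpace ℝ (Fin n))) :=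
    Measure.isAddLeftInvariant_eq_smul μ volume
  set c : ℝ≥0∞ := ((μ.addHaarScalarFactor volume : NNReal) : ℝ≥0∞) with hc
  have key : ∀ G : F → ℝ≥0∞, Measurable G → ∫⁻ x, G x ∂ν = c * ∫⁻ y, G (e y) := by
    intro G hG
    have h1 : ∫⁻ x, G x ∂ν = ∫⁻ y, G (e y) ∂μ := by
      change _ = ∫⁻ y, G (e y) ∂(ν.map e.symm)
      have h2 : Measurable (fun y => G (e y)) := hG.comp e.continuous.measurable
      rw [lintegral_map h2 e.symm.continuous.measurable]
      simp
    rw [h1, hμ, lintegral_smul_measure]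
    rfl
  rw [key f hf, key g hg, key h hh]
  have hm : Measurable (fun y => e y) := e.continuous.measurable
  have h2 := Pool.Agent.PZ871.M_pl.pl n (fun y => f (e y)) (fun y => g (e y)) (fun y => h (e y))
    (hf.comp hm) (hg.comp hm) (hh.comp hm) (by
      intro x y
      have := H (e x) (e y)
      rw [← map_add, ← map_smul] at this
      exact this)
  calc c * (∫⁻ y, f (e y)) * (c * ∫⁻ y, g (e y))
      = c ^ 2 * ((∫⁻ y, f (e y)) * ∫⁻ y, g (e y)) := by ring
    _ ≤ c ^ 2 * (∫⁻ y, h (e y)) ^ 2 := by gcongr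
    _ = (c * ∫⁻ y, h (e y)) ^ 2 := by ring

theorem exp_lower {s a : ℝ} (h : |s| ≤ a) (ha : a ≤ 1) :
    1 + s + s ^ 2 / 2 - a ^ 3 ≤ Real.exp s := by
  have h0 : 0 ≤ a := le_trans (abs_nonneg s) h
  have h1 := Real.exp_bound (x := s) (h.trans ha) (n := 3) (by norm_num)
  have h2 : ∑ m ∈ Finset.range 3, s ^ m / (m.factorial : ℝ) = 1 + s + s ^ 2 / 2 := by
    simp [Finset.sum_range_succ, Nat.factorial]
  rw [h2] at h1
  have h3 : |s| ^ 3 ≤ a ^ 3 := pow_le_pow_left₀ (abs_nonneg s) h 3
  have h4 : |s| ^ 3 * (((3 : ℕ).succ : ℝ) / (((3 : ℕ).factorial : ℝ) * ((3 : ℕ) : ℝ))) ≤ a ^ 3 := by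
    have h5 : (((3 : ℕ).succ : ℝ) / (((3 : ℕ).factorial : ℝ) * ((3 : ℕ) : ℝ))) = 2 / 9 := by
      norm_num [Nat.factorial]
    rw [h5]
    have h6 : 0 ≤ |s| ^ 3 := by positivity
    linarith
  have h5 := (abs_le.1 (h1.trans h4)).1
  linarith

theorem exp_upper {s a : ℝ} (h : |s| ≤ a) (ha : a ≤ 1) :
    Real.exp s ≤ 1 + s + s ^ 2 / 2 + a ^ 3 := by
  have h0 : 0 ≤ a := le_trans (abs_nonneg s) h
  have h1 := Real.exp_bound (x := s) (h.trans ha) (n := 3) (by norm_num)
  have h2 : ∑ m ∈ Finset.range 3, s ^ m / (m.factorial : ℝ) = 1 + s + s ^ 2 / 2 := by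
    simp [Finset.sum_range_succ, Nat.factorial]
  rw [h2] at h1
  have h3 : |s| ^ 3 ≤ a ^ 3 := pow_le_pow_left₀ (abs_nonneg s) h 3
  have h4 : |s| ^ 3 * (((3 : ℕ).succ : ℝ) / (((3 : ℕ).factorial : ℝ) * ((3 : ℕ) : ℝ))) ≤ a ^ 3 := by
    have h5 : (((3 : ℕ).succ : ℝ) / (((3 : ℕ).factorial : ℝ) * ((3 : ℕ) : ℝ))) = 2 / 9 := by
      norm_num [Nat.factorial]
    rw [h5]
    have h6 : 0 ≤ |s| ^ 3 := by positivity
    linarith
  have h5 := (abs_le.1 (h1.trans h4)).2
  linarith

variable {ν : Measure F} [ν.IsAddHaarMeasure] {w : F → ℝ}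

theorem intg (hwm : Measurable w) (hw : ∀ x, 0 ≤ w x)
    (hwb : ∃ B, ∀ x, w x ≤ B) {R : ℝ} (hR : ∀ x, R < ‖x‖ → w x = 0)
    {φ : F → ℝ} (hφ : Continuous φ) : Integrable (fun x => φ x * w x) ν := by
  obtain ⟨B, hB⟩ := hwb
  have hK : IsCompact (Metric.closedBall (0 : F) R) := isCompact_closedBall 0 R
  have h1 : IntegrableOn w (Metric.closedBall (0 : F) R) ν := by
    refine Measure.integrableOn_of_bounded (M := B) hK.measure_lt_top.ne
      hwm.aestronglyMeasurable ?_
    refine Filter.Eventually.of_forall fun x => ?_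
    rw [Real.norm_eq_abs, abs_of_nonneg (hw x)]
    exact hB x
  have h2 : IntegrableOn (fun x => φ x * w x) (Metric.closedBall (0 : F) R) ν :=
    h1.continuousOn_mul hφ.continuousOn hK
  refine (integrableOn_iff_integrable_of_support_subset ?_).1 h2
  intro x hx
  by_contra hx'
  apply hx
  have : R < ‖x‖ := by
    rw [Metric.mem_closedBall, dist_zero_right] at hx'
    exact not_le.1 hx'
  change φ x * w x = 0
  rw [hR x this, mul_zero]

theorem lint (hwm : Measurable w) (hw : ∀ x, 0 ≤ w x)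
    (hwb : ∃ B, ∀ x, w x ≤ B) {R : ℝ} (hR : ∀ x, R < ‖x‖ → w x = 0)
    {φ : F → ℝ} (hφ : Continuous φ) (hφ0 : ∀ x, 0 ≤ φ x) :
    ∫⁻ x, ENNReal.ofReal (φ x * w x) ∂ν = ENNReal.ofReal (∫ x, φ x * w x ∂ν) := by
  rw [ofReal_integral_eq_lintegral_ofReal (intg hwm hw hwb hR hφ)]
  exact Filter.Eventually.of_forall fun x => mul_nonneg (hφ0 x) (hw x)

/-- the elementary asymptotic comparison -/
theorem asym {M W P Q B κ D ε0 : ℝ} (hM : 0 ≤ M) (hW : 0 < W) (hκ : 0 < κ) (hD : 0 ≤ D)
    (hQ : 0 ≤ Q) (hP : P = D / (8 * κ) + M / 8) (hε0 : 0 < ε0)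
    (h : ∀ ε, 0 < ε → ε ≤ ε0 → ε ≤ 1 →
      (W + ε ^ 2 / 2 * M - ε ^ 3 * B) * W ≤ (W + ε ^ 2 * P + ε ^ 3 * Q) ^ 2) :
    κ * M ≤ D := by
  have hP0 : 0 ≤ P := by rw [hP]; positivity
  set K := |B| * W + 2 * W * Q + (P + Q) ^ 2 with hK
  have hK0 : 0 ≤ K := by positivity
  have h1 : ∀ ε, 0 < ε → ε ≤ ε0 → ε ≤ 1 → M * W / 2 - 2 * W * P ≤ ε * K := by
    intro ε he he0 he1
    have h2 := h ε he he0 he1
    have h3 : (ε ^ 2 * P + ε ^ 3 * Q) ^ 2 ≤ ε ^ 3 * (P + Q) ^ 2 := by
      have h4 : ε ^ 2 * P + ε ^ 3 * Q ≤ ε ^ 2 * (P + Q) := by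
        have : ε ^ 3 ≤ ε ^ 2 := pow_le_pow_of_le_one he.le he1 (by norm_num)
        nlinarith
      have h5 : 0 ≤ ε ^ 2 * P + ε ^ 3 * Q := by positivity
      calc (ε ^ 2 * P + ε ^ 3 * Q) ^ 2 ≤ (ε ^ 2 * (P + Q)) ^ 2 := pow_le_pow_left₀ h5 h4 2
        _ = ε ^ 4 * (P + Q) ^ 2 := by ring
        _ ≤ ε ^ 3 * (P + Q) ^ 2 := by
          have : ε ^ 4 ≤ ε ^ 3 := pow_le_pow_of_le_one he.le he1 (by norm_num)
          gcongr
    have h6 : ε ^ 3 * B * W ≤ ε ^ 3 * (|B| * W) := by
      have : B ≤ |B| := le_abs_self B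
      have h7 : 0 ≤ ε ^ 3 * W := by positivity
      nlinarith
    have h7 : ε ^ 2 * (M * W / 2 - 2 * W * P) ≤ ε ^ 2 * (ε * K) := by
      rw [hK]
      nlinarith
    exact le_of_mul_le_mul_left h7 (by positivity)
  have h2 : M * W / 2 - 2 * W * P ≤ 0 := by
    by_contra hcon
    push Not at hcon
    set a := M * W / 2 - 2 * W * P with ha
    have hK1 : 0 < K + 1 := by linarith
    set ε := min (min ε0 1) (a / (2 * (K + 1))) with he
    have he0 : 0 < ε := by
      rw [he]
      refine lt_min (lt_min hε0 one_pos) ?_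
      positivity
    have he1 : ε ≤ ε0 := (min_le_left _ _).trans (min_le_left _ _)
    have he2 : ε ≤ 1 := (min_le_left _ _).trans (min_le_right _ _)
    have he3 : ε ≤ a / (2 * (K + 1)) := min_le_right _ _
    have h3 := h1 ε he0 he1 he2
    have h4 : ε * K ≤ a / 2 := by
      calc ε * K ≤ ε * (K + 1) := by nlinarith
        _ ≤ a / (2 * (K + 1)) * (K + 1) := by gcongr
        _ = a / 2 := by field_simp
    linarith
  have h3 : W * (M / 2 - 2 * P) ≤ W * 0 := by
    rw [mul_zero]; linarith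
  have h4 : M / 2 - 2 * P ≤ 0 := le_of_mul_le_mul_left h3 hW
  rw [hP] at h4
  have h5 : M / 4 ≤ D / (4 * κ) := by
    have : 2 * (D / (8 * κ) + M / 8) = D / (4 * κ) + M / 4 := by
      field_simp; ring
    linarith
  rw [div_le_div_iff₀ (by norm_num) (by positivity)] at h5
  linarith

theorem main (hwm : Measurable w) (hw : ∀ x, 0 ≤ w x)
    (hwb : ∃ B, ∀ x, w x ≤ B) {R : ℝ} (hR : ∀ x, R < ‖x‖ → w x = 0) (κ : ℝ) (hκ : 0 < κ)
    (hmid : ∀ x y, w x * w y ≤ (w ((1 / 2 : ℝ) • (x + y))) ^ 2 *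
      Real.exp (-(κ / 4 * ‖x - y‖ ^ 2)))
    (f : F → ℝ) (hf : ContDiff ℝ 1 f) (hW : 0 < ∫ x, w x ∂ν) (h0 : ∫ x, f x * w x ∂ν = 0)
    (η : ℝ) (hη : 0 < η) :
    κ * ∫ x, (f x) ^ 2 * w x ∂ν ≤ ∫ x, (‖fderiv ℝ f x‖ + η) ^ 2 * w x ∂ν := by
  have hfc : Continuous f := hf.continuous
  have hfd : Continuous (fderiv ℝ f) := hf.continuous_fderiv (by norm_num)
  have hdiff : ∀ x, DifferentiableAt ℝ f x := fun x => (hf.differentiable (by norm_num)) x
  have hK : IsCompact (Metric.closedBall (0 : F) R) := isCompact_closedBall 0 R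
  obtain ⟨B, hB⟩ := hK.exists_bound_of_continuousOn hfc.continuousOn
  obtain ⟨L, hL⟩ := hK.exists_bound_of_continuousOn hfd.continuousOn
  obtain ⟨δ, hδ, hδ'⟩ := (Metric.uniformContinuousOn_iff.1
    (hK.uniformContinuousOn_of_continuous hfd.continuousOn)) η hη
  have hB' : ∀ x, ‖x‖ ≤ R → |f x| ≤ |B| := fun x hx =>
    (hB x (by simpa using hx)).trans (le_abs_self B)
  have hL' : ∀ x, ‖x‖ ≤ R → ‖fderiv ℝ f x‖ ≤ |L| := fun x hx =>
    (hL x (by simpa using hx)).trans (le_abs_self L)
  set G : F → ℝ := fun x => (‖fderiv ℝ f x‖ + η) ^ 2 with hG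
  have hGc : Continuous G := by
    rw [hG]; exact (hfd.norm.add continuous_const).pow 2
  have hG0 : ∀ x, 0 ≤ G x := fun x => by rw [hG]; positivity
  set G0 : ℝ := (|L| + η) ^ 2 with hG0'
  have hGle : ∀ x, ‖x‖ ≤ R → G x ≤ G0 := by
    intro x hx
    have := hL' x hx
    rw [hG, hG0']
    dsimp only
    gcongr
  set S0 : ℝ := |B| / 2 + G0 / (8 * κ) with hS0
  have hG0n : 0 ≤ G0 := by rw [hG0']; positivity
  have hS0n : 0 ≤ S0 := by rw [hS0]; positivity
  set W := ∫ x, w x ∂ν with hWdef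
  set M := ∫ x, (f x) ^ 2 * w x ∂ν with hM
  set D := ∫ x, G x * w x ∂ν with hD
  have hM0 : 0 ≤ M := integral_nonneg fun x => mul_nonneg (sq_nonneg _) (hw x)
  have hD0 : 0 ≤ D := integral_nonneg fun x => mul_nonneg (hG0 x) (hw x)
  set C2 : ℝ := S0 ^ 3 + (|B| * G0 / (8 * κ) + G0 ^ 2 / (64 * κ ^ 2)) / 2 with hC2
  have hC2n : 0 ≤ C2 := by rw [hC2]; positivity
  -- integrability
  have I1 : ∀ {φ : F → ℝ}, Continuous φ → Integrable (fun x => φ x * w x) ν :=
    fun hφ => intg hwm hw hwb hR hφ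
  have Iw : Integrable w ν := by
    have := I1 (φ := fun _ => (1 : ℝ)) continuous_const
    simpa using this
  set ε0 : ℝ := min (κ * δ / (|L| + 1)) (min (1 / (|B| + 1)) (1 / (S0 + 1))) with hε0
  have hε0p : 0 < ε0 := by
    rw [hε0]
    refine lt_min (by positivity) (lt_min (by positivity) (by positivity))
  have goal : κ * M ≤ D := by
    refine asym (P := D / (8 * κ) + M / 8) (Q := C2 * W) (B := |B| ^ 3 * W) (W := W) (ε0 := ε0)
      hM0 hW hκ hD0 (by positivity) rfl hε0p ?_
    intro ε he hee he1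
    have heL : ε * |L| ≤ κ * δ := by
      have h1 : ε ≤ κ * δ / (|L| + 1) := hee.trans (min_le_left _ _)
      have h2 : ε * (|L| + 1) ≤ κ * δ := by
        rw [le_div_iff₀ (by positivity)] at h1
        exact h1
      nlinarith
    have heB : ε * |B| ≤ 1 := by
      have h1 : ε ≤ 1 / (|B| + 1) := hee.trans ((min_le_right _ _).trans (min_le_left _ _))
      rw [le_div_iff₀ (by positivity)] at h1
      nlinarith
    have heS : ε * S0 ≤ 1 := by
      have h1 : ε ≤ 1 / (S0 + 1) := hee.trans ((min_le_right _ _).trans (min_le_right _ _))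
      rw [le_div_iff₀ (by positivity)] at h1
      nlinarith
    set s : F → ℝ := fun x => ε * f x / 2 + ε ^ 2 * G x / (8 * κ) with hs
    have hsc : Continuous s := by
      rw [hs]
      exact ((continuous_const.mul hfc).div_const 2).add
        ((continuous_const.mul hGc).div_const _)
    -- the pointwise inequality
    have hpt : ∀ x y, (Real.exp (ε * f x) * w x) * (1 * w y)
        ≤ (Real.exp (s ((1 / 2 : ℝ) • (x + y))) * w ((1 / 2 : ℝ) • (x + y))) ^ 2 := by
      intro x y
      by_cases hx : w x = 0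
      · rw [hx]; simp only [mul_zero, zero_mul]; positivity
      by_cases hy : w y = 0
      · rw [hy]; simp only [mul_zero]; positivity
      have hxR : ‖x‖ ≤ R := by
        by_contra hcon
        exact hx (hR x (not_le.1 hcon))
      have hyR : ‖y‖ ≤ R := by
        by_contra hcon
        exact hy (hR y (not_le.1 hcon))
      set z : F := (1 / 2 : ℝ) • (x + y) with hz
      have hzR : ‖z‖ ≤ R := by
        rw [hz, norm_smul, Real.norm_eq_abs, abs_of_pos (by norm_num : (0 : ℝ) < 1 / 2)]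
        have := norm_add_le x y
        linarith
      have hxz : x - z = (1 / 2 : ℝ) • (x - y) := by
        rw [hz, smul_add, smul_sub]
        have : x = (1 / 2 : ℝ) • x + (1 / 2 : ℝ) • x := by
          rw [← add_smul]; norm_num
        nth_rewrite 1 [this]
        abel
      set t : ℝ := ‖x - z‖ with ht
      have ht0 : 0 ≤ t := norm_nonneg _
      have htt : κ / 4 * ‖x - y‖ ^ 2 = κ * t ^ 2 := by
        rw [ht, hxz, norm_smul, Real.norm_eq_abs, abs_of_pos (by norm_num : (0 : ℝ) < 1 / 2)]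
        ring
      have hkey : ε * f x - κ * t ^ 2 ≤ 2 * s z := by
        have hs2 : 2 * s z = ε * f z + ε ^ 2 * G z / (4 * κ) := by
          rw [hs]; field_simp; ring
        rw [hs2]
        have hseg : ∀ p ∈ segment ℝ z x, ‖p‖ ≤ R ∧ ‖p - z‖ ≤ t := by
          intro p hp
          obtain ⟨a, b, ha, hb, hab, rfl⟩ := hp
          constructor
          · calc ‖a • z + b • x‖ ≤ ‖a • z‖ + ‖b • x‖ := norm_add_le _ _
              _ = a * ‖z‖ + b * ‖x‖ := by
                rw [norm_smul a z, norm_smul b x, Real.norm_eq_abs, Real.norm_eq_abs,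
                  abs_of_nonneg ha, abs_of_nonneg hb]
              _ ≤ a * R + b * R := by gcongr
              _ = R := by rw [← add_mul, hab, one_mul]
          · have h1 : a • z + b • x - z = b • (x - z) := by
              have : a = 1 - b := by linarith
              rw [this, sub_smul, one_smul, smul_sub]
              abel
            rw [h1, norm_smul, Real.norm_eq_abs, abs_of_nonneg hb]
            have hb1 : b ≤ 1 := by linarith
            calc b * t ≤ 1 * t := by gcongr
              _ = t := one_mul t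
        by_cases htd : t < δ
        · have hmv : ‖f x - f z‖ ≤ (‖fderiv ℝ f z‖ + η) * ‖x - z‖ := by
            refine Convex.norm_image_sub_le_of_norm_fderiv_le (s := segment ℝ z x)
              (fun p _ => hdiff p) ?_ (convex_segment z x) (left_mem_segment ℝ z x)
              (right_mem_segment ℝ z x)
            intro p hp
            obtain ⟨h1, h2⟩ := hseg p hp
            have h3 := hδ' p (by simpa using h1) z (by simpa using hzR) (by
              rw [dist_eq_norm]; exact lt_of_le_of_lt h2 htd)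
            rw [dist_eq_norm] at h3
            have h4 : ‖fderiv ℝ f p‖ ≤ ‖fderiv ℝ f p - fderiv ℝ f z‖ + ‖fderiv ℝ f z‖ := by
              have := norm_add_le (fderiv ℝ f p - fderiv ℝ f z) (fderiv ℝ f z)
              rwa [sub_add_cancel] at this
            linarith
          have h1 : f x - f z ≤ (‖fderiv ℝ f z‖ + η) * t := (le_abs_self _).trans hmv
          set a := ‖fderiv ℝ f z‖ + η with ha
          have hGa : G z = a ^ 2 := rfl
          have h2 : ε * a * t - κ * t ^ 2 ≤ ε ^ 2 * a ^ 2 / (4 * κ) := by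
            rw [le_div_iff₀ (by positivity)]
            nlinarith [sq_nonneg (2 * κ * t - ε * a)]
          have h3 : ε * (f x - f z) ≤ ε * (a * t) := by gcongr
          rw [hGa]
          linarith
        · push Not at htd
          have hmv : ‖f x - f z‖ ≤ |L| * ‖x - z‖ := by
            refine Convex.norm_image_sub_le_of_norm_fderiv_le (s := segment ℝ z x)
              (fun p _ => hdiff p) ?_ (convex_segment z x) (left_mem_segment ℝ z x)
              (right_mem_segment ℝ z x)
            intro p hp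
            exact hL' p (hseg p hp).1
          have h1 : f x - f z ≤ |L| * t := (le_abs_self _).trans hmv
          have h2 : ε * (f x - f z) ≤ ε * (|L| * t) := by gcongr
          have h3 : ε * (|L| * t) ≤ κ * δ * t := by
            have : ε * |L| * t ≤ κ * δ * t := by gcongr
            linarith
          have h4 : κ * δ * t ≤ κ * t ^ 2 := by
            have : κ * t * δ ≤ κ * t * t := by gcongr
            linarith
          have h5 : 0 ≤ ε ^ 2 * G z / (4 * κ) := by
            have := hG0 z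
            positivity
          linarith
      have h1 := hmid x y
      rw [← hz, htt] at h1
      calc (Real.exp (ε * f x) * w x) * (1 * w y) = Real.exp (ε * f x) * (w x * w y) := by ring
        _ ≤ Real.exp (ε * f x) * (w z ^ 2 * Real.exp (-(κ * t ^ 2))) := by gcongr
        _ = Real.exp (ε * f x - κ * t ^ 2) * w z ^ 2 := by
          rw [sub_eq_add_neg, Real.exp_add]; ring
        _ ≤ Real.exp (2 * s z) * w z ^ 2 := by gcongr
        _ = (Real.exp (s z) * w z) ^ 2 := by
          rw [mul_pow, ← Real.exp_nat_mul]; norm_num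
    -- Prekopa-Leindler
    have hE1 : Continuous (fun x => Real.exp (ε * f x)) :=
      Real.continuous_exp.comp (continuous_const.mul hfc)
    have hE2 : Continuous (fun x => Real.exp (s x)) := Real.continuous_exp.comp hsc
    have hPL := plF ν (fun x => ENNReal.ofReal (Real.exp (ε * f x) * w x))
      (fun x => ENNReal.ofReal (1 * w x)) (fun x => ENNReal.ofReal (Real.exp (s x) * w x))
      (hE1.measurable.mul hwm).ennreal_ofReal ((measurable_const.mul hwm).ennreal_ofReal)
      (hE2.measurable.mul hwm).ennreal_ofReal (by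
        intro x y
        rw [← ENNReal.ofReal_mul (mul_nonneg (Real.exp_pos _).le (hw x)),
          ← ENNReal.ofReal_pow (mul_nonneg (Real.exp_pos _).le (hw _))]
        exact ENNReal.ofReal_le_ofReal (hpt x y))
    rw [lint hwm hw hwb hR hE1 (fun x => (Real.exp_pos _).le),
      lint hwm hw hwb hR (φ := fun _ => (1 : ℝ)) continuous_const (fun _ => zero_le_one),
      lint hwm hw hwb hR hE2 (fun x => (Real.exp_pos _).le)] at hPL
    have hnn : 0 ≤ ∫ x, Real.exp (ε * f x) * w x ∂ν :=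
      integral_nonneg fun x => mul_nonneg (Real.exp_pos _).le (hw x)
    have hnn2 : 0 ≤ ∫ x, Real.exp (s x) * w x ∂ν :=
      integral_nonneg fun x => mul_nonneg (Real.exp_pos _).le (hw x)
    rw [← ENNReal.ofReal_mul hnn, ← ENNReal.ofReal_pow hnn2,
      ENNReal.ofReal_le_ofReal_iff (by positivity)] at hPL
    have hone : ∫ x, (1 : ℝ) * w x ∂ν = W := by
      rw [hWdef]; simp
    rw [hone] at hPL
    -- lower bound
    have hlow : W + ε ^ 2 / 2 * M - ε ^ 3 * (|B| ^ 3 * W)
        ≤ ∫ x, Real.exp (ε * f x) * w x ∂ν := by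
      have h1 : ∫ x, (1 - (ε * |B|) ^ 3) * w x + ε * (f x * w x)
          + ε ^ 2 / 2 * ((f x) ^ 2 * w x) ∂ν
          = W + ε ^ 2 / 2 * M - ε ^ 3 * (|B| ^ 3 * W) := by
        rw [integral_add, integral_add, integral_const_mul, integral_const_mul,
          integral_const_mul, h0]
        · rw [← hWdef, ← hM]; ring
        · exact Iw.const_mul _
        · exact (I1 hfc).const_mul _
        · exact (Iw.const_mul _).add ((I1 hfc).const_mul _)
        · exact (I1 (hfc.pow 2)).const_mul _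
      rw [← h1]
      refine integral_mono ?_ (I1 hE1) ?_
      · exact ((Iw.const_mul _).add ((I1 hfc).const_mul _)).add ((I1 (hfc.pow 2)).const_mul _)
      · intro x
        dsimp only
        by_cases hx : w x = 0
        · rw [hx]; simp
        have hxR : ‖x‖ ≤ R := by
          by_contra hcon
          exact hx (hR x (not_le.1 hcon))
        have h2 : |ε * f x| ≤ ε * |B| := by
          rw [abs_mul, abs_of_pos he]
          have := hB' x hxR
          gcongr
        have h3 := exp_lower h2 heB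
        have h4 : (1 + ε * f x + (ε * f x) ^ 2 / 2 - (ε * |B|) ^ 3) * w x
            ≤ Real.exp (ε * f x) * w x := mul_le_mul_of_nonneg_right h3 (hw x)
        calc _ = (1 + ε * f x + (ε * f x) ^ 2 / 2 - (ε * |B|) ^ 3) * w x := by ring
          _ ≤ _ := h4
    -- upper bound
    have hupp : ∫ x, Real.exp (s x) * w x ∂ν
        ≤ W + ε ^ 2 * (D / (8 * κ) + M / 8) + ε ^ 3 * (C2 * W) := by
      have h1 : ∫ x, (1 + ε ^ 3 * C2) * w x + ε / 2 * (f x * w x)
          + ε ^ 2 / 8 * ((f x) ^ 2 * w x) + ε ^ 2 / (8 * κ) * (G x * w x) ∂ν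
          = W + ε ^ 2 * (D / (8 * κ) + M / 8) + ε ^ 3 * (C2 * W) := by
        rw [integral_add, integral_add, integral_add, integral_const_mul, integral_const_mul,
          integral_const_mul, integral_const_mul, h0]
        · rw [← hWdef, ← hM, ← hD]
          field_simp
          ring
        · exact Iw.const_mul _
        · exact (I1 hfc).const_mul _
        · exact (Iw.const_mul _).add ((I1 hfc).const_mul _)
        · exact (I1 (hfc.pow 2)).const_mul _
        · exact ((Iw.const_mul _).add ((I1 hfc).const_mul _)).add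
            ((I1 (hfc.pow 2)).const_mul _)
        · exact (I1 hGc).const_mul _
      rw [← h1]
      refine integral_mono (I1 hE2) ?_ ?_
      · exact (((Iw.const_mul _).add ((I1 hfc).const_mul _)).add
            ((I1 (hfc.pow 2)).const_mul _)).add ((I1 hGc).const_mul _)
      · intro x
        dsimp only
        by_cases hx : w x = 0
        · rw [hx]; simp
        have hxR : ‖x‖ ≤ R := by
          by_contra hcon
          exact hx (hR x (not_le.1 hcon))
        have hfB := hB' x hxR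
        have hGG := hGle x hxR
        have hGn := hG0 x
        have hee2 : ε ^ 2 ≤ ε := by nlinarith
        have h2 : |s x| ≤ ε * S0 := by
          rw [hs, hS0]
          dsimp only
          have h3 : |ε * f x / 2| ≤ ε * (|B| / 2) := by
            rw [abs_div, abs_mul, abs_of_pos he, abs_of_pos (by norm_num : (0 : ℝ) < 2)]
            have : ε * |f x| ≤ ε * |B| := by gcongr
            linarith
          have h4 : |ε ^ 2 * G x / (8 * κ)| ≤ ε * (G0 / (8 * κ)) := by
            rw [abs_of_nonneg (by positivity), mul_div_assoc]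
            gcongr
          calc |ε * f x / 2 + ε ^ 2 * G x / (8 * κ)|
              ≤ |ε * f x / 2| + |ε ^ 2 * G x / (8 * κ)| := abs_add_le _ _
            _ ≤ ε * (|B| / 2) + ε * (G0 / (8 * κ)) := add_le_add h3 h4
            _ = ε * (|B| / 2 + G0 / (8 * κ)) := by ring
        have h3 := exp_upper h2 heS
        have h5 : (s x) ^ 2 / 2 ≤ ε ^ 2 / 8 * (f x) ^ 2
            + ε ^ 3 * ((|B| * G0 / (8 * κ) + G0 ^ 2 / (64 * κ ^ 2)) / 2) := by
          have h6 : (s x) ^ 2 = ε ^ 2 / 4 * (f x) ^ 2 + ε ^ 3 * (f x * G x / (8 * κ))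
              + ε ^ 4 * ((G x) ^ 2 / (64 * κ ^ 2)) := by
            rw [hs]; dsimp only; field_simp; ring
          have h7 : f x * G x / (8 * κ) ≤ |B| * G0 / (8 * κ) := by
            have h8 : f x * G x ≤ |B| * G0 := by
              calc f x * G x ≤ |f x| * G x := mul_le_mul_of_nonneg_right (le_abs_self _) hGn
                _ ≤ |B| * G0 := by gcongr
            gcongr
          have h8 : (G x) ^ 2 / (64 * κ ^ 2) ≤ G0 ^ 2 / (64 * κ ^ 2) := by gcongr
          have h9 : ε ^ 4 * ((G x) ^ 2 / (64 * κ ^ 2)) ≤ ε ^ 3 * (G0 ^ 2 / (64 * κ ^ 2)) := by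
            have : ε ^ 4 ≤ ε ^ 3 := pow_le_pow_of_le_one he.le he1 (by norm_num)
            gcongr
          have h10 : ε ^ 3 * (f x * G x / (8 * κ)) ≤ ε ^ 3 * (|B| * G0 / (8 * κ)) := by
            gcongr
          rw [h6]
          linarith
        have h6 : Real.exp (s x) ≤ 1 + ε ^ 3 * C2 + ε / 2 * f x + ε ^ 2 / 8 * (f x) ^ 2
            + ε ^ 2 / (8 * κ) * G x := by
          have h7 : s x = ε / 2 * f x + ε ^ 2 / (8 * κ) * G x := by
            rw [hs]; dsimp only; ring
          have h8 : ε ^ 3 * C2 = (ε * S0) ^ 3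
              + ε ^ 3 * ((|B| * G0 / (8 * κ) + G0 ^ 2 / (64 * κ ^ 2)) / 2) := by
            rw [hC2]; ring
          rw [h8]
          linarith
        calc Real.exp (s x) * w x ≤ (1 + ε ^ 3 * C2 + ε / 2 * f x + ε ^ 2 / 8 * (f x) ^ 2
            + ε ^ 2 / (8 * κ) * G x) * w x := mul_le_mul_of_nonneg_right h6 (hw x)
          _ = _ := by ring
    calc (W + ε ^ 2 / 2 * M - ε ^ 3 * (|B| ^ 3 * W)) * W
        ≤ (∫ x, Real.exp (ε * f x) * w x ∂ν) * W := mul_le_mul_of_nonneg_right hlow hW.le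
      _ ≤ (∫ x, Real.exp (s x) * w x ∂ν) ^ 2 := hPL
      _ ≤ _ := pow_le_pow_left₀ hnn2 hupp 2
  exact goal

end R4aux

theorem poincare_of_strong {F : Type*} [NormedAddCommGroup F] [InnerProductSpace ℝ F]
    [FiniteDimensional ℝ F] [MeasurableSpace F] [BorelSpace F] (ν : Measure F)
    [ν.IsAddHaarMeasure] (w : F → ℝ) (hw : ∀ x, 0 ≤ w x) (hwm : Measurable w)
    (hwb : ∃ B, ∀ x, w x ≤ B) (hws : Bdd w) (κ : ℝ) (hκ : 0 < κ)
    (hmid : ∀ x y, w x * w y ≤ (w ((1 / 2 : ℝ) • (x + y))) ^ 2 *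
      Real.exp (-(κ / 4 * ‖x - y‖ ^ 2)))
    (f : F → ℝ) (hf : ContDiff ℝ 1 f) :
    ∃ c : ℝ, ∫ x, (f x - c) ^ 2 * w x ∂ν ≤ κ⁻¹ * ∫ x, ‖fderiv ℝ f x‖ ^ 2 * w x ∂ν := by
  obtain ⟨R, hR⟩ := hws
  have I1 : ∀ {φ : F → ℝ}, Continuous φ → Integrable (fun x => φ x * w x) ν :=
    fun hφ => R4aux.intg hwm hw hwb hR hφ
  have Iw : Integrable w ν := by
    have := I1 (φ := fun _ => (1 : ℝ)) continuous_const
    simpa using this
  have hfd : Continuous (fderiv ℝ f) := hf.continuous_fderiv (by norm_num)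
  have hW0 : 0 ≤ ∫ x, w x ∂ν := integral_nonneg hw
  rcases hW0.eq_or_lt with hW | hW
  · refine ⟨0, ?_⟩
    have h1 : w =ᵐ[ν] 0 := (integral_eq_zero_iff_of_nonneg hw Iw).1 hW.symm
    have h2 : ∫ x, (f x - 0) ^ 2 * w x ∂ν = 0 := by
      rw [integral_congr_ae (g := fun _ => (0 : ℝ)), integral_zero]
      filter_upwards [h1] with x hx
      rw [hx]; simp
    rw [h2]
    have h3 : 0 ≤ ∫ x, ‖fderiv ℝ f x‖ ^ 2 * w x ∂ν :=
      integral_nonneg fun x => mul_nonneg (sq_nonneg _) (hw x)
    positivity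
  · set W := ∫ x, w x ∂ν with hWdef
    set c := (∫ x, f x * w x ∂ν) / W with hc
    refine ⟨c, ?_⟩
    have hg : ContDiff ℝ 1 (fun x => f x - c) := hf.sub contDiff_const
    have hgd : ∀ x, fderiv ℝ (fun x => f x - c) x = fderiv ℝ f x := by
      intro x
      rw [fderiv_sub_const]
    have hg0 : ∫ x, (f x - c) * w x ∂ν = 0 := by
      have h1 : ∫ x, (f x * w x - c * w x) ∂ν = (∫ x, f x * w x ∂ν) - c * W := by
        rw [integral_sub (I1 hf.continuous) (Iw.const_mul c), integral_const_mul]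
      have h2 : ∀ x, (f x - c) * w x = f x * w x - c * w x := fun x => by ring
      simp_rw [h2]
      rw [h1, hc]
      field_simp
      ring
    set D1 := ∫ x, ‖fderiv ℝ f x‖ * w x ∂ν with hD1
    set D0 := ∫ x, ‖fderiv ℝ f x‖ ^ 2 * w x ∂ν with hD0
    set M := ∫ x, (f x - c) ^ 2 * w x ∂ν with hM
    have hD1n : 0 ≤ D1 := integral_nonneg fun x => mul_nonneg (norm_nonneg _) (hw x)
    have key : ∀ η : ℝ, 0 < η → κ * M ≤ D0 + 2 * η * D1 + η ^ 2 * W := by
      intro η hη
      have h1 := R4aux.main hwm hw hwb hR κ hκ hmid (fun x => f x - c) hg hW hg0 η hη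
      simp_rw [hgd] at h1
      have h2 : ∫ x, (‖fderiv ℝ f x‖ + η) ^ 2 * w x ∂ν = D0 + 2 * η * D1 + η ^ 2 * W := by
        have h3 : ∀ x, (‖fderiv ℝ f x‖ + η) ^ 2 * w x = ‖fderiv ℝ f x‖ ^ 2 * w x
            + 2 * η * (‖fderiv ℝ f x‖ * w x) + η ^ 2 * w x := fun x => by ring
        simp_rw [h3]
        rw [integral_add, integral_add, integral_const_mul, integral_const_mul]
        · exact I1 (hfd.norm.pow 2)
        · exact (I1 hfd.norm).const_mul _
        · exact (I1 (hfd.norm.pow 2)).add ((I1 hfd.norm).const_mul _)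
        · exact Iw.const_mul _
      rw [h2] at h1
      exact h1
    have h5 : κ * M ≤ D0 := by
      refine le_of_forall_pos_le_add fun a ha => ?_
      set η := min 1 (a / (2 * D1 + W)) with hη
      have hη0 : 0 < η := lt_min one_pos (by positivity)
      have h6 := key η hη0
      have h7 : η ≤ 1 := min_le_left _ _
      have h8 : η ≤ a / (2 * D1 + W) := min_le_right _ _
      have h9 : η * (2 * D1 + W) ≤ a := by
        rw [le_div_iff₀ (by positivity)] at h8
        exact h8
      have h10 : η ^ 2 * W ≤ η * W := by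
        have : η ^ 2 ≤ η := by nlinarith
        gcongr
      linarith
    rw [inv_mul_eq_div, le_div_iff₀ hκ]
    linarith

end Pool.Agent.H212R2.KLS
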