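import Pool.Agent.H212R2.KLS.Defs

/-!
# R6: determinant of the congruence action on symmetric matrices (helper58)
-/

set_option autoImplicit false

namespace Pool.Agent.H212R2.KLS

open Matrix

/-- index pairs `i ≤ j` -/
abbrev r6I (n : ℕ) := {p : Fin n × Fin n // p.1 ≤ p.2}

/-- coordinates on symmetric matrices -/
def r6E (n : ℕ) : Sy n ≃ₗ[ℝ] (r6I n → ℝ) where
  toFun G p := sM G p.1.1 p.1.2
  map_add' G H := rfl
  map_smul' c G := rfl
  invFun f := sOf (Matrix.of fun i j => if h : i ≤ j then f ⟨(i, j), h⟩ else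
    f ⟨(j, i), le_of_lt (not_le.1 h)⟩) (by
      ext i j
      simp only [Matrix.transpose_apply, Matrix.of_apply]
      by_cases h1 : j ≤ i
      · by_cases h2 : i ≤ j
        · have : i = j := le_antisymm h2 h1
          subst this
          rfl
        · rw [dif_pos h1, dif_neg h2]
      · rw [dif_neg h1, dif_pos (le_of_lt (not_le.1 h1))])
  left_inv G := by
    apply Subtype.ext
    ext p
    change (if h : p.1 ≤ p.2 then sM G p.1 p.2 else sM G p.2 p.1) = sM G p.1 p.2
    split_ifs with h
    · rfl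
    · exact G.2 p.2 p.1
  right_inv f := by
    funext p
    obtain ⟨⟨i, j⟩, h⟩ := p
    change (if h : i ≤ j then f ⟨(i, j), h⟩ else _) = _
    rw [dif_pos h]

theorem r6_cong_mul {n : ℕ} (A B : Matrix (Fin n) (Fin n) ℝ) :
    cong (A * B) = cong B ∘ₗ cong A := by
  apply LinearMap.ext
  intro G
  apply Subtype.ext
  ext p
  change ((A * B)ᵀ * sM G * (A * B)) p.1 p.2 = (Bᵀ * (Aᵀ * sM G * A) * B) p.1 p.2
  rw [Matrix.transpose_mul]
  simp only [Matrix.mul_assoc]

theorem r6_cong_one {n : ℕ} : cong (1 : Matrix (Fin n) (Fin n) ℝ) = LinearMap.id := by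
  apply LinearMap.ext
  intro G
  apply Subtype.ext
  ext p
  change ((1 : Matrix (Fin n) (Fin n) ℝ)ᵀ * sM G * (1 : Matrix (Fin n) (Fin n) ℝ)) p.1 p.2 =
    sM G p.1 p.2
  rw [Matrix.transpose_one, Matrix.one_mul, Matrix.mul_one]

/-- the multiplicative function `A ↦ det (cong A)` -/
noncomputable def r6X {n : ℕ} (A : Matrix (Fin n) (Fin n) ℝ) : ℝ := LinearMap.det (cong A)

theorem r6X_mul {n : ℕ} (A B : Matrix (Fin n) (Fin n) ℝ) : r6X (A * B) = r6X A * r6X B := by
  unfold r6X
  rw [r6_cong_mul, LinearMap.det_comp, mul_comm]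

theorem r6X_one {n : ℕ} : r6X (1 : Matrix (Fin n) (Fin n) ℝ) = 1 := by
  unfold r6X
  rw [r6_cong_one, LinearMap.det_id]

theorem r6X_transvection {n : ℕ} {i j : Fin n} (h : i ≠ j) (c : ℝ) :
    r6X (transvection i j c) = 1 := by
  have h1 : ∀ c : ℝ, r6X (transvection i j c) ≠ 0 := by
    intro c h0
    have h2 : r6X (transvection i j c * transvection i j (-c)) = 1 := by
      rw [transvection_mul_transvection_same _ _ h, add_neg_cancel, transvection_zero, r6X_one]
    rw [r6X_mul, h0, zero_mul] at h2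
    exact zero_ne_one h2
  -- conjugation by a diagonal matrix
  set δ : Fin n → ℝ := fun k => if k = i then 2 else 1 with hδ
  set δ' : Fin n → ℝ := fun k => if k = i then 2⁻¹ else 1 with hδ'
  have h3 : diagonal δ * diagonal δ' = 1 := by
    rw [diagonal_mul_diagonal, ← diagonal_one]
    congr 1
    funext k
    simp only [hδ, hδ']
    split_ifs <;> norm_num
  have h4 : diagonal δ * transvection i j c * diagonal δ' = transvection i j (2 * c) := by
    have h5 : diagonal δ * Matrix.single i j c * diagonal δ' = Matrix.single i j (2 * c) := by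
      ext a b
      rw [Matrix.mul_diagonal, Matrix.diagonal_mul]
      simp only [Matrix.single_apply, hδ, hδ']
      by_cases ha : i = a
      · by_cases hb : j = b
        · subst ha hb
          simp [h.symm]
        · simp [hb]
      · simp [ha]
    unfold transvection
    rw [Matrix.mul_add, Matrix.add_mul, h5, Matrix.mul_one, h3]
  have h6 : r6X (transvection i j (2 * c)) = r6X (transvection i j c) := by
    have h7 : r6X (diagonal δ) * r6X (diagonal δ') = 1 := by
      rw [← r6X_mul, h3, r6X_one]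
    rw [← h4, r6X_mul, r6X_mul]
    calc r6X (diagonal δ) * r6X (transvection i j c) * r6X (diagonal δ')
        = (r6X (diagonal δ) * r6X (diagonal δ')) * r6X (transvection i j c) := by ring
      _ = _ := by rw [h7, one_mul]
  have h8 : r6X (transvection i j c) * r6X (transvection i j c) = r6X (transvection i j c) := by
    rw [← r6X_mul, transvection_mul_transvection_same _ _ h, ← two_mul, h6]
  have h9 := h1 c
  field_simp at h8
  exact h8

theorem r6_prod {n : ℕ} (d : Fin n → ℝ) :
    ∏ p : r6I n, (d p.1.1 * d p.1.2) = (∏ i, d i) ^ (n + 1) := by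
  classical
  have h1 : ∏ p : r6I n, (d p.1.1 * d p.1.2) =
      ∏ p : Fin n × Fin n, if p.1 ≤ p.2 then d p.1 * d p.2 else 1 := by
    rw [Finset.prod_ite, Finset.prod_const_one, mul_one]
    rw [← Finset.prod_subtype (s := Finset.univ.filter fun p : Fin n × Fin n => p.1 ≤ p.2)
      (p := fun p : Fin n × Fin n => p.1 ≤ p.2) (by simp) (f := fun p => d p.1 * d p.2)]
  rw [h1, Fintype.prod_prod_type]
  have h2 : ∀ i j : Fin n, (if i ≤ j then d i * d j else 1) =
      (if i ≤ j then d i else 1) * (if i ≤ j then d j else 1) := by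
    intro i j
    split_ifs <;> simp
  simp only [h2, Finset.prod_mul_distrib]
  rw [Finset.prod_comm (f := fun i j => if i ≤ j then d j else 1)]
  have h3 : ∀ i : Fin n, ∏ j : Fin n, (if i ≤ j then d i else 1) = d i ^ (n - i) := by
    intro i
    rw [Finset.prod_ite, Finset.prod_const_one, mul_one, Finset.prod_const]
    congr 1
    rw [show (Finset.univ.filter fun j : Fin n => i ≤ j) = Finset.Ici i by ext; simp,
      Fin.card_Ici]
  have h4 : ∀ j : Fin n, ∏ i : Fin n, (if i ≤ j then d j else 1) = d j ^ ((j : ℕ) + 1) := by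
    intro j
    rw [Finset.prod_ite, Finset.prod_const_one, mul_one, Finset.prod_const]
    congr 1
    rw [show (Finset.univ.filter fun i : Fin n => i ≤ j) = Finset.Iic j by ext; simp,
      Fin.card_Iic]
  simp only [h3, h4]
  rw [← Finset.prod_mul_distrib, ← Finset.prod_pow]
  refine Finset.prod_congr rfl fun i _ => ?_
  rw [← pow_add]
  congr 1
  have := i.2
  omega

theorem r6X_diagonal {n : ℕ} (d : Fin n → ℝ) :
    r6X (diagonal d) = (∏ i, d i) ^ (n + 1) := by
  classical
  have h1 : (r6E n : Sy n →ₗ[ℝ] (r6I n → ℝ)) ∘ₗ cong (diagonal d) ∘ₗ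
      ((r6E n).symm : (r6I n → ℝ) →ₗ[ℝ] Sy n) =
      Matrix.toLin' (diagonal fun p : r6I n => d p.1.1 * d p.1.2) := by
    apply LinearMap.ext
    intro f
    funext p
    rw [Matrix.toLin'_apply, Matrix.mulVec_diagonal]
    change ((diagonal d)ᵀ * sM ((r6E n).symm f) * diagonal d) p.1.1 p.1.2 = _
    rw [Matrix.diagonal_transpose, Matrix.mul_diagonal, Matrix.diagonal_mul]
    have h2 : sM ((r6E n).symm f) p.1.1 p.1.2 = f p :=
      congrFun ((r6E n).apply_symm_apply f) p
    rw [h2]
    ring
  unfold r6X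
  rw [← LinearMap.det_conj (cong (diagonal d)) (r6E n)]
  rw [h1, LinearMap.det_toLin', Matrix.det_diagonal, r6_prod]

theorem det_cong {n : ℕ} (A : Matrix (Fin n) (Fin n) ℝ) :
    LinearMap.det (cong A) = A.det ^ (n + 1) := by
  change r6X A = _
  refine Matrix.diagonal_transvection_induction (fun A => r6X A = A.det ^ (n + 1)) A ?_ ?_ ?_
  · intro D _
    rw [r6X_diagonal, Matrix.det_diagonal]
  · intro t
    rw [TransvectionStruct.det, one_pow]
    exact r6X_transvection t.hij t.c
  · intro A B hA hB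
    rw [r6X_mul, hA, hB, Matrix.det_mul, mul_pow]

end Pool.Agent.H212R2.KLS
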