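import Pool.Agent.H212R2.KLS.Defs

/-!
# Task R5: scaling of the volume by `X ↦ X A` and `X ↦ A X`
-/

set_option autoImplicit false

namespace Pool.Agent.H212R2.KLS

open MeasureTheory Set Matrix
open scoped ENNReal RealInnerProductSpace Kronecker

theorem R5_lin {ι : Type*} [Fintype ι] [DecidableEq ι] (M : Matrix ι ι ℝ) (hM : M.det ≠ 0)
    (F : EuclideanSpace ℝ ι → ℝ≥0∞) :
    ∫⁻ x : EuclideanSpace ℝ ι, F (Matrix.toEuclideanLin M x) =
      (ENNReal.ofReal |M.det|)⁻¹ * ∫⁻ x : EuclideanSpace ℝ ι, F x := by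
  set f : EuclideanSpace ℝ ι →ₗ[ℝ] EuclideanSpace ℝ ι := Matrix.toEuclideanLin M with hf
  have hdet : LinearMap.det f = M.det := by
    rw [hf, Matrix.toEuclideanLin_eq_toLin_orthonormal, LinearMap.det_toLin]
  have hf0 : LinearMap.det f ≠ 0 := by rw [hdet]; exact hM
  have hmap := MeasureTheory.Measure.map_linearMap_addHaar_eq_smul_addHaar
    (volume : Measure (EuclideanSpace ℝ ι)) hf0
  have hemb : MeasurableEmbedding f := by
    have h1 : IsUnit (LinearMap.det f) := hf0.isUnit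
    set e := LinearMap.equivOfDetNeZero f hf0 with he
    have h2 := e.toContinuousLinearEquiv.toHomeomorph.measurableEmbedding
    exact h2
  have h := hemb.lintegral_map (μ := (volume : Measure (EuclideanSpace ℝ ι))) F
  rw [hmap, lintegral_smul_measure, hdet] at h
  rw [← h, abs_inv, ENNReal.ofReal_inv_of_pos (abs_pos.mpr hM), smul_eq_mul]

theorem lintegral_rm {m n : ℕ} (A : Matrix (Fin n) (Fin n) ℝ) (hA : A.det ≠ 0)
    (F : E m n → ℝ≥0∞) :
    ∫⁻ X : E m n, F (rm X A) = (ENNReal.ofReal (|A.det| ^ m))⁻¹ * ∫⁻ X : E m n, F X := by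
  set M : Matrix (Fin m × Fin n) (Fin m × Fin n) ℝ := (1 : Matrix (Fin m) (Fin m) ℝ) ⊗ₖ Aᵀ with hMdef
  have hdet : M.det = A.det ^ m := by
    rw [hMdef, Matrix.det_kronecker, Matrix.det_one, one_pow, one_mul, Matrix.det_transpose,
      Fintype.card_fin]
  have hM : M.det ≠ 0 := by rw [hdet]; exact pow_ne_zero _ hA
  have h := R5_lin M hM F
  rw [hdet, abs_pow] at h
  rw [← h]
  apply lintegral_congr
  intro X
  congr 1
  ext ⟨i, j⟩
  rw [Matrix.toLpLin_apply]
  simp only [rm, ofM_apply, Matrix.mul_apply, toM_apply, hMdef, Matrix.mulVec, dotProduct,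
    Matrix.kroneckerMap_apply, Matrix.transpose_apply, Matrix.one_apply]
  rw [Fintype.sum_prod_type]
  simp only [ite_mul, one_mul, zero_mul]
  rw [Finset.sum_eq_single i]
  · simp only [if_true]
    apply Finset.sum_congr rfl
    intro k _
    ring
  · intro b _ hb
    apply Finset.sum_eq_zero
    intro k _
    rw [if_neg (Ne.symm hb)]
  · intro h0
    exact absurd (Finset.mem_univ i) h0

theorem lintegral_lm {m n : ℕ} (A : Matrix (Fin m) (Fin m) ℝ) (hA : A.det ≠ 0)
    (F : E m n → ℝ≥0∞) :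
    ∫⁻ X : E m n, F (lm A X) = (ENNReal.ofReal (|A.det| ^ n))⁻¹ * ∫⁻ X : E m n, F X := by
  set M : Matrix (Fin m × Fin n) (Fin m × Fin n) ℝ := A ⊗ₖ (1 : Matrix (Fin n) (Fin n) ℝ) with hMdef
  have hdet : M.det = A.det ^ n := by
    rw [hMdef, Matrix.det_kronecker, Matrix.det_one, one_pow, mul_one, Fintype.card_fin]
  have hM : M.det ≠ 0 := by rw [hdet]; exact pow_ne_zero _ hA
  have h := R5_lin M hM F
  rw [hdet, abs_pow] at h
  rw [← h]
  apply lintegral_congr
  intro X
  congr 1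
  ext ⟨i, j⟩
  rw [Matrix.toLpLin_apply]
  simp only [lm, ofM_apply, Matrix.mul_apply, toM_apply, hMdef, Matrix.mulVec, dotProduct,
    Matrix.kroneckerMap_apply, Matrix.one_apply]
  rw [Fintype.sum_prod_type]
  apply Finset.sum_congr rfl
  intro k _
  simp only [mul_ite, mul_one, mul_zero, ite_mul, zero_mul]
  rw [Finset.sum_ite_eq]
  simp

end Pool.Agent.H212R2.KLS
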