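import Pool.Agent.H212R2.KLS.Defs
import Pool.Agent.H212R2.KLS.R5

set_option autoImplicit false

namespace Pool.Agent.H212R2.KLS

open MeasureTheory Set Matrix
open scoped ENNReal InnerProductSpace Topology

namespace R7

theorem continuous_toM {m n : ℕ} : Continuous (toM : E m n → Matrix (Fin m) (Fin n) ℝ) := by
  refine continuous_matrix fun i j => ?_
  exact (continuous_apply (i, j)).comp (PiLp.continuous_ofLp 2 (fun _ : Fin m × Fin n => ℝ))

theorem continuous_sM {n : ℕ} : Continuous (sM : Sy n → Matrix (Fin n) (Fin n) ℝ) :=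
  continuous_toM.comp continuous_subtype_val

theorem continuous_Sy {α : Type*} [TopologicalSpace α] {n : ℕ} {f : α → Sy n}
    (h : Continuous fun a => sM (f a)) : Continuous f := by
  refine continuous_induced_rng.2 ?_
  have h2 : Continuous fun a => (WithLp.ofLp ((f a : E n n))) := by
    refine continuous_pi fun p => ?_
    exact h.matrix_elem p.1 p.2
  have := (PiLp.continuous_toLp 2 (fun _ : Fin n × Fin n => ℝ)).comp h2
  exact this

theorem measurable_Sy {α : Type*} [MeasurableSpace α] {n : ℕ} {f : α → Sy n}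
    (h : ∀ i j, Measurable fun a => sM (f a) i j) : Measurable f := by
  have h2 : Measurable fun a => (WithLp.ofLp ((f a : E n n))) := by
    refine measurable_pi_iff.2 fun p => ?_
    exact h p.1 p.2
  have h3 : Measurable fun a => (f a : E n n) :=
    (WithLp.measurable_toLp 2 (Fin n × Fin n → ℝ)).comp h2
  exact h3.subtype_mk

theorem isClosed_Kn (n : ℕ) : IsClosed (Kn n) := by
  have : Kn n = ⋂ v : Fin n → ℝ, ({G : Sy n | (1 / 2) * (v ⬝ᵥ v) ≤ v ⬝ᵥ (sM G *ᵥ v)} ∩
      {G : Sy n | v ⬝ᵥ (sM G *ᵥ v) ≤ 2 * (v ⬝ᵥ v)}) := by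
    ext G
    simp only [Kn, Set.mem_ofPred_eq, mem_iInter, mem_inter_iff]
  rw [this]
  refine isClosed_iInter fun v => ?_
  have hc : Continuous fun G : Sy n => v ⬝ᵥ (sM G *ᵥ v) := by
    have := continuous_sM (n := n)
    fun_prop
  exact (isClosed_le continuous_const hc).inter (isClosed_le hc continuous_const)

theorem one_mulVec_dot {n : ℕ} (v : Fin n → ℝ) : v ⬝ᵥ v = ∑ i, v i ^ 2 := by
  simp only [dotProduct, pow_two]

/-- the identity as a symmetric matrix -/
def oneS (n : ℕ) : Sy n := sOf 1 Matrix.transpose_one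

theorem quad_le {n : ℕ} (H : E n n) (v : Fin n → ℝ) :
    |v ⬝ᵥ (toM H *ᵥ v)| ≤ ‖H‖ * (v ⬝ᵥ v) := by
  let W : E n n := ofM (Matrix.vecMulVec v v)
  have h1 : v ⬝ᵥ (toM H *ᵥ v) = ⟪H, W⟫_ℝ := by
    rw [PiLp.inner_apply, Fintype.sum_prod_type]
    simp only [dotProduct, mulVec, toM_apply, Finset.mul_sum]
    refine Finset.sum_congr rfl fun i _ => Finset.sum_congr rfl fun j _ => ?_
    change _ = v i * v j * H (i, j)
    ring
  have h2 : ‖W‖ ^ 2 = (v ⬝ᵥ v) ^ 2 := by
    rw [EuclideanSpace.norm_sq_eq, Fintype.sum_prod_type]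
    rw [dotProduct, pow_two (∑ i, _), Finset.sum_mul_sum]
    refine Finset.sum_congr rfl fun i _ => Finset.sum_congr rfl fun j _ => ?_
    change ‖v i * v j‖ ^ 2 = _
    rw [Real.norm_eq_abs, sq_abs]
    ring
  have h3 : ‖W‖ = v ⬝ᵥ v := by
    have h0 : 0 ≤ v ⬝ᵥ v := by
      rw [one_mulVec_dot]; exact Finset.sum_nonneg fun i _ => sq_nonneg _
    exact (sq_eq_sq₀ (norm_nonneg _) h0).1 h2
  rw [h1, ← h3]
  exact abs_real_inner_le_norm H W

theorem Kn_mem_nhds (n : ℕ) : Kn n ∈ 𝓝 (oneS n) := by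
  refine Metric.mem_nhds_iff.2 ⟨1 / 2, by norm_num, ?_⟩
  intro G hG v
  rw [Metric.mem_ball, dist_eq_norm] at hG
  have h1 := quad_le ((G - oneS n : Sy n) : E n n) v
  have h2 : toM ((G - oneS n : Sy n) : E n n) = sM G - 1 := rfl
  rw [h2, Matrix.sub_mulVec, Matrix.one_mulVec, dotProduct_sub] at h1
  have h0 : 0 ≤ v ⬝ᵥ v := by
    rw [one_mulVec_dot]; exact Finset.sum_nonneg fun i _ => sq_nonneg _
  have h3 : ‖((G - oneS n : Sy n) : E n n)‖ * (v ⬝ᵥ v) ≤ 1 / 2 * (v ⬝ᵥ v) :=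
    mul_le_mul_of_nonneg_right hG.le h0
  have h4 := abs_le.1 (h1.trans h3)
  constructor <;> nlinarith [h4.1, h4.2]

theorem sM_herm {n : ℕ} (G : Sy n) : (sM G).IsHermitian := by
  rw [Matrix.IsHermitian, Matrix.conjTranspose_eq_transpose_of_trivial, sM_transpose]

theorem eig_eq {n : ℕ} (G : Sy n) (i : Fin n) :
    (sM_herm G).eigenvalues i = ((sM_herm G).eigenvectorBasis i).ofLp ⬝ᵥ
      (sM G *ᵥ ((sM_herm G).eigenvectorBasis i).ofLp) := by
  have := (sM_herm G).eigenvalues_eq i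
  simpa using this

theorem eig_norm {n : ℕ} (G : Sy n) (i : Fin n) :
    ((sM_herm G).eigenvectorBasis i).ofLp ⬝ᵥ ((sM_herm G).eigenvectorBasis i).ofLp = 1 := by
  have h := (sM_herm G).eigenvectorBasis.orthonormal.1 i
  rw [one_mulVec_dot]
  have h2 := EuclideanSpace.norm_sq_eq ((sM_herm G).eigenvectorBasis i)
  rw [h] at h2
  simp only [Real.norm_eq_abs, sq_abs, one_pow] at h2
  exact h2.symm

theorem det_Kn {n : ℕ} {G : Sy n} (hG : G ∈ Kn n) :
    (1 / 2) ^ n ≤ (sM G).det ∧ (sM G).det ≤ 2 ^ n := by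
  have h1 : (sM G).det = ∏ i, (sM_herm G).eigenvalues i := by
    have := (sM_herm G).det_eq_prod_eigenvalues
    simpa using this
  have h2 : ∀ i, 1 / 2 ≤ (sM_herm G).eigenvalues i ∧ (sM_herm G).eigenvalues i ≤ 2 := by
    intro i
    have h := hG ((sM_herm G).eigenvectorBasis i).ofLp
    rw [eig_norm, ← eig_eq] at h
    constructor <;> linarith [h.1, h.2]
  rw [h1]
  constructor
  · calc (1 / 2 : ℝ) ^ n = ∏ _i : Fin n, (1 / 2 : ℝ) := by simp
      _ ≤ _ := Finset.prod_le_prod (fun _ _ => by norm_num) fun i _ => (h2 i).1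
  · calc _ ≤ ∏ _i : Fin n, (2 : ℝ) :=
          Finset.prod_le_prod (fun i _ => by linarith [(h2 i).1]) fun i _ => (h2 i).2
      _ = 2 ^ n := by simp

theorem Kn_sub_PD (n : ℕ) : Kn n ⊆ PD n := by
  intro G hG v hv
  have h0 : 0 < v ⬝ᵥ v := by
    rw [one_mulVec_dot]
    obtain ⟨i, hi⟩ := Function.ne_iff.1 hv
    exact Finset.sum_pos' (fun _ _ => sq_nonneg _) ⟨i, Finset.mem_univ _, by
      have : v i ≠ 0 := hi
      positivity⟩
  have := (hG v).1
  linarith

open scoped MatrixOrder in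
theorem exists_Q {n : ℕ} {G : Sy n} (hG : G ∈ PD n) :
    ∃ Q : Matrix (Fin n) (Fin n) ℝ, Qᵀ * Q = sM G ∧ Q.det ≠ 0 := by
  have hpd : (sM G).PosDef := by
    refine Matrix.PosDef.of_dotProduct_mulVec_pos (sM_herm G) fun x hx => ?_
    simpa using hG x hx
  obtain ⟨B, hB⟩ := CStarAlgebra.nonneg_iff_eq_star_mul_self.mp hpd.posSemidef.nonneg
  have hB2 : Bᵀ * B = sM G := by
    rw [hB, Matrix.star_eq_conjTranspose, Matrix.conjTranspose_eq_transpose_of_trivial]
  refine ⟨B, hB2, ?_⟩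
  intro h
  have h1 := hpd.det_pos
  rw [← hB2, Matrix.det_mul, Matrix.det_transpose, h] at h1
  simp at h1

theorem continuous_gram {m n : ℕ} : Continuous (gram : E m n → Sy n) := by
  refine continuous_Sy ?_
  have := continuous_toM (m := m) (n := n)
  change Continuous fun a : E m n => (toM a)ᵀ * toM a
  fun_prop

theorem gram_bdd {n : ℕ} {B : E n n} (hB : gram B ∈ Kn n) : ‖B‖ ^ 2 ≤ 2 * n := by
  rw [EuclideanSpace.norm_sq_eq, Fintype.sum_prod_type, Finset.sum_comm]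
  have h : ∀ j : Fin n, ∑ i : Fin n, ‖B (i, j)‖ ^ 2 ≤ 2 := by
    intro j
    have := (hB (Pi.single j 1)).2
    simp only [Matrix.mulVec_single_one, single_dotProduct, one_mul, Pi.single_eq_same,
      mul_one] at this
    refine le_trans (le_of_eq ?_) this
    change _ = ((toM B)ᵀ * toM B) j j
    rw [Matrix.mul_apply]
    refine Finset.sum_congr rfl fun i _ => ?_
    rw [Real.norm_eq_abs, sq_abs, pow_two]
    rfl
  calc _ ≤ ∑ _j : Fin n, (2 : ℝ) := Finset.sum_le_sum fun j _ => h j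
    _ = 2 * n := by simp [mul_comm]

theorem roots_null {n : ℕ} (M : Matrix (Fin n) (Fin n) ℝ) :
    volume {t : ℝ | (M + t • (1 : Matrix (Fin n) (Fin n) ℝ)).det = 0} = 0 := by
  refine Set.Finite.measure_zero ?_ _
  refine ((-M).charpoly.roots.toFinset.finite_toSet).subset ?_
  intro t ht
  have h0 : (-M).charpoly ≠ 0 := (Matrix.charpoly_monic _).ne_zero
  rw [Finset.mem_coe, Multiset.mem_toFinset, Polynomial.mem_roots h0, Polynomial.IsRoot.def,
    Matrix.eval_charpoly]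
  have h1 : (Matrix.scalar (Fin n)) t - -M = M + t • (1 : Matrix (Fin n) (Fin n) ℝ) := by
    rw [sub_neg_eq_add, add_comm, Matrix.scalar_apply, Matrix.smul_one_eq_diagonal]
  rw [h1]
  exact ht

theorem sing_null (n : ℕ) : volume {B : E n n | (toM B).det = 0} = 0 := by
  let S : Set (E n n × ℝ) := {p | (toM p.1 + p.2 • (1 : Matrix (Fin n) (Fin n) ℝ)).det = 0}
  have hcont : Continuous fun p : E n n × ℝ =>
      (toM p.1 + p.2 • (1 : Matrix (Fin n) (Fin n) ℝ)).det := by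
    have := continuous_toM (m := n) (n := n)
    fun_prop
  have hS : MeasurableSet S := (isClosed_eq hcont continuous_const).measurableSet
  have h1 : (volume.prod volume : Measure (E n n × ℝ)) S = 0 := by
    rw [Measure.measure_prod_null hS]
    refine Filter.Eventually.of_forall fun B => ?_
    exact roots_null (toM B)
  have h2 : (volume.prod volume : Measure (ℝ × E n n)) (Prod.swap ⁻¹' S) = 0 := by
    rw [← Measure.prod_swap, Measure.map_apply measurable_swap (measurable_swap hS)]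
    have h0 : (Prod.swap ⁻¹' (Prod.swap ⁻¹' S) : Set (E n n × ℝ)) = S := by
      ext ⟨a, b⟩
      rfl
    rw [h0]
    exact h1
  have h3 := Measure.measure_ae_null_of_prod_null h2
  obtain ⟨t, ht⟩ := h3.exists
  have h4 : Prod.mk t ⁻¹' (Prod.swap ⁻¹' S) =
      (fun B => B + ofM (t • (1 : Matrix (Fin n) (Fin n) ℝ))) ⁻¹' {B : E n n | (toM B).det = 0} := by
    ext B
    rfl
  change volume (Prod.mk t ⁻¹' (Prod.swap ⁻¹' S)) = 0 at ht
  rw [h4] at ht
  have h5 := measure_preimage_add_right (volume : Measure (E n n))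
    (ofM (t • (1 : Matrix (Fin n) (Fin n) ℝ))) {B : E n n | (toM B).det = 0}
  rw [← h5]
  exact ht

theorem measurable_det {m : ℕ} : Measurable fun B : E m m => (toM B).det :=
  (continuous_toM.matrix_det).measurable

theorem measurable_inv_apply {n : ℕ} (i j : Fin n) :
    Measurable fun B : E n n => (toM B)⁻¹ i j := by
  have : (fun B : E n n => (toM B)⁻¹ i j) =
      fun B => ((toM B).det)⁻¹ * (toM B).adjugate i j := by
    funext B
    rw [Matrix.inv_def, Ring.inverse_eq_inv', Matrix.smul_apply, smul_eq_mul]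
  rw [this]
  refine Measurable.mul (Measurable.inv measurable_det) ?_
  exact (continuous_toM.matrix_adjugate.matrix_elem i j).measurable

theorem measurable_sM_apply {n : ℕ} (i j : Fin n) : Measurable fun G : Sy n => sM G i j :=
  (continuous_sM.matrix_elem i j).measurable

theorem measurable_cong_inv {n : ℕ} :
    Measurable fun p : E n n × Sy n => cong (toM p.1)⁻¹ p.2 := by
  refine measurable_Sy fun i j => ?_
  change Measurable fun p : E n n × Sy n => (((toM p.1)⁻¹)ᵀ * sM p.2 * (toM p.1)⁻¹) i j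
  simp only [Matrix.mul_apply, Matrix.transpose_apply]
  refine Finset.measurable_sum _ fun a _ => ?_
  refine Measurable.mul (Finset.measurable_sum _ fun b _ => Measurable.mul ?_ ?_) ?_
  · exact (measurable_inv_apply b i).comp measurable_fst
  · exact (measurable_sM_apply b a).comp measurable_snd
  · exact (measurable_inv_apply a j).comp measurable_fst

theorem measurable_cong {n : ℕ} :
    Measurable fun p : E n n × Sy n => cong (toM p.1) p.2 := by
  refine Continuous.measurable (continuous_Sy ?_)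
  change Continuous fun p : E n n × Sy n => ((toM p.1)ᵀ * sM p.2 * toM p.1)
  have := continuous_toM (m := n) (n := n)
  have := continuous_sM (n := n)
  fun_prop

/-- the indicator of `Kn` -/
noncomputable def k (n : ℕ) : Sy n → ℝ≥0∞ := (Kn n).indicator fun _ => 1

theorem measurable_k (n : ℕ) : Measurable (k n) :=
  measurable_const.indicator (isClosed_Kn n).measurableSet

/-- the constant of the first computation -/
noncomputable def ck (n : ℕ) : ℝ≥0∞ :=
  ∫⁻ B : E n n, k n (cong (toM B)⁻¹ (oneS n)) * (ENNReal.ofReal (|(toM B).det| ^ n))⁻¹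

theorem cong_inv_mul {n : ℕ} (X Q : Matrix (Fin n) (Fin n) ℝ) (G : Sy n)
    (hQ : Qᵀ * Q = sM G) (hd : Q.det ≠ 0) : cong (X * Q)⁻¹ G = cong X⁻¹ (oneS n) := by
  apply Subtype.ext
  have hu : IsUnit Q.det := isUnit_iff_ne_zero.2 hd
  have h : ((X * Q)⁻¹)ᵀ * sM G * (X * Q)⁻¹ = (X⁻¹)ᵀ * 1 * X⁻¹ := by
    rw [Matrix.mul_inv_rev, ← hQ, Matrix.transpose_mul]
    have h1 : (Q⁻¹)ᵀ * Qᵀ = 1 := by
      rw [← Matrix.transpose_mul, Matrix.mul_nonsing_inv _ hu, Matrix.transpose_one]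
    have h2 : Q * Q⁻¹ = 1 := Matrix.mul_nonsing_inv _ hu
    calc (X⁻¹)ᵀ * (Q⁻¹)ᵀ * (Qᵀ * Q) * (Q⁻¹ * X⁻¹)
        = (X⁻¹)ᵀ * ((Q⁻¹)ᵀ * Qᵀ) * (Q * Q⁻¹) * X⁻¹ := by simp only [Matrix.mul_assoc]
      _ = _ := by rw [h1, h2, Matrix.mul_one]
  exact congrArg ofM h

theorem cong_inv_cong {n : ℕ} (X : Matrix (Fin n) (Fin n) ℝ) (G : Sy n)
    (hd : X.det ≠ 0) : cong X⁻¹ (cong X G) = G := by
  apply Subtype.ext
  have hu : IsUnit X.det := isUnit_iff_ne_zero.2 hd
  have h : (X⁻¹)ᵀ * (Xᵀ * sM G * X) * X⁻¹ = sM G := by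
    have h1 : (X⁻¹)ᵀ * Xᵀ = 1 := by
      rw [← Matrix.transpose_mul, Matrix.mul_nonsing_inv _ hu, Matrix.transpose_one]
    have h2 : X * X⁻¹ = 1 := Matrix.mul_nonsing_inv _ hu
    calc (X⁻¹)ᵀ * (Xᵀ * sM G * X) * X⁻¹
        = ((X⁻¹)ᵀ * Xᵀ) * sM G * (X * X⁻¹) := by simp only [Matrix.mul_assoc]
      _ = _ := by rw [h1, h2, Matrix.mul_one, Matrix.one_mul]
  exact congrArg ofM h

theorem ofReal_pow_ne_zero {x : ℝ} (hx : x ≠ 0) (a : ℕ) : ENNReal.ofReal (|x| ^ a) ≠ 0 := by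
  rw [Ne, ENNReal.ofReal_eq_zero, not_le]
  have := abs_pos.2 hx
  positivity

theorem step1 {n : ℕ} {G : Sy n} (hG : G ∈ PD n) :
    ∫⁻ B : E n n, k n (cong (toM B)⁻¹ G) * (ENNReal.ofReal (|(toM B).det| ^ n))⁻¹ = ck n := by
  obtain ⟨Q, hQ, hd⟩ := exists_Q hG
  have h := lintegral_rm (m := n) Q hd
    (fun B : E n n => k n (cong (toM B)⁻¹ G) * (ENNReal.ofReal (|(toM B).det| ^ n))⁻¹)
  have h0 := ofReal_pow_ne_zero hd n
  have h1 : ENNReal.ofReal (|Q.det| ^ n) ≠ ⊤ := ENNReal.ofReal_ne_top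
  have h2 : ∀ X : E n n, k n (cong (toM (rm X Q))⁻¹ G) *
      (ENNReal.ofReal (|(toM (rm X Q)).det| ^ n))⁻¹ = (ENNReal.ofReal (|Q.det| ^ n))⁻¹ *
      (k n (cong (toM X)⁻¹ (oneS n)) * (ENNReal.ofReal (|(toM X).det| ^ n))⁻¹) := by
    intro X
    have h3 : toM (rm X Q) = toM X * Q := rfl
    rw [h3, cong_inv_mul _ _ _ hQ hd, Matrix.det_mul, abs_mul, mul_pow,
      ENNReal.ofReal_mul (by positivity), ENNReal.mul_inv (Or.inr h1) (Or.inr h0)]
    ring
  simp only [h2] at h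
  rw [lintegral_const_mul' _ _ (ENNReal.inv_ne_top.2 h0)] at h
  exact ((ENNReal.mul_right_inj (ENNReal.inv_ne_zero.2 h1) (ENNReal.inv_ne_top.2 h0)).1 h).symm

theorem step3 {m n : ℕ} (hnm : n ≤ m) {G : Sy n} (hG : G ∈ PD n) (φ : Sy n → ℝ≥0∞) :
    ∫⁻ B : E n n, ENNReal.ofReal (|(toM B).det| ^ (m - n)) * φ (cong (toM B) G) =
      (ENNReal.ofReal (Real.sqrt (sM G).det ^ m))⁻¹ * Th m n φ := by
  obtain ⟨Q, hQ, hd⟩ := exists_Q hG
  have h := lintegral_lm (n := n) Q hd
    (fun X : E n n => φ (gram X) * ENNReal.ofReal (|(toM X).det| ^ (m - n)))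
  have hs : Real.sqrt (sM G).det = |Q.det| := by
    rw [← hQ, Matrix.det_mul, Matrix.det_transpose, Real.sqrt_mul_self_eq_abs]
  have h0 := ofReal_pow_ne_zero hd n
  have h1 : ENNReal.ofReal (|Q.det| ^ n) ≠ ⊤ := ENNReal.ofReal_ne_top
  have h0' := ofReal_pow_ne_zero hd (m - n)
  have h1' : ENNReal.ofReal (|Q.det| ^ (m - n)) ≠ ⊤ := ENNReal.ofReal_ne_top
  have h2 : ∀ X : E n n, φ (gram (lm Q X)) * ENNReal.ofReal (|(toM (lm Q X)).det| ^ (m - n)) =
      ENNReal.ofReal (|Q.det| ^ (m - n)) *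
      (ENNReal.ofReal (|(toM X).det| ^ (m - n)) * φ (cong (toM X) G)) := by
    intro X
    have h3 : toM (lm Q X) = Q * toM X := rfl
    have h4 : gram (lm Q X) = cong (toM X) G := by
      apply Subtype.ext
      have h5 : (Q * toM X)ᵀ * (Q * toM X) = (toM X)ᵀ * sM G * toM X := by
        rw [← hQ, Matrix.transpose_mul]
        simp only [Matrix.mul_assoc]
      exact congrArg ofM h5
    rw [h3, h4, Matrix.det_mul, abs_mul, mul_pow, ENNReal.ofReal_mul (by positivity)]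
    ring
  simp only [h2] at h
  rw [lintegral_const_mul' _ _ h1'] at h
  have h6 : ENNReal.ofReal (|Q.det| ^ m) =
      ENNReal.ofReal (|Q.det| ^ (m - n)) * ENNReal.ofReal (|Q.det| ^ n) := by
    rw [← ENNReal.ofReal_mul (by positivity), ← pow_add, Nat.sub_add_cancel hnm]
  rw [hs, h6, ENNReal.mul_inv (Or.inr h1) (Or.inr h0), mul_assoc]
  change _ = _ * (_ * ∫⁻ X : E n n, φ (gram X) * ENNReal.ofReal (|(toM X).det| ^ (m - n)))
  rw [← h, ← mul_assoc, ENNReal.inv_mul_cancel h0' h1', one_mul]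

theorem measurable_ofReal_pow {n : ℕ} (a : ℕ) :
    Measurable fun B : E n n => ENNReal.ofReal (|(toM B).det| ^ a) :=
  ENNReal.measurable_ofReal.comp (measurable_det.abs.pow_const a)

/-- the constant of the second computation -/
noncomputable def Ck (m n : ℕ) (σ : Measure (Sy n)) : ℝ≥0∞ :=
  ∫⁻ G, k n G * (ENNReal.ofReal (Real.sqrt (sM G).det ^ m))⁻¹ ∂σ

theorem measurable_w {n : ℕ} (m : ℕ) :
    Measurable fun G : Sy n => (ENNReal.ofReal (Real.sqrt (sM G).det ^ m))⁻¹ := by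
  have h : Measurable fun G : Sy n => (sM G).det := (continuous_sM.matrix_det).measurable
  exact (ENNReal.measurable_ofReal.comp (h.sqrt.pow_const m)).inv

/-- the first kernel -/
noncomputable def K1 (n : ℕ) (B : E n n) (G : Sy n) : ℝ≥0∞ :=
  k n (cong (toM B)⁻¹ G) * (ENNReal.ofReal (|(toM B).det| ^ n))⁻¹

theorem measurable_K1 (n : ℕ) : Measurable (Function.uncurry (K1 n)) := by
  have h1 : Measurable fun p : E n n × Sy n => k n (cong (toM p.1)⁻¹ p.2) :=
    (measurable_k n).comp measurable_cong_inv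
  have h2 : Measurable fun p : E n n × Sy n => (ENNReal.ofReal (|(toM p.1).det| ^ n))⁻¹ :=
    ((measurable_ofReal_pow n).comp measurable_fst).inv
  exact h1.mul h2

theorem measurable_K1' (n : ℕ) : Measurable fun p : E n n × Sy n => K1 n p.1 p.2 :=
  measurable_K1 n

theorem measurable_kc {n : ℕ} (B : E n n) : Measurable fun G : Sy n =>
    k n (cong (toM B)⁻¹ G) := by
  have h1 : Measurable fun p : E n n × Sy n => k n (cong (toM p.1)⁻¹ p.2) :=
    (measurable_k n).comp measurable_cong_inv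
  exact Measurable.of_uncurry_left (f := fun (B : E n n) (G : Sy n) =>
    k n (cong (toM B)⁻¹ G)) h1

theorem measurable_congB {n : ℕ} (B : E n n) : Measurable fun G : Sy n => cong (toM B) G := by
  refine Continuous.measurable (continuous_Sy ?_)
  change Continuous fun G : Sy n => ((toM B)ᵀ * sM G * toM B)
  have := continuous_sM (n := n)
  fun_prop

theorem measurable_congG {n : ℕ} (G : Sy n) : Measurable fun B : E n n => cong (toM B) G := by
  refine Continuous.measurable (continuous_Sy ?_)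
  change Continuous fun B : E n n => ((toM B)ᵀ * sM G * toM B)
  have := continuous_toM (m := n) (n := n)
  fun_prop

theorem lint_K1 {n : ℕ} {G : Sy n} (hG : G ∈ PD n) : ∫⁻ B : E n n, K1 n B G = ck n := step1 hG

theorem key {m n : ℕ} (hnm : n ≤ m) (σ : Measure (Sy n)) [SFinite σ] (hσ : σ (PD n)ᶜ = 0)
    (hq : ∀ A : Matrix (Fin n) (Fin n) ℝ, A.det ≠ 0 → ∀ φ : Sy n → ℝ≥0∞, Measurable φ →
      ∫⁻ G, φ (cong A G) ∂σ = (ENNReal.ofReal (|A.det| ^ m))⁻¹ * ∫⁻ G, φ G ∂σ)
    (φ : Sy n → ℝ≥0∞) (hφ : Measurable φ) :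
    ck n * ∫⁻ G, φ G ∂σ = Ck m n σ * Th m n φ := by
  have hPD : ∀ᵐ G ∂σ, G ∈ PD n := by
    rw [ae_iff]
    exact hσ
  have hk := measurable_k n
  -- first computation
  have e1 : ∫⁻ B : E n n, ∫⁻ G, φ G * K1 n B G ∂σ = ck n * ∫⁻ G, φ G ∂σ := by
    rw [lintegral_lintegral_swap]
    · rw [← lintegral_const_mul _ hφ]
      refine lintegral_congr_ae ?_
      filter_upwards [hPD] with G hG
      have hm : Measurable fun B : E n n => K1 n B G :=
        Measurable.of_uncurry_right (measurable_K1 n)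
      rw [lintegral_const_mul _ hm, lint_K1 hG, mul_comm]
    · refine Measurable.aemeasurable ?_
      exact (hφ.comp measurable_snd).mul (measurable_K1' n)
  -- second computation
  have hns : ∀ᵐ B : E n n, (toM B).det ≠ 0 := by
    rw [ae_iff]
    simpa using sing_null n
  have e2 : ∫⁻ B : E n n, ∫⁻ G, φ G * K1 n B G ∂σ =
      ∫⁻ B : E n n, ∫⁻ G, ENNReal.ofReal (|(toM B).det| ^ (m - n)) *
        φ (cong (toM B) G) * k n G ∂σ := by
    refine lintegral_congr_ae ?_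
    filter_upwards [hns] with B hB
    have h0 := ofReal_pow_ne_zero hB n
    have h1 : ENNReal.ofReal (|(toM B).det| ^ n) ≠ ⊤ := ENNReal.ofReal_ne_top
    have h0m := ofReal_pow_ne_zero hB m
    have h1m : ENNReal.ofReal (|(toM B).det| ^ m) ≠ ⊤ := ENNReal.ofReal_ne_top
    have hΨ : Measurable fun G : Sy n => φ G * k n (cong (toM B)⁻¹ G) :=
      hφ.mul (measurable_kc B)
    have h2 := hq (toM B) hB _ hΨ
    simp only [cong_inv_cong _ _ hB] at h2
    have h3 : ∫⁻ G, φ G * K1 n B G ∂σ =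
        (ENNReal.ofReal (|(toM B).det| ^ n))⁻¹ * ∫⁻ G, φ G * k n (cong (toM B)⁻¹ G) ∂σ := by
      rw [← lintegral_const_mul _ hΨ]
      refine lintegral_congr fun G => ?_
      rw [K1]
      ring
    have hΨ' : Measurable fun G : Sy n => φ (cong (toM B) G) * k n G :=
      (hφ.comp (measurable_congB B)).mul hk
    have h4 : ∫⁻ G, ENNReal.ofReal (|(toM B).det| ^ (m - n)) *
        φ (cong (toM B) G) * k n G ∂σ =
        ENNReal.ofReal (|(toM B).det| ^ (m - n)) * ∫⁻ G, φ (cong (toM B) G) * k n G ∂σ := by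
      rw [← lintegral_const_mul _ hΨ']
      refine lintegral_congr fun G => ?_
      ring
    have h6 : ENNReal.ofReal (|(toM B).det| ^ m) =
        ENNReal.ofReal (|(toM B).det| ^ (m - n)) * ENNReal.ofReal (|(toM B).det| ^ n) := by
      rw [← ENNReal.ofReal_mul (by positivity), ← pow_add, Nat.sub_add_cancel hnm]
    have h0' := ofReal_pow_ne_zero hB (m - n)
    have h1' : ENNReal.ofReal (|(toM B).det| ^ (m - n)) ≠ ⊤ := ENNReal.ofReal_ne_top
    rw [h3, h4, h2, h6, ENNReal.mul_inv (Or.inr h1) (Or.inr h0), ← mul_assoc, ← mul_assoc,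
      ENNReal.mul_inv_cancel h0' h1', one_mul]
  have e3 : ∫⁻ B : E n n, ∫⁻ G, ENNReal.ofReal (|(toM B).det| ^ (m - n)) *
        φ (cong (toM B) G) * k n G ∂σ = Ck m n σ * Th m n φ := by
    rw [lintegral_lintegral_swap]
    · have hmw : Measurable fun G : Sy n =>
          k n G * (ENNReal.ofReal (Real.sqrt (sM G).det ^ m))⁻¹ := hk.mul (measurable_w m)
      rw [Ck, ← lintegral_mul_const _ hmw]
      refine lintegral_congr_ae ?_
      filter_upwards [hPD] with G hG
      have hm : Measurable fun B : E n n => ENNReal.ofReal (|(toM B).det| ^ (m - n)) *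
          φ (cong (toM B) G) :=
        Measurable.mul (measurable_ofReal_pow _) (hφ.comp (measurable_congG G))
      rw [lintegral_mul_const _ hm, step3 hnm hG, mul_comm, mul_assoc]
    · refine Measurable.aemeasurable ?_
      refine Measurable.mul (Measurable.mul ?_ (hφ.comp measurable_cong))
        (hk.comp measurable_snd)
      exact (measurable_ofReal_pow _).comp measurable_fst
  rw [← e1, e2, e3]

theorem k_mul_eq {n : ℕ} (μ : Measure (Sy n)) (f : Sy n → ℝ≥0∞) :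
    ∫⁻ G, k n G * f G ∂μ = ∫⁻ G in Kn n, f G ∂μ := by
  rw [← lintegral_indicator (isClosed_Kn n).measurableSet]
  refine lintegral_congr fun G => ?_
  by_cases h : G ∈ Kn n
  · rw [k, indicator_of_mem h, indicator_of_mem h, one_mul]
  · rw [k, indicator_of_notMem h, indicator_of_notMem h, zero_mul]

theorem Ck_pos {m n : ℕ} (σ : Measure (Sy n)) (h0 : σ (Kn n) ≠ 0) : Ck m n σ ≠ 0 := by
  have h : (ENNReal.ofReal (Real.sqrt (2 ^ n) ^ m))⁻¹ * σ (Kn n) ≤ Ck m n σ := by
    rw [Ck, k_mul_eq, ← setLIntegral_const]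
    refine setLIntegral_mono' (isClosed_Kn n).measurableSet fun G hG => ?_
    refine ENNReal.inv_le_inv.2 (ENNReal.ofReal_le_ofReal ?_)
    exact pow_le_pow_left₀ (Real.sqrt_nonneg _) (Real.sqrt_le_sqrt (det_Kn hG).2) _
  intro h1
  rw [h1] at h
  have h2 := le_antisymm h bot_le
  rcases mul_eq_zero.1 h2 with h3 | h3
  · exact ENNReal.inv_ne_zero.2 ENNReal.ofReal_ne_top h3
  · exact h0 h3

theorem Ck_fin {m n : ℕ} (σ : Measure (Sy n)) (h1 : σ (Kn n) ≠ ⊤) : Ck m n σ ≠ ⊤ := by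
  have h : Ck m n σ ≤ (ENNReal.ofReal (Real.sqrt ((1 / 2) ^ n) ^ m))⁻¹ * σ (Kn n) := by
    rw [Ck, k_mul_eq, ← setLIntegral_const]
    refine setLIntegral_mono' (isClosed_Kn n).measurableSet fun G hG => ?_
    refine ENNReal.inv_le_inv.2 (ENNReal.ofReal_le_ofReal ?_)
    exact pow_le_pow_left₀ (Real.sqrt_nonneg _) (Real.sqrt_le_sqrt (det_Kn hG).1) _
  refine ne_top_of_le_ne_top (ENNReal.mul_ne_top (ENNReal.inv_ne_top.2 ?_) h1) h
  rw [Ne, ENNReal.ofReal_eq_zero, not_le]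
  positivity

theorem det_gram {n : ℕ} {B : E n n} (hB : gram B ∈ Kn n) :
    Real.sqrt ((1 / 2) ^ n) ≤ |(toM B).det| ∧ |(toM B).det| ≤ Real.sqrt (2 ^ n) := by
  have h := det_Kn hB
  have h1 : (sM (gram B)).det = (toM B).det * (toM B).det := by
    change ((toM B)ᵀ * toM B).det = _
    rw [Matrix.det_mul, Matrix.det_transpose]
  rw [h1] at h
  rw [← Real.sqrt_mul_self_eq_abs]
  exact ⟨Real.sqrt_le_sqrt h.1, Real.sqrt_le_sqrt h.2⟩

theorem pre_pos (n : ℕ) : volume (gram ⁻¹' Kn n : Set (E n n)) ≠ 0 := by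
  have h1 : gram (ofM 1 : E n n) = oneS n := by
    apply Subtype.ext
    have : (1 : Matrix (Fin n) (Fin n) ℝ)ᵀ * 1 = 1 := by
      rw [Matrix.transpose_one, Matrix.mul_one]
    exact congrArg ofM this
  have h2 : (gram ⁻¹' Kn n : Set (E n n)) ∈ 𝓝 (ofM 1 : E n n) := by
    refine continuous_gram.continuousAt.preimage_mem_nhds ?_
    rw [h1]
    exact Kn_mem_nhds n
  exact (MeasureTheory.Measure.measure_pos_of_mem_nhds volume h2).ne'

theorem pre_fin (n : ℕ) : volume (gram ⁻¹' Kn n : Set (E n n)) ≠ ⊤ := by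
  have h : (gram ⁻¹' Kn n : Set (E n n)) ⊆ Metric.closedBall 0 (Real.sqrt (2 * n)) := by
    intro B hB
    rw [mem_closedBall_zero_iff]
    exact Real.le_sqrt_of_sq_le (gram_bdd hB)
  exact ne_top_of_le_ne_top (measure_closedBall_lt_top).ne (measure_mono h)

theorem Th_k {m n : ℕ} : Th m n (k n) =
    ∫⁻ B in (gram ⁻¹' Kn n : Set (E n n)), ENNReal.ofReal (|(toM B).det| ^ (m - n)) := by
  rw [← lintegral_indicator (continuous_gram.measurable (isClosed_Kn n).measurableSet), Th]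
  refine lintegral_congr fun B => ?_
  by_cases h : gram B ∈ Kn n
  · rw [k, indicator_of_mem h, indicator_of_mem (show B ∈ gram ⁻¹' Kn n from h), one_mul]
  · rw [k, indicator_of_notMem h, indicator_of_notMem (show B ∉ gram ⁻¹' Kn n from h), zero_mul]

theorem Th_pos {m n : ℕ} : Th m n (k n) ≠ 0 := by
  have hms : MeasurableSet (gram ⁻¹' Kn n : Set (E n n)) :=
    continuous_gram.measurable (isClosed_Kn n).measurableSet
  have h : ENNReal.ofReal (Real.sqrt ((1 / 2) ^ n) ^ (m - n)) *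
      volume (gram ⁻¹' Kn n : Set (E n n)) ≤ Th m n (k n) := by
    rw [Th_k, ← setLIntegral_const]
    refine setLIntegral_mono' hms fun B hB => ?_
    refine ENNReal.ofReal_le_ofReal ?_
    exact pow_le_pow_left₀ (Real.sqrt_nonneg _) (det_gram hB).1 _
  intro h1
  rw [h1] at h
  have h2 := le_antisymm h bot_le
  rcases mul_eq_zero.1 h2 with h3 | h3
  · rw [ENNReal.ofReal_eq_zero] at h3
    have : 0 < Real.sqrt ((1 / 2) ^ n) ^ (m - n) := by positivity
    linarith
  · exact pre_pos n h3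

theorem Th_fin {m n : ℕ} : Th m n (k n) ≠ ⊤ := by
  have hms : MeasurableSet (gram ⁻¹' Kn n : Set (E n n)) :=
    continuous_gram.measurable (isClosed_Kn n).measurableSet
  have h : Th m n (k n) ≤ ENNReal.ofReal (Real.sqrt (2 ^ n) ^ (m - n)) *
      volume (gram ⁻¹' Kn n : Set (E n n)) := by
    rw [Th_k, ← setLIntegral_const]
    refine setLIntegral_mono' hms fun B hB => ?_
    refine ENNReal.ofReal_le_ofReal ?_
    exact pow_le_pow_left₀ (abs_nonneg _) (det_gram hB).2 _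
  exact ne_top_of_le_ne_top (ENNReal.mul_ne_top ENNReal.ofReal_ne_top (pre_fin n)) h

end R7

/-- uniqueness of the quasi-invariant measure on positive definite matrices -/
theorem uniq {m n : ℕ} (hnm : n ≤ m) (σ : Measure (Sy n)) [SFinite σ] (hσ : σ (PD n)ᶜ = 0)
    (hq : ∀ A : Matrix (Fin n) (Fin n) ℝ, A.det ≠ 0 → ∀ φ : Sy n → ℝ≥0∞, Measurable φ →
      ∫⁻ G, φ (cong A G) ∂σ = (ENNReal.ofReal (|A.det| ^ m))⁻¹ * ∫⁻ G, φ G ∂σ)
    (h0 : σ (Kn n) ≠ 0) (h1 : σ (Kn n) ≠ ⊤) :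
    ∃ c : ℝ≥0∞, c ≠ 0 ∧ c ≠ ⊤ ∧ ∀ φ : Sy n → ℝ≥0∞, Measurable φ →
      ∫⁻ G, φ G ∂σ = c * Th m n φ := by
  have hk := R7.key hnm σ hσ hq
  have hC0 := R7.Ck_pos (m := m) σ h0
  have hC1 := R7.Ck_fin (m := m) σ h1
  have hT0 := R7.Th_pos (m := m) (n := n)
  have hT1 := R7.Th_fin (m := m) (n := n)
  have e := hk (R7.k n) (R7.measurable_k n)
  have hc0 : R7.ck n ≠ 0 := by
    intro h
    rw [h, zero_mul] at e
    rcases mul_eq_zero.1 e.symm with h3 | h3
    · exact hC0 h3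
    · exact hT0 h3
  have hsk : ∫⁻ G, R7.k n G ∂σ = σ (Kn n) := by
    rw [R7.k, lintegral_indicator_const (R7.isClosed_Kn n).measurableSet, one_mul]
  have hc1 : R7.ck n ≠ ⊤ := by
    intro h
    rw [h, hsk, ENNReal.top_mul h0] at e
    exact ENNReal.mul_ne_top hC1 hT1 e.symm
  refine ⟨(R7.ck n)⁻¹ * R7.Ck m n σ, ?_, ?_, ?_⟩
  · exact mul_ne_zero (ENNReal.inv_ne_zero.2 hc1) hC0
  · exact ENNReal.mul_ne_top (ENNReal.inv_ne_top.2 hc0) hC1
  · intro φ hφ
    rw [mul_assoc, ← hk φ hφ, ← mul_assoc, ENNReal.inv_mul_cancel hc0 hc1, one_mul]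

end Pool.Agent.H212R2.KLS
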