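import Pool.Agent.H212R2.KLS.R8Base
import Pool.Agent.H212R2.KLS.R7

set_option autoImplicit false

namespace Pool.Agent.H212R2.KLS

open MeasureTheory Set Matrix
open scoped ENNReal InnerProductSpace

/-- R8 -/
theorem gram_formula {m n : ℕ} (hnm : n ≤ m) :
    (∀ᵐ X : E m n, gram X ∈ PD n) ∧
    ∃ c : ℝ≥0∞, c ≠ 0 ∧ c ≠ ⊤ ∧ ∀ φ : Sy n → ℝ≥0∞, Measurable φ →
      ∫⁻ X : E m n, φ (gram X) = c * Th m n φ := by
  refine ⟨r8_ae hnm, ?_⟩
  have hgm : Measurable (fun X : E m n => gram X) := (r8_cont_gram m n).measurable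
  set σ : Measure (Sy n) := (volume : Measure (E m n)).map (fun X : E m n => gram X) with hσdef
  have hint : ∀ φ : Sy n → ℝ≥0∞, Measurable φ → ∫⁻ G, φ G ∂σ = ∫⁻ X : E m n, φ (gram X) := by
    intro φ hφ
    rw [hσdef, lintegral_map hφ hgm]
  have hσ : σ (PD n)ᶜ = 0 := by
    rw [hσdef, Measure.map_apply hgm (r8_PD_open n).measurableSet.compl]
    exact r8_ae hnm
  have hq : ∀ A : Matrix (Fin n) (Fin n) ℝ, A.det ≠ 0 → ∀ φ : Sy n → ℝ≥0∞, Measurable φ →
      ∫⁻ G, φ (cong A G) ∂σ = (ENNReal.ofReal (|A.det| ^ m))⁻¹ * ∫⁻ G, φ G ∂σ := by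
    intro A hA φ hφ
    have hcm : Measurable (cong A) := (LinearMap.continuous_of_finiteDimensional (cong A)).measurable
    rw [hint φ hφ, hint (fun G => φ (cong A G)) (hφ.comp hcm),
      ← lintegral_rm A hA (fun X => φ (gram X))]
    refine lintegral_congr fun X => ?_
    rw [r8_gram_rm]
  have hJ : gram (r8_J m n) ∈ interior (Kn n) := by
    have hJ1 : sM (gram (r8_J m n)) = 1 := by
      ext i j
      change ((J1 m n)ᵀ * J1 m n) i j = _
      rw [Matrix.mul_apply, Finset.sum_eq_single (Fin.castLE hnm i)]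
      · simp only [Matrix.transpose_apply, J1, Matrix.of_apply, Fin.val_castLE, if_true,
          Matrix.one_apply, one_mul]
        by_cases h : i = j
        · rw [if_pos h, if_pos (by rw [h])]
        · rw [if_neg h, if_neg (fun h2 => h (Fin.ext h2))]
      · intro k _ hk
        simp only [Matrix.transpose_apply, J1, Matrix.of_apply]
        rw [if_neg, zero_mul]
        intro h
        exact hk (Fin.ext h)
      · intro h; exact absurd (Finset.mem_univ _) h
    refine mem_interior.2 ⟨Metric.ball (gram (r8_J m n)) (1 / 2), ?_, Metric.isOpen_ball,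
      Metric.mem_ball_self (by norm_num)⟩
    intro G hG v
    rw [Metric.mem_ball, dist_eq_norm] at hG
    have h1 := r8_frob (G - gram (r8_J m n)) v
    have h2 : sM (G - gram (r8_J m n)) = sM G - sM (gram (r8_J m n)) := rfl
    rw [h2, Matrix.sub_mulVec, dotProduct_sub, hJ1, Matrix.one_mulVec] at h1
    have hvv : 0 ≤ v ⬝ᵥ v := by
      unfold dotProduct
      exact Finset.sum_nonneg fun i _ => mul_self_nonneg _
    have h3 : ‖G - gram (r8_J m n)‖ * (v ⬝ᵥ v) ≤ 1 / 2 * (v ⬝ᵥ v) :=
      mul_le_mul_of_nonneg_right hG.le hvv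
    rw [abs_le] at h1
    constructor <;> linarith [h1.1, h1.2]
  have h0 : σ (Kn n) ≠ 0 := by
    rw [hσdef, Measure.map_apply hgm (r8_Kn_closed n).measurableSet]
    have hop : IsOpen ((fun X : E m n => gram X) ⁻¹' interior (Kn n)) :=
      isOpen_interior.preimage (r8_cont_gram m n)
    have hpos := hop.measure_pos volume ⟨r8_J m n, hJ⟩
    exact (hpos.trans_le (measure_mono (preimage_mono interior_subset))).ne'
  have h1 : σ (Kn n) ≠ ⊤ := by
    rw [hσdef, Measure.map_apply hgm (r8_Kn_closed n).measurableSet]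
    have hsub : (fun X : E m n => gram X) ⁻¹' Kn n ⊆ Metric.closedBall 0 (Real.sqrt (2 * n)) := by
      intro X hX
      rw [mem_closedBall_zero_iff]
      refine Real.le_sqrt_of_sq_le ?_
      have h2 : ‖X‖ ^ 2 = ∑ j : Fin n, (Pi.single j 1 : Fin n → ℝ) ⬝ᵥ
          (sM (gram X) *ᵥ (Pi.single j 1 : Fin n → ℝ)) := by
        rw [EuclideanSpace.norm_sq_eq, Fintype.sum_prod_type, Finset.sum_comm]
        refine Finset.sum_congr rfl fun j _ => ?_
        rw [r8_quad]
        unfold dotProduct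
        refine Finset.sum_congr rfl fun i _ => ?_
        rw [Matrix.mulVec_single_one]
        simp only [Matrix.col_apply, toM_apply, Real.norm_eq_abs, sq_abs]
        ring
      rw [h2]
      have h3 : ∀ j ∈ (Finset.univ : Finset (Fin n)), (Pi.single j 1 : Fin n → ℝ) ⬝ᵥ
          (sM (gram X) *ᵥ (Pi.single j 1 : Fin n → ℝ)) ≤ 2 := by
        intro j _
        have h4 := (hX (Pi.single j 1)).2
        rw [single_dotProduct] at h4
        simpa using h4
      refine (Finset.sum_le_card_nsmul _ _ _ h3).trans ?_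
      rw [Finset.card_univ, Fintype.card_fin, nsmul_eq_mul]
      linarith
    exact ((measure_mono hsub).trans_lt measure_closedBall_lt_top).ne
  obtain ⟨c, hc0, hc1, hc⟩ := uniq hnm σ hσ hq h0 h1
  refine ⟨c, hc0, hc1, fun φ hφ => ?_⟩
  rw [← hint φ hφ, hc φ hφ]

end Pool.Agent.H212R2.KLS
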