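import Pool.Agent.H212R2.KLS.Defs

/-!
# R9: the measure `det(G)^((m-n-1)/2) dG` on positive definite matrices is the image measure
-/

set_option autoImplicit false

namespace Pool.Agent.H212R2.KLS

open MeasureTheory Set Matrix
open scoped ENNReal RealInnerProductSpace

namespace R9

variable {n : ℕ}

theorem continuous_entry (i j : Fin n) : Continuous fun G : Sy n => sM G i j := by
  have : (fun G : Sy n => sM G i j) = fun G : Sy n => (G : E n n) (i, j) := rfl
  rw [this]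
  fun_prop

theorem continuous_sM : Continuous fun G : Sy n => sM G := by
  refine continuous_pi fun i => continuous_pi fun j => continuous_entry i j

theorem continuous_det : Continuous fun G : Sy n => (sM G).det :=
  continuous_sM.matrix_det

theorem continuous_quad (v : Fin n → ℝ) : Continuous fun G : Sy n => v ⬝ᵥ (sM G *ᵥ v) :=
  Continuous.dotProduct continuous_const (continuous_sM.matrix_mulVec continuous_const)

theorem posDef_of_mem {G : Sy n} (h : G ∈ PD n) : (sM G).PosDef := by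
  rw [Matrix.posDef_iff_dotProduct_mulVec]
  refine ⟨?_, ?_⟩
  · rw [Matrix.IsHermitian, Matrix.conjTranspose_eq_transpose_of_trivial]
    exact sM_transpose G
  · intro v hv
    simpa using h v hv

theorem det_pos_of_mem {G : Sy n} (h : G ∈ PD n) : 0 < (sM G).det :=
  (posDef_of_mem h).det_pos

theorem sM_cong (A : Matrix (Fin n) (Fin n) ℝ) (G : Sy n) : sM (cong A G) = Aᵀ * sM G * A := rfl

theorem quad_cong (A : Matrix (Fin n) (Fin n) ℝ) (G : Sy n) (v : Fin n → ℝ) :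
    v ⬝ᵥ (sM (cong A G) *ᵥ v) = (A *ᵥ v) ⬝ᵥ (sM G *ᵥ (A *ᵥ v)) := by
  rw [sM_cong, ← Matrix.mulVec_mulVec, ← Matrix.mulVec_mulVec, Matrix.dotProduct_mulVec,
    Matrix.vecMul_transpose]

theorem cong_mem_iff (A : Matrix (Fin n) (Fin n) ℝ) (hA : A.det ≠ 0) (G : Sy n) :
    cong A G ∈ PD n ↔ G ∈ PD n := by
  have hu : IsUnit A.det := isUnit_iff_ne_zero.mpr hA
  constructor
  · intro h v hv
    have h1 := h (A⁻¹ *ᵥ v) (by
      intro h0
      apply hv
      have : A *ᵥ (A⁻¹ *ᵥ v) = v := by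
        rw [Matrix.mulVec_mulVec, Matrix.mul_nonsing_inv _ hu, Matrix.one_mulVec]
      rw [← this, h0, Matrix.mulVec_zero])
    rw [quad_cong, Matrix.mulVec_mulVec, Matrix.mul_nonsing_inv _ hu, Matrix.one_mulVec] at h1
    exact h1
  · intro h v hv
    rw [quad_cong]
    apply h
    intro h0
    apply hv
    have : A⁻¹ *ᵥ (A *ᵥ v) = v := by
      rw [Matrix.mulVec_mulVec, Matrix.nonsing_inv_mul _ hu, Matrix.one_mulVec]
    rw [← this, h0, Matrix.mulVec_zero]

theorem det_sM_cong (A : Matrix (Fin n) (Fin n) ℝ) (G : Sy n) :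
    (sM (cong A G)).det = |A.det| ^ 2 * (sM G).det := by
  rw [sM_cong, Matrix.det_mul, Matrix.det_mul, Matrix.det_transpose, sq_abs]
  ring

/-- entries by polarisation -/
theorem entry_bound {G : Sy n} (h : G ∈ Kn n) (i j : Fin n) : |sM G i j| ≤ 4 := by
  have hs : sM G j i = sM G i j := by
    conv_rhs => rw [← sM_transpose G]
    rfl
  have e1 : ∀ i : Fin n, (Pi.single i (1 : ℝ) : Fin n → ℝ) ⬝ᵥ (sM G *ᵥ Pi.single i 1) =
      sM G i i := by
    intro i
    simp
  have hq : ∀ v : Fin n → ℝ, 0 ≤ v ⬝ᵥ v := fun v => by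
    have := dotProduct_star_self_nonneg v
    simpa using this
  have h1 := h (Pi.single i 1 + Pi.single j 1)
  have h2 := h (Pi.single i 1 - Pi.single j 1)
  have h3 := hq (Pi.single i 1 + Pi.single j 1)
  have h4 := hq (Pi.single i 1 - Pi.single j 1)
  have e2 : (Pi.single i (1 : ℝ) + Pi.single j 1 : Fin n → ℝ) ⬝ᵥ
      (sM G *ᵥ (Pi.single i 1 + Pi.single j 1)) = sM G i i + sM G j j + 2 * sM G i j := by
    simp [Matrix.mulVec_add, add_dotProduct, dotProduct_add, hs]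
    ring
  have e3 : (Pi.single i (1 : ℝ) - Pi.single j 1 : Fin n → ℝ) ⬝ᵥ
      (sM G *ᵥ (Pi.single i 1 - Pi.single j 1)) = sM G i i + sM G j j - 2 * sM G i j := by
    simp [Matrix.mulVec_sub, sub_dotProduct, dotProduct_sub, hs]
    ring
  have e4 : (Pi.single i (1 : ℝ) + Pi.single j 1 : Fin n → ℝ) ⬝ᵥ
      (Pi.single i 1 + Pi.single j 1) + (Pi.single i (1 : ℝ) - Pi.single j 1 : Fin n → ℝ) ⬝ᵥ
      (Pi.single i 1 - Pi.single j 1) = 4 := by
    simp [dotProduct_add, dotProduct_sub]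
    ring
  rw [e2] at h1
  rw [e3] at h2
  rw [abs_le]
  constructor <;> linarith [h1.1, h1.2, h2.1, h2.2]

theorem Kn_subset_PD : Kn n ⊆ PD n := by
  intro G h v hv
  have h1 := (h v).1
  have h2 : 0 < v ⬝ᵥ v := by
    have := dotProduct_star_self_pos_iff (v := v)
    simpa using this.mpr hv
  linarith

theorem isClosed_Kn : IsClosed (Kn n) := by
  have : Kn n = ⋂ v : Fin n → ℝ, {G : Sy n | (1 / 2) * (v ⬝ᵥ v) ≤ v ⬝ᵥ (sM G *ᵥ v)} ∩
      {G : Sy n | v ⬝ᵥ (sM G *ᵥ v) ≤ 2 * (v ⬝ᵥ v)} := by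
    ext G
    simp only [Kn, mem_ofPred_eq, mem_iInter, mem_inter_iff]
  rw [this]
  refine isClosed_iInter fun v => ?_
  exact (isClosed_le continuous_const (continuous_quad v)).inter
    (isClosed_le (continuous_quad v) continuous_const)

theorem isCompact_Kn : IsCompact (Kn n) := by
  refine Metric.isCompact_of_isClosed_isBounded isClosed_Kn ?_
  rw [isBounded_iff_forall_norm_le]
  refine ⟨Real.sqrt (∑ _p : Fin n × Fin n, (4 : ℝ) ^ 2), ?_⟩
  intro G hG
  change ‖(G : E n n)‖ ≤ _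
  rw [EuclideanSpace.norm_eq]
  apply Real.sqrt_le_sqrt
  apply Finset.sum_le_sum
  intro p _
  rw [Real.norm_eq_abs]
  have := entry_bound hG p.1 p.2
  have h2 : |(G : E n n) p| ≤ 4 := this
  exact pow_le_pow_left₀ (abs_nonneg _) h2 2

/-- the identity -/
noncomputable def I1 (n : ℕ) : Sy n := sOf 1 (by rw [Matrix.transpose_one])

theorem quad_le (H : Sy n) (v : Fin n → ℝ) : |v ⬝ᵥ (sM H *ᵥ v)| ≤ ‖H‖ * (v ⬝ᵥ v) := by
  have h1 : v ⬝ᵥ (sM H *ᵥ v) = ∑ p : Fin n × Fin n, (H : E n n) p * (v p.1 * v p.2) := by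
    rw [Fintype.sum_prod_type]
    simp only [dotProduct, Matrix.mulVec]
    refine Finset.sum_congr rfl fun i _ => ?_
    rw [Finset.mul_sum]
    refine Finset.sum_congr rfl fun j _ => ?_
    change v i * ((H : E n n) (i, j) * v j) = _
    ring
  have h2 : v ⬝ᵥ v = Real.sqrt (∑ p : Fin n × Fin n, (v p.1 * v p.2) ^ 2) := by
    have : ∑ p : Fin n × Fin n, (v p.1 * v p.2) ^ 2 = (v ⬝ᵥ v) ^ 2 := by
      rw [Fintype.sum_prod_type, pow_two]
      simp only [dotProduct]
      rw [Finset.sum_mul_sum]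
      refine Finset.sum_congr rfl fun i _ => ?_
      refine Finset.sum_congr rfl fun j _ => ?_
      ring
    rw [this, Real.sqrt_sq]
    simpa using dotProduct_star_self_nonneg v
  have h3 : ‖H‖ = Real.sqrt (∑ p : Fin n × Fin n, ((H : E n n) p) ^ 2) := by
    change ‖(H : E n n)‖ = _
    rw [EuclideanSpace.norm_eq]
    congr 1
    refine Finset.sum_congr rfl fun p _ => ?_
    rw [Real.norm_eq_abs, sq_abs]
  rw [h1, h2, h3, ← Real.sqrt_mul (Finset.sum_nonneg fun p _ => sq_nonneg _)]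
  apply Real.abs_le_sqrt
  exact Finset.sum_mul_sq_le_sq_mul_sq _ _ _

theorem ball_subset_Kn : Metric.ball (I1 n) (1 / 2) ⊆ Kn n := by
  intro G hG v
  rw [mem_ball_iff_norm] at hG
  have h1 := quad_le (G - I1 n) v
  have h0 : 0 ≤ v ⬝ᵥ v := by simpa using dotProduct_star_self_nonneg v
  have h2 : v ⬝ᵥ (sM (G - I1 n) *ᵥ v) = v ⬝ᵥ (sM G *ᵥ v) - v ⬝ᵥ v := by
    have : sM (G - I1 n) = sM G - 1 := rfl
    rw [this, Matrix.sub_mulVec, dotProduct_sub, Matrix.one_mulVec]
  rw [h2, abs_le] at h1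
  have h3 : ‖G - I1 n‖ * (v ⬝ᵥ v) ≤ 1 / 2 * (v ⬝ᵥ v) := mul_le_mul_of_nonneg_right hG.le h0
  constructor <;> linarith [h1.1, h1.2]

theorem isOpen_PD : IsOpen (PD n) := by
  rw [Metric.isOpen_iff]
  intro G hG
  -- compactness of the sphere
  rcases (Nat.eq_zero_or_pos n) with rfl | hn
  · refine ⟨1, one_pos, ?_⟩
    intro H _ v hv
    exact absurd (Subsingleton.elim v 0) hv
  have hpd := posDef_of_mem hG
  have hc : IsCompact {v : Fin n → ℝ | v ⬝ᵥ v = 1} := by
    refine Metric.isCompact_of_isClosed_isBounded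
      (isClosed_eq (by fun_prop) continuous_const) ?_
    rw [isBounded_iff_forall_norm_le]
    refine ⟨1, fun v hv => ?_⟩
    rw [pi_norm_le_iff_of_nonneg zero_le_one]
    intro i
    have h1 : v i * v i ≤ v ⬝ᵥ v :=
      Finset.single_le_sum (f := fun i => v i * v i) (fun i _ => mul_self_nonneg _)
        (Finset.mem_univ i)
    rw [hv.out] at h1
    rw [Real.norm_eq_abs]
    exact abs_le_one_iff_mul_self_le_one.mpr h1
  have hne : {v : Fin n → ℝ | v ⬝ᵥ v = 1}.Nonempty := by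
    refine ⟨Pi.single ⟨0, hn⟩ 1, ?_⟩
    simp
  obtain ⟨v0, hv0, hmin⟩ := hc.exists_isMinOn hne
    (f := fun v => v ⬝ᵥ (sM G *ᵥ v)) (by
      apply Continuous.continuousOn
      exact Continuous.dotProduct continuous_id (continuous_const.matrix_mulVec continuous_id))
  have hv0' : v0 ≠ 0 := by
    rintro rfl
    simp at hv0
  have hδ := hG v0 hv0'
  refine ⟨_, hδ, ?_⟩
  intro H hH v hv
  rw [mem_ball_iff_norm] at hH
  have hvv : 0 < v ⬝ᵥ v := by
    have := dotProduct_star_self_pos_iff (v := v)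
    simpa using this.mpr hv
  have h1 := quad_le (H - G) v
  have h2 : v ⬝ᵥ (sM (H - G) *ᵥ v) = v ⬝ᵥ (sM H *ᵥ v) - v ⬝ᵥ (sM G *ᵥ v) := by
    have : sM (H - G) = sM H - sM G := rfl
    rw [this, Matrix.sub_mulVec, dotProduct_sub]
  rw [h2, abs_le] at h1
  have h3 : v0 ⬝ᵥ (sM G *ᵥ v0) * (v ⬝ᵥ v) ≤ v ⬝ᵥ (sM G *ᵥ v) := by
    set c := Real.sqrt (v ⬝ᵥ v) with hc
    have hcp : 0 < c := Real.sqrt_pos.mpr hvv
    have hcc : c * c = v ⬝ᵥ v := Real.mul_self_sqrt hvv.le
    have h4 := hmin (show (c⁻¹ • v) ∈ {v : Fin n → ℝ | v ⬝ᵥ v = 1} by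
      simp only [mem_ofPred_eq, smul_dotProduct, dotProduct_smul, smul_eq_mul]
      rw [← hcc]
      field_simp)
    simp only [mem_ofPred_eq, Matrix.mulVec_smul, smul_dotProduct, dotProduct_smul,
      smul_eq_mul] at h4
    rw [← hcc]
    have h5 : c⁻¹ * (c⁻¹ * (v ⬝ᵥ (sM G *ᵥ v))) = (v ⬝ᵥ (sM G *ᵥ v)) / (c * c) := by
      field_simp
    rw [h5, le_div_iff₀ (by positivity)] at h4
    exact h4
  have h4 : ‖H - G‖ * (v ⬝ᵥ v) < v0 ⬝ᵥ (sM G *ᵥ v0) * (v ⬝ᵥ v) :=
    mul_lt_mul_of_pos_right hH hvv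
  linarith [h1.1]

instance : BorelSpace (Sy n) := inferInstance

/-- the density -/
noncomputable def w (m n : ℕ) (G : Sy n) : ℝ≥0∞ :=
  ENNReal.ofReal ((sM G).det ^ (((m : ℝ) - n - 1) / 2))

theorem measurable_w (m n : ℕ) : Measurable (w m n) := by
  unfold w
  apply ENNReal.measurable_ofReal.comp
  exact (continuous_det.measurable).pow_const _

theorem lintegral_cong_nu (hdet : ∀ A : Matrix (Fin n) (Fin n) ℝ,
      LinearMap.det (cong A) = A.det ^ (n + 1)) (A : Matrix (Fin n) (Fin n) ℝ) (hA : A.det ≠ 0)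
    (F : Sy n → ℝ≥0∞) (hF : Measurable F) :
    ∫⁻ G, F (cong A G) ∂(nu n) = (ENNReal.ofReal (|A.det| ^ (n + 1)))⁻¹ * ∫⁻ G, F G ∂(nu n) := by
  have hd : LinearMap.det (cong A) ≠ 0 := by
    rw [hdet]
    exact pow_ne_zero _ hA
  have hm : Measurable (cong A : Sy n → Sy n) :=
    (LinearMap.continuous_of_finiteDimensional (cong A)).measurable
  have h1 : ∫⁻ G, F (cong A G) ∂(nu n) = ∫⁻ G, F G ∂((nu n).map (cong A)) :=
    (lintegral_map hF hm).symm
  have h2 : (nu n).map (cong A) = ENNReal.ofReal |(LinearMap.det (cong A))⁻¹| • nu n := by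
    unfold nu
    exact Measure.map_linearMap_addHaar_eq_smul_addHaar _ hd
  rw [h1, h2, lintegral_smul_measure, smul_eq_mul, hdet, abs_inv, abs_pow,
    ENNReal.ofReal_inv_of_pos (by positivity)]

theorem lintegral_sigma (m n : ℕ) (φ : Sy n → ℝ≥0∞) (hφ : Measurable φ) :
    ∫⁻ G, φ G ∂(((nu n).restrict (PD n)).withDensity (w m n)) =
      ∫⁻ G in PD n, φ G * w m n G ∂(nu n) := by
  rw [lintegral_withDensity_eq_lintegral_mul _ (measurable_w m n) hφ]
  refine lintegral_congr fun G => ?_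
  rw [Pi.mul_apply, mul_comm]

instance instHaarNu : (nu n).IsAddHaarMeasure := by unfold nu; infer_instance

theorem w_cong (m : ℕ) (A : Matrix (Fin n) (Fin n) ℝ) (hA : A.det ≠ 0) (G : Sy n)
    (hG : G ∈ PD n) :
    w m n G = ENNReal.ofReal (|A.det| ^ (-((m : ℝ) - n - 1))) * w m n (cong A G) := by
  unfold w
  have hd : 0 < |A.det| := abs_pos.mpr hA
  have hg := det_pos_of_mem hG
  rw [← ENNReal.ofReal_mul (by positivity), det_sM_cong]
  congr 1
  rw [Real.mul_rpow (by positivity) hg.le, ← Real.rpow_natCast, ← Real.rpow_mul hd.le,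
    ← mul_assoc, ← Real.rpow_add hd]
  have : -((m : ℝ) - n - 1) + ((2 : ℕ) : ℝ) * (((m : ℝ) - n - 1) / 2) = 0 := by
    push_cast
    ring
  rw [this, Real.rpow_zero, one_mul]

theorem quasi (hdet : ∀ A : Matrix (Fin n) (Fin n) ℝ,
      LinearMap.det (cong A) = A.det ^ (n + 1)) {m : ℕ}
    (A : Matrix (Fin n) (Fin n) ℝ) (hA : A.det ≠ 0) (φ : Sy n → ℝ≥0∞) (hφ : Measurable φ) :
    ∫⁻ G, φ (cong A G) ∂(((nu n).restrict (PD n)).withDensity (w m n)) =
      (ENNReal.ofReal (|A.det| ^ m))⁻¹ *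
        ∫⁻ G, φ G ∂(((nu n).restrict (PD n)).withDensity (w m n)) := by
  have hm : Measurable (cong A : Sy n → Sy n) :=
    (LinearMap.continuous_of_finiteDimensional (cong A)).measurable
  have hPD : MeasurableSet (PD n) := isOpen_PD.measurableSet
  rw [lintegral_sigma m n (fun G => φ (cong A G)) (hφ.comp hm), lintegral_sigma m n _ hφ,
    ← lintegral_indicator hPD, ← lintegral_indicator hPD]
  have e : ∀ G, (PD n).indicator (fun G => φ (cong A G) * w m n G) G =
      ENNReal.ofReal (|A.det| ^ (-((m : ℝ) - n - 1))) *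
        (PD n).indicator (fun G => φ G * w m n G) (cong A G) := by
    intro G
    by_cases hG : G ∈ PD n
    · rw [indicator_of_mem hG, indicator_of_mem ((cong_mem_iff A hA G).mpr hG), w_cong m A hA G hG]
      ring
    · rw [indicator_of_notMem hG, indicator_of_notMem (fun h => hG ((cong_mem_iff A hA G).mp h)),
        mul_zero]
  simp_rw [e]
  have hF : Measurable ((PD n).indicator (fun G => φ G * w m n G)) :=
    (hφ.mul (measurable_w m n)).indicator hPD
  have hF2 : Measurable (fun G => (PD n).indicator (fun G => φ G * w m n G) (cong A G)) :=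
    hF.comp hm
  rw [lintegral_const_mul _ hF2, lintegral_cong_nu hdet A hA _ hF, ← mul_assoc]
  congr 1
  have hd : 0 < |A.det| := abs_pos.mpr hA
  rw [← ENNReal.ofReal_inv_of_pos (by positivity), ← ENNReal.ofReal_inv_of_pos (by positivity),
    ← ENNReal.ofReal_mul (by positivity)]
  congr 1
  rw [← Real.rpow_natCast, ← Real.rpow_natCast, ← Real.rpow_neg hd.le, ← Real.rpow_neg hd.le,
    ← Real.rpow_add hd]
  congr 1
  push_cast
  ring

theorem sigma_Kn_ne_zero (m n : ℕ) :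
    ((nu n).restrict (PD n)).withDensity (w m n) (Kn n) ≠ 0 := by
  have hK : MeasurableSet (Kn n) := isClosed_Kn.measurableSet
  intro h
  rw [withDensity_apply_eq_zero (measurable_w m n)] at h
  have hsub : Metric.ball (I1 n) (1 / 2) ⊆ {x | w m n x ≠ 0} ∩ Kn n := by
    intro G hG
    have h1 := ball_subset_Kn hG
    refine ⟨?_, h1⟩
    have h2 := det_pos_of_mem (Kn_subset_PD h1)
    change w m n G ≠ 0
    unfold w
    rw [Ne, ENNReal.ofReal_eq_zero, not_le]
    positivity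
  have h3 := measure_mono_null hsub h
  rw [Measure.restrict_apply Metric.isOpen_ball.measurableSet, inter_eq_left.mpr
    (ball_subset_Kn.trans Kn_subset_PD)] at h3
  exact (Metric.isOpen_ball.measure_pos (nu n) ⟨I1 n, Metric.mem_ball_self (by norm_num)⟩).ne' h3

theorem sigma_Kn_ne_top (m n : ℕ) :
    ((nu n).restrict (PD n)).withDensity (w m n) (Kn n) ≠ ⊤ := by
  have hK : MeasurableSet (Kn n) := isClosed_Kn.measurableSet
  rw [withDensity_apply _ hK]
  have hc : ContinuousOn (fun G : Sy n => (sM G).det ^ (((m : ℝ) - n - 1) / 2)) (Kn n) := by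
    apply ContinuousOn.rpow_const continuous_det.continuousOn
    intro G hG
    exact Or.inl (det_pos_of_mem (Kn_subset_PD hG)).ne'
  obtain ⟨B, hB⟩ := isCompact_Kn.exists_bound_of_continuousOn hc
  have h1 : ∫⁻ G in Kn n, w m n G ∂((nu n).restrict (PD n)) ≤
      ∫⁻ _G in Kn n, ENNReal.ofReal B ∂((nu n).restrict (PD n)) := by
    apply setLIntegral_mono measurable_const
    intro G hG
    unfold w
    apply ENNReal.ofReal_le_ofReal
    exact (le_abs_self _).trans (hB G hG)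
  refine (lt_of_le_of_lt h1 ?_).ne
  rw [setLIntegral_const]
  apply ENNReal.mul_lt_top ENNReal.ofReal_lt_top
  refine lt_of_le_of_lt (Measure.restrict_apply_le _ _) ?_
  exact isCompact_Kn.measure_lt_top

end R9

/-- **R9**, from R6 (`hdet`) and R7 (`huniq`). -/
theorem pd_formula_of {m n : ℕ}
    (hdet : ∀ A : Matrix (Fin n) (Fin n) ℝ, LinearMap.det (cong A) = A.det ^ (n + 1))
    (huniq : ∀ (σ : Measure (Sy n)) [SFinite σ], σ (PD n)ᶜ = 0 →
      (∀ A : Matrix (Fin n) (Fin n) ℝ, A.det ≠ 0 → ∀ φ : Sy n → ℝ≥0∞, Measurable φ →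
        ∫⁻ G, φ (cong A G) ∂σ = (ENNReal.ofReal (|A.det| ^ m))⁻¹ * ∫⁻ G, φ G ∂σ) →
      σ (Kn n) ≠ 0 → σ (Kn n) ≠ ⊤ →
      ∃ c : ℝ≥0∞, c ≠ 0 ∧ c ≠ ⊤ ∧ ∀ φ : Sy n → ℝ≥0∞, Measurable φ →
        ∫⁻ G, φ G ∂σ = c * Th m n φ) :
    ∃ c : ℝ≥0∞, c ≠ 0 ∧ c ≠ ⊤ ∧ ∀ φ : Sy n → ℝ≥0∞, Measurable φ →
      ∫⁻ G in PD n, φ G * ENNReal.ofReal ((sM G).det ^ (((m : ℝ) - n - 1) / 2)) ∂(nu n) =
        c * Th m n φ := by
  have hPD : MeasurableSet (PD n) := R9.isOpen_PD.measurableSet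
  obtain ⟨c, hc0, hc1, hc⟩ := huniq (((nu n).restrict (PD n)).withDensity (R9.w m n)) (by
      apply withDensity_absolutelyContinuous
      rw [Measure.restrict_apply hPD.compl, compl_inter_self, measure_empty])
    (fun A hA φ hφ => R9.quasi hdet A hA φ hφ) (R9.sigma_Kn_ne_zero m n)
    (R9.sigma_Kn_ne_top m n)
  refine ⟨c, hc0, hc1, fun φ hφ => ?_⟩
  rw [← hc φ hφ, R9.lintegral_sigma m n φ hφ]
  rfl

end Pool.Agent.H212R2.KLS
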