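import Pool.Agent.H212R2.KLS.Defs
import Pool.Agent.H212R2.KLS.R3
import Pool.Agent.H212R2.KLS.R4
import Pool.Agent.H212R2.KLS.R6
import Pool.Agent.H212R2.KLS.R7
import Pool.Agent.H212R2.KLS.R8
import Pool.Agent.H212R2.KLS.R9
import Pool.Agent.H212R2.KLS.R10
import Pool.Agent.H212R2.KLS.R11
import Pool.Agent.H212R2.KLS.R2b
import Pool.Agent.H212R2.KLS.R12
import Pool.Agent.H212R2.KLS.R13

/-!
# KLS: assembly of the radial part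
-/

set_option autoImplicit false

namespace Pool.Agent.H212R2.KLS

open MeasureTheory Set Matrix
open scoped ENNReal InnerProductSpace

theorem pd_formula {m n : ℕ} (hnm : n ≤ m) :
    ∃ c : ℝ≥0∞, c ≠ 0 ∧ c ≠ ⊤ ∧ ∀ φ : Sy n → ℝ≥0∞, Measurable φ →
      ∫⁻ G in PD n, φ G * ENNReal.ofReal ((sM G).det ^ (((m : ℝ) - n - 1) / 2)) ∂(nu n) =
        c * Th m n φ :=
  pd_formula_of (fun A => det_cong A) (fun σ _ hσ hq h0 h1 => uniq hnm σ hσ hq h0 h1)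

theorem radial_formula {m n : ℕ} (hnm : n ≤ m) :
    ∃ c : ℝ≥0∞, c ≠ 0 ∧ c ≠ ⊤ ∧ ∀ F : E m n → ℝ≥0∞, Measurable F →
      (∀ g ∈ Matrix.orthogonalGroup (Fin m) ℝ, ∀ x, F (lm g x) = F x) →
      ∫⁻ X, F X = c * ∫⁻ P in PD n, F (io P) * ENNReal.ofReal (jac m n P) ∂(nu n) :=
  radial_formula_of hnm (fun P => det_KK P) (gram_formula hnm) (pd_formula hnm)
    (fun φ hφ => sq_formula φ hφ) (fun X hX => polar hnm X hX)

instance nu_haar (n : ℕ) : (nu n).IsAddHaarMeasure :=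
  inferInstanceAs (Measure.addHaar : Measure (Sy n)).IsAddHaarMeasure

theorem radial {m n : ℕ} (hm : 3 ≤ m) (hnm : n ≤ m) (ρ : E m n → ℝ) (hρ : Dens m n ρ) (r : ℝ)
    (hr : 0 < r) (hs : ∀ x, ¬ OpLe r x → ρ x = 0) (f : E m n → ℝ) (hf : ContDiff ℝ 1 f)
    (hinv : ∀ g ∈ Matrix.orthogonalGroup (Fin m) ℝ, ∀ x, f (lm g x) = f x) :
    ∃ c : ℝ, ∫ x, (f x - c) ^ 2 ∂(mu ρ) ≤
      4 * r ^ 2 / ((m : ℝ) - 2) * ∫ x, ‖fderiv ℝ f x‖ ^ 2 ∂(mu ρ) :=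
  radial_of hm hnm ρ hρ r hr
    (fun P Q hP hQ hPr hQr => jac_mid hnm r hr P Q hP hQ hPr hQr)
    (fun w h0 hwm hwb hws κ hκ hmid f hf =>
      poincare_of_strong (nu n) w h0 hwm hwb hws κ hκ hmid f hf)
    (radial_formula hnm) hs f hf hinv

end Pool.Agent.H212R2.KLS
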