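import Pool.Agent.H212R2.KLS.Defs
import Pool.Agent.H212R2.KLS.A5
import Pool.Agent.H212R2.KLS.A6
import Pool.Agent.H212R2.KLS.A7
import Pool.Agent.H212R2.KLS.A8
import Pool.Agent.H212R2.KLS.H2
import Pool.Agent.H212R2.KLS.L1
import Pool.Agent.H212R2.KLS.L2
import Pool.Agent.H212R2.KLS.Rad

/-!
# KLS: local Poincare inequality (task L3)
-/

set_option autoImplicit false

namespace Pool.Agent.H212R2.KLS

open MeasureTheory Set Matrix
open scoped ENNReal InnerProductSpace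

namespace L3x

theorem intg {F : Type*} [NormedAddCommGroup F] [NormedSpace ℝ F] [FiniteDimensional ℝ F]
    [MeasurableSpace F] [BorelSpace F] (μ : Measure F) [IsFiniteMeasure μ]
    (hb : ∃ R, μ (Metric.closedBall 0 R)ᶜ = 0) (g : F → ℝ) (hg : Continuous g) :
    Integrable g μ := by
  obtain ⟨R, hR⟩ := hb
  have : ProperSpace F := FiniteDimensional.proper ℝ F
  obtain ⟨C, hC⟩ := (isCompact_closedBall (0 : F) R).exists_bound_of_continuousOn hg.continuousOn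
  have h1 : Metric.closedBall (0 : F) R ∈ ae μ := mem_ae_iff.2 hR
  refine Integrable.of_bound hg.aestronglyMeasurable C ?_
  filter_upwards [h1] with x hx using hC x hx

theorem norm_sq_eq {m n : ℕ} (X : E m n) :
    ‖X‖ ^ 2 = ∑ j : Fin n, ‖mv X (EuclideanSpace.single j 1)‖ ^ 2 := by
  rw [EuclideanSpace.real_norm_sq_eq, Fintype.sum_prod_type, Finset.sum_comm]
  refine Finset.sum_congr rfl fun j _ => ?_
  rw [EuclideanSpace.real_norm_sq_eq]
  refine Finset.sum_congr rfl fun i _ => ?_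
  have : (mv X (EuclideanSpace.single j 1)) i = X (i, j) := by
    change (toM X *ᵥ (EuclideanSpace.single j (1:ℝ)).ofLp) i = X (i, j)
    simp [Matrix.mulVec, dotProduct]
  rw [this]

theorem norm_le_of_OpLe {m n : ℕ} {r : ℝ} (hr : 0 ≤ r) {X : E m n} (h : OpLe r X) :
    ‖X‖ ≤ Real.sqrt n * r := by
  have h1 : ‖X‖ ^ 2 ≤ (Real.sqrt n * r) ^ 2 := by
    rw [norm_sq_eq, mul_pow, Real.sq_sqrt (Nat.cast_nonneg n)]
    calc ∑ j : Fin n, ‖mv X (EuclideanSpace.single j 1)‖ ^ 2 ≤ ∑ j : Fin n, r ^ 2 := by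
          refine Finset.sum_le_sum fun j _ => ?_
          have := h (EuclideanSpace.single j 1)
          rw [show ‖(EuclideanSpace.single j (1:ℝ) : V n)‖ = 1 by simp, mul_one] at this
          exact pow_le_pow_left₀ (norm_nonneg _) this 2
      _ = n * r ^ 2 := by simp
  exact le_of_sq_le_sq h1 (by positivity)

/-- left multiplication as a linear map -/
def lmL {k m n : ℕ} (g : Matrix (Fin k) (Fin m) ℝ) : E m n →ₗ[ℝ] E k n where
  toFun := lm g
  map_add' x y := by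
    ext p
    change (g * toM (x + y)) p.1 p.2 = (g * toM x) p.1 p.2 + (g * toM y) p.1 p.2
    have : toM (x + y) = toM x + toM y := rfl
    rw [this, Matrix.mul_add]
    rfl
  map_smul' c x := by
    ext p
    change (g * toM (c • x)) p.1 p.2 = c * (g * toM x) p.1 p.2
    have : toM (c • x) = c • toM x := rfl
    rw [this, Matrix.mul_smul]
    rfl

theorem lm_lm {k l m n : ℕ} (g : Matrix (Fin k) (Fin l) ℝ) (h : Matrix (Fin l) (Fin m) ℝ)
    (x : E m n) : lm g (lm h x) = lm (g * h) x := by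
  ext p
  change (g * (h * toM x)) p.1 p.2 = (g * h * toM x) p.1 p.2
  rw [Matrix.mul_assoc]

theorem lm_one {m n : ℕ} (x : E m n) : lm (1 : Matrix (Fin m) (Fin m) ℝ) x = x := by
  ext p
  change ((1 : Matrix (Fin m) (Fin m) ℝ) * toM x) p.1 p.2 = x p
  rw [Matrix.one_mul]
  rfl

theorem norm_lm {m n : ℕ} (g : Matrix (Fin m) (Fin m) ℝ) (hg : g ∈ Matrix.orthogonalGroup (Fin m) ℝ)
    (x : E m n) : ‖lm g x‖ = ‖x‖ := by
  have hg' : gᵀ * g = 1 := (Matrix.mem_orthogonalGroup_iff' _ _).1 hg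
  have h2 : ∀ (k : ℕ) (y : E k n), ‖y‖ ^ 2 = ((toM y)ᵀ * toM y).trace := by
    intro k y
    rw [EuclideanSpace.real_norm_sq_eq, Fintype.sum_prod_type, Finset.sum_comm, Matrix.trace]
    refine Finset.sum_congr rfl fun j _ => ?_
    simp only [Matrix.diag_apply, Matrix.mul_apply, Matrix.transpose_apply, toM_apply]
    refine Finset.sum_congr rfl fun i _ => ?_
    ring
  have h3 : ‖lm g x‖ ^ 2 = ‖x‖ ^ 2 := by
    rw [h2, h2]
    change ((g * toM x)ᵀ * (g * toM x)).trace = _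
    rw [Matrix.transpose_mul, Matrix.mul_assoc, ← Matrix.mul_assoc gᵀ, hg', Matrix.one_mul]
  exact (sq_eq_sq₀ (norm_nonneg _) (norm_nonneg _)).1 h3

/-- left multiplication by an orthogonal matrix as a linear isometric equivalence -/
noncomputable def lmE {m n : ℕ} (g : Matrix (Fin m) (Fin m) ℝ)
    (hg : g ∈ Matrix.orthogonalGroup (Fin m) ℝ) : E m n ≃ₗᵢ[ℝ] E m n :=
  LinearIsometryEquiv.ofSurjective ⟨lmL g, norm_lm g hg⟩ (by
    intro y
    refine ⟨lm gᵀ y, ?_⟩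
    change lm g (lm gᵀ y) = y
    rw [lm_lm]
    have : g * gᵀ = 1 := (Matrix.mem_orthogonalGroup_iff _ _).1 hg
    rw [this, lm_one])

@[simp] theorem lmE_apply {m n : ℕ} (g : Matrix (Fin m) (Fin m) ℝ)
    (hg : g ∈ Matrix.orthogonalGroup (Fin m) ℝ) (x : E m n) : lmE g hg x = lm g x := rfl

/-- the reflection -/
def rf (m : ℕ) : Matrix (Fin m) (Fin m) ℝ :=
  Matrix.diagonal fun i => if (i : ℕ) = 0 then -1 else 1

theorem rf_sq (m : ℕ) : rf m * rf m = 1 := by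
  rw [rf, Matrix.diagonal_mul_diagonal, ← Matrix.diagonal_one]
  congr 1
  ext i
  split_ifs <;> simp

theorem rf_mem (m : ℕ) : rf m ∈ Matrix.orthogonalGroup (Fin m) ℝ := by
  rw [Matrix.mem_orthogonalGroup_iff]
  have : (rf m)ᵀ = rf m := by
    rw [rf, Matrix.diagonal_transpose]
  rw [this, rf_sq]

theorem rf_det (m : ℕ) (hm : 1 ≤ m) : (rf m).det = -1 := by
  obtain ⟨k, rfl⟩ : ∃ k, m = k + 1 := ⟨m - 1, by omega⟩
  rw [rf, Matrix.det_diagonal, Fin.prod_univ_succ]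
  simp

theorem det_orth {m : ℕ} (g : Matrix (Fin m) (Fin m) ℝ)
    (hg : g ∈ Matrix.orthogonalGroup (Fin m) ℝ) : g.det = 1 ∨ g.det = -1 := by
  have h : g * gᵀ = 1 := (Matrix.mem_orthogonalGroup_iff _ _).1 hg
  have h2 := congrArg Matrix.det h
  rw [Matrix.det_mul, Matrix.det_transpose, Matrix.det_one] at h2
  exact mul_self_eq_one_iff.1 h2

theorem norm_fderiv_comp {m n : ℕ} (g : Matrix (Fin m) (Fin m) ℝ)
    (hg : g ∈ Matrix.orthogonalGroup (Fin m) ℝ) (f : E m n → ℝ) (hf : ContDiff ℝ 1 f)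
    (x : E m n) : fderiv ℝ (fun y => f (lm g y)) x =
      (fderiv ℝ f (lm g x)).comp (lmE g hg).toContinuousLinearEquiv.toContinuousLinearMap := by
  have h1 : HasFDerivAt f (fderiv ℝ f (lm g x)) (lmE g hg x) :=
    (hf.differentiable (by norm_num)).differentiableAt.hasFDerivAt
  exact (h1.comp x (lmE g hg).toContinuousLinearEquiv.hasFDerivAt).fderiv

theorem para {F : Type*} [NormedAddCommGroup F] [InnerProductSpace ℝ F] [FiniteDimensional ℝ F]
    (A B : F →L[ℝ] ℝ) : ‖A + B‖ ^ 2 + ‖A - B‖ ^ 2 = 2 * (‖A‖ ^ 2 + ‖B‖ ^ 2) := by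
  have := parallelogram_law_with_norm ℝ ((InnerProductSpace.toDual ℝ F).symm A)
    ((InnerProductSpace.toDual ℝ F).symm B)
  rw [← map_add, ← map_sub] at this
  simp only [LinearIsometryEquiv.norm_map] at this
  nlinarith [this]

/-- the even/odd decomposition of an `SO(m)`-invariant function -/
theorem so_case {m n : ℕ} (hm : 3 ≤ m) (hn : 1 ≤ n) (hnm : n ≤ m) (ρ : E m n → ℝ)
    (hρ : Dens m n ρ) (r : ℝ) (hr : 0 < r) (hs : ∀ x, ¬ OpLe r x → ρ x = 0)
    (hfin : IsFiniteMeasure (mu ρ)) (hball : ∃ R, (mu ρ) (Metric.closedBall 0 R)ᶜ = 0)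
    (hinv : ∀ g ∈ Matrix.orthogonalGroup (Fin m) ℝ, (mu ρ).map (lm g) = mu ρ)
    (f : E m n → ℝ) (hf : ContDiff ℝ 1 f)
    (hso : ∀ g ∈ Matrix.orthogonalGroup (Fin m) ℝ, g.det = 1 → ∀ x : E m n, f (lm g x) = f x) :
    ∃ c : ℝ, ∫ x, (f x - c) ^ 2 ∂(mu ρ) ≤
      4 * r ^ 2 / ((m : ℝ) - 2) * ∫ x, ‖fderiv ℝ f x‖ ^ 2 ∂(mu ρ) := by
  have hm3 : (3 : ℝ) ≤ m := by exact_mod_cast hm
  set q : E m n → ℝ := fun x => f (lm (rf m) x) with hq
  have hlmc : ContDiff ℝ 1 (fun x : E m n => lm (rf m) x) :=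
    (lmE (n := n) (rf m) (rf_mem m)).contDiff
  have hqc : ContDiff ℝ 1 q := hf.comp hlmc
  set fe : E m n → ℝ := fun x => (1 / 2 : ℝ) * (f x + q x) with hfe
  set fo : E m n → ℝ := fun x => (1 / 2 : ℝ) * (f x - q x) with hfo
  have hfec : ContDiff ℝ 1 fe := contDiff_const.mul (hf.add hqc)
  have hfoc : ContDiff ℝ 1 fo := contDiff_const.mul (hf.sub hqc)
  -- values after multiplication
  have hrr : rf m * rf m = 1 := rf_sq m
  have key : ∀ g ∈ Matrix.orthogonalGroup (Fin m) ℝ, ∀ x : E m n,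
      (g.det = 1 ∧ f (lm g x) = f x ∧ q (lm g x) = q x) ∨
      (g.det = -1 ∧ f (lm g x) = q x ∧ q (lm g x) = f x) := by
    intro g hg x
    rcases det_orth g hg with h1 | h1
    · left
      refine ⟨h1, hso g hg h1 x, ?_⟩
      change f (lm (rf m) (lm g x)) = f (lm (rf m) x)
      have h2 : lm (rf m) (lm g x) = lm (rf m * g * rf m) (lm (rf m) x) := by
        rw [lm_lm, lm_lm, Matrix.mul_assoc _ (rf m) (rf m), hrr, Matrix.mul_one]
      rw [h2]
      refine hso _ ?_ ?_ _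
      · exact mul_mem (mul_mem (rf_mem m) hg) (rf_mem m)
      · rw [Matrix.det_mul, Matrix.det_mul, rf_det m (by omega), h1]; norm_num
    · right
      refine ⟨h1, ?_, ?_⟩
      · change f (lm g x) = f (lm (rf m) x)
        have h2 : lm g x = lm (g * rf m) (lm (rf m) x) := by
          rw [lm_lm, Matrix.mul_assoc _ (rf m) (rf m), hrr, Matrix.mul_one]
        rw [h2]
        refine hso _ ?_ ?_ _
        · exact mul_mem hg (rf_mem m)
        · rw [Matrix.det_mul, rf_det m (by omega), h1]; norm_num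
      · change f (lm (rf m) (lm g x)) = f x
        rw [lm_lm]
        refine hso _ ?_ ?_ _
        · exact mul_mem (rf_mem m) hg
        · rw [Matrix.det_mul, rf_det m (by omega), h1]; norm_num
  have hfeinv : ∀ g ∈ Matrix.orthogonalGroup (Fin m) ℝ, ∀ x, fe (lm g x) = fe x := by
    intro g hg x
    simp only [hfe]
    rcases key g hg x with ⟨-, h2, h3⟩ | ⟨-, h2, h3⟩ <;> rw [h2, h3]
    rw [add_comm]
  have hfoodd : ∀ g ∈ Matrix.orthogonalGroup (Fin m) ℝ, ∀ x, fo (lm g x) = g.det * fo x := by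
    intro g hg x
    simp only [hfo]
    rcases key g hg x with ⟨h1, h2, h3⟩ | ⟨h1, h2, h3⟩ <;> rw [h1, h2, h3] <;> ring
  obtain ⟨c, hc⟩ := radial hm hnm ρ hρ r hr hs fe hfec hfeinv
  have ho := hardy_odd hn hnm ρ hρ r hr hs fo hfoc hfoodd
  refine ⟨c, ?_⟩
  -- change of variables
  have hcv : ∀ g : E m n → ℝ, Continuous g →
      ∫ x, g (lm (rf m) x) ∂(mu ρ) = ∫ x, g x ∂(mu ρ) := by
    intro g hg
    conv_rhs => rw [← hinv (rf m) (rf_mem m)]
    rw [integral_map]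
    · exact hlmc.continuous.measurable.aemeasurable
    · exact hg.aestronglyMeasurable
  have hI : ∀ g : E m n → ℝ, Continuous g → Integrable g (mu ρ) := fun g hg =>
    intg (mu ρ) hball g hg
  -- first identity
  have hfq : ∀ x, q x = f (lm (rf m) x) := fun x => rfl
  have e1 : ∫ x, (f x - c) ^ 2 ∂(mu ρ) = ∫ x, (fe x - c) ^ 2 ∂(mu ρ) + ∫ x, fo x ^ 2 ∂(mu ρ) := by
    have h1 : ∫ x, (q x - c) ^ 2 ∂(mu ρ) = ∫ x, (f x - c) ^ 2 ∂(mu ρ) :=
      hcv (fun x => (f x - c) ^ 2) (by fun_prop)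
    have h2 : ∫ x, ((f x - c) ^ 2 + (q x - c) ^ 2) ∂(mu ρ) =
        ∫ x, (2 * (fe x - c) ^ 2 + 2 * fo x ^ 2) ∂(mu ρ) := by
      congr 1
      ext x
      simp only [hfe, hfo]
      ring
    rw [integral_add (hI _ (by fun_prop)) (hI _ (by fun_prop)),
      integral_add (hI _ (by fun_prop)) (hI _ (by fun_prop)), h1, integral_const_mul,
      integral_const_mul] at h2
    linarith
  -- derivative identity
  have hdf : ∀ x, HasFDerivAt f (fderiv ℝ f x) x := fun x =>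
    (hf.differentiable (by norm_num)).differentiableAt.hasFDerivAt
  have hdq : ∀ x, HasFDerivAt q (fderiv ℝ q x) x := fun x =>
    (hqc.differentiable (by norm_num)).differentiableAt.hasFDerivAt
  have hde : ∀ x, fderiv ℝ fe x = (1 / 2 : ℝ) • (fderiv ℝ f x + fderiv ℝ q x) := fun x =>
    (((hdf x).add (hdq x)).const_mul (1 / 2 : ℝ)).fderiv
  have hdo : ∀ x, fderiv ℝ fo x = (1 / 2 : ℝ) • (fderiv ℝ f x - fderiv ℝ q x) := fun x =>
    (((hdf x).sub (hdq x)).const_mul (1 / 2 : ℝ)).fderiv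
  have hcf : Continuous (fun x => ‖fderiv ℝ f x‖ ^ 2) :=
    ((hf.continuous_fderiv (by norm_num)).norm).pow 2
  have hcq : Continuous (fun x => ‖fderiv ℝ q x‖ ^ 2) :=
    ((hqc.continuous_fderiv (by norm_num)).norm).pow 2
  have hce : Continuous (fun x => ‖fderiv ℝ fe x‖ ^ 2) :=
    ((hfec.continuous_fderiv (by norm_num)).norm).pow 2
  have hco : Continuous (fun x => ‖fderiv ℝ fo x‖ ^ 2) :=
    ((hfoc.continuous_fderiv (by norm_num)).norm).pow 2
  have e2 : ∫ x, ‖fderiv ℝ f x‖ ^ 2 ∂(mu ρ) = ∫ x, ‖fderiv ℝ fe x‖ ^ 2 ∂(mu ρ) +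
      ∫ x, ‖fderiv ℝ fo x‖ ^ 2 ∂(mu ρ) := by
    have h1 : ∫ x, ‖fderiv ℝ q x‖ ^ 2 ∂(mu ρ) = ∫ x, ‖fderiv ℝ f x‖ ^ 2 ∂(mu ρ) := by
      rw [← hcv (fun x => ‖fderiv ℝ f x‖ ^ 2) hcf]
      congr 1
      ext x
      rw [norm_fderiv_comp (rf m) (rf_mem m) f hf x]
      congr 1
      exact ContinuousLinearMap.opNorm_comp_linearIsometryEquiv _ _
    have h2 : ∫ x, (‖fderiv ℝ f x‖ ^ 2 + ‖fderiv ℝ q x‖ ^ 2) ∂(mu ρ) =
        ∫ x, (2 * ‖fderiv ℝ fe x‖ ^ 2 + 2 * ‖fderiv ℝ fo x‖ ^ 2) ∂(mu ρ) := by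
      congr 1
      ext x
      rw [hde, hdo, norm_smul, norm_smul]
      have := para (fderiv ℝ f x) (fderiv ℝ q x)
      have h12 : ‖(1 / 2 : ℝ)‖ = 1 / 2 := by norm_num
      rw [h12]
      nlinarith [this]
    rw [integral_add (hI _ hcf) (hI _ hcq),
      integral_add ((hI _ hce).const_mul 2) ((hI _ hco).const_mul 2), h1,
      integral_const_mul, integral_const_mul] at h2
    linarith
  rw [e1, e2, mul_add]
  refine add_le_add hc (ho.trans ?_)
  refine mul_le_mul_of_nonneg_right ?_ (integral_nonneg fun x => by positivity)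
  rw [div_le_div_iff₀ (by positivity) (by linarith)]
  nlinarith [sq_nonneg r, mul_nonneg (sq_nonneg r) (by linarith : (0:ℝ) ≤ (m:ℝ))]

theorem poly_case {m n : ℕ} (hm : 3 ≤ m) (hn : 1 ≤ n) (hnm : n ≤ m) (ρ : E m n → ℝ)
    (hρ : Dens m n ρ) (r : ℝ) (hr : 0 < r) (hs : ∀ x, ¬ OpLe r x → ρ x = 0)
    (hfin : IsFiniteMeasure (mu ρ)) (hball : ∃ R, (mu ρ) (Metric.closedBall 0 R)ᶜ = 0)
    (hinv : ∀ g ∈ Matrix.orthogonalGroup (Fin m) ℝ, (mu ρ).map (lm g) = mu ρ)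
    (hpos : ∀ p : MvPolynomial (Fin m × Fin n) ℝ, ∫ x, (ev p x) ^ 2 ∂(mu ρ) = 0 → p = 0)
    (p : MvPolynomial (Fin m × Fin n) ℝ) :
    ∃ c : ℝ, ∫ x, (ev p x - c) ^ 2 ∂(mu ρ) ≤
      24 * r ^ 2 / m * ∫ x, ‖fderiv ℝ (ev p) x‖ ^ 2 ∂(mu ρ) := by
  have hm3 : (3 : ℝ) ≤ m := by exact_mod_cast hm
  obtain ⟨p0, h0, h1, h2, h3, h4⟩ := angular hm (mu ρ) hinv hball hpos p
  obtain ⟨c, hc⟩ := so_case hm hn hnm ρ hρ r hr hs hfin hball hinv (ev p0) (ev_contDiff p0 1)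
    (inv_of_DD p0 h0)
  refine ⟨c, ?_⟩
  have hcont : ∀ q : MvPolynomial (Fin m × Fin n) ℝ, Continuous (ev q) := fun q =>
    (ev_contDiff q 0).continuous
  have hp := hcont p
  have hp0 := hcont p0
  have hI : ∀ g : E m n → ℝ, Continuous g → Integrable g (mu ρ) := fun g hg =>
    intg (mu ρ) hball g hg
  have e1 : ∫ x, (ev p x - c) ^ 2 ∂(mu ρ) =
      ∫ x, (ev p0 x - c) ^ 2 ∂(mu ρ) + ∫ x, (ev p x - ev p0 x) ^ 2 ∂(mu ρ) := by
    have : ∫ x, (ev p x - c) ^ 2 ∂(mu ρ) = ∫ x, (((ev p0 x - c) ^ 2 +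
        (ev p x - ev p0 x) ^ 2) + (2 * (ev p0 x * (ev p x - ev p0 x)) -
        (2 * c) * (ev p x - ev p0 x))) ∂(mu ρ) := by
      congr 1
      ext x
      ring
    rw [this, integral_add (hI _ (by fun_prop)) (hI _ (by fun_prop)),
      integral_add (hI _ (by fun_prop)) (hI _ (by fun_prop)),
      integral_sub (hI _ (by fun_prop)) (hI _ (by fun_prop)), integral_const_mul,
      integral_const_mul, h1, h2]
    ring
  -- the angular part
  have hae : ∀ᵐ x ∂(mu ρ), OpLe r x := by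
    have : (mu ρ) {x | ¬ OpLe r x} = 0 := by
      rw [mu, withDensity_apply_eq_zero' (hρ.meas.ennreal_ofReal.aemeasurable)]
      refine measure_mono_null ?_ (measure_empty (μ := (volume : Measure (E m n))))
      intro x hx
      exact hx.1 (by simp [hs x hx.2])
    exact this
  have hgr : ∀ q : MvPolynomial (Fin m × Fin n) ℝ,
      ∫ x, ev (gr q q) x ∂(mu ρ) = ∫ x, ‖fderiv ℝ (ev q) x‖ ^ 2 ∂(mu ρ) := by
    intro q
    congr 1
    ext x
    exact ev_gr q x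
  rw [hgr, hgr] at h4
  have e2 : ∑ a : Fin m, ∑ b, ∫ x, (ev (DD a b p) x) ^ 2 ∂(mu ρ) ≤
      4 * r ^ 2 * ∫ x, ‖fderiv ℝ (ev p) x‖ ^ 2 ∂(mu ρ) := by
    have : ∑ a : Fin m, ∑ b, ∫ x, (ev (DD a b p) x) ^ 2 ∂(mu ρ) =
        ∫ x, ∑ a : Fin m, ∑ b, (ev (DD a b p) x) ^ 2 ∂(mu ρ) := by
      have hi : ∀ a b : Fin m, Integrable (fun x => (ev (DD a b p) x) ^ 2) (mu ρ) :=
        fun a b => hI _ ((hcont _).pow 2)
      rw [integral_finsetSum _ (fun a _ => integrable_finsetSum _ (fun b _ => hi a b))]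
      refine Finset.sum_congr rfl fun a _ => ?_
      rw [integral_finsetSum _ (fun b _ => hi a b)]
    rw [this, ← integral_const_mul]
    refine integral_mono_ae ?_ ?_ ?_
    · exact integrable_finsetSum _ fun a _ => integrable_finsetSum _ fun b _ =>
        hI _ ((hcont _).pow 2)
    · exact hI _ (continuous_const.mul
        ((((ev_contDiff p 1).continuous_fderiv (by norm_num)).norm).pow 2))
    · filter_upwards [hae] with x hx using DD_bound p x r hr.le hx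
  set G := ∫ x, ‖fderiv ℝ (ev p) x‖ ^ 2 ∂(mu ρ) with hG
  have hG0 : 0 ≤ G := integral_nonneg fun x => by positivity
  have hm2 : (0:ℝ) < (m : ℝ) - 2 := by linarith
  have e3 : ∫ x, (ev p x - ev p0 x) ^ 2 ∂(mu ρ) ≤ 4 * r ^ 2 / ((m : ℝ) - 2) * G := by
    rw [div_mul_eq_mul_div, le_div_iff₀ hm2, mul_comm]
    exact h3.trans e2
  have e4 : ∫ x, (ev p0 x - c) ^ 2 ∂(mu ρ) ≤ 4 * r ^ 2 / ((m : ℝ) - 2) * G :=
    hc.trans (mul_le_mul_of_nonneg_left h4 (by positivity))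
  rw [e1]
  have e5 : 4 * r ^ 2 / ((m : ℝ) - 2) + 4 * r ^ 2 / ((m : ℝ) - 2) ≤ 24 * r ^ 2 / m := by
    rw [← add_div, div_le_div_iff₀ hm2 (by linarith)]
    nlinarith [sq_nonneg r]
  calc _ ≤ 4 * r ^ 2 / ((m : ℝ) - 2) * G + 4 * r ^ 2 / ((m : ℝ) - 2) * G := add_le_add e4 e3
    _ = (4 * r ^ 2 / ((m : ℝ) - 2) + 4 * r ^ 2 / ((m : ℝ) - 2)) * G := by ring
    _ ≤ _ := mul_le_mul_of_nonneg_right e5 hG0

/-- the variance form -/
theorem var_le {F : Type*} [NormedAddCommGroup F] [NormedSpace ℝ F] [FiniteDimensional ℝ F]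
    [MeasurableSpace F] [BorelSpace F] (μ : Measure F) [IsFiniteMeasure μ] (hμ : μ ≠ 0)
    (hb : ∃ R, μ (Metric.closedBall 0 R)ᶜ = 0) (g : F → ℝ) (hg : Continuous g) (c : ℝ) :
    ∫ x, (g x - c) ^ 2 ∂μ = (∫ x, g x ^ 2 ∂μ - (∫ x, g x ∂μ) ^ 2 / (μ univ).toReal) +
      (μ univ).toReal * (c - (∫ x, g x ∂μ) / (μ univ).toReal) ^ 2 := by
  have hI : ∀ g : F → ℝ, Continuous g → Integrable g μ := fun g hg => intg μ hb g hg
  have hM : (μ univ).toReal ≠ 0 := by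
    rw [Ne, ENNReal.toReal_eq_zero_iff, not_or]
    exact ⟨by rwa [Measure.measure_univ_eq_zero], measure_ne_top _ _⟩
  have h1 : ∫ x, (g x - c) ^ 2 ∂μ = ∫ x, (g x ^ 2 - (2 * c) * g x + c ^ 2) ∂μ := by
    congr 1
    ext x
    ring
  rw [h1, integral_add (hI _ (by fun_prop)) (hI _ (by fun_prop)),
    integral_sub (hI _ (by fun_prop)) (hI _ (by fun_prop)), integral_const_mul,
    integral_const, smul_eq_mul, measureReal_def]
  field_simp
  ring

end L3x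

open L3x in
theorem local_poincare {m n : ℕ} (hm : 3 ≤ m) (hn : 1 ≤ n) (hnm : n ≤ m) (ρ : E m n → ℝ)
    (hρ : Dens m n ρ) (r : ℝ) (hr : 0 < r) (hs : ∀ x, ¬ OpLe r x → ρ x = 0)
    (f : E m n → ℝ) (hf : ContDiff ℝ 1 f) :
    ∃ c : ℝ, ∫ x, (f x - c) ^ 2 ∂(mu ρ) ≤
      24 * r ^ 2 / m * ∫ x, ‖fderiv ℝ f x‖ ^ 2 ∂(mu ρ) := by
  by_cases hμ : mu ρ = 0
  · exact ⟨0, by simp [hμ]⟩
  obtain ⟨hmax, hinv, hfin, -, -⟩ := Dens.basic hρ (by omega)
  have hbdd : Bdd ρ := ⟨Real.sqrt n * r, fun x hx => hs x fun h =>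
    absurd (norm_le_of_OpLe hr.le h) (not_le.2 hx)⟩
  have hfin' : IsFiniteMeasure (mu ρ) := hfin hbdd
  set R : ℝ := Real.sqrt n * r with hR
  have hball0 : (mu ρ) (Metric.closedBall 0 R)ᶜ = 0 := by
    rw [mu, withDensity_apply_eq_zero' (hρ.meas.ennreal_ofReal.aemeasurable)]
    refine measure_mono_null ?_ (measure_empty (μ := (volume : Measure (E m n))))
    intro x hx
    refine hx.1 ?_
    have : ¬ OpLe r x := fun h => hx.2 (by
      rw [mem_closedBall_zero_iff]; exact norm_le_of_OpLe hr.le h)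
    simp [hs x this]
  have hball : ∃ R, (mu ρ) (Metric.closedBall 0 R)ᶜ = 0 := ⟨R, hball0⟩
  have hpos := ev_pos ρ hρ hbdd hμ
  have hP := poly_case hm hn hnm ρ hρ r hr hs hfin' hball hinv hpos
  set M := ((mu ρ) univ).toReal with hM
  have hM0 : 0 < M := by
    refine ENNReal.toReal_pos ?_ (measure_ne_top _ _)
    rwa [Ne, Measure.measure_univ_eq_zero]
  set K : ℝ := 24 * r ^ 2 / m with hK
  -- polynomial approximation
  have happ : ∀ k : ℕ, ∃ p : MvPolynomial (Fin m × Fin n) ℝ, ∀ x : E m n, ‖x‖ ≤ R →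
      |ev p x - f x| ≤ 1 / ((k : ℝ) + 1) ∧
      ‖fderiv ℝ (ev p) x - fderiv ℝ f x‖ ≤ 1 / ((k : ℝ) + 1) := fun k =>
    poly_approx f hf R _ (by positivity)
  choose p hp using happ
  have hae : ∀ᵐ x ∂(mu ρ), ‖x‖ ≤ R := by
    have : Metric.closedBall (0 : E m n) R ∈ ae (mu ρ) := mem_ae_iff.2 hball0
    filter_upwards [this] with x hx using by simpa using hx
  have hcont : ∀ q : MvPolynomial (Fin m × Fin n) ℝ, Continuous (ev q) := fun q =>
    (ev_contDiff q 0).continuous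
  have hI : ∀ g : E m n → ℝ, Continuous g → Integrable g (mu ρ) := fun g hg =>
    intg (mu ρ) hball g hg
  have hfc : Continuous f := hf.continuous
  have hdc : Continuous (fun x => ‖fderiv ℝ f x‖) := (hf.continuous_fderiv (by norm_num)).norm
  have hlim : Filter.Tendsto (fun k : ℕ => 1 / ((k : ℝ) + 1)) Filter.atTop (nhds 0) :=
    tendsto_one_div_add_atTop_nhds_zero_nat
  have hk1 : ∀ k : ℕ, 1 / ((k : ℝ) + 1) ≤ 1 := fun k => by
    rw [div_le_one (by positivity)]; linarith [Nat.cast_nonneg (α := ℝ) k]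
  have hval : ∀ x : E m n, ‖x‖ ≤ R → Filter.Tendsto (fun k => ev (p k) x) Filter.atTop
      (nhds (f x)) := by
    intro x hx
    rw [tendsto_iff_norm_sub_tendsto_zero]
    refine squeeze_zero (fun k => norm_nonneg _) (fun k => ?_) hlim
    rw [Real.norm_eq_abs]
    exact (hp k x hx).1
  have hder : ∀ x : E m n, ‖x‖ ≤ R → Filter.Tendsto (fun k => fderiv ℝ (ev (p k)) x)
      Filter.atTop (nhds (fderiv ℝ f x)) := by
    intro x hx
    rw [tendsto_iff_norm_sub_tendsto_zero]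
    exact squeeze_zero (fun k => norm_nonneg _) (fun k => (hp k x hx).2) hlim
  have hvb : ∀ x : E m n, ‖x‖ ≤ R → ∀ k, |ev (p k) x| ≤ |f x| + 1 := by
    intro x hx k
    have h1 := (hp k x hx).1
    have h2 := hk1 k
    have h3 : |ev (p k) x| ≤ |ev (p k) x - f x| + |f x| := by
      simpa using abs_add_le (ev (p k) x - f x) (f x)
    linarith
  have hdb : ∀ x : E m n, ‖x‖ ≤ R → ∀ k, ‖fderiv ℝ (ev (p k)) x‖ ≤ ‖fderiv ℝ f x‖ + 1 := by
    intro x hx k
    have h1 := (hp k x hx).2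
    have h2 := hk1 k
    have h3 : ‖fderiv ℝ (ev (p k)) x‖ ≤ ‖fderiv ℝ (ev (p k)) x - fderiv ℝ f x‖ +
        ‖fderiv ℝ f x‖ := by
      simpa using norm_add_le (fderiv ℝ (ev (p k)) x - fderiv ℝ f x) (fderiv ℝ f x)
    linarith
  have t1 : Filter.Tendsto (fun k => ∫ x, ev (p k) x ∂(mu ρ)) Filter.atTop
      (nhds (∫ x, f x ∂(mu ρ))) := by
    refine tendsto_integral_of_dominated_convergence (fun x => |f x| + 1)
      (fun k => (hcont _).aestronglyMeasurable) (hI _ (by fun_prop)) (fun k => ?_) ?_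
    · filter_upwards [hae] with x hx
      rw [Real.norm_eq_abs]
      exact hvb x hx k
    · filter_upwards [hae] with x hx using hval x hx
  have t2 : Filter.Tendsto (fun k => ∫ x, ev (p k) x ^ 2 ∂(mu ρ)) Filter.atTop
      (nhds (∫ x, f x ^ 2 ∂(mu ρ))) := by
    refine tendsto_integral_of_dominated_convergence (fun x => (|f x| + 1) ^ 2)
      (fun k => ((hcont _).pow 2).aestronglyMeasurable) (hI _ (by fun_prop)) (fun k => ?_) ?_
    · filter_upwards [hae] with x hx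
      rw [Real.norm_eq_abs, abs_pow]
      exact pow_le_pow_left₀ (abs_nonneg _) (hvb x hx k) 2
    · filter_upwards [hae] with x hx using (hval x hx).pow 2
  have t3 : Filter.Tendsto (fun k => ∫ x, ‖fderiv ℝ (ev (p k)) x‖ ^ 2 ∂(mu ρ)) Filter.atTop
      (nhds (∫ x, ‖fderiv ℝ f x‖ ^ 2 ∂(mu ρ))) := by
    refine tendsto_integral_of_dominated_convergence (fun x => (‖fderiv ℝ f x‖ + 1) ^ 2)
      (fun k => ((((ev_contDiff (p k) 1).continuous_fderiv
        (by norm_num)).norm).pow 2).aestronglyMeasurable) (hI _ (by fun_prop)) (fun k => ?_) ?_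
    · filter_upwards [hae] with x hx
      rw [Real.norm_eq_abs, abs_pow, abs_norm]
      exact pow_le_pow_left₀ (norm_nonneg _) (hdb x hx k) 2
    · filter_upwards [hae] with x hx using ((hder x hx).norm).pow 2
  have hk : ∀ k, ∫ x, ev (p k) x ^ 2 ∂(mu ρ) - (∫ x, ev (p k) x ∂(mu ρ)) ^ 2 / M ≤
      K * ∫ x, ‖fderiv ℝ (ev (p k)) x‖ ^ 2 ∂(mu ρ) := by
    intro k
    obtain ⟨c, hc⟩ := hP (p k)
    rw [var_le (mu ρ) hμ hball (ev (p k)) (hcont _) c] at hc
    have : 0 ≤ M * (c - (∫ x, ev (p k) x ∂(mu ρ)) / M) ^ 2 := by positivity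
    linarith
  have hfin2 : ∫ x, f x ^ 2 ∂(mu ρ) - (∫ x, f x ∂(mu ρ)) ^ 2 / M ≤
      K * ∫ x, ‖fderiv ℝ f x‖ ^ 2 ∂(mu ρ) :=
    le_of_tendsto_of_tendsto' (t2.sub ((t1.pow 2).div_const M)) (t3.const_mul K) hk
  refine ⟨(∫ x, f x ∂(mu ρ)) / M, ?_⟩
  rw [var_le (mu ρ) hμ hball f hfc, ← hM]
  have hz : M * ((∫ x, f x ∂(mu ρ)) / M - (∫ x, f x ∂(mu ρ)) / M) ^ 2 = 0 := by ring
  linarith

end Pool.Agent.H212R2.KLS
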