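import Pool.Agent.H212R2.KLS.Defs
import Pool.Agent.H212R2.KLS.T1
import Pool.Agent.H212R2.KLS.L2
import Pool.Agent.H317R2.KLS.MvTailCore

/-!
# T2: tails of `|X v|` for an `O(m)`-invariant log-concave density
-/

set_option autoImplicit false

namespace Pool.Agent.H212R2.KLS

open MeasureTheory Set Matrix
open scoped ENNReal InnerProductSpace

namespace T2

theorem mv_apply {m n : ℕ} (X : E m n) (v : V n) (i : Fin m) :
    mv X v i = ∑ j, X (i, j) * v j := rfl

theorem mv_continuous {m n : ℕ} (v : V n) : Continuous fun X : E m n => mv X v := by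
  unfold mv
  refine (PiLp.continuous_toLp 2 _).comp ?_
  refine continuous_pi fun i => ?_
  show Continuous fun X : E m n => ∑ j, X (i, j) * v j
  fun_prop

theorem mv_comb {m n : ℕ} (v : V n) (a b : ℝ) (X Y : E m n) :
    mv (a • X + b • Y) v = a • mv X v + b • mv Y v := by
  ext i
  simp only [mv_apply, PiLp.add_apply, PiLp.smul_apply, smul_eq_mul, Finset.mul_sum,
    ← Finset.sum_add_distrib]
  refine Finset.sum_congr rfl fun j _ => ?_
  ring

theorem mv_lm {m n : ℕ} (g : Matrix (Fin m) (Fin m) ℝ) (X : E m n) (v : V n) :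
    mv (lm g X) v = WithLp.toLp 2 (g *ᵥ (mv X v).ofLp) := by
  show WithLp.toLp 2 (toM (ofM (g * toM X)) *ᵥ v.ofLp) = _
  rw [toM_ofM]
  show WithLp.toLp 2 ((g * toM X) *ᵥ v.ofLp) = WithLp.toLp 2 (g *ᵥ (toM X *ᵥ v.ofLp))
  rw [Matrix.mulVec_mulVec]

/-- Householder reflection -/
theorem exists_refl {m : ℕ} (y z : V m) (h : ‖y‖ = ‖z‖) :
    ∃ g ∈ Matrix.orthogonalGroup (Fin m) ℝ, g *ᵥ y.ofLp = z.ofLp := by
  by_cases hyz : y = z
  · exact ⟨1, one_mem _, by rw [Matrix.one_mulVec, hyz]⟩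
  set w : Fin m → ℝ := y.ofLp - z.ofLp with hw
  have hw0 : w ⬝ᵥ w ≠ 0 := by
    intro h0
    rw [dotProduct_self_eq_zero] at h0
    apply hyz
    ext i
    have := congrFun h0 i
    simp only [hw, Pi.sub_apply, Pi.zero_apply] at this
    linarith
  have hyy : y.ofLp ⬝ᵥ y.ofLp = z.ofLp ⬝ᵥ z.ofLp := by
    have h1 : ‖y‖ ^ 2 = ‖z‖ ^ 2 := by rw [h]
    rw [EuclideanSpace.real_norm_sq_eq, EuclideanSpace.real_norm_sq_eq] at h1
    simp only [dotProduct, ← pow_two]
    exact h1
  set g : Matrix (Fin m) (Fin m) ℝ := 1 - (2 / (w ⬝ᵥ w)) • Matrix.vecMulVec w w with hg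
  have hgt : gᵀ = g := by
    rw [hg, Matrix.transpose_sub, Matrix.transpose_smul, Matrix.transpose_one,
      Matrix.transpose_vecMulVec]
  have hvv : Matrix.vecMulVec w w * Matrix.vecMulVec w w = (w ⬝ᵥ w) • Matrix.vecMulVec w w := by
    rw [Matrix.vecMulVec_mul_vecMulVec]
    ext i j
    simp [Matrix.vecMulVec_apply]
    ring
  refine ⟨g, ?_, ?_⟩
  · rw [Matrix.mem_orthogonalGroup_iff]
    show g * star g = 1
    have : star g = g := by
      rw [Matrix.star_eq_conjTranspose, Matrix.conjTranspose_eq_transpose_of_trivial, hgt]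
    rw [this, hg, Matrix.sub_mul, Matrix.mul_sub, Matrix.mul_sub]
    simp only [Matrix.one_mul, Matrix.mul_one, Matrix.smul_mul, Matrix.mul_smul, hvv]
    ext i j
    simp only [Matrix.sub_apply, Matrix.smul_apply, smul_eq_mul]
    field_simp
    ring
  · rw [hg, Matrix.sub_mulVec, Matrix.one_mulVec, Matrix.smul_mulVec, Matrix.vecMulVec_mulVec]
    have h1 : w ⬝ᵥ y.ofLp = (w ⬝ᵥ w) / 2 := by
      simp only [hw, sub_dotProduct, dotProduct_sub]
      rw [hyy, dotProduct_comm z.ofLp y.ofLp]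
      ring
    rw [h1]
    ext i
    simp only [Pi.sub_apply, Pi.smul_apply, smul_eq_mul, MulOpposite.smul_eq_mul_unop,
      MulOpposite.unop_op]
    have : w i = y i - z i := rfl
    rw [this]
    field_simp
    ring

theorem norm_mulVec {m : ℕ} (g : Matrix (Fin m) (Fin m) ℝ)
    (hg : g ∈ Matrix.orthogonalGroup (Fin m) ℝ) (a b : V m) :
    ‖(WithLp.toLp 2 (g *ᵥ a.ofLp) : V m) - WithLp.toLp 2 (g *ᵥ b.ofLp)‖ = ‖a - b‖ := by
  have h0 : (WithLp.toLp 2 (g *ᵥ a.ofLp) : V m) - WithLp.toLp 2 (g *ᵥ b.ofLp) =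
      WithLp.toLp 2 (g *ᵥ (a - b).ofLp) := by
    rw [← WithLp.toLp_sub, ← Matrix.mulVec_sub]
    rfl
  rw [h0]
  set c : V m := a - b
  have h1 : ‖(WithLp.toLp 2 (g *ᵥ c.ofLp) : V m)‖ ^ 2 = ‖c‖ ^ 2 := by
    rw [EuclideanSpace.real_norm_sq_eq, EuclideanSpace.real_norm_sq_eq]
    have h2 : (g *ᵥ c.ofLp) ⬝ᵥ (g *ᵥ c.ofLp) = c.ofLp ⬝ᵥ c.ofLp := by
      rw [Matrix.dotProduct_mulVec, Matrix.vecMul_mulVec]
      have h3 : gᵀ * g = 1 := by
        exact (Matrix.mem_orthogonalGroup_iff' (Fin m) ℝ).1 hg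
      rw [h3, Matrix.vecMul_one]
    simp only [dotProduct, ← pow_two] at h2
    exact h2
  exact (sq_eq_sq₀ (norm_nonneg _) (norm_nonneg _)).1 h1

theorem mv_ball {m n : ℕ} (ρ : E m n → ℝ) (hρ : Dens m n ρ) (v : V n) (d : ℝ) (y z : V m)
    (t : ℝ) (ht0 : 0 < t) (ht1 : t < 1) :
    mu ρ {X | mv X v ∈ Metric.closedBall y d} ^ (1 - t) *
      mu ρ {X | mv X v ∈ Metric.closedBall z d} ^ t ≤
    mu ρ {X | mv X v ∈ Metric.closedBall ((1 - t) • y + t • z) d} := by
  have hms : ∀ y : V m, MeasurableSet {X : E m n | mv X v ∈ Metric.closedBall y d} := fun y =>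
    (Metric.isClosed_closedBall.preimage (mv_continuous v)).measurableSet
  have hρm : Measurable fun x => ENNReal.ofReal (ρ x) := ENNReal.measurable_ofReal.comp hρ.meas
  have he : ∀ y : V m, mu ρ {X | mv X v ∈ Metric.closedBall y d} =
      ∫⁻ X, {X : E m n | mv X v ∈ Metric.closedBall y d}.indicator
        (fun x => ENNReal.ofReal (ρ x)) X := by
    intro y
    rw [mu, withDensity_apply _ (hms y), lintegral_indicator (hms y)]
  rw [he y, he z, he]
  apply PL volume t ht0 ht1 _ _ _ (hρm.indicator (hms y)) (hρm.indicator (hms z))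
    (hρm.indicator (hms _))
  intro a b
  by_cases ha : a ∈ {X : E m n | mv X v ∈ Metric.closedBall y d}
  · by_cases hb : b ∈ {X : E m n | mv X v ∈ Metric.closedBall z d}
    · have hab : (1 - t) • a + t • b ∈
          {X : E m n | mv X v ∈ Metric.closedBall ((1 - t) • y + t • z) d} := by
        show mv ((1 - t) • a + t • b) v ∈ Metric.closedBall ((1 - t) • y + t • z) d
        have ha' : mv a v ∈ Metric.closedBall y d := ha
        have hb' : mv b v ∈ Metric.closedBall z d := hb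
        rw [mv_comb, mem_closedBall_iff_norm] 
        rw [mem_closedBall_iff_norm] at ha' hb'
        have e : (1 - t) • mv a v + t • mv b v - ((1 - t) • y + t • z) =
            (1 - t) • (mv a v - y) + t • (mv b v - z) := by
          rw [smul_sub, smul_sub]; abel
        rw [e]
        calc ‖(1 - t) • (mv a v - y) + t • (mv b v - z)‖
            ≤ ‖(1 - t) • (mv a v - y)‖ + ‖t • (mv b v - z)‖ := norm_add_le _ _
          _ = (1 - t) * ‖mv a v - y‖ + t * ‖mv b v - z‖ := by
              rw [norm_smul, norm_smul, Real.norm_eq_abs, Real.norm_eq_abs,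
                abs_of_pos ht0, abs_of_pos (by linarith)]
          _ ≤ (1 - t) * d + t * d := by
              apply add_le_add
              · exact mul_le_mul_of_nonneg_left ha' (by linarith)
              · exact mul_le_mul_of_nonneg_left hb' ht0.le
          _ = d := by ring
      rw [indicator_of_mem ha, indicator_of_mem hb, indicator_of_mem hab,
        ENNReal.ofReal_rpow_of_nonneg (hρ.nonneg a) (by linarith),
        ENNReal.ofReal_rpow_of_nonneg (hρ.nonneg b) ht0.le,
        ← ENNReal.ofReal_mul (Real.rpow_nonneg (hρ.nonneg a) _)]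
      exact ENNReal.ofReal_le_ofReal (hρ.logc a b t ht0 ht1)
    · rw [indicator_of_notMem hb, ENNReal.zero_rpow_of_pos ht0, mul_zero]
      exact zero_le
  · rw [indicator_of_notMem ha, ENNReal.zero_rpow_of_pos (by linarith), zero_mul]
    exact zero_le

/-- the element of `E m n` with row `i` equal to `v` -/
noncomputable def th {m n : ℕ} (v : V n) (i : Fin m) : E m n :=
  WithLp.toLp 2 fun p => if p.1 = i then v p.2 else 0

theorem th_inner {m n : ℕ} (v : V n) (i : Fin m) (X : E m n) : ⟪th v i, X⟫_ℝ = mv X v i := by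
  rw [mv_apply, PiLp.inner_apply, Fintype.sum_prod_type]
  rw [Finset.sum_eq_single i]
  · refine Finset.sum_congr rfl fun j _ => ?_
    simp [th]
  · intro k _ hk
    apply Finset.sum_eq_zero
    intro j _
    simp [th, hk]
  · simp

theorem th_norm {m n : ℕ} (v : V n) (i : Fin m) : ‖(th v i : E m n)‖ ^ 2 = ‖v‖ ^ 2 := by
  rw [EuclideanSpace.real_norm_sq_eq, EuclideanSpace.real_norm_sq_eq, Fintype.sum_prod_type]
  rw [Finset.sum_eq_single i]
  · refine Finset.sum_congr rfl fun j _ => ?_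
    simp [th]
  · intro k _ hk
    apply Finset.sum_eq_zero
    intro j _
    simp [th, hk]
  · simp

theorem ae_bdd {F : Type*} [NormedAddCommGroup F] [MeasureSpace F] [OpensMeasurableSpace F]
    (ρ : F → ℝ) (R : ℝ) (hR : ∀ x, R < ‖x‖ → ρ x = 0) : ∀ᵐ x ∂(mu ρ), ‖x‖ ≤ R := by
  rw [ae_iff]
  apply le_antisymm _ zero_le
  have hms : MeasurableSet {x : F | ¬ ‖x‖ ≤ R} := by
    have : {x : F | ¬ ‖x‖ ≤ R} = {x | R < ‖x‖} := by ext x; simp
    rw [this]
    exact (isOpen_lt continuous_const continuous_norm).measurableSet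
  rw [mu, withDensity_apply _ hms]
  calc ∫⁻ x in {x : F | ¬ ‖x‖ ≤ R}, ENNReal.ofReal (ρ x) ≤
      ∫⁻ _x in {x : F | ¬ ‖x‖ ≤ R}, 0 := by
        apply setLIntegral_mono' hms
        intro x hx
        have hx' : ¬ ‖x‖ ≤ R := hx
        rw [hR x (not_le.1 hx'), ENNReal.ofReal_zero]
    _ = 0 := by simp

theorem second_moment {m n : ℕ} (ρ : E m n → ℝ) (hb : Bdd ρ)
    (h1 : mu ρ univ = 1) (s : ℝ) (hs : 0 < s)
    (hmom : ∀ θ : E m n, ∫ x, ⟪θ, x⟫_ℝ ^ 2 ∂(mu ρ) ≤ s * ‖θ‖ ^ 2) (v : V n) (hv : ‖v‖ ≤ 1) :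
    ∫⁻ X, ENNReal.ofReal (‖mv X v‖ ^ 2) ∂(mu ρ) ≤ ENNReal.ofReal (m * s) := by
  have : IsProbabilityMeasure (mu ρ) := ⟨h1⟩
  obtain ⟨R, hR⟩ := hb
  have hint : ∀ i : Fin m, Integrable (fun X : E m n => ⟪th v i, X⟫_ℝ ^ 2) (mu ρ) := by
    intro i
    refine Integrable.of_bound ?_ ((‖(th v i : E m n)‖ * R) ^ 2) ?_
    · exact ((continuous_const.inner continuous_id).pow 2).aestronglyMeasurable
    · filter_upwards [ae_bdd ρ R hR] with x hx
      rw [Real.norm_eq_abs, abs_of_nonneg (sq_nonneg _)]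
      have h2 := abs_real_inner_le_norm (th v i) x
      have h3 : |⟪th v i, x⟫_ℝ| ≤ ‖(th v i : E m n)‖ * R :=
        le_trans h2 (mul_le_mul_of_nonneg_left hx (norm_nonneg _))
      rw [← sq_abs]
      exact pow_le_pow_left₀ (abs_nonneg _) h3 2
  have e : ∀ X : E m n, ‖mv X v‖ ^ 2 = ∑ i, ⟪th v i, X⟫_ℝ ^ 2 := by
    intro X
    rw [EuclideanSpace.real_norm_sq_eq]
    simp only [th_inner]
  simp only [e]
  rw [← ofReal_integral_eq_lintegral_ofReal (integrable_finsetSum _ fun i _ => hint i)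
    (Filter.Eventually.of_forall fun X => Finset.sum_nonneg fun i _ => sq_nonneg _)]
  apply ENNReal.ofReal_le_ofReal
  rw [integral_finsetSum _ fun i _ => hint i]
  calc ∑ i : Fin m, ∫ X, ⟪th v i, X⟫_ℝ ^ 2 ∂(mu ρ) ≤ ∑ _i : Fin m, s := by
        apply Finset.sum_le_sum
        intro i _
        refine le_trans (hmom (th v i)) ?_
        rw [th_norm]
        have : ‖v‖ ^ 2 ≤ 1 := by
          have := norm_nonneg v
          nlinarith
        nlinarith
    _ = m * s := by simp

end T2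

theorem mv_tail {m n : ℕ} (hm : 1 ≤ m) (ρ : E m n → ℝ) (hρ : Dens m n ρ) (hb : Bdd ρ)
    (h1 : mu ρ univ = 1) (s : ℝ) (hs : 0 < s)
    (hmom : ∀ θ : E m n, ∫ x, ⟪θ, x⟫_ℝ ^ 2 ∂(mu ρ) ≤ s * ‖θ‖ ^ 2) (v : V n) (hv : ‖v‖ ≤ 1)
    (r : ℝ) :
    mu ρ {X | r ≤ ‖mv X v‖} ≤
      ENNReal.ofReal (Real.exp (m * (5 / 2 - r / (20 * Real.sqrt (m * s))))) := by
  have hP : IsProbabilityMeasure (mu ρ) := ⟨h1⟩
  have hm0 : (0 : ℝ) < m := by exact_mod_cast hm
  have hσ : 0 < Real.sqrt (m * s) := Real.sqrt_pos.2 (by positivity)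
  have hmeas : Measurable fun X : E m n => mv X v := (T2.mv_continuous v).measurable
  have hL : IsProbabilityMeasure ((mu ρ).map fun X => mv X v) :=
    Measure.isProbabilityMeasure_map hmeas.aemeasurable
  have hball : ∀ y : V m, ∀ d : ℝ, ((mu ρ).map fun X => mv X v) (Metric.closedBall y d) =
      mu ρ {X | mv X v ∈ Metric.closedBall y d} := fun y d =>
    Measure.map_apply hmeas Metric.isClosed_closedBall.measurableSet
  have key := Pool.Agent.H317R2.KLS.core_tail hm ((mu ρ).map fun X => mv X v)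
    (Real.sqrt (m * s)) hσ ?_ ?_ ?_ r
  · have hset : MeasurableSet {y : V m | r ≤ ‖y‖} :=
      (isClosed_le continuous_const continuous_norm).measurableSet
    rw [Measure.map_apply hmeas hset] at key
    exact key
  · intro y z t ht0 ht1
    rw [hball, hball, hball, ENNReal.toReal_rpow, ENNReal.toReal_rpow, ← ENNReal.toReal_mul]
    exact ENNReal.toReal_mono (measure_ne_top _ _) (T2.mv_ball ρ hρ v _ y z t ht0 ht1)
  · intro y z hyz
    obtain ⟨g, hg, hgy⟩ := T2.exists_refl y z hyz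
    rw [hball, hball]
    have hinv := (Dens.basic hρ hm).2.1 g hg
    have hgm : Measurable (lm g : E m n → E m n) := by
      apply Continuous.measurable
      unfold lm ofM
      refine (PiLp.continuous_toLp 2 _).comp ?_
      refine continuous_pi fun p => ?_
      show Continuous fun X : E m n => ∑ k, g p.1 k * X (k, p.2)
      fun_prop
    have hset : MeasurableSet {X : E m n | mv X v ∈ Metric.closedBall z (√(m * s) / 100)} :=
      (Metric.isClosed_closedBall.preimage (T2.mv_continuous v)).measurableSet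
    conv_rhs => rw [← hinv, Measure.map_apply hgm hset]
    congr 1
    ext X
    show mv X v ∈ Metric.closedBall y _ ↔ mv (lm g X) v ∈ Metric.closedBall z _
    rw [mem_closedBall_iff_norm, mem_closedBall_iff_norm, T2.mv_lm]
    have hz : z = WithLp.toLp 2 (g *ᵥ y.ofLp) := by rw [hgy]
    rw [hz, T2.norm_mulVec g hg]
  · have hset : MeasurableSet {y : V m | 2 * Real.sqrt (m * s) < ‖y‖} :=
      (isOpen_lt continuous_const continuous_norm).measurableSet
    rw [Measure.map_apply hmeas hset]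
    have h2 := T2.second_moment ρ hb h1 s hs hmom v hv
    have h3 := mul_meas_ge_le_lintegral₀ (μ := mu ρ)
      (f := fun X : E m n => ENNReal.ofReal (‖mv X v‖ ^ 2)) (by
        apply Measurable.aemeasurable
        exact ENNReal.measurable_ofReal.comp ((T2.mv_continuous v).norm.pow 2).measurable)
      (ENNReal.ofReal (4 * (m * s)))
    have h4 : (fun X : E m n => mv X v) ⁻¹' {y : V m | 2 * Real.sqrt (m * s) < ‖y‖} ⊆
        {X : E m n | ENNReal.ofReal (4 * (m * s)) ≤ ENNReal.ofReal (‖mv X v‖ ^ 2)} := by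
      intro X hX
      have hX' : 2 * Real.sqrt (m * s) < ‖mv X v‖ := hX
      show ENNReal.ofReal (4 * (m * s)) ≤ ENNReal.ofReal (‖mv X v‖ ^ 2)
      apply ENNReal.ofReal_le_ofReal
      have h5 : (2 * Real.sqrt (m * s)) ^ 2 = 4 * (m * s) := by
        rw [mul_pow, Real.sq_sqrt (by positivity)]; norm_num
      rw [← h5]
      exact pow_le_pow_left₀ (by positivity) hX'.le 2
    have h5 := le_trans (mul_le_mul_right (measure_mono (μ := mu ρ) h4)
      (ENNReal.ofReal (4 * (m * s)))) (le_trans h3 h2)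
    have h6 : ENNReal.ofReal (m * s) = ENNReal.ofReal (4 * (m * s)) * ENNReal.ofReal (1 / 4) := by
      rw [← ENNReal.ofReal_mul (by positivity)]
      congr 1; ring
    rw [h6] at h5
    refine (ENNReal.mul_le_mul_iff_right ?_ ENNReal.ofReal_ne_top).1 h5
    rw [Ne, ENNReal.ofReal_eq_zero, not_le]
    positivity

end Pool.Agent.H212R2.KLS
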