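import Pool.Agent.H212R2.KLS.Defs

/-!
# T3: tails of the operator norm from tails of single vectors
-/

set_option autoImplicit false

namespace Pool.Agent.H212R2.KLS

open MeasureTheory Set Matrix
open scoped ENNReal RealInnerProductSpace

namespace T3aux

theorem mv_add {m n : ℕ} (X : E m n) (v w : V n) : mv X (v + w) = mv X v + mv X w := by
  unfold mv
  rw [WithLp.ofLp_add, Matrix.mulVec_add, WithLp.toLp_add]

theorem mv_smul {m n : ℕ} (X : E m n) (c : ℝ) (v : V n) : mv X (c • v) = c • mv X v := by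
  unfold mv
  rw [WithLp.ofLp_smul, Matrix.mulVec_smul, WithLp.toLp_smul]

theorem mv_zero {m n : ℕ} (X : E m n) : mv X 0 = 0 := by
  unfold mv
  rw [WithLp.ofLp_zero, Matrix.mulVec_zero, WithLp.toLp_zero]

theorem mv_apply {m n : ℕ} (X : E m n) (v : V n) (i : Fin m) :
    (mv X v) i = ∑ j, X (i, j) * v j := rfl

theorem continuous_mv {m n : ℕ} : Continuous fun p : E m n × V n => mv p.1 p.2 := by
  have h : Continuous fun p : E m n × V n => (fun i => ∑ j, p.1 (i, j) * p.2 j : Fin m → ℝ) := by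
    fun_prop
  exact (PiLp.continuous_toLp 2 _).comp h

end T3aux

open T3aux in
theorem op_tail {m n : ℕ} (hm : 1 ≤ m) (hn : 1 ≤ n) (hnm : n ≤ m) (ρ : E m n → ℝ)
    (hρ : Dens m n ρ)
    (h1 : mu ρ univ = 1) (s : ℝ) (hs : 0 < s)
    (hv : ∀ v : V n, ‖v‖ ≤ 1 → ∀ r : ℝ, mu ρ {X | r ≤ ‖mv X v‖} ≤
      ENNReal.ofReal (Real.exp (m * (5 / 2 - r / (20 * Real.sqrt (m * s)))))) (t : ℝ) :
    mu ρ {X | ¬ OpLe (20 * t * Real.sqrt (m * s)) X} ≤
      ENNReal.ofReal (Real.exp (m * (4 - t / 2))) := by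
  have hm0 : (0 : ℝ) < m := by exact_mod_cast hm
  have hq : 0 < Real.sqrt (m * s) := Real.sqrt_pos.2 (mul_pos hm0 hs)
  rcases le_or_gt t 0 with ht | ht
  · calc mu ρ {X | ¬ OpLe (20 * t * Real.sqrt (m * s)) X} ≤ mu ρ univ := measure_mono (subset_univ _)
      _ = 1 := h1
      _ = ENNReal.ofReal 1 := by simp
      _ ≤ _ := by
        apply ENNReal.ofReal_le_ofReal
        apply Real.one_le_exp
        apply mul_nonneg hm0.le
        linarith
  have : IsProbabilityMeasure (mu ρ) := ⟨h1⟩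
  set rr := 20 * t * Real.sqrt (m * s) with hrr
  have hrr0 : 0 < rr := by positivity
  set S : Set (E m n × V n) := {p | ‖p.2‖ ≤ 1 ∧ rr / 2 ≤ ‖mv p.1 p.2‖} with hS
  have hSc : IsClosed S := by
    apply IsClosed.inter
    · exact isClosed_le (continuous_norm.comp continuous_snd) continuous_const
    · exact isClosed_le continuous_const (continuous_norm.comp continuous_mv)
  have hSm : MeasurableSet S := hSc.measurableSet
  set B : Set (V n) := Metric.closedBall 0 1 with hB
  have hBm : MeasurableSet B := Metric.isClosed_closedBall.measurableSet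
  have hB0 : volume B ≠ 0 := (Metric.measure_closedBall_pos volume _ one_pos).ne'
  have hBt : volume B ≠ ⊤ := measure_closedBall_lt_top.ne
  set c : ℝ≥0∞ := ENNReal.ofReal ((1 / 4 : ℝ) ^ n) * volume B with hc
  -- every bad matrix has a large slice
  have hslice : ∀ X : E m n, ¬ OpLe rr X → c ≤ volume (Prod.mk X ⁻¹' S) := by
    intro X hX
    unfold OpLe at hX
    push Not at hX
    obtain ⟨v0, hv0⟩ := hX
    have hcX : Continuous fun v : V n => ‖mv X v‖ :=
      continuous_norm.comp (continuous_mv.comp (Continuous.prodMk_right X))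
    obtain ⟨vs, hvsB, hmax⟩ := (isCompact_closedBall (0 : V n) 1).exists_isMaxOn
      ⟨0, by simp⟩ hcX.continuousOn
    have hvs1 : ‖vs‖ ≤ 1 := by simpa using hvsB
    have hmax' : ∀ v : V n, ‖v‖ ≤ 1 → ‖mv X v‖ ≤ ‖mv X vs‖ := fun v hv' =>
      hmax (by simpa using hv')
    have hall : ∀ v : V n, ‖mv X v‖ ≤ ‖mv X vs‖ * ‖v‖ := by
      intro v
      rcases eq_or_ne v 0 with rfl | hv'
      · rw [mv_zero]; simp
      · have hnv : 0 < ‖v‖ := norm_pos_iff.2 hv'
        have h2 := hmax' (‖v‖⁻¹ • v) (by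
          rw [norm_smul, norm_inv, norm_norm, inv_mul_cancel₀ hnv.ne'])
        rw [mv_smul, norm_smul, norm_inv, norm_norm] at h2
        rw [inv_mul_le_iff₀ hnv] at h2
        linarith [mul_comm ‖v‖ ‖mv X vs‖]
    have hbig : rr ≤ ‖mv X vs‖ := by
      have h3 := hall v0
      have h4 : rr * ‖v0‖ < ‖mv X vs‖ * ‖v0‖ := lt_of_lt_of_le hv0 h3
      by_contra hcon
      push Not at hcon
      have := mul_le_mul_of_nonneg_right hcon.le (norm_nonneg v0)
      linarith
    have hsub : Metric.closedBall ((3 / 4 : ℝ) • vs) (1 / 4) ⊆ Prod.mk X ⁻¹' S := by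
      intro v hv'
      rw [Metric.mem_closedBall, dist_eq_norm] at hv'
      have hw : v = (3 / 4 : ℝ) • vs + (v - (3 / 4 : ℝ) • vs) := by abel
      constructor
      · change ‖v‖ ≤ 1
        calc ‖v‖ = ‖(3 / 4 : ℝ) • vs + (v - (3 / 4 : ℝ) • vs)‖ := by rw [← hw]
          _ ≤ ‖(3 / 4 : ℝ) • vs‖ + ‖v - (3 / 4 : ℝ) • vs‖ := norm_add_le _ _
          _ ≤ 3 / 4 * 1 + 1 / 4 := by
            rw [norm_smul, Real.norm_of_nonneg (by norm_num)]
            gcongr
          _ = 1 := by norm_num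
      · change rr / 2 ≤ ‖mv X v‖
        have h5 : mv X v = (3 / 4 : ℝ) • mv X vs + mv X (v - (3 / 4 : ℝ) • vs) := by
          rw [← mv_smul, ← mv_add, ← hw]
        have h6 : ‖mv X (v - (3 / 4 : ℝ) • vs)‖ ≤ ‖mv X vs‖ * (1 / 4) :=
          (hall _).trans (by gcongr)
        have h7 : ‖(3 / 4 : ℝ) • mv X vs‖ = 3 / 4 * ‖mv X vs‖ := by
          rw [norm_smul, Real.norm_of_nonneg (by norm_num)]
        have h8 : ‖(3 / 4 : ℝ) • mv X vs‖ - ‖mv X (v - (3 / 4 : ℝ) • vs)‖ ≤ ‖mv X v‖ := by
          rw [h5]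
          have := norm_sub_norm_le ((3 / 4 : ℝ) • mv X vs) (-(mv X (v - (3 / 4 : ℝ) • vs)))
          rw [norm_neg, sub_neg_eq_add] at this
          exact this
        linarith
    calc c = volume (Metric.closedBall ((3 / 4 : ℝ) • vs) (1 / 4)) := by
          rw [hc, hB, Measure.addHaar_closedBall' _ _ (by norm_num : (0 : ℝ) ≤ 1 / 4)]
          simp
      _ ≤ _ := measure_mono hsub
  -- Markov
  have hmk : c * mu ρ {X | ¬ OpLe rr X} ≤ ∫⁻ X, volume (Prod.mk X ⁻¹' S) ∂(mu ρ) := by
    calc c * mu ρ {X | ¬ OpLe rr X} ≤ c * mu ρ {X | c ≤ volume (Prod.mk X ⁻¹' S)} := by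
          exact mul_le_mul_right (measure_mono fun X hX => hslice X hX) c
      _ ≤ _ := mul_meas_ge_le_lintegral (measurable_measure_prodMk_left hSm) c
  -- Tonelli
  set K : ℝ≥0∞ := ENNReal.ofReal (Real.exp (m * (5 / 2 - t / 2))) with hK
  have hton : ∫⁻ X, volume (Prod.mk X ⁻¹' S) ∂(mu ρ) ≤ K * volume B := by
    rw [← Measure.prod_apply hSm, Measure.prod_apply_symm hSm]
    calc ∫⁻ v, mu ρ ((fun X => (X, v)) ⁻¹' S) ≤ ∫⁻ v, B.indicator (fun _ => K) v := by
          apply lintegral_mono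
          intro v
          by_cases hvB : v ∈ B
          · rw [indicator_of_mem hvB]
            have hv1 : ‖v‖ ≤ 1 := by simpa [hB] using hvB
            calc mu ρ ((fun X => (X, v)) ⁻¹' S) ≤ mu ρ {X | rr / 2 ≤ ‖mv X v‖} := by
                  apply measure_mono
                  intro X hX
                  exact hX.2
              _ ≤ _ := hv v hv1 (rr / 2)
              _ = K := by
                rw [hK]
                congr 3
                rw [hrr]
                field_simp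
          · rw [indicator_of_notMem hvB]
            have : (fun X : E m n => (X, v)) ⁻¹' S = ∅ := by
              ext X
              simp only [mem_preimage, mem_empty_iff_false, iff_false]
              intro hX
              apply hvB
              simpa [hB] using hX.1
            change mu ρ ((fun X : E m n => (X, v)) ⁻¹' S) ≤ 0
            rw [this]; simp
      _ = K * volume B := by
        rw [lintegral_indicator hBm, lintegral_const, Measure.restrict_apply MeasurableSet.univ,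
          univ_inter]
  -- divide
  have hfin : ENNReal.ofReal ((1 / 4 : ℝ) ^ n) * mu ρ {X | ¬ OpLe rr X} ≤ K := by
    have h9 : (ENNReal.ofReal ((1 / 4 : ℝ) ^ n) * mu ρ {X | ¬ OpLe rr X}) * volume B
        ≤ K * volume B := by
      calc (ENNReal.ofReal ((1 / 4 : ℝ) ^ n) * mu ρ {X | ¬ OpLe rr X}) * volume B
          = c * mu ρ {X | ¬ OpLe rr X} := by rw [hc]; ring
        _ ≤ _ := hmk.trans hton
    exact (ENNReal.mul_le_mul_iff_left hB0 hBt).1 h9
  have h10 : mu ρ {X | ¬ OpLe rr X} ≤ ENNReal.ofReal ((4 : ℝ) ^ n) * K := by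
    calc mu ρ {X | ¬ OpLe rr X}
        = ENNReal.ofReal ((4 : ℝ) ^ n) *
          (ENNReal.ofReal ((1 / 4 : ℝ) ^ n) * mu ρ {X | ¬ OpLe rr X}) := by
          rw [← mul_assoc, ← ENNReal.ofReal_mul (by positivity), ← mul_pow]
          norm_num
      _ ≤ _ := by gcongr
  refine h10.trans ?_
  rw [hK, ← ENNReal.ofReal_mul (by positivity)]
  apply ENNReal.ofReal_le_ofReal
  have h11 : (4 : ℝ) ^ n ≤ Real.exp (m * (3 / 2)) := by
    calc (4 : ℝ) ^ n ≤ 4 ^ m := pow_le_pow_right₀ (by norm_num) hnm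
      _ ≤ (Real.exp (3 / 2)) ^ m := by
        gcongr
        have hl : Real.log 4 ≤ 3 / 2 := by
          have : (4 : ℝ) = 2 ^ 2 := by norm_num
          rw [this, Real.log_pow]
          have := Real.log_two_lt_d9
          push_cast
          linarith
        calc (4 : ℝ) = Real.exp (Real.log 4) := (Real.exp_log (by norm_num)).symm
          _ ≤ _ := Real.exp_le_exp.2 hl
      _ = Real.exp (m * (3 / 2)) := by rw [← Real.exp_nat_mul]
  calc (4 : ℝ) ^ n * Real.exp (m * (5 / 2 - t / 2))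
      ≤ Real.exp (m * (3 / 2)) * Real.exp (m * (5 / 2 - t / 2)) := by gcongr
    _ = Real.exp (m * (4 - t / 2)) := by
      rw [← Real.exp_add]
      congr 1
      ring

end Pool.Agent.H212R2.KLS
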