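import Pool.Agent.H212R2.KLS.Defs

/-!
# G2: removing the boundedness of the support
-/

set_option autoImplicit false

namespace Pool.Agent.H212R2.KLS

open MeasureTheory Set Matrix Filter
open scoped ENNReal InnerProductSpace Topology

theorem g2_dens_smul {m n : ℕ} {ρ : E m n → ℝ} (h : Dens m n ρ) (c : ℝ) (hc : 0 ≤ c) :
    Dens m n (fun x => c * ρ x) where
  nonneg x := mul_nonneg hc (h.nonneg x)
  meas := h.meas.const_mul c
  logc x y t ht0 ht1 := by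
    have h1 := h.logc x y t ht0 ht1
    rw [Real.mul_rpow hc (h.nonneg x), Real.mul_rpow hc (h.nonneg y)]
    have h2 : c ^ (1 - t) * c ^ t ≤ c := by
      rcases hc.eq_or_lt with h3 | h3
      · rw [← h3, Real.zero_rpow ht0.ne']
        simp
      · rw [← Real.rpow_add h3]
        simp
    calc c ^ (1 - t) * ρ x ^ (1 - t) * (c ^ t * ρ y ^ t)
        = (c ^ (1 - t) * c ^ t) * (ρ x ^ (1 - t) * ρ y ^ t) := by ring
      _ ≤ c * ρ ((1 - t) • x + t • y) := by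
        apply mul_le_mul h2 h1 _ hc
        exact mul_nonneg (Real.rpow_nonneg (h.nonneg x) _) (Real.rpow_nonneg (h.nonneg y) _)
  inv g hg x := by rw [h.inv g hg x]

theorem g2_mu {F : Type*} [MeasureSpace F] (ρ : F → ℝ) (hρ0 : ∀ x, 0 ≤ ρ x)
    (hρ : Measurable ρ) (B : Set F) (hB : MeasurableSet B) (c : ℝ) (hc : 0 ≤ c) :
    mu (fun x => c * B.indicator ρ x) = ENNReal.ofReal c • (mu ρ).restrict B := by
  unfold mu
  rw [restrict_withDensity hB, ← withDensity_smul _ hρ.ennreal_ofReal, ← withDensity_indicator hB]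
  congr 1
  ext x
  by_cases hx : x ∈ B
  · rw [indicator_of_mem hx]
    show ENNReal.ofReal (c * B.indicator ρ x) = ENNReal.ofReal c * ENNReal.ofReal (ρ x)
    rw [indicator_of_mem hx, ENNReal.ofReal_mul hc]
  · rw [indicator_of_notMem hx]
    show ENNReal.ofReal (c * B.indicator ρ x) = 0
    rw [indicator_of_notMem hx, mul_zero, ENNReal.ofReal_zero]

theorem g2_lim {F : Type*} [NormedAddCommGroup F] [MeasurableSpace F] [BorelSpace F]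
    (μ : Measure F) (g : F → ℝ) (hg : Integrable g μ) :
    Tendsto (fun k : ℕ => ∫ x in {x : F | ‖x‖ ≤ k}, g x ∂μ) atTop (𝓝 (∫ x, g x ∂μ)) := by
  have hU : (⋃ k : ℕ, {x : F | ‖x‖ ≤ k}) = univ := by
    ext x
    simp only [mem_iUnion, mem_setOf_eq, mem_univ, iff_true]
    exact exists_nat_ge ‖x‖
  have h1 := tendsto_setIntegral_of_monotone (μ := μ) (f := g)
    (s := fun k : ℕ => {x : F | ‖x‖ ≤ k})
    (fun k => measurableSet_le measurable_norm measurable_const)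
    (fun a b hab x hx => by
      show ‖x‖ ≤ (b : ℝ)
      have h2 : (a : ℝ) ≤ b := by exact_mod_cast hab
      exact le_trans hx h2) (by rw [hU]; exact hg.integrableOn)
  rw [hU, Measure.restrict_univ] at h1
  exact h1

theorem g2_mass {F : Type*} [NormedAddCommGroup F] [MeasurableSpace F] [BorelSpace F]
    (μ : Measure F) [IsProbabilityMeasure μ] :
    Tendsto (fun k : ℕ => μ.real {x : F | ‖x‖ ≤ k}) atTop (𝓝 1) := by
  have h1 := g2_lim μ (fun _ => (1 : ℝ)) (integrable_const _)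
  simpa using h1

/-- the theorem for all densities from the theorem for densities of bounded support -/
theorem main_of
    (hcore : ∃ C : ℝ, 0 < C ∧ ∀ {m n : ℕ}, 3 ≤ m → 1 ≤ n → n ≤ m → ∀ ρ : E m n → ℝ,
      Dens m n ρ → Bdd ρ → mu ρ univ = 1 → ∀ s : ℝ, 0 < s →
      (∀ θ : E m n, ∫ x, ⟪θ, x⟫_ℝ ^ 2 ∂(mu ρ) ≤ s * ‖θ‖ ^ 2) →
      ∀ f : E m n → ℝ, ContDiff ℝ 1 f →
      ∫ x, f x ^ 2 ∂(mu ρ) - (∫ x, f x ∂(mu ρ)) ^ 2 ≤
        C * s * ∫ x, ‖fderiv ℝ f x‖ ^ 2 ∂(mu ρ))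
    (hball : ∀ {m n : ℕ} {ρ : E m n → ℝ}, Dens m n ρ → 1 ≤ m →
      ∀ r : ℝ, Dens m n ({x | ‖x‖ ≤ r}.indicator ρ)) :
    ∃ C : ℝ, 0 < C ∧ ∀ {m n : ℕ}, 3 ≤ m → n ≤ m → ∀ ρ : E m n → ℝ,
    Dens m n ρ → mu ρ univ = 1 → ∀ s : ℝ, 0 < s →
    (∀ θ : E m n, ∫⁻ x, ENNReal.ofReal (⟪θ, x⟫_ℝ ^ 2) ∂(mu ρ) ≤
      ENNReal.ofReal (s * ‖θ‖ ^ 2)) →
    ∀ f : E m n → ℝ, ContDiff ℝ 1 f → MemLp f 2 (mu ρ) →
    ENNReal.ofReal (∫ x, (f x - ∫ y, f y ∂(mu ρ)) ^ 2 ∂(mu ρ)) ≤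
      ENNReal.ofReal (C * s) * ∫⁻ x, ENNReal.ofReal (‖fderiv ℝ f x‖ ^ 2) ∂(mu ρ) := by
  obtain ⟨C, hC, hcore⟩ := hcore
  refine ⟨C, hC, ?_⟩
  intro m n hm hnm ρ hρ h1 s hs hmom f hf hfL
  have hprob : IsProbabilityMeasure (mu ρ) := ⟨h1⟩
  rcases Nat.eq_zero_or_pos n with hn | hn
  · subst hn
    have hsub : ∀ x : E m 0, x = 0 := by
      intro x
      ext p
      exact p.2.elim0
    have h2 : ∫ y, f y ∂(mu ρ) = f 0 := by
      rw [integral_congr_ae (g := fun _ => f 0) (Eventually.of_forall fun x => by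
        show f x = f 0
        rw [hsub x])]
      simp
    have h3 : ∫ x, (f x - ∫ y, f y ∂(mu ρ)) ^ 2 ∂(mu ρ) = 0 := by
      rw [h2, integral_congr_ae (g := fun _ => (0 : ℝ)) (Eventually.of_forall fun x => by
        show (f x - f 0) ^ 2 = 0
        rw [hsub x]
        simp)]
      simp
    rw [h3, ENNReal.ofReal_zero]
    exact zero_le
  -- the main case
  by_cases hI : ∫⁻ x, ENNReal.ofReal (‖fderiv ℝ f x‖ ^ 2) ∂(mu ρ) = ⊤
  · rw [hI, ENNReal.mul_top (by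
      rw [Ne, ENNReal.ofReal_eq_zero, not_le]
      positivity)]
    exact le_top
  obtain ⟨I, hIdef⟩ : ∃ I : ℝ, I = (∫⁻ x, ENNReal.ofReal (‖fderiv ℝ f x‖ ^ 2) ∂(mu ρ)).toReal :=
    ⟨_, rfl⟩
  have hI0 : 0 ≤ I := by rw [hIdef]; exact ENNReal.toReal_nonneg
  have hgrad_meas : Continuous fun x => ‖fderiv ℝ f x‖ ^ 2 :=
    ((hf.continuous_fderiv (by norm_num)).norm).pow 2
  have hf2 : Integrable (fun x => f x ^ 2) (mu ρ) := hfL.integrable_sq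
  have hf1 : Integrable f (mu ρ) := hfL.integrable (by norm_num)
  have key : ∀ᶠ k : ℕ in atTop,
      ((mu ρ).real {x : E m n | ‖x‖ ≤ k})⁻¹ * (∫ x in {x : E m n | ‖x‖ ≤ k}, f x ^ 2 ∂(mu ρ)) -
        (((mu ρ).real {x : E m n | ‖x‖ ≤ k})⁻¹ * ∫ x in {x : E m n | ‖x‖ ≤ k}, f x ∂(mu ρ)) ^ 2 ≤
      C * (s * ((mu ρ).real {x : E m n | ‖x‖ ≤ k})⁻¹) *
        (((mu ρ).real {x : E m n | ‖x‖ ≤ k})⁻¹ * I) := by
    have hev : ∀ᶠ k : ℕ in atTop, 0 < (mu ρ).real {x : E m n | ‖x‖ ≤ k} :=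
      (g2_mass (mu ρ)).eventually (lt_mem_nhds one_pos)
    filter_upwards [hev] with k hk
    obtain ⟨B, hBdef⟩ : ∃ B : Set (E m n), B = {x : E m n | ‖x‖ ≤ k} := ⟨_, rfl⟩
    have hBm : MeasurableSet B := by
      rw [hBdef]
      exact measurableSet_le measurable_norm measurable_const
    rw [← hBdef] at hk ⊢
    obtain ⟨M, hM⟩ : ∃ M : ℝ, M = (mu ρ).real B := ⟨_, rfl⟩
    rw [← hM] at hk ⊢
    have hMi : 0 ≤ M⁻¹ := (inv_pos.2 hk).le
    have hd : Dens m n (fun x => M⁻¹ * B.indicator ρ x) := by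
      apply g2_dens_smul _ _ hMi
      rw [hBdef]
      exact hball hρ (by omega) k
    have hb : Bdd (fun x => M⁻¹ * B.indicator ρ x) := by
      refine ⟨k, fun x hx => ?_⟩
      show M⁻¹ * B.indicator ρ x = 0
      rw [indicator_of_notMem, mul_zero]
      rw [hBdef]
      exact not_le.2 hx
    have hmu := g2_mu ρ hρ.nonneg hρ.meas B hBm M⁻¹ hMi
    have hmass : mu (fun x => M⁻¹ * B.indicator ρ x) univ = 1 := by
      rw [hmu, Measure.smul_apply, Measure.restrict_apply_univ, smul_eq_mul]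
      have h2 : mu ρ B = ENNReal.ofReal M := by
        rw [hM, Measure.real, ENNReal.ofReal_toReal (measure_ne_top _ _)]
      rw [h2, ← ENNReal.ofReal_mul hMi, inv_mul_cancel₀ hk.ne', ENNReal.ofReal_one]
    have hint : ∀ g : E m n → ℝ, ∫ x, g x ∂(mu (fun x => M⁻¹ * B.indicator ρ x)) =
        M⁻¹ * ∫ x in B, g x ∂(mu ρ) := by
      intro g
      rw [hmu, integral_smul_measure, ENNReal.toReal_ofReal hMi, smul_eq_mul]
    -- a nonnegative function has a smaller integral over `B`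
    have hle : ∀ g : E m n → ℝ, Continuous g → (∀ x, 0 ≤ g x) → ∀ a : ℝ, 0 ≤ a →
        ∫⁻ x, ENNReal.ofReal (g x) ∂(mu ρ) ≤ ENNReal.ofReal a → ∫ x in B, g x ∂(mu ρ) ≤ a := by
      intro g hg hg0 a ha hga
      rw [integral_eq_lintegral_of_nonneg_ae (Eventually.of_forall hg0)
        hg.aestronglyMeasurable]
      apply ENNReal.toReal_le_of_le_ofReal ha
      exact le_trans (setLIntegral_le_lintegral _ _) hga
    have hmom' : ∀ θ : E m n, ∫ x, ⟪θ, x⟫_ℝ ^ 2 ∂(mu (fun x => M⁻¹ * B.indicator ρ x)) ≤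
        (s * M⁻¹) * ‖θ‖ ^ 2 := by
      intro θ
      rw [hint]
      have h2 := hle (fun x => ⟪θ, x⟫_ℝ ^ 2) (by fun_prop) (fun x => sq_nonneg _) (s * ‖θ‖ ^ 2)
        (by positivity) (hmom θ)
      calc M⁻¹ * ∫ x in B, ⟪θ, x⟫_ℝ ^ 2 ∂(mu ρ) ≤ M⁻¹ * (s * ‖θ‖ ^ 2) :=
            mul_le_mul_of_nonneg_left h2 hMi
        _ = (s * M⁻¹) * ‖θ‖ ^ 2 := by ring
    have h3 := hcore hm hn hnm _ hd hb hmass (s * M⁻¹) (mul_pos hs (inv_pos.2 hk)) hmom' f hf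
    rw [hint, hint, hint] at h3
    refine h3.trans ?_
    have h4 : ∫ x in B, ‖fderiv ℝ f x‖ ^ 2 ∂(mu ρ) ≤ I := by
      apply hle _ hgrad_meas (fun x => sq_nonneg _) I hI0
      rw [hIdef, ENNReal.ofReal_toReal hI]
    have h5 : 0 ≤ C * (s * M⁻¹) := mul_nonneg hC.le (mul_nonneg hs.le hMi)
    exact mul_le_mul_of_nonneg_left (mul_le_mul_of_nonneg_left h4 hMi) h5
  have hM1 : Tendsto (fun k : ℕ => ((mu ρ).real {x : E m n | ‖x‖ ≤ k})⁻¹) atTop (𝓝 1) := by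
    have := (g2_mass (mu ρ)).inv₀ one_ne_zero
    rwa [inv_one] at this
  have hL : Tendsto (fun k : ℕ =>
      ((mu ρ).real {x : E m n | ‖x‖ ≤ k})⁻¹ * (∫ x in {x : E m n | ‖x‖ ≤ k}, f x ^ 2 ∂(mu ρ)) -
        (((mu ρ).real {x : E m n | ‖x‖ ≤ k})⁻¹ * ∫ x in {x : E m n | ‖x‖ ≤ k}, f x ∂(mu ρ)) ^ 2)
      atTop (𝓝 (1 * (∫ x, f x ^ 2 ∂(mu ρ)) - (1 * ∫ x, f x ∂(mu ρ)) ^ 2)) :=
    (hM1.mul (g2_lim (mu ρ) _ hf2)).sub ((hM1.mul (g2_lim (mu ρ) _ hf1)).pow 2)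
  have hR : Tendsto (fun k : ℕ => C * (s * ((mu ρ).real {x : E m n | ‖x‖ ≤ k})⁻¹) *
        (((mu ρ).real {x : E m n | ‖x‖ ≤ k})⁻¹ * I)) atTop (𝓝 (C * (s * 1) * (1 * I))) :=
    ((hM1.const_mul s).const_mul C).mul (hM1.mul_const I)
  have hfin := le_of_tendsto_of_tendsto hL hR key
  have hvar : ∫ x, (f x - ∫ y, f y ∂(mu ρ)) ^ 2 ∂(mu ρ) =
      ∫ x, f x ^ 2 ∂(mu ρ) - (∫ x, f x ∂(mu ρ)) ^ 2 := by
    obtain ⟨a, ha⟩ : ∃ a : ℝ, a = ∫ y, f y ∂(mu ρ) := ⟨_, rfl⟩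
    rw [← ha]
    have h2 : ∀ x, (f x - a) ^ 2 = (f x ^ 2 - 2 * a * f x) + a ^ 2 := fun x => by ring
    simp_rw [h2]
    have h3 : Integrable (fun x => 2 * a * f x) (mu ρ) := hf1.const_mul _
    have h4 : Integrable (fun x => f x ^ 2 - 2 * a * f x) (mu ρ) := hf2.sub h3
    rw [integral_add h4 (integrable_const _), integral_sub hf2 h3, integral_const_mul, ← ha]
    simp
    ring
  rw [hvar]
  have h6 : ∫ x, f x ^ 2 ∂(mu ρ) - (∫ x, f x ∂(mu ρ)) ^ 2 ≤ C * s * I := by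
    have : C * (s * 1) * (1 * I) = C * s * I := by ring
    rw [this] at hfin
    simpa using hfin
  calc ENNReal.ofReal (∫ x, f x ^ 2 ∂(mu ρ) - (∫ x, f x ∂(mu ρ)) ^ 2)
      ≤ ENNReal.ofReal (C * s * I) := ENNReal.ofReal_le_ofReal h6
    _ = ENNReal.ofReal (C * s) * ∫⁻ x, ENNReal.ofReal (‖fderiv ℝ f x‖ ^ 2) ∂(mu ρ) := by
      rw [ENNReal.ofReal_mul (by positivity), hIdef, ENNReal.ofReal_toReal hI]

end Pool.Agent.H212R2.KLS
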