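import Pool.Agent.H212R2.KLS.Defs

/-! TASK H1 (helper541): Hardy type inequality for odd functions, fixed direction. -/

set_option autoImplicit false

namespace Pool.Agent.H212R2.KLS

open MeasureTheory Set
open scoped ENNReal InnerProductSpace

namespace H1

theorem cs_interval {h : ℝ → ℝ} (hh : Continuous h) {t : ℝ} (ht : 0 < t) :
    (∫ s in (0 : ℝ)..t, h s) ^ 2 ≤ t * ∫ s in (0 : ℝ)..t, h s ^ 2 := by
  set I := ∫ s in (0 : ℝ)..t, h s with hI
  have h1 : 0 ≤ ∫ s in (0 : ℝ)..t, (h s - I / t) ^ 2 :=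
    intervalIntegral.integral_nonneg ht.le fun s _ => sq_nonneg _
  have h2 : ∫ s in (0 : ℝ)..t, (h s - I / t) ^ 2 =
      (∫ s in (0 : ℝ)..t, h s ^ 2) - 2 * (I / t) * I + (I / t) ^ 2 * t := by
    have e : ∀ s, (h s - I / t) ^ 2 = h s ^ 2 - 2 * (I / t) * h s + (I / t) ^ 2 := fun s => by ring
    simp only [e]
    rw [intervalIntegral.integral_add, intervalIntegral.integral_sub,
      intervalIntegral.integral_const_mul, intervalIntegral.integral_const, ← hI]
    · simp; ring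
    · exact (hh.pow 2).intervalIntegrable _ _
    · exact (continuous_const.mul hh).intervalIntegrable _ _
    · exact ((hh.pow 2).sub (continuous_const.mul hh)).intervalIntegrable _ _
    · exact continuous_const.intervalIntegrable _ _
  rw [h2] at h1
  have h3 : 2 * (I / t) * I - (I / t) ^ 2 * t = I ^ 2 / t := by
    field_simp; ring
  have h4 : I ^ 2 / t ≤ ∫ s in (0 : ℝ)..t, h s ^ 2 := by linarith
  rw [div_le_iff₀ ht] at h4
  linarith

theorem point {k : ℕ} (u : V k) (hu : ‖u‖ = 1) (w : V k → ℝ) (hw0 : ∀ x, 0 ≤ w x)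
    (hmono : ∀ z : V k, ⟪z, u⟫_ℝ = 0 → ∀ s t : ℝ, 0 ≤ s → s ≤ t → w (z + t • u) ≤ w (z + s • u))
    (f : V k → ℝ) (hf : ContDiff ℝ 1 f) (hz : ∀ z : V k, ⟪z, u⟫_ℝ = 0 → f z = 0) (x : V k)
    (ht : 0 < ⟪x, u⟫_ℝ) :
    ENNReal.ofReal (f x ^ 2 * w x) ≤ ENNReal.ofReal ⟪x, u⟫_ℝ *
      ∫⁻ σ in Ioo (0 : ℝ) ⟪x, u⟫_ℝ,
        ENNReal.ofReal ((fderiv ℝ f (x - σ • u) u) ^ 2 * w (x - σ • u)) := by
  set t := ⟪x, u⟫_ℝ with htd
  set h : ℝ → ℝ := fun σ => fderiv ℝ f (x - σ • u) u with hh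
  have hcont : Continuous h := by
    have h1 : Continuous (fderiv ℝ f) := hf.continuous_fderiv (by norm_num)
    exact (h1.comp (continuous_const.sub (continuous_id.smul continuous_const))).clm_apply
      continuous_const
  have hder : ∀ σ, HasDerivAt (fun σ : ℝ => f (x - σ • u)) (-h σ) σ := by
    intro σ
    have h1 : HasDerivAt (fun σ : ℝ => x - σ • u) (-u) σ := by
      have := ((hasDerivAt_id σ).smul_const u).const_sub x
      simpa using this
    have h2 := ((hf.differentiable (by norm_num)) (x - σ • u)).hasFDerivAt.comp_hasDerivAt σ h1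
    rw [map_neg] at h2
    exact h2
  have hzt : ⟪x - t • u, u⟫_ℝ = 0 := by
    rw [inner_sub_left, real_inner_smul_left, real_inner_self_eq_norm_sq, hu, ← htd]; ring
  have hint : ∫ σ in (0 : ℝ)..t, h σ = f x := by
    have h1 := intervalIntegral.integral_eq_sub_of_hasDerivAt (a := 0) (b := t)
      (fun σ _ => hder σ) (hcont.neg.intervalIntegrable _ _)
    rw [hz _ hzt] at h1
    simp only [zero_smul, sub_zero, zero_sub, intervalIntegral.integral_neg] at h1
    linarith
  have h1 := cs_interval hcont ht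
  rw [hint] at h1
  have h2 : f x ^ 2 * w x ≤ t * ∫ σ in (0 : ℝ)..t, h σ ^ 2 * w x := by
    rw [intervalIntegral.integral_mul_const]
    nlinarith [hw0 x]
  refine (ENNReal.ofReal_le_ofReal h2).trans ?_
  rw [ENNReal.ofReal_mul ht.le]
  refine mul_le_mul_right ?_ _
  rw [intervalIntegral.integral_of_le ht.le, ofReal_integral_eq_lintegral_ofReal]
  · rw [← restrict_Ioo_eq_restrict_Ioc]
    refine setLIntegral_mono' measurableSet_Ioo fun σ hσ => ?_
    apply ENNReal.ofReal_le_ofReal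
    apply mul_le_mul_of_nonneg_left _ (sq_nonneg _)
    have h3 := hmono _ hzt (t - σ) t (by linarith [hσ.2]) (by linarith [hσ.1])
    have e1 : x - t • u + t • u = x := by abel
    have e2 : x - t • u + (t - σ) • u = x - σ • u := by rw [sub_smul]; abel
    rw [e1, e2] at h3
    exact h3
  · exact ((hcont.pow 2).mul continuous_const).integrableOn_Ioc
  · exact Filter.Eventually.of_forall fun σ => mul_nonneg (sq_nonneg _) (hw0 x)

theorem half {k : ℕ} (u : V k) (hu : ‖u‖ = 1) (r : ℝ) (hr : 0 < r) (w : V k → ℝ)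
    (hw0 : ∀ x, 0 ≤ w x) (hwm : Measurable w) (hws : ∀ x, r < ‖x‖ → w x = 0)
    (hmono : ∀ z : V k, ⟪z, u⟫_ℝ = 0 → ∀ s t : ℝ, 0 ≤ s → s ≤ t → w (z + t • u) ≤ w (z + s • u))
    (f : V k → ℝ) (hf : ContDiff ℝ 1 f) (hz : ∀ z : V k, ⟪z, u⟫_ℝ = 0 → f z = 0) :
    ∫⁻ x in {x : V k | 0 < ⟪x, u⟫_ℝ}, ENNReal.ofReal (f x ^ 2 * w x) ≤
      ENNReal.ofReal (r ^ 2 / 2) *
        ∫⁻ x in {x : V k | 0 < ⟪x, u⟫_ℝ}, ENNReal.ofReal ((fderiv ℝ f x u) ^ 2 * w x) := by
  set G : V k → ℝ≥0∞ := fun x => ENNReal.ofReal ((fderiv ℝ f x u) ^ 2 * w x) with hG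
  have hGm : Measurable G := by
    have h1 : Continuous (fun x => fderiv ℝ f x u) :=
      (hf.continuous_fderiv (by norm_num)).clm_apply continuous_const
    exact ((h1.measurable.pow_const 2).mul hwm).ennreal_ofReal
  have hin : Continuous (fun x : V k => ⟪x, u⟫_ℝ) := continuous_id.inner continuous_const
  have hpos : MeasurableSet {x : V k | 0 < ⟪x, u⟫_ℝ} :=
    measurableSet_lt measurable_const hin.measurable
  set R : Set (V k × ℝ) := {p | 0 < p.2 ∧ p.2 < ⟪p.1, u⟫_ℝ ∧ ⟪p.1, u⟫_ℝ ≤ r} with hR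
  have hRm : MeasurableSet R := by
    refine (measurableSet_lt measurable_const measurable_snd).inter
      ((measurableSet_lt measurable_snd (hin.measurable.comp measurable_fst)).inter
        (measurableSet_le (hin.measurable.comp measurable_fst) measurable_const))
  set Φ : V k → ℝ → ℝ≥0∞ := fun x σ =>
    R.indicator (fun p => ENNReal.ofReal ⟪p.1, u⟫_ℝ * G (p.1 - p.2 • u)) (x, σ) with hΦ
  have hΦm : Measurable (Function.uncurry Φ) := by
    have h1 : Measurable (fun p : V k × ℝ => ENNReal.ofReal ⟪p.1, u⟫_ℝ * G (p.1 - p.2 • u)) := by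
      refine ((hin.measurable.comp measurable_fst).ennreal_ofReal).mul (hGm.comp ?_)
      exact measurable_fst.sub (measurable_snd.smul_const u)
    exact h1.indicator hRm
  have hΦm2 : Measurable (Function.uncurry fun (y : V k) (σ : ℝ) => Φ (y + σ • u) σ) := by
    have h0 : Measurable (fun p : V k × ℝ => (p.1 + p.2 • u, p.2)) :=
      (measurable_fst.add (measurable_snd.smul_const u)).prodMk measurable_snd
    exact hΦm.comp h0
  -- pointwise bound
  have h1 : ∫⁻ x in {x : V k | 0 < ⟪x, u⟫_ℝ}, ENNReal.ofReal (f x ^ 2 * w x) ≤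
      ∫⁻ x : V k, ∫⁻ σ : ℝ, Φ x σ := by
    rw [← lintegral_indicator hpos]
    refine lintegral_mono fun x => ?_
    by_cases hx : 0 < ⟪x, u⟫_ℝ
    · rw [indicator_of_mem (show x ∈ {x : V k | 0 < ⟪x, u⟫_ℝ} from hx)]
      by_cases hxr : ⟪x, u⟫_ℝ ≤ r
      · refine (point u hu w hw0 hmono f hf hz x hx).trans (le_of_eq ?_)
        rw [← lintegral_const_mul' _ _ ENNReal.ofReal_ne_top, ← lintegral_indicator
          measurableSet_Ioo]
        refine lintegral_congr fun σ => ?_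
        by_cases hσ : σ ∈ Ioo (0 : ℝ) ⟪x, u⟫_ℝ
        · rw [indicator_of_mem hσ]
          have : (x, σ) ∈ R := ⟨hσ.1, hσ.2, hxr⟩
          simp only [hΦ]
          rw [indicator_of_mem this]
        · rw [indicator_of_notMem hσ]
          have : (x, σ) ∉ R := fun h => hσ ⟨h.1, h.2.1⟩
          simp only [hΦ]
          rw [indicator_of_notMem this]
      · have h2 : r < ‖x‖ := by
          have h3 : ⟪x, u⟫_ℝ ≤ ‖x‖ * ‖u‖ := real_inner_le_norm x u
          rw [hu, mul_one] at h3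
          linarith
        rw [hws x h2, mul_zero, ENNReal.ofReal_zero]
        exact zero_le
    · rw [indicator_of_notMem (show x ∉ {x : V k | 0 < ⟪x, u⟫_ℝ} from hx)]
      exact zero_le
  refine h1.trans ?_
  rw [lintegral_lintegral_swap hΦm.aemeasurable]
  have h2 : ∀ σ : ℝ, ∫⁻ x : V k, Φ x σ = ∫⁻ y : V k, Φ (y + σ • u) σ := fun σ =>
    (lintegral_add_right_eq_self (fun x => Φ x σ) (σ • u)).symm
  simp_rw [h2]
  rw [← lintegral_lintegral_swap hΦm2.aemeasurable]
  rw [← lintegral_indicator hpos, ← lintegral_const_mul' _ _ ENNReal.ofReal_ne_top]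
  refine lintegral_mono fun y => ?_
  set H : ℝ → ℝ≥0∞ := (Ioc (0 : ℝ) r).indicator fun s => ENNReal.ofReal s with hH
  have hHint : ∫⁻ s : ℝ, H s = ENNReal.ofReal (r ^ 2 / 2) := by
    rw [hH, lintegral_indicator measurableSet_Ioc, ← ofReal_integral_eq_lintegral_ofReal]
    · rw [← intervalIntegral.integral_of_le hr.le, integral_id]
      congr 1; ring
    · exact continuous_id.integrableOn_Ioc
    · exact (ae_restrict_iff' measurableSet_Ioc).2 (Filter.Eventually.of_forall fun s hs => hs.1.le)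
  have hyt : ∀ σ : ℝ, ⟪y + σ • u, u⟫_ℝ = ⟪y, u⟫_ℝ + σ := by
    intro σ
    rw [inner_add_left, real_inner_smul_left, real_inner_self_eq_norm_sq, hu]; ring
  by_cases hy : 0 < ⟪y, u⟫_ℝ
  · rw [indicator_of_mem (show y ∈ {x : V k | 0 < ⟪x, u⟫_ℝ} from hy), ← hHint,
      ← lintegral_add_left_eq_self H ⟪y, u⟫_ℝ, mul_comm,
      ← lintegral_const_mul' _ _ ENNReal.ofReal_ne_top]
    refine lintegral_mono fun σ => ?_
    simp only [hΦ]
    by_cases hp : (y + σ • u, σ) ∈ R
    · rw [indicator_of_mem hp]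
      obtain ⟨a1, a2, a3⟩ := hp
      simp only [hyt] at a2 a3 ⊢
      have h5 : ⟪y, u⟫_ℝ + σ ∈ Ioc (0 : ℝ) r := ⟨by linarith, a3⟩
      rw [hH, indicator_of_mem h5, add_sub_cancel_right, mul_comm]
    · rw [indicator_of_notMem hp]
      exact zero_le
  · rw [indicator_of_notMem (show y ∉ {x : V k | 0 < ⟪x, u⟫_ℝ} from hy), mul_zero]
    have h6 : ∀ σ : ℝ, Φ (y + σ • u) σ = 0 := by
      intro σ
      simp only [hΦ]
      refine indicator_of_notMem ?_ _
      rintro ⟨a1, a2, a3⟩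
      simp only [hyt] at a2
      exact hy (by linarith)
    simp only [h6, lintegral_zero, le_refl]

end H1

theorem hardy_line {k : ℕ} (u : V k) (hu : ‖u‖ = 1) (r : ℝ) (hr : 0 < r) (w : V k → ℝ)
    (hw0 : ∀ x, 0 ≤ w x) (hwm : Measurable w) (hwb : ∃ B, ∀ x, w x ≤ B)
    (hws : ∀ x, r < ‖x‖ → w x = 0)
    (hmono : ∀ z : V k, ⟪z, u⟫_ℝ = 0 → ∀ s t : ℝ, 0 ≤ s → s ≤ t → w (z + t • u) ≤ w (z + s • u))
    (heven : ∀ x : V k, w (x - (2 * ⟪x, u⟫_ℝ) • u) = w x)
    (f : V k → ℝ) (hf : ContDiff ℝ 1 f)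
    (hodd : ∀ x : V k, f (x - (2 * ⟪x, u⟫_ℝ) • u) = - f x) :
    ∫ x, f x ^ 2 * w x ≤ r ^ 2 / 2 * ∫ x, (fderiv ℝ f x u) ^ 2 * w x := by
  have hz : ∀ z : V k, ⟪z, u⟫_ℝ = 0 → f z = 0 := by
    intro z hzu
    have := hodd z
    rw [hzu, mul_zero, zero_smul, sub_zero] at this
    linarith
  have hin : Continuous (fun x : V k => ⟪x, u⟫_ℝ) := continuous_id.inner continuous_const
  have hpos : MeasurableSet {x : V k | 0 < ⟪x, u⟫_ℝ} :=
    measurableSet_lt measurable_const hin.measurable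
  have hneg : MeasurableSet {x : V k | 0 < ⟪x, -u⟫_ℝ} :=
    measurableSet_lt measurable_const
      (continuous_id.inner continuous_const : Continuous fun x : V k => ⟪x, -u⟫_ℝ).measurable
  have hdc : Continuous (fun x => fderiv ℝ f x u) :=
    (hf.continuous_fderiv (by norm_num)).clm_apply continuous_const
  have hFm : Measurable (fun x => f x ^ 2 * w x) := (hf.continuous.measurable.pow_const 2).mul hwm
  have hGm : Measurable (fun x => (fderiv ℝ f x u) ^ 2 * w x) :=
    (hdc.measurable.pow_const 2).mul hwm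
  -- the two half spaces
  have e1 := H1.half u hu r hr w hw0 hwm hws hmono f hf hz
  have e2 := H1.half (-u) (by rw [norm_neg]; exact hu) r hr w hw0 hwm hws (by
    intro z hzu s t hs hst
    have hzu' : ⟪z, u⟫_ℝ = 0 := by rw [inner_neg_right] at hzu; linarith
    have h3 : ∀ a : ℝ, w (z + a • -u) = w (z + a • u) := by
      intro a
      rw [← heven (z + a • u)]
      congr 1
      rw [inner_add_left, real_inner_smul_left, real_inner_self_eq_norm_sq, hu, hzu', smul_neg]
      rw [show 2 * (0 + a * 1 ^ 2) = a + a by ring, add_smul]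
      abel
    rw [h3, h3]
    exact hmono z hzu' s t hs hst) f hf (by
    intro z hzu
    exact hz z (by rw [inner_neg_right] at hzu; linarith))
  have e3 : ∀ x, (fderiv ℝ f x (-u)) ^ 2 * w x = (fderiv ℝ f x u) ^ 2 * w x := by
    intro x; rw [map_neg]; ring
  simp only [e3] at e2
  have hdisj : Disjoint {x : V k | 0 < ⟪x, u⟫_ℝ} {x : V k | 0 < ⟪x, -u⟫_ℝ} := by
    rw [Set.disjoint_left]
    intro x hx hx'
    have h1 : 0 < ⟪x, u⟫_ℝ := hx
    have h2 : 0 < ⟪x, -u⟫_ℝ := hx'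
    rw [inner_neg_right] at h2
    linarith
  have hU : MeasurableSet ({x : V k | 0 < ⟪x, u⟫_ℝ} ∪ {x : V k | 0 < ⟪x, -u⟫_ℝ}) :=
    hpos.union hneg
  have key : ∫⁻ x, ENNReal.ofReal (f x ^ 2 * w x) ≤
      ENNReal.ofReal (r ^ 2 / 2) * ∫⁻ x, ENNReal.ofReal ((fderiv ℝ f x u) ^ 2 * w x) := by
    have h1 : ∫⁻ x, ENNReal.ofReal (f x ^ 2 * w x) =
        ∫⁻ x in {x : V k | 0 < ⟪x, u⟫_ℝ} ∪ {x : V k | 0 < ⟪x, -u⟫_ℝ},
          ENNReal.ofReal (f x ^ 2 * w x) := by
      rw [← lintegral_indicator hU]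
      refine lintegral_congr fun x => ?_
      by_cases hx : x ∈ {x : V k | 0 < ⟪x, u⟫_ℝ} ∪ {x : V k | 0 < ⟪x, -u⟫_ℝ}
      · rw [indicator_of_mem hx]
      · rw [indicator_of_notMem hx]
        have h2 : ⟪x, u⟫_ℝ = 0 := by
          rw [mem_union, not_or] at hx
          have h3 : ¬ 0 < ⟪x, u⟫_ℝ := hx.1
          have h4 : ¬ 0 < ⟪x, -u⟫_ℝ := hx.2
          rw [inner_neg_right] at h4
          linarith
        rw [hz x h2]
        simp
    rw [h1, lintegral_union hneg hdisj]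
    refine (add_le_add e1 e2).trans ?_
    rw [← mul_add, ← lintegral_union hneg hdisj]
    exact mul_le_mul_right (setLIntegral_le_lintegral _ _) _
  -- finiteness
  obtain ⟨B, hB⟩ := hwb
  have hB0 : 0 ≤ B := (hw0 0).trans (hB 0)
  obtain ⟨C, hC⟩ := (isCompact_closedBall (0 : V k) r).exists_bound_of_continuousOn
    (hdc.pow 2).continuousOn
  have hfin : ∫⁻ x, ENNReal.ofReal ((fderiv ℝ f x u) ^ 2 * w x) ≠ ⊤ := by
    have h1 : ∀ x : V k, ENNReal.ofReal ((fderiv ℝ f x u) ^ 2 * w x) ≤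
        (Metric.closedBall (0 : V k) r).indicator (fun _ => ENNReal.ofReal (C * B)) x := by
      intro x
      by_cases hx : x ∈ Metric.closedBall (0 : V k) r
      · rw [indicator_of_mem hx]
        apply ENNReal.ofReal_le_ofReal
        have h2 := hC x hx
        rw [Real.norm_eq_abs, abs_of_nonneg (sq_nonneg _)] at h2
        exact mul_le_mul h2 (hB x) (hw0 x) ((sq_nonneg _).trans h2)
      · rw [indicator_of_notMem hx]
        rw [mem_closedBall_zero_iff, not_le] at hx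
        rw [hws x hx, mul_zero, ENNReal.ofReal_zero]
    refine ne_top_of_le_ne_top ?_ (lintegral_mono h1)
    rw [lintegral_indicator Metric.isClosed_closedBall.measurableSet, setLIntegral_const]
    exact ENNReal.mul_ne_top ENNReal.ofReal_ne_top
      (isCompact_closedBall (0 : V k) r).measure_lt_top.ne
  rw [integral_eq_lintegral_of_nonneg_ae (Filter.Eventually.of_forall fun x =>
      mul_nonneg (sq_nonneg _) (hw0 x)) hFm.aestronglyMeasurable,
    integral_eq_lintegral_of_nonneg_ae (Filter.Eventually.of_forall fun x =>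
      mul_nonneg (sq_nonneg _) (hw0 x)) hGm.aestronglyMeasurable]
  have h9 := ENNReal.toReal_mono (ENNReal.mul_ne_top ENNReal.ofReal_ne_top hfin) key
  rw [ENNReal.toReal_mul, ENNReal.toReal_ofReal (by positivity)] at h9
  exact h9

end Pool.Agent.H212R2.KLS
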