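import Pool.Agent.H212R2.KLS.Defs

/-! Task R1: determinants at the midpoint. -/

set_option autoImplicit false

namespace Pool.Agent.H212R2.KLS

open MeasureTheory Set Matrix
open scoped ENNReal InnerProductSpace

private theorem R1_core {ι : Type*} [Fintype ι] [DecidableEq ι] (T : Matrix ι ι ℝ)
    (hT : T.IsHermitian) (h1 : (1 + T).PosSemidef) (h2 : (1 - T).PosSemidef) :
    (1 + T).det * (1 - T).det ≤ Real.exp (-(T * T).trace) := by
  obtain ⟨U, t, hU, hTU, ht⟩ : ∃ (U : Matrix ι ι ℝ) (t : ι → ℝ), star U * U = 1 ∧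
      T = U * diagonal t * star U ∧
      ∀ i, t i = star (⇑(hT.eigenvectorBasis i) : ι → ℝ) ⬝ᵥ
        (T *ᵥ (⇑(hT.eigenvectorBasis i) : ι → ℝ)) := by
    refine ⟨hT.eigenvectorUnitary, hT.eigenvalues, ?_, ?_, ?_⟩
    · exact Unitary.coe_star_mul_self _
    · have := hT.spectral_theorem
      rw [Unitary.conjStarAlgAut_apply] at this
      simpa using this
    · intro i
      have := hT.eigenvalues_eq i
      simpa using this
  have hUU : U * star U = 1 := mul_eq_one_comm.1 hU
  have hunit : ∀ i, star (⇑(hT.eigenvectorBasis i) : ι → ℝ) ⬝ᵥ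
      (⇑(hT.eigenvectorBasis i) : ι → ℝ) = 1 := by
    intro i
    have h := hT.eigenvectorBasis.orthonormal.1 i
    have h2 : ⟪hT.eigenvectorBasis i, hT.eigenvectorBasis i⟫_ℝ = 1 := by
      rw [real_inner_self_eq_norm_sq, h]; norm_num
    rw [EuclideanSpace.inner_eq_star_dotProduct] at h2
    rw [dotProduct_comm]
    exact h2
  have hp : ∀ i, 0 ≤ 1 + t i := by
    intro i
    have := h1.dotProduct_mulVec_nonneg (⇑(hT.eigenvectorBasis i) : ι → ℝ)
    rw [add_mulVec, one_mulVec, dotProduct_add, hunit, ← ht] at this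
    exact this
  have hm : ∀ i, 0 ≤ 1 - t i := by
    intro i
    have := h2.dotProduct_mulVec_nonneg (⇑(hT.eigenvectorBasis i) : ι → ℝ)
    rw [sub_mulVec, one_mulVec, dotProduct_sub, hunit, ← ht] at this
    exact this
  have hd1 : (1 + T).det = ∏ i, (1 + t i) := by
    have h : 1 + T = U * (1 + diagonal t) * star U := by
      rw [mul_add, mul_one, add_mul, hUU, ← hTU]
    rw [h, mul_assoc, det_mul_comm, mul_assoc, hU, mul_one]
    rw [← diagonal_one, diagonal_add, det_diagonal]
  have hd2 : (1 - T).det = ∏ i, (1 - t i) := by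
    have h : 1 - T = U * (1 - diagonal t) * star U := by
      rw [mul_sub, mul_one, sub_mul, hUU, ← hTU]
    rw [h, mul_assoc, det_mul_comm, mul_assoc, hU, mul_one]
    rw [← diagonal_one, diagonal_sub, det_diagonal]
  have htr : (T * T).trace = ∑ i, t i ^ 2 := by
    have h : T * T = U * (diagonal t * diagonal t) * star U := by
      conv_lhs => rw [hTU]
      calc U * diagonal t * star U * (U * diagonal t * star U)
          = U * diagonal t * (star U * U) * diagonal t * star U := by
            simp only [mul_assoc]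
        _ = _ := by rw [hU, mul_one]; simp only [mul_assoc]
    rw [h, mul_assoc, trace_mul_comm, mul_assoc, hU, mul_one, diagonal_mul_diagonal,
      trace_diagonal]
    simp [pow_two]
  rw [hd1, hd2, htr, ← Finset.prod_mul_distrib, ← Finset.sum_neg_distrib, Real.exp_sum]
  apply Finset.prod_le_prod
  · intro i _
    exact mul_nonneg (hp i) (hm i)
  · intro i _
    have := Real.one_sub_le_exp_neg (t i ^ 2)
    calc (1 + t i) * (1 - t i) = 1 - t i ^ 2 := by ring
      _ ≤ _ := this

private theorem R1_mat {ι : Type*} [Fintype ι] [DecidableEq ι] (a c : Matrix ι ι ℝ)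
    (ha : a.PosSemidef) (hc : c.PosSemidef) (μ : ι → ℝ) (R : ℝ) (hR : 0 < R)
    (hμR : ∀ k, μ k ≤ R) (hac : (1 / 2 : ℝ) • (a + c) = diagonal μ) :
    a.det * c.det ≤ (∏ k, μ k) ^ 2 *
      Real.exp (-(((a - c) * (a - c)).trace / (4 * R ^ 2))) := by
  have hrhs : 0 ≤ (∏ k, μ k) ^ 2 *
      Real.exp (-(((a - c) * (a - c)).trace / (4 * R ^ 2))) := by positivity
  by_cases hda : a.det = 0
  · rw [hda, zero_mul]; exact hrhs
  by_cases hdc : c.det = 0
  · rw [hdc, mul_zero]; exact hrhs
  have hap : a.PosDef := (ha.posDef_iff_det_ne_zero).2 hda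
  have hcp : c.PosDef := (hc.posDef_iff_det_ne_zero).2 hdc
  have hμ : ∀ k, 0 < μ k := by
    intro k
    have h1 := hap.diag_pos (i := k)
    have h2 := hcp.diag_pos (i := k)
    have h3 := congrFun (congrFun hac k) k
    simp only [Matrix.smul_apply, Matrix.add_apply, diagonal_apply_eq, smul_eq_mul] at h3
    rw [← h3]; positivity
  set s : ι → ℝ := fun k => Real.sqrt (μ k) with hs
  have hspos : ∀ k, 0 < s k := fun k => Real.sqrt_pos.2 (hμ k)
  have hss : ∀ k, s k * s k = μ k := fun k => Real.mul_self_sqrt (hμ k).le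
  set Si : Matrix ι ι ℝ := diagonal fun k => (s k)⁻¹ with hSi
  set S : Matrix ι ι ℝ := diagonal s with hS
  set h : Matrix ι ι ℝ := (1 / 2 : ℝ) • (a - c) with hh
  set T : Matrix ι ι ℝ := Si * h * Si with hTdef
  have hSSi : S * Si = 1 := by
    rw [hS, hSi, diagonal_mul_diagonal, ← diagonal_one]
    congr 1; funext k
    exact mul_inv_cancel₀ (hspos k).ne'
  have hSiS : Si * S = 1 := by
    rw [hS, hSi, diagonal_mul_diagonal, ← diagonal_one]
    congr 1; funext k
    exact inv_mul_cancel₀ (hspos k).ne'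
  have hSS : S * S = diagonal μ := by
    rw [hS, diagonal_mul_diagonal]
    congr 1; funext k; exact hss k
  have haeq : a = diagonal μ + h := by
    rw [← hac, hh]; ext i j; simp; ring
  have hceq : c = diagonal μ - h := by
    rw [← hac, hh]; ext i j; simp; ring
  have hSTS : S * T * S = h := by
    rw [hTdef]
    calc S * (Si * h * Si) * S = (S * Si) * h * (Si * S) := by simp only [mul_assoc]
      _ = h := by rw [hSSi, hSiS, one_mul, mul_one]
  have ha1 : a = S * (1 + T) * S := by
    rw [mul_add, mul_one, add_mul, hSTS, hSS]; exact haeq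
  have hc1 : c = S * (1 - T) * S := by
    rw [mul_sub, mul_one, sub_mul, hSTS, hSS]; exact hceq
  have hSiH : Siᴴ = Si := by
    rw [hSi, diagonal_conjTranspose]; rfl
  have hT1 : 1 + T = Siᴴ * a * Si := by
    rw [hSiH, ha1]
    calc 1 + T = (Si * S) * (1 + T) * (S * Si) := by rw [hSiS, hSSi, one_mul, mul_one]
      _ = _ := by simp only [mul_assoc]
  have hT2 : 1 - T = Siᴴ * c * Si := by
    rw [hSiH, hc1]
    calc 1 - T = (Si * S) * (1 - T) * (S * Si) := by rw [hSiS, hSSi, one_mul, mul_one]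
      _ = _ := by simp only [mul_assoc]
  have hp1 : (1 + T).PosSemidef := by
    rw [hT1]; exact ha.conjTranspose_mul_mul_same Si
  have hp2 : (1 - T).PosSemidef := by
    rw [hT2]; exact hc.conjTranspose_mul_mul_same Si
  have hTH : T.IsHermitian := by
    have := hp1.1
    have h3 : T = (1 + T) - 1 := by simp
    rw [h3]
    exact this.sub isHermitian_one
  have hcore := R1_core T hTH hp1 hp2
  have hdetS : S.det * S.det = ∏ k, μ k := by
    rw [← det_mul, hSS, det_diagonal]
  have hdets : a.det * c.det = (∏ k, μ k) ^ 2 * ((1 + T).det * (1 - T).det) := by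
    rw [ha1, hc1, det_mul, det_mul, det_mul, det_mul, ← hdetS]; ring
  rw [hdets]
  apply mul_le_mul_of_nonneg_left _ (by positivity)
  refine hcore.trans ?_
  rw [Real.exp_le_exp, neg_le_neg_iff]
  have hhH : h.IsHermitian := by
    rw [hh]
    have := (ha.1.sub hc.1)
    rw [IsHermitian, conjTranspose_smul, this]; simp
  have hsymm : ∀ i j, h j i = h i j := by
    intro i j
    have := hhH.apply i j
    simpa using this
  have e1 : ((a - c) * (a - c)).trace / (4 * R ^ 2) = ∑ k, ∑ l, h k l ^ 2 / R ^ 2 := by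
    have e : (a - c) = (2 : ℝ) • h := by rw [hh, smul_smul]; norm_num
    rw [e, smul_mul_smul_comm, trace_smul, smul_eq_mul]
    simp only [trace, diag_apply, mul_apply]
    have : ∀ k l, h k l * h l k = h k l ^ 2 := fun k l => by rw [hsymm k l]; ring
    simp only [this]
    rw [Finset.mul_sum, Finset.sum_div]
    refine Finset.sum_congr rfl fun k _ => ?_
    rw [Finset.mul_sum, Finset.sum_div]
    refine Finset.sum_congr rfl fun l _ => ?_
    field_simp
    ring
  have e2 : (T * T).trace = ∑ k, ∑ l, h k l ^ 2 / (μ k * μ l) := by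
    have hTkl : ∀ k l, T k l = (s k)⁻¹ * h k l * (s l)⁻¹ := by
      intro k l
      rw [hTdef, hSi, mul_diagonal, diagonal_mul]
    simp only [trace, diag_apply, mul_apply]
    refine Finset.sum_congr rfl fun k _ => Finset.sum_congr rfl fun l _ => ?_
    rw [hTkl, hTkl, hsymm k l, ← hss k, ← hss l]
    have h1 := (hspos k).ne'
    have h2 := (hspos l).ne'
    field_simp
  rw [e1, e2]
  refine Finset.sum_le_sum fun k _ => Finset.sum_le_sum fun l _ => ?_
  apply div_le_div_of_nonneg_left (by positivity) (mul_pos (hμ k) (hμ l))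
  rw [pow_two]
  exact mul_le_mul (hμR k) (hμR l) (hμ l).le hR.le

private theorem R1_pos {W : Type*} [NormedAddCommGroup W] [InnerProductSpace ℝ W]
    {n : ℕ} (b : OrthonormalBasis (Fin n) ℝ W) (A : W →ₗ[ℝ] W)
    (hA : A.IsSymmetric) (hA0 : ∀ x, 0 ≤ ⟪A x, x⟫_ℝ) :
    (LinearMap.toMatrix b.toBasis b.toBasis A).PosSemidef := by
  have hent : ∀ i j, LinearMap.toMatrix b.toBasis b.toBasis A i j = ⟪b i, A (b j)⟫_ℝ := by
    intro i j
    rw [LinearMap.toMatrix_apply]
    simp [OrthonormalBasis.repr_apply_apply]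
  apply PosSemidef.of_dotProduct_mulVec_nonneg
  · ext i j
    rw [conjTranspose_apply, hent, hent, star_trivial, real_inner_comm, hA]
  · intro x
    have h := hA0 (∑ j, x j • b j)
    have e : ⟪A (∑ j, x j • b j), ∑ j, x j • b j⟫_ℝ =
        star x ⬝ᵥ (LinearMap.toMatrix b.toBasis b.toBasis A *ᵥ x) := by
      simp only [dotProduct, mulVec, hent, map_sum, map_smul, sum_inner, inner_sum,
        inner_smul_left, inner_smul_right, star_trivial, conj_trivial, Finset.mul_sum,
        Pi.star_apply]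
      rw [Finset.sum_comm]
      refine Finset.sum_congr rfl fun i _ => Finset.sum_congr rfl fun j _ => ?_
      have e3 : ⟪A (b j), b i⟫_ℝ = ⟪b i, A (b j)⟫_ℝ := real_inner_comm _ _
      have e4 : ⟪b j, A (b i)⟫_ℝ = ⟪b i, A (b j)⟫_ℝ := by rw [← hA, real_inner_comm]
      try rw [e3]
      try rw [real_inner_comm, e4]
      ring
    rw [← e]; exact h

theorem det_mid {W : Type*} [NormedAddCommGroup W] [InnerProductSpace ℝ W]
    [FiniteDimensional ℝ W] (A B : W →ₗ[ℝ] W) (hA : A.IsSymmetric) (hB : B.IsSymmetric)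
    (hA0 : ∀ x, 0 ≤ ⟪A x, x⟫_ℝ) (hB0 : ∀ x, 0 ≤ ⟪B x, x⟫_ℝ) (R : ℝ) (hR : 0 < R)
    (hAR : ∀ x, ⟪A x, x⟫_ℝ ≤ R * ‖x‖ ^ 2) (hBR : ∀ x, ⟪B x, x⟫_ℝ ≤ R * ‖x‖ ^ 2) :
    LinearMap.det A * LinearMap.det B ≤ (LinearMap.det ((1 / 2 : ℝ) • (A + B))) ^ 2 *
      Real.exp (-(LinearMap.trace ℝ W ((A - B) ∘ₗ (A - B)) / (4 * R ^ 2))) := by
  have hM : ((1 / 2 : ℝ) • (A + B)).IsSymmetric := by
    intro x y
    simp only [LinearMap.smul_apply, LinearMap.add_apply, inner_smul_left, inner_smul_right,
      inner_add_left, inner_add_right, conj_trivial]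
    rw [hA x y, hB x y]
  set n := Module.finrank ℝ W with hn
  set b := hM.eigenvectorBasis (hn.symm) with hb
  set μ := hM.eigenvalues (hn.symm) with hμ
  have hMb : ∀ k, ((1 / 2 : ℝ) • (A + B)) (b k) = μ k • b k := by
    intro k
    exact hM.apply_eigenvectorBasis hn.symm k
  set a := LinearMap.toMatrix b.toBasis b.toBasis A with ha
  set c := LinearMap.toMatrix b.toBasis b.toBasis B with hc
  have hdiag : LinearMap.toMatrix b.toBasis b.toBasis ((1 / 2 : ℝ) • (A + B)) = diagonal μ := by
    ext i j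
    rw [LinearMap.toMatrix_apply, OrthonormalBasis.coe_toBasis, hMb]
    simp only [map_smul, Finsupp.smul_apply, smul_eq_mul]
    have h1 : (b.toBasis.repr (b j)) i = if i = j then 1 else 0 := by
      have := b.toBasis.repr_self j
      rw [OrthonormalBasis.coe_toBasis] at this
      rw [this, Finsupp.single_apply]
      simp [eq_comm]
    rw [h1]
    by_cases hij : i = j
    · subst hij; simp
    · simp [hij]
  have hac : (1 / 2 : ℝ) • (a + c) = diagonal μ := by
    rw [← hdiag, ha, hc, map_smul, map_add]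
  have hμR : ∀ k, μ k ≤ R := by
    intro k
    have h1 : ⟪((1 / 2 : ℝ) • (A + B)) (b k), b k⟫_ℝ = μ k := by
      rw [hMb, inner_smul_left, real_inner_self_eq_norm_sq, b.orthonormal.1 k]
      simp
    rw [← h1, LinearMap.smul_apply, LinearMap.add_apply, inner_smul_left, inner_add_left,
      conj_trivial]
    have h2 := hAR (b k)
    have h3 := hBR (b k)
    rw [b.orthonormal.1 k] at h2 h3
    linarith
  have hmain := R1_mat a c (R1_pos b A hA hA0) (R1_pos b B hB hB0) μ R hR hμR hac
  have d1 : a.det = LinearMap.det A := LinearMap.det_toMatrix _ _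
  have d2 : c.det = LinearMap.det B := LinearMap.det_toMatrix _ _
  have d3 : ∏ k, μ k = LinearMap.det ((1 / 2 : ℝ) • (A + B)) := by
    rw [← LinearMap.det_toMatrix b.toBasis, hdiag, det_diagonal]
  have d4 : ((a - c) * (a - c)).trace = LinearMap.trace ℝ W ((A - B) ∘ₗ (A - B)) := by
    rw [LinearMap.trace_eq_matrix_trace ℝ b.toBasis,
      LinearMap.toMatrix_comp b.toBasis b.toBasis b.toBasis, map_sub]
  rw [← d1, ← d2, ← d3, ← d4]
  exact hmain

end Pool.Agent.H212R2.KLS
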