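import Pool.Agent.H212R2.KLS.R5

set_option autoImplicit false

namespace Pool.Agent.H212R2.KLS

open MeasureTheory Set Matrix
open scoped ENNReal InnerProductSpace

/-- a set all of whose traces on lines in a fixed direction are null is null -/
theorem r8_null {F : Type*} [NormedAddCommGroup F] [NormedSpace ℝ F] [FiniteDimensional ℝ F]
    [MeasurableSpace F] [BorelSpace F] (ν : Measure F) [ν.IsAddHaarMeasure] (N : Set F)
    (hN : MeasurableSet N) (J : F) (h : ∀ x, volume {t : ℝ | x + t • J ∈ N} = 0) : ν N = 0 := by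
  have hmeas : Measurable (fun p : F × ℝ => N.indicator (1 : F → ℝ≥0∞) (p.1 + p.2 • J)) := by
    have h1 : Measurable (N.indicator (1 : F → ℝ≥0∞)) := measurable_one.indicator hN
    exact h1.comp (by fun_prop)
  have h2 : ∫⁻ t : ℝ in Icc (0:ℝ) 1, (∫⁻ x, N.indicator (1 : F → ℝ≥0∞) (x + t • J) ∂ν) =
      ∫⁻ x, (∫⁻ t : ℝ in Icc (0:ℝ) 1, N.indicator (1 : F → ℝ≥0∞) (x + t • J)) ∂ν := by
    rw [lintegral_lintegral_swap]
    exact (hmeas.comp measurable_swap).aemeasurable
  have h3 : ∀ t : ℝ, ∫⁻ x, N.indicator (1 : F → ℝ≥0∞) (x + t • J) ∂ν = ν N := by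
    intro t
    rw [lintegral_add_right_eq_self (μ := ν) (fun x => N.indicator (1 : F → ℝ≥0∞) x) (t • J)]
    rw [lintegral_indicator_one hN]
  have h4 : ∀ x : F, ∫⁻ t in Icc (0:ℝ) 1, N.indicator (1 : F → ℝ≥0∞) (x + t • J) = 0 := by
    intro x
    have h5 : ∫⁻ t : ℝ, N.indicator (1 : F → ℝ≥0∞) (x + t • J) = 0 := by
      have : (fun t : ℝ => N.indicator (1 : F → ℝ≥0∞) (x + t • J)) =
          {t : ℝ | x + t • J ∈ N}.indicator 1 := by
        funext t
        by_cases ht : x + t • J ∈ N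
        · rw [indicator_of_mem ht, indicator_of_mem (show t ∈ {t : ℝ | x + t • J ∈ N} from ht)]
          rfl
        · rw [indicator_of_notMem ht, indicator_of_notMem (show t ∉ {t : ℝ | x + t • J ∈ N} from ht)]
      rw [this, lintegral_indicator_one]
      · exact h x
      · exact (show Measurable fun t : ℝ => x + t • J by fun_prop) hN
    exact le_antisymm ((setLIntegral_le_lintegral _ _).trans h5.le) bot_le
  simp only [h3, h4] at h2
  simpa using h2

/-- the direction `J1` -/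
def r8_J (m n : ℕ) : E m n := ofM (J1 m n)

/-- top block -/
def r8_top {m n : ℕ} (hnm : n ≤ m) (X : E m n) : Matrix (Fin n) (Fin n) ℝ :=
  Matrix.of fun i j => X (Fin.castLE hnm i, j)

theorem r8_top_add {m n : ℕ} (hnm : n ≤ m) (X : E m n) (t : ℝ) :
    r8_top hnm (X + t • r8_J m n) = r8_top hnm X + Matrix.scalar (Fin n) t := by
  ext i j
  simp only [r8_top, r8_J, Matrix.of_apply, PiLp.add_apply, PiLp.smul_apply, ofM_apply, J1,
    Matrix.add_apply, smul_eq_mul, Matrix.scalar_apply, Matrix.diagonal_apply, Fin.val_castLE]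
  by_cases h : i = j
  · rw [if_pos h, if_pos (by rw [h])]; ring
  · rw [if_neg h, if_neg (fun h2 => h (Fin.ext h2))]; ring

theorem r8_finite {n : ℕ} (A : Matrix (Fin n) (Fin n) ℝ) :
    {t : ℝ | (A + Matrix.scalar (Fin n) t).det = 0}.Finite := by
  have h : ∀ t : ℝ, (A + Matrix.scalar (Fin n) t).det = ((-A).charpoly).eval t := by
    intro t
    rw [Matrix.eval_charpoly]
    congr 1
    rw [sub_neg_eq_add, add_comm]
  have h2 : {t : ℝ | (A + Matrix.scalar (Fin n) t).det = 0} ⊆ ((-A).charpoly.roots.toFinset : Set ℝ) := by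
    intro t ht
    simp only [mem_ofPred_eq] at ht
    rw [h t] at ht
    simp only [Finset.mem_coe, Multiset.mem_toFinset]
    rw [Polynomial.mem_roots (Matrix.charpoly_monic _).ne_zero]
    exact ht
  exact (Finset.finite_toSet _).subset h2

theorem r8_cont_top {m n : ℕ} (hnm : n ≤ m) : Continuous (fun X : E m n => (r8_top hnm X).det) := by
  refine Continuous.matrix_det ?_
  refine continuous_matrix fun i j => ?_
  simp only [r8_top, Matrix.of_apply]
  fun_prop

theorem r8_null_top {m n : ℕ} (hnm : n ≤ m) :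
    (volume : Measure (E m n)) {X | (r8_top hnm X).det = 0} = 0 := by
  refine r8_null volume _ ?_ (r8_J m n) ?_
  · exact (isClosed_singleton.preimage (r8_cont_top hnm)).measurableSet
  · intro X
    have : {t : ℝ | X + t • r8_J m n ∈ {X | (r8_top hnm X).det = 0}} =
        {t : ℝ | (r8_top hnm X + Matrix.scalar (Fin n) t).det = 0} := by
      ext t
      simp only [mem_ofPred_eq, r8_top_add]
    rw [this]
    exact (r8_finite _).measure_zero _

/-- quadratic form of the Gram matrix -/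
theorem r8_quad {m n : ℕ} (X : E m n) (v : Fin n → ℝ) :
    v ⬝ᵥ (sM (gram X) *ᵥ v) = (toM X *ᵥ v) ⬝ᵥ (toM X *ᵥ v) := by
  change v ⬝ᵥ (((toM X)ᵀ * toM X) *ᵥ v) = _
  rw [← Matrix.mulVec_mulVec, Matrix.dotProduct_mulVec, Matrix.vecMul_transpose]

theorem r8_pd {m n : ℕ} (hnm : n ≤ m) (X : E m n) (h : (r8_top hnm X).det ≠ 0) :
    gram X ∈ PD n := by
  intro v hv
  rw [r8_quad]
  have h1 : toM X *ᵥ v ≠ 0 := by
    intro h2
    have h3 : r8_top hnm X *ᵥ v = 0 := by
      funext i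
      exact congrFun h2 (Fin.castLE hnm i)
    exact hv (Matrix.eq_zero_of_mulVec_eq_zero h h3)
  have h4 : 0 ≤ (toM X *ᵥ v) ⬝ᵥ (toM X *ᵥ v) := by
    unfold dotProduct
    exact Finset.sum_nonneg fun i _ => mul_self_nonneg _
  have h5 : (toM X *ᵥ v) ⬝ᵥ (toM X *ᵥ v) ≠ 0 := fun h6 => h1 (dotProduct_self_eq_zero.1 h6)
  exact lt_of_le_of_ne h4 (Ne.symm h5)

/-- Frobenius bound for quadratic forms -/
theorem r8_frob {n : ℕ} (H : Sy n) (v : Fin n → ℝ) :
    |v ⬝ᵥ (sM H *ᵥ v)| ≤ ‖H‖ * (v ⬝ᵥ v) := by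
  let w : E n n := WithLp.toLp 2 fun p => v p.1 * v p.2
  have h1 : v ⬝ᵥ (sM H *ᵥ v) = ⟪w, (H : E n n)⟫_ℝ := by
    rw [PiLp.inner_apply, Fintype.sum_prod_type]
    unfold dotProduct mulVec dotProduct
    refine Finset.sum_congr rfl fun i _ => ?_
    rw [Finset.mul_sum]
    refine Finset.sum_congr rfl fun j _ => ?_
    simp only [w, sM, toM_apply, RCLike.inner_apply, conj_trivial]
    ring
  have h2 : ‖w‖ = v ⬝ᵥ v := by
    have h3 : ‖w‖ ^ 2 = (v ⬝ᵥ v) ^ 2 := by
      rw [EuclideanSpace.norm_sq_eq, Fintype.sum_prod_type]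
      unfold dotProduct
      rw [pow_two (∑ i, v i * v i), Finset.sum_mul_sum]
      refine Finset.sum_congr rfl fun i _ => ?_
      refine Finset.sum_congr rfl fun j _ => ?_
      simp only [w, Real.norm_eq_abs, sq_abs]
      ring
    have h4 : 0 ≤ v ⬝ᵥ v := by
      unfold dotProduct
      exact Finset.sum_nonneg fun i _ => mul_self_nonneg _
    exact (pow_left_inj₀ (norm_nonneg _) h4 two_ne_zero).1 h3
  rw [h1]
  refine (abs_real_inner_le_norm _ _).trans ?_
  rw [h2, mul_comm]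
  exact le_of_eq rfl

theorem r8_Kn_closed (n : ℕ) : IsClosed (Kn n) := by
  have : Kn n = ⋂ v : Fin n → ℝ, {G : Sy n | (1 / 2) * (v ⬝ᵥ v) ≤ v ⬝ᵥ (sM G *ᵥ v) ∧
      v ⬝ᵥ (sM G *ᵥ v) ≤ 2 * (v ⬝ᵥ v)} := by
    ext G
    simp only [Kn, mem_iInter, mem_ofPred_eq]
  rw [this]
  refine isClosed_iInter fun v => ?_
  have hc : Continuous fun G : Sy n => v ⬝ᵥ (sM G *ᵥ v) := by
    unfold dotProduct mulVec dotProduct sM
    simp only [toM_apply]
    fun_prop
  exact (isClosed_le continuous_const hc).inter (isClosed_le hc continuous_const)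

theorem r8_PD_open (n : ℕ) : IsOpen (PD n) := by
  rw [Metric.isOpen_iff]
  intro P hP
  set S : Set (Fin n → ℝ) := {v | v ⬝ᵥ v = 1} with hS
  have hSc : IsCompact S := by
    refine Metric.isCompact_of_isClosed_isBounded ?_ ?_
    · refine isClosed_singleton.preimage (f := fun v : Fin n → ℝ => v ⬝ᵥ v) ?_
      unfold dotProduct
      fun_prop
    · rw [Metric.isBounded_iff_subset_closedBall 0]
      refine ⟨1, ?_⟩
      intro v hv
      rw [mem_closedBall_zero_iff, pi_norm_le_iff_of_nonneg zero_le_one]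
      intro i
      have h1 : v i * v i ≤ v ⬝ᵥ v :=
        Finset.single_le_sum (f := fun i => v i * v i) (fun i _ => mul_self_nonneg _)
          (Finset.mem_univ i)
      rw [hv] at h1
      rw [Real.norm_eq_abs]
      nlinarith [abs_mul_abs_self (v i), abs_nonneg (v i)]
  have hcont : Continuous fun v : Fin n → ℝ => v ⬝ᵥ (sM P *ᵥ v) := by
    unfold dotProduct mulVec dotProduct
    fun_prop
  -- reduction to the sphere
  have hred : ∀ (c : ℝ), (∀ v ∈ S, c ≤ v ⬝ᵥ (sM P *ᵥ v)) → ∀ v : Fin n → ℝ,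
      c * (v ⬝ᵥ v) ≤ v ⬝ᵥ (sM P *ᵥ v) := by
    intro c hc v
    by_cases hv : v = 0
    · subst hv; simp
    · have hvv : 0 < v ⬝ᵥ v := by
        have h4 : 0 ≤ v ⬝ᵥ v := by
          unfold dotProduct
          exact Finset.sum_nonneg fun i _ => mul_self_nonneg _
        exact lt_of_le_of_ne h4 (fun h6 => hv (dotProduct_self_eq_zero.1 h6.symm))
      have hs : 0 < Real.sqrt (v ⬝ᵥ v) := Real.sqrt_pos.2 hvv
      have hss : Real.sqrt (v ⬝ᵥ v) * Real.sqrt (v ⬝ᵥ v) = v ⬝ᵥ v := Real.mul_self_sqrt hvv.le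
      set s := Real.sqrt (v ⬝ᵥ v) with hsdef
      have hu : (s⁻¹ • v) ∈ S := by
        rw [hS, mem_ofPred_eq, smul_dotProduct, dotProduct_smul, smul_eq_mul, smul_eq_mul, ← hss]
        field_simp
      have h5 := hc _ hu
      rw [Matrix.mulVec_smul, smul_dotProduct, dotProduct_smul, smul_eq_mul, smul_eq_mul] at h5
      have h6 : c * (s * s) ≤ (s * s) * (s⁻¹ * (s⁻¹ * (v ⬝ᵥ (sM P *ᵥ v)))) := by
        rw [mul_comm c]
        exact mul_le_mul_of_nonneg_left h5 (by positivity)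
      have h7 : (s * s) * (s⁻¹ * (s⁻¹ * (v ⬝ᵥ (sM P *ᵥ v)))) = v ⬝ᵥ (sM P *ᵥ v) := by
        field_simp
      rw [h7, hss] at h6
      exact h6
  have hex : ∃ c : ℝ, 0 < c ∧ ∀ v ∈ S, c ≤ v ⬝ᵥ (sM P *ᵥ v) := by
    rcases S.eq_empty_or_nonempty with he | hne
    · refine ⟨1, one_pos, fun v hv => ?_⟩
      rw [he] at hv
      exact absurd hv (notMem_empty v)
    · obtain ⟨u, hu, hmin⟩ := hSc.exists_isMinOn hne hcont.continuousOn
      refine ⟨u ⬝ᵥ (sM P *ᵥ u), hP u ?_, fun v hv => hmin hv⟩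
      rintro rfl
      rw [hS, mem_ofPred_eq, dotProduct_zero] at hu
      exact zero_ne_one hu
  obtain ⟨c, hc0, hc⟩ := hex
  refine ⟨c, hc0, ?_⟩
  intro Q hQ v hv
  rw [Metric.mem_ball, dist_eq_norm] at hQ
  have h1 := r8_frob (Q - P) v
  have h2 : sM (Q - P) = sM Q - sM P := rfl
  rw [h2, Matrix.sub_mulVec, dotProduct_sub] at h1
  have h3 := hred c hc v
  have hvv : 0 < v ⬝ᵥ v := by
    have h4 : 0 ≤ v ⬝ᵥ v := by
      unfold dotProduct
      exact Finset.sum_nonneg fun i _ => mul_self_nonneg _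
    exact lt_of_le_of_ne h4 (fun h6 => hv (dotProduct_self_eq_zero.1 h6.symm))
  have h5 := (abs_le.1 h1).1
  have h6 : ‖Q - P‖ * (v ⬝ᵥ v) < c * (v ⬝ᵥ v) := mul_lt_mul_of_pos_right hQ hvv
  linarith

theorem r8_cont_gram (m n : ℕ) : Continuous (fun X : E m n => gram X) := by
  refine Continuous.subtype_mk ?_ _
  refine (PiLp.continuous_toLp 2 _).comp (continuous_pi fun p => ?_)
  simp only [Matrix.mul_apply, Matrix.transpose_apply, toM_apply]
  fun_prop

theorem r8_gram_rm {m n : ℕ} (X : E m n) (A : Matrix (Fin n) (Fin n) ℝ) :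
    gram (rm X A) = cong A (gram X) := by
  apply Subtype.ext
  ext p
  change ((toM X * A)ᵀ * (toM X * A)) p.1 p.2 = (Aᵀ * ((toM X)ᵀ * toM X) * A) p.1 p.2
  rw [Matrix.transpose_mul]
  simp only [Matrix.mul_assoc]

theorem r8_ae {m n : ℕ} (hnm : n ≤ m) : ∀ᵐ X : E m n, gram X ∈ PD n := by
  rw [ae_iff]
  refine measure_mono_null ?_ (r8_null_top hnm)
  intro X hX
  simp only [mem_ofPred_eq] at hX ⊢
  by_contra h
  exact hX (r8_pd hnm X h)

end Pool.Agent.H212R2.KLS
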