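import Pool.Agent.H212R2.KLS.Defs

/-!
# KLS for `O(m)`-invariant log-concave measures: all statements (blueprint)
-/

set_option autoImplicit false

namespace Pool.Agent.H212R2.KLS.Stubs

open MeasureTheory Set Matrix Pool.Agent.H212R2.KLS
open scoped ENNReal InnerProductSpace

/-! ## T1: Prekopa-Leindler -/

theorem PL {F : Type*} [NormedAddCommGroup F] [NormedSpace ℝ F] [FiniteDimensional ℝ F]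
    [MeasurableSpace F] [BorelSpace F] (ν : Measure F) [ν.IsAddHaarMeasure] (t : ℝ)
    (ht0 : 0 < t) (ht1 : t < 1) (f g h : F → ℝ≥0∞) (hf : Measurable f) (hg : Measurable g)
    (hh : Measurable h) (H : ∀ x y, f x ^ (1 - t) * g y ^ t ≤ h ((1 - t) • x + t • y)) :
    (∫⁻ x, f x ∂ν) ^ (1 - t) * (∫⁻ x, g x ∂ν) ^ t ≤ ∫⁻ x, h x ∂ν := sorry

/-! ## A: angular part -/

-- A1
theorem DD_anti {m n : ℕ} (a b : Fin m) (p : MvPolynomial (Fin m × Fin n) ℝ) :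
    DD b a p = - DD a b p := sorry

theorem DD_comm {m n : ℕ} (a b c d : Fin m) (p : MvPolynomial (Fin m × Fin n) ℝ) :
    DD a b (DD c d p) - DD c d (DD a b p) =
      (if a = d then DD c b p else 0) + (if b = d then DD a c p else 0) +
      (if a = c then DD b d p else 0) + (if b = c then DD d a p else 0) := sorry

theorem DD_deg {m n : ℕ} (a b : Fin m) (p : MvPolynomial (Fin m × Fin n) ℝ) :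
    (DD a b p).totalDegree ≤ p.totalDegree := sorry

theorem DD_gr {m n : ℕ} (a b : Fin m) (p q : MvPolynomial (Fin m × Fin n) ℝ) :
    DD a b (gr p q) = gr (DD a b p) q + gr p (DD a b q) := sorry

-- A2
theorem DD_integral {m n : ℕ} (μ : Measure (E m n)) [IsFiniteMeasure μ]
    (hinv : ∀ g ∈ Matrix.orthogonalGroup (Fin m) ℝ, μ.map (lm g) = μ)
    (hb : ∃ R, μ (Metric.closedBall 0 R)ᶜ = 0) (a b : Fin m)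
    (p : MvPolynomial (Fin m × Fin n) ℝ) : ∫ x, ev (DD a b p) x ∂μ = 0 := sorry

-- A3 (linear algebra)
theorem duality {W : Type*} [AddCommGroup W] [Module ℝ W] [FiniteDimensional ℝ W]
    {ι : Type*} [Fintype ι] (b : W →ₗ[ℝ] W →ₗ[ℝ] ℝ) (hsymm : ∀ x y, b x y = b y x)
    (hpos : ∀ x, x ≠ 0 → 0 < b x x) (D : ι → W →ₗ[ℝ] W)
    (hskew : ∀ i x y, b (D i x) y = - b x (D i y)) (l : ℝ) (hl : 0 < l)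
    (hgap : ∀ x, l * ∑ i, b (D i x) (D i x) ≤
      b (∑ i, D i (D i x)) (∑ i, D i (D i x))) (x : W) :
    ∃ x0 : W, (∀ i, D i x0 = 0) ∧ (∃ z, x - x0 = ∑ i, D i (D i z)) ∧
      l * b (x - x0) (x - x0) ≤ ∑ i, b (D i x) (D i x) := sorry

-- A4 (the Bochner gap, algebra)
theorem gap {W : Type*} [AddCommGroup W] [Module ℝ W] {m : ℕ}
    (b : W →ₗ[ℝ] W →ₗ[ℝ] ℝ) (hsymm : ∀ x y, b x y = b y x) (hpos : ∀ x, 0 ≤ b x x)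
    (D : Fin m × Fin m → W →ₗ[ℝ] W) (hskew : ∀ i x y, b (D i x) y = - b x (D i y))
    (hanti : ∀ i j x, D (j, i) x = - D (i, j) x)
    (hcomm : ∀ a b' c d x, D (a, b') (D (c, d) x) - D (c, d) (D (a, b') x) =
      (if a = d then D (c, b') x else 0) + (if b' = d then D (a, c) x else 0) +
      (if a = c then D (b', d) x else 0) + (if b' = c then D (d, a) x else 0)) (x : W) :
    ((m : ℝ) - 2) * ∑ i, b (D i x) (D i x) ≤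
      b (∑ i, D i (D i x)) (∑ i, D i (D i x)) := sorry

-- A5
theorem ev_pos {m n : ℕ} (ρ : E m n → ℝ) (hρ : Dens m n ρ) (hb : Bdd ρ) (h0 : mu ρ ≠ 0)
    (p : MvPolynomial (Fin m × Fin n) ℝ) (hp : ∫ x, (ev p x) ^ 2 ∂(mu ρ) = 0) : p = 0 := sorry

-- A6 (assembly of A1-A5)
theorem angular {m n : ℕ} (hm : 3 ≤ m) (μ : Measure (E m n)) [IsFiniteMeasure μ]
    (hinv : ∀ g ∈ Matrix.orthogonalGroup (Fin m) ℝ, μ.map (lm g) = μ)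
    (hb : ∃ R, μ (Metric.closedBall 0 R)ᶜ = 0)
    (hpos : ∀ p : MvPolynomial (Fin m × Fin n) ℝ, ∫ x, (ev p x) ^ 2 ∂μ = 0 → p = 0)
    (p : MvPolynomial (Fin m × Fin n) ℝ) :
    ∃ p0 : MvPolynomial (Fin m × Fin n) ℝ, (∀ a b, DD a b p0 = 0) ∧
      ∫ x, (ev p x - ev p0 x) ∂μ = 0 ∧ ∫ x, ev p0 x * (ev p x - ev p0 x) ∂μ = 0 ∧
      ((m : ℝ) - 2) * ∫ x, (ev p x - ev p0 x) ^ 2 ∂μ ≤
        ∑ a, ∑ b, ∫ x, (ev (DD a b p) x) ^ 2 ∂μ ∧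
      ∫ x, ev (gr p0 p0) x ∂μ ≤ ∫ x, ev (gr p p) x ∂μ := sorry

-- A7
theorem inv_of_DD {m n : ℕ} (p : MvPolynomial (Fin m × Fin n) ℝ) (h : ∀ a b, DD a b p = 0) :
    ∀ g ∈ Matrix.orthogonalGroup (Fin m) ℝ, g.det = 1 → ∀ x : E m n, ev p (lm g x) = ev p x :=
  sorry

-- A8
theorem ev_contDiff {ι : Type*} [Fintype ι] (p : MvPolynomial ι ℝ) (k : ℕ∞) :
    ContDiff ℝ k (ev p) := sorry

theorem ev_gr {ι : Type*} [Fintype ι] (p : MvPolynomial ι ℝ) (x : EuclideanSpace ℝ ι) :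
    ev (gr p p) x = ‖fderiv ℝ (ev p) x‖ ^ 2 := sorry

theorem DD_bound {m n : ℕ} (p : MvPolynomial (Fin m × Fin n) ℝ) (x : E m n) (r : ℝ)
    (hr : 0 ≤ r) (hx : OpLe r x) :
    ∑ a : Fin m, ∑ b, (ev (DD a b p) x) ^ 2 ≤ 4 * r ^ 2 * ‖fderiv ℝ (ev p) x‖ ^ 2 := sorry

/-! ## R: radial part -/

-- R1
theorem det_mid {W : Type*} [NormedAddCommGroup W] [InnerProductSpace ℝ W]
    [FiniteDimensional ℝ W] (A B : W →ₗ[ℝ] W) (hA : A.IsSymmetric) (hB : B.IsSymmetric)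
    (hA0 : ∀ x, 0 ≤ ⟪A x, x⟫_ℝ) (hB0 : ∀ x, 0 ≤ ⟪B x, x⟫_ℝ) (R : ℝ) (hR : 0 < R)
    (hAR : ∀ x, ⟪A x, x⟫_ℝ ≤ R * ‖x‖ ^ 2) (hBR : ∀ x, ⟪B x, x⟫_ℝ ≤ R * ‖x‖ ^ 2) :
    LinearMap.det A * LinearMap.det B ≤ (LinearMap.det ((1 / 2 : ℝ) • (A + B))) ^ 2 *
      Real.exp (-(LinearMap.trace ℝ W ((A - B) ∘ₗ (A - B)) / (4 * R ^ 2))) := sorry

-- R2
theorem KS_symm {n : ℕ} (P : Sy n) : (KS P).IsSymmetric := sorry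

theorem KS_pos {n : ℕ} (P : Sy n) (hP : P ∈ PD n) (S : Sk n) (hS : S ≠ 0) :
    0 < ⟪KS P S, S⟫_ℝ := sorry

theorem KS_le {n : ℕ} (P : Sy n) (r : ℝ) (hP : OpLe r (P : E n n)) (S : Sk n) :
    ⟪KS P S, S⟫_ℝ ≤ 2 * r * ‖S‖ ^ 2 := sorry

theorem KS_trace {n : ℕ} (H : Sy n) :
    ((n : ℝ) - 2) * ‖H‖ ^ 2 ≤ LinearMap.trace ℝ (Sk n) (KS H ∘ₗ KS H) := sorry

theorem KS_det_pos {n : ℕ} (P : Sy n) (hP : P ∈ PD n) : 0 < LinearMap.det (KS P) := sorry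

-- R2b
theorem det_KK {n : ℕ} (P : Sy n) :
    LinearMap.det (KK P) = 2 ^ n * (sM P).det * LinearMap.det (KS P) := sorry

-- R3
theorem jac_mid {m n : ℕ} (hnm : n ≤ m) (r : ℝ) (hr : 0 < r) (P Q : Sy n) (hP : P ∈ PD n)
    (hQ : Q ∈ PD n) (hPr : OpLe r (P : E n n)) (hQr : OpLe r (Q : E n n)) :
    jac m n P * jac m n Q ≤ (jac m n ((1 / 2 : ℝ) • (P + Q))) ^ 2 *
      Real.exp (-(((m : ℝ) - 2) / (16 * r ^ 2) * ‖P - Q‖ ^ 2)) := sorry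

-- R4
theorem poincare_of_strong {F : Type*} [NormedAddCommGroup F] [InnerProductSpace ℝ F]
    [FiniteDimensional ℝ F] [MeasurableSpace F] [BorelSpace F] (ν : Measure F)
    [ν.IsAddHaarMeasure] (w : F → ℝ) (hw : ∀ x, 0 ≤ w x) (hwm : Measurable w)
    (hwb : ∃ B, ∀ x, w x ≤ B) (hws : Bdd w) (κ : ℝ) (hκ : 0 < κ)
    (hmid : ∀ x y, w x * w y ≤ (w ((1 / 2 : ℝ) • (x + y))) ^ 2 *
      Real.exp (-(κ / 4 * ‖x - y‖ ^ 2)))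
    (f : F → ℝ) (hf : ContDiff ℝ 1 f) :
    ∃ c : ℝ, ∫ x, (f x - c) ^ 2 * w x ∂ν ≤ κ⁻¹ * ∫ x, ‖fderiv ℝ f x‖ ^ 2 * w x ∂ν := sorry

-- R5 (volume scaling)
theorem lintegral_rm {m n : ℕ} (A : Matrix (Fin n) (Fin n) ℝ) (hA : A.det ≠ 0)
    (F : E m n → ℝ≥0∞) :
    ∫⁻ X : E m n, F (rm X A) = (ENNReal.ofReal (|A.det| ^ m))⁻¹ * ∫⁻ X : E m n, F X := sorry

theorem lintegral_lm {m n : ℕ} (A : Matrix (Fin m) (Fin m) ℝ) (hA : A.det ≠ 0)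
    (F : E m n → ℝ≥0∞) :
    ∫⁻ X : E m n, F (lm A X) = (ENNReal.ofReal (|A.det| ^ n))⁻¹ * ∫⁻ X : E m n, F X := sorry

-- R6
theorem det_cong {n : ℕ} (A : Matrix (Fin n) (Fin n) ℝ) :
    LinearMap.det (cong A) = A.det ^ (n + 1) := sorry

-- R7 (uniqueness of the quasi-invariant measure)
theorem uniq {m n : ℕ} (hnm : n ≤ m) (σ : Measure (Sy n)) [SFinite σ] (hσ : σ (PD n)ᶜ = 0)
    (hq : ∀ A : Matrix (Fin n) (Fin n) ℝ, A.det ≠ 0 → ∀ φ : Sy n → ℝ≥0∞, Measurable φ →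
      ∫⁻ G, φ (cong A G) ∂σ = (ENNReal.ofReal (|A.det| ^ m))⁻¹ * ∫⁻ G, φ G ∂σ)
    (h0 : σ (Kn n) ≠ 0) (h1 : σ (Kn n) ≠ ⊤) :
    ∃ c : ℝ≥0∞, c ≠ 0 ∧ c ≠ ⊤ ∧ ∀ φ : Sy n → ℝ≥0∞, Measurable φ → ∫⁻ G, φ G ∂σ = c * Th m n φ :=
  sorry

-- R8
theorem gram_formula {m n : ℕ} (hnm : n ≤ m) :
    (∀ᵐ X : E m n, gram X ∈ PD n) ∧
    ∃ c : ℝ≥0∞, c ≠ 0 ∧ c ≠ ⊤ ∧ ∀ φ : Sy n → ℝ≥0∞, Measurable φ →
      ∫⁻ X : E m n, φ (gram X) = c * Th m n φ := sorry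

-- R9
theorem pd_formula {m n : ℕ} (hnm : n ≤ m) :
    ∃ c : ℝ≥0∞, c ≠ 0 ∧ c ≠ ⊤ ∧ ∀ φ : Sy n → ℝ≥0∞, Measurable φ →
      ∫⁻ G in PD n, φ G * ENNReal.ofReal ((sM G).det ^ (((m : ℝ) - n - 1) / 2)) ∂(nu n) =
        c * Th m n φ := sorry

-- R10
theorem sq_formula {n : ℕ} (φ : Sy n → ℝ≥0∞) (hφ : Measurable φ) :
    ∫⁻ G in PD n, φ G ∂(nu n) =
      ∫⁻ P in PD n, φ (sq P) * ENNReal.ofReal (LinearMap.det (KK P)) ∂(nu n) := sorry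

-- R11
theorem polar {m n : ℕ} (hnm : n ≤ m) (X : E m n) (hX : gram X ∈ PD n) :
    ∃ P ∈ PD n, sq P = gram X ∧ ∃ g ∈ Matrix.orthogonalGroup (Fin m) ℝ, lm g X = io P := sorry

-- R12
theorem radial_formula {m n : ℕ} (hn : 1 ≤ n) (hnm : n ≤ m) :
    ∃ c : ℝ≥0∞, c ≠ 0 ∧ c ≠ ⊤ ∧ ∀ F : E m n → ℝ≥0∞, Measurable F →
      (∀ g ∈ Matrix.orthogonalGroup (Fin m) ℝ, ∀ x, F (lm g x) = F x) →
      ∫⁻ X, F X = c * ∫⁻ P in PD n, F (io P) * ENNReal.ofReal (jac m n P) ∂(nu n) := sorry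

-- R13
theorem radial {m n : ℕ} (hm : 3 ≤ m) (hn : 1 ≤ n) (hnm : n ≤ m) (ρ : E m n → ℝ) (hρ : Dens m n ρ) (r : ℝ) (hr : 0 < r)
    (hs : ∀ x, ¬ OpLe r x → ρ x = 0) (f : E m n → ℝ) (hf : ContDiff ℝ 1 f)
    (hinv : ∀ g ∈ Matrix.orthogonalGroup (Fin m) ℝ, ∀ x, f (lm g x) = f x) :
    ∃ c : ℝ, ∫ x, (f x - c) ^ 2 ∂(mu ρ) ≤
      4 * r ^ 2 / ((m : ℝ) - 2) * ∫ x, ‖fderiv ℝ f x‖ ^ 2 ∂(mu ρ) := sorry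

/-! ## H: odd functions (only needed for `n = m`) -/

-- H1
theorem hardy_line {k : ℕ} (u : V k) (hu : ‖u‖ = 1) (r : ℝ) (hr : 0 < r) (w : V k → ℝ)
    (hw0 : ∀ x, 0 ≤ w x) (hwm : Measurable w) (hwb : ∃ B, ∀ x, w x ≤ B)
    (hws : ∀ x, r < ‖x‖ → w x = 0)
    (hmono : ∀ z : V k, ⟪z, u⟫_ℝ = 0 → ∀ s t : ℝ, 0 ≤ s → s ≤ t → w (z + t • u) ≤ w (z + s • u))
    (heven : ∀ x : V k, w (x - (2 * ⟪x, u⟫_ℝ) • u) = w x)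
    (f : V k → ℝ) (hf : ContDiff ℝ 1 f)
    (hodd : ∀ x : V k, f (x - (2 * ⟪x, u⟫_ℝ) • u) = - f x) :
    ∫ x, f x ^ 2 * w x ≤ r ^ 2 / 2 * ∫ x, (fderiv ℝ f x u) ^ 2 * w x := sorry

-- H2
theorem hardy_odd {m n : ℕ} (hn : 1 ≤ n) (hnm : n ≤ m) (ρ : E m n → ℝ) (hρ : Dens m n ρ)
    (r : ℝ) (hr : 0 < r) (hs : ∀ x, ¬ OpLe r x → ρ x = 0) (f : E m n → ℝ)
    (hf : ContDiff ℝ 1 f)
    (hodd : ∀ g ∈ Matrix.orthogonalGroup (Fin m) ℝ, ∀ x, f (lm g x) = g.det * f x) :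
    ∫ x, f x ^ 2 ∂(mu ρ) ≤ r ^ 2 / (2 * m) * ∫ x, ‖fderiv ℝ f x‖ ^ 2 ∂(mu ρ) := sorry

/-! ## L: local Poincare inequality -/

-- L1
theorem poly_approx {ι : Type*} [Fintype ι] (f : EuclideanSpace ℝ ι → ℝ) (hf : ContDiff ℝ 1 f)
    (R ε : ℝ) (hε : 0 < ε) : ∃ p : MvPolynomial ι ℝ, ∀ x, ‖x‖ ≤ R →
      |ev p x - f x| ≤ ε ∧ ‖fderiv ℝ (ev p) x - fderiv ℝ f x‖ ≤ ε := sorry

-- L2
theorem Dens.basic {m n : ℕ} {ρ : E m n → ℝ} (hρ : Dens m n ρ) (hm : 1 ≤ m) :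
    (∀ x, ρ x ≤ ρ 0) ∧ (∀ g ∈ Matrix.orthogonalGroup (Fin m) ℝ, (mu ρ).map (lm g) = mu ρ) ∧
    (Bdd ρ → IsFiniteMeasure (mu ρ)) ∧ (∀ r, Dens m n ({x | OpLe r x}.indicator ρ)) ∧
    (∀ r, Dens m n ({x | ‖x‖ ≤ r}.indicator ρ)) := sorry

-- L3
theorem local_poincare {m n : ℕ} (hm : 3 ≤ m) (hn : 1 ≤ n) (hnm : n ≤ m) (ρ : E m n → ℝ)
    (hρ : Dens m n ρ) (r : ℝ) (hr : 0 < r) (hs : ∀ x, ¬ OpLe r x → ρ x = 0)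
    (f : E m n → ℝ) (hf : ContDiff ℝ 1 f) :
    ∃ c : ℝ, ∫ x, (f x - c) ^ 2 ∂(mu ρ) ≤
      24 * r ^ 2 / m * ∫ x, ‖fderiv ℝ f x‖ ^ 2 ∂(mu ρ) := sorry

/-! ## T: tails -/

-- T2
theorem mv_tail {m n : ℕ} (hm : 1 ≤ m) (ρ : E m n → ℝ) (hρ : Dens m n ρ) (hb : Bdd ρ)
    (h1 : mu ρ univ = 1) (s : ℝ) (hs : 0 < s)
    (hmom : ∀ θ : E m n, ∫ x, ⟪θ, x⟫_ℝ ^ 2 ∂(mu ρ) ≤ s * ‖θ‖ ^ 2) (v : V n) (hv : ‖v‖ ≤ 1)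
    (r : ℝ) :
    mu ρ {X | r ≤ ‖mv X v‖} ≤
      ENNReal.ofReal (Real.exp (m * (5 / 2 - r / (20 * Real.sqrt (m * s))))) := sorry

-- T3
theorem op_tail {m n : ℕ} (hm : 1 ≤ m) (hn : 1 ≤ n) (hnm : n ≤ m) (ρ : E m n → ℝ)
    (hρ : Dens m n ρ)
    (h1 : mu ρ univ = 1) (s : ℝ) (hs : 0 < s)
    (hv : ∀ v : V n, ‖v‖ ≤ 1 → ∀ r : ℝ, mu ρ {X | r ≤ ‖mv X v‖} ≤
      ENNReal.ofReal (Real.exp (m * (5 / 2 - r / (20 * Real.sqrt (m * s)))))) (t : ℝ) :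
    mu ρ {X | ¬ OpLe (20 * t * Real.sqrt (m * s)) X} ≤
      ENNReal.ofReal (Real.exp (m * (4 - t / 2))) := sorry

/-! ## S: functions with small support -/

-- S1
theorem small_l1 {F : Type*} [NormedAddCommGroup F] [InnerProductSpace ℝ F]
    [FiniteDimensional ℝ F] [MeasurableSpace F] [BorelSpace F] (ν : Measure F)
    [ν.IsAddHaarMeasure] (ρ : F → ℝ) (hρ0 : ∀ x, 0 ≤ ρ x) (hρm : Measurable ρ)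
    (hlc : ∀ x y : F, ∀ t : ℝ, 0 < t → t < 1 →
      ρ x ^ (1 - t) * ρ y ^ t ≤ ρ ((1 - t) • x + t • y)) (hb : Bdd ρ)
    (μ : Measure F) (hμ : μ = ν.withDensity fun x => ENNReal.ofReal (ρ x)) (h1 : μ univ = 1)
    (f : F → ℝ) (hf : ContDiff ℝ 1 f) (hf0 : ∀ x, 0 ≤ f x) (hf1 : ∀ x, f x ≤ 1)
    (hfs : μ {x | f x ≠ 0} ≠ 0) (r : ℝ) (hr : 0 < r) (hBr : μ (Metric.closedBall 0 r) ≠ 0) :
    Real.log (1 / (μ {x | f x ≠ 0}).toReal) * ∫ x, f x ∂μ +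
      Real.log (μ (Metric.closedBall 0 r)).toReal ≤ 2 * r * ∫ x, ‖fderiv ℝ f x‖ ∂μ := sorry

-- S2
theorem small_l2 : ∃ C₀ : ℝ, 0 < C₀ ∧ ∀ {F : Type} [NormedAddCommGroup F]
    [InnerProductSpace ℝ F] [FiniteDimensional ℝ F] [MeasurableSpace F] [BorelSpace F]
    (μ : Measure F) (_ : μ univ = 1) (_ : ∃ R, μ (Metric.closedBall 0 R)ᶜ = 0)
    (_ : ∀ f : F → ℝ, ContDiff ℝ 1 f → (∀ x, 0 ≤ f x) → (∀ x, f x ≤ 1) →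
      μ {x | f x ≠ 0} ≠ 0 → ∀ r : ℝ, 0 < r → μ (Metric.closedBall 0 r) ≠ 0 →
      Real.log (1 / (μ {x | f x ≠ 0}).toReal) * ∫ x, f x ∂μ +
      Real.log (μ (Metric.closedBall 0 r)).toReal ≤ 2 * r * ∫ x, ‖fderiv ℝ f x‖ ∂μ)
    (L a : ℝ) (_ : 0 < L) (_ : 3 ≤ a)
    (_ : ∀ r : ℝ, 2 * L * a ≤ r → μ (Metric.closedBall 0 r)ᶜ ≤
      ENNReal.ofReal (Real.exp (-(r / L))))
    (g : F → ℝ) (_ : ContDiff ℝ 1 g) (_ : μ {x | g x ≠ 0} ≤ ENNReal.ofReal (Real.exp (-a))),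
    ∫ x, g x ^ 2 ∂μ ≤ (C₀ * L) ^ 2 * ∫ x, ‖fderiv ℝ g x‖ ^ 2 ∂μ := sorry

/-! ## G: gluing -/

-- G1
theorem core : ∃ C : ℝ, 0 < C ∧ ∀ {m n : ℕ}, 3 ≤ m → 1 ≤ n → n ≤ m → ∀ ρ : E m n → ℝ,
    Dens m n ρ → Bdd ρ → mu ρ univ = 1 → ∀ s : ℝ, 0 < s →
    (∀ θ : E m n, ∫ x, ⟪θ, x⟫_ℝ ^ 2 ∂(mu ρ) ≤ s * ‖θ‖ ^ 2) →
    ∀ f : E m n → ℝ, ContDiff ℝ 1 f →
    ∫ x, f x ^ 2 ∂(mu ρ) - (∫ x, f x ∂(mu ρ)) ^ 2 ≤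
      C * s * ∫ x, ‖fderiv ℝ f x‖ ^ 2 ∂(mu ρ) := sorry

-- G2
theorem main : ∃ C : ℝ, 0 < C ∧ ∀ {m n : ℕ}, 3 ≤ m → n ≤ m → ∀ ρ : E m n → ℝ,
    Dens m n ρ → mu ρ univ = 1 → ∀ s : ℝ, 0 < s →
    (∀ θ : E m n, ∫⁻ x, ENNReal.ofReal (⟪θ, x⟫_ℝ ^ 2) ∂(mu ρ) ≤
      ENNReal.ofReal (s * ‖θ‖ ^ 2)) →
    ∀ f : E m n → ℝ, ContDiff ℝ 1 f → MemLp f 2 (mu ρ) →
    ENNReal.ofReal (∫ x, (f x - ∫ y, f y ∂(mu ρ)) ^ 2 ∂(mu ρ)) ≤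
      ENNReal.ofReal (C * s) * ∫⁻ x, ENNReal.ofReal (‖fderiv ℝ f x‖ ^ 2) ∂(mu ρ) := sorry

end Pool.Agent.H212R2.KLS.Stubs
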